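import Pool.Agent.H82.CRC.Cms

/-!
# The closed slope for `2 < Sl 2 < Sl 3`

`con_sup`: the supply `SupF` of the closed slope for the kind `.stp` of the place 2 and slopes
`Sl 2 < Sl 3`. `con_cbF`: so the first jet of the place 2, or no drop, for nonresonant slopes.
-/

set_option autoImplicit false

namespace Pool.CRC82

open Pool.GEN Pool.PKG Pool.CNC76 Pool.ASM Pool.CR99

/-- **The supply of the closed slope** for slopes `2 < Sl 2 < Sl 3`. -/
theorem con_sup : SupF .stp (fun Sl => Sl 2 < Sl 3) (fun Sl => (rN Sl : ℝ)) :=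
  ⟨ℚ × ℕ × ℚ, inferInstance, AffQ 2, aePG_aff 2 4, her_aff 2 4, fun _ _ _ _ hS hΦ =>
    ⟨Nat.cast_nonneg _, con_bl (hS.stp rfl) hΦ ⟨(⟨1, one_pos⟩, 0)⟩ _⟩⟩

/-- **The first jet of the place 2**, or no drop, for nonresonant slopes `2 < Sl 2 < Sl 3`. -/
theorem con_cbF : CbF .stp (fun Sl => Sl 2 ≤ Sl 3 ∧ NoRes (Sl 2) (Sl 3) ∧ Sl 2 < Sl 3) :=
  cbF_sup (Or.inl rfl) con_sup

end Pool.CRC82
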