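import Pool.Agent.H28.CNC.Nph
import Pool.Agent.H57.AVG.Hi
import Pool.Agent.H74.STAT.NGrad
import Pool.Agent.H95.GN.Lag

/-!
# The slope of `N` on own paths of nested windows

`grd_top`: the derivative in the top direction of a polynomial which is small on a natural box.
`VarB`: the variation of a polynomial on the own path and its translates in the direction `u = c 2`.
`var_sub`: the variation on a smaller window.
-/

set_option autoImplicit false

namespace Pool.CRC82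

open Finset Real MvPolynomial
open Pool.Agent.H49.Ent Pool.Agent.H32.Dense Pool.STK Pool.KA Pool.KSAT Pool.K2S Pool.PB Pool.S6C
open Pool.GEN Pool.CHT Pool.CHX Pool.ISO Pool.D2R Pool.V1E
open Pool.STAT.NL (hasDerivAt_upd)
open Pool.AVG57 (nbx_lipd)
open Pool.PB.Trl (rt rt_mem t_rt)
open Pool.CNC28 (ptw_at)

/-- **The derivative in the top direction** of a polynomial which is small on a natural box. -/
theorem grd_top (r : ℕ) (K : ℕ → ℕ) : ∃ c₀ D₁ : ℕ, 1 ≤ D₁ ∧ ∀ {m : ℕ} {c : ℕ → Fin m} {i : ℕ}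
    {G : ℕ → MvPolynomial (Option (Fin m)) ℝ} {Q : MvPolynomial (Option (Fin m)) ℝ}
    {g : ℕ → ℕ} {a : ℕ} {t M : ℝ} (n : ℕ), i + 1 < r → Set.InjOn c (Set.Iio (i + 1)) →
    (∀ l, (G l).totalDegree ≤ K l) → (∀ l, DepC c l (G l)) → DepC c (i + 1) Q →
    Q.totalDegree ≤ K (i + 1) → 0 ≤ M → (∀ b, NBx c G g a t (i + 1) b → |eval b Q| ≤ M) →
    ∀ x : Option (Fin m) → ℝ, |x none - t| ≤ 1 / 2 ^ a →
      (∀ l < i + 1, |x (some (c l)) - eval x (G l)| ≤ 2 ^ n / 2 ^ g l) →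
      |eval x (pderiv (some (c i)) Q)| ≤ 2 ^ (c₀ + n * D₁) * M * 2 ^ g i := by
  classical
  obtain ⟨c₀, D₁, hD₁, hlip⟩ := nbx_lipd r K
  refine ⟨c₀, D₁, hD₁, ?_⟩
  intro m c i G Q g a t M n hi hc hdeg hdep hQ hQd hM hbox x hx0 hx
  obtain ⟨s₀, hs₀⟩ : ∃ s₀, s₀ = x (some (c i)) := ⟨_, rfl⟩
  have hxs : Function.update x (some (c i)) s₀ = x := by
    rw [hs₀]
    exact Function.update_eq_self _ _
  have hd := hasDerivAt_upd Q x (some (c i)) s₀
  rw [hxs] at hd
  obtain ⟨A, hA⟩ : ∃ A : ℝ, A = 2 ^ g i / 2 ^ n := ⟨_, rfl⟩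
  have hA0 : 0 < A := by rw [hA]; positivity
  have hsm : ∀ᶠ s in nhds s₀, A * |s - s₀| ≤ 1 := by
    have h1 : Filter.Tendsto (fun s : ℝ => A * |s - s₀|) (nhds s₀) (nhds (A * |s₀ - s₀|)) := by
      exact (Continuous.tendsto (by fun_prop) s₀)
    rw [sub_self, abs_zero, mul_zero] at h1
    filter_upwards [h1.eventually (gt_mem_nhds one_pos)] with s hs
    exact hs.le
  have key := hd.le_of_lip' (C := 2 ^ (c₀ + n * D₁) * M * A) (by positivity) (by
    filter_upwards [hsm] with s h2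
    rw [Real.norm_eq_abs, Real.norm_eq_abs, hxs]
    rcases eq_or_ne s s₀ with h3 | h3
    · rw [h3, hxs, sub_self, abs_zero, sub_self, abs_zero, mul_zero]
    have h4 : 0 < |s - s₀| := abs_pos.2 (sub_ne_zero.2 h3)
    have h9 : ∀ j ≤ i, eval (Function.update x (some (c i)) s) (G j) = eval x (G j) := by
      intro j hj
      refine hdep j _ _ (by rw [Function.update_of_ne (by simp)]) fun k hk => ?_
      have : c k ≠ c i := fun h => by
        have := hc (show k < i + 1 by omega) (show i < i + 1 by omega) h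
        omega
      rw [Function.update_of_ne fun h => this (Option.some_injective _ h)]
    have h5 := hlip (G := G) (Q := Q) (g := g) (a := a) (t := t) (M := M) (ρ := A * |s - s₀|) n hi
      hc hdeg hdep hQ hQd hM (by positivity) h2 hbox x (Function.update x (some (c i)) s)
      (by rw [Function.update_of_ne (by simp)]) hx0 hx (fun j hj => ?_)
    · refine h5.trans (le_of_eq ?_)
      ring
    · rw [h9 j (by omega)]
      rcases Nat.lt_or_ge j i with h6 | h6
      · have h7 : c j ≠ c i := fun h => by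
          have := hc (show j < i + 1 by omega) (show i < i + 1 by omega) h
          omega
        have h8 : some (c j) ≠ some (c i) := fun h => h7 (Option.some_injective _ h)
        rw [Function.update_of_ne h8, sub_self, abs_zero]
        positivity
      · have h7 : j = i := by omega
        subst h7
        rw [Function.update_self]
        have e1 : s - eval x (G j) - (x (some (c j)) - eval x (G j)) = s - s₀ := by
          rw [hs₀]
          ring
        rw [e1, hA]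
        have e2 : 2 ^ g j / 2 ^ n * |s - s₀| * (2 ^ n / 2 ^ g j) = |s - s₀| := by
          field_simp
        rw [e2])
  rw [Real.norm_eq_abs] at key
  refine key.trans ?_
  refine mul_le_mul_of_nonneg_left ?_ (by positivity)
  rw [hA]
  exact div_le_self (by positivity) (one_le_pow₀ (by norm_num))

variable {m J : ℕ}

/-- **Nested windows of the time.** -/
theorem rt_nest (F : Fam m J) {w w' : ℕ} (hw : w ≤ w') (hw' : w' ≤ J) (ω : F.Ω) :
    ∃ q : ℕ, q + 1 ≤ 2 ^ (w' - w) ∧ rt F w ω = ((q : ℝ) + rt F w' ω) / 2 ^ (w' - w) := by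
  obtain ⟨a, ha⟩ : ∃ a : ℕ, a = J - w' := ⟨_, rfl⟩
  obtain ⟨b, hb⟩ : ∃ b : ℕ, b = w' - w := ⟨_, rfl⟩
  have hJw : J - w = b + a := by omega
  refine ⟨(F.T ω % 2 ^ (J - w)) / 2 ^ (J - w'), ?_, ?_⟩
  · rw [hJw, ← ha, ← hb]
    have h1 : F.T ω % 2 ^ (b + a) < 2 ^ b * 2 ^ a := by
      rw [← pow_add]
      exact Nat.mod_lt _ (by positivity)
    have h2 : F.T ω % 2 ^ (b + a) / 2 ^ a < 2 ^ b := Nat.div_lt_of_lt_mul (by rwa [mul_comm])
    omega
  · unfold rt
    rw [hJw, ← ha, ← hb]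
    have h1 : F.T ω % 2 ^ (b + a) % 2 ^ a = F.T ω % 2 ^ a :=
      Nat.mod_mod_of_dvd _ (pow_dvd_pow 2 (Nat.le_add_left a b))
    have h2 : (2 ^ a * (F.T ω % 2 ^ (b + a) / 2 ^ a) + F.T ω % 2 ^ a : ℕ) =
        F.T ω % 2 ^ (b + a) := by
      rw [← h1]
      exact Nat.div_add_mod _ _
    have h3 : ((F.T ω % 2 ^ (b + a) : ℕ) : ℝ) =
        2 ^ a * ((F.T ω % 2 ^ (b + a) / 2 ^ a : ℕ) : ℝ) + ((F.T ω % 2 ^ a : ℕ) : ℝ) := by
      exact_mod_cast h2.symm
    have h4 : ((2 ^ (b + a) : ℕ) : ℝ) = 2 ^ b * 2 ^ a := by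
      push_cast
      rw [pow_add]
    have h5 : ((2 ^ a : ℕ) : ℝ) = 2 ^ a := by push_cast; rfl
    rw [h3, h4, h5]
    field_simp

/-- The point of a smaller window. -/
theorem ptw_nest (F : Fam m J) {w w' : ℕ} (hw : w ≤ w') (hw' : w' ≤ J) (ω : F.Ω) :
    ∃ q : ℕ, q + 1 ≤ 2 ^ (w' - w) ∧
      ∀ τ : ℝ, ptw F w' ω τ = ptw F w ω (((q : ℝ) + τ) / 2 ^ (w' - w)) := by
  obtain ⟨q, h1, h2⟩ := rt_nest F hw hw' ω
  refine ⟨q, h1, fun τ => ?_⟩
  rw [ptw_at F hw', ptw_at F (hw.trans hw'), h2]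
  funext k
  have e1 : (2 : ℝ) ^ w' = 2 ^ (w' - w) * 2 ^ w := by
    rw [← pow_add]
    congr 1
    omega
  rw [e1]
  field_simp
  ring

theorem nest_mem {q n : ℕ} (hq : q + 1 ≤ 2 ^ n) {τ : ℝ} (hτ : τ ∈ Set.Icc (0 : ℝ) 1) :
    ((q : ℝ) + τ) / 2 ^ n ∈ Set.Icc (0 : ℝ) 1 := by
  have h1 : (q : ℝ) + 1 ≤ 2 ^ n := by exact_mod_cast hq
  have h2 : (0 : ℝ) ≤ q := Nat.cast_nonneg q
  constructor
  · exact div_nonneg (by linarith [hτ.1]) (by positivity)
  · rw [div_le_one (by positivity)]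
    linarith [hτ.2]

/-- **The variation** of a polynomial on the own path and its translates in the direction `c 2`. -/
def VarB (F : Fam m J) (c : ℕ → Fin m) (w ν g : ℕ) (ω : F.Ω)
    (P : MvPolynomial (Option (Fin m)) ℝ) (x : ℝ) : Prop :=
  ∀ τ ∈ Set.Icc (0 : ℝ) 1, ∀ τ' ∈ Set.Icc (0 : ℝ) 1, ∀ y : ℝ, |y| ≤ 4 * (2 ^ ν / 2 ^ g) →
    |eval (Function.update (ptw F w ω τ) (some (c 2)) (ptw F w ω τ (some (c 2)) + y)) P -
      eval (ptw F w ω τ') P| ≤ x

theorem VarB.mono {F : Fam m J} {c : ℕ → Fin m} {w ν g : ℕ} {ω : F.Ω}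
    {P : MvPolynomial (Option (Fin m)) ℝ} {x x' : ℝ} (h : VarB F c w ν g ω P x) (hx : x ≤ x') :
    VarB F c w ν g ω P x' := fun τ hτ τ' hτ' y hy => (h τ hτ τ' hτ' y hy).trans hx

/-- A near polynomial. -/
theorem VarB.near {F : Fam m J} {c : ℕ → Fin m} {w ν g : ℕ} {ω : F.Ω}
    {P P' : MvPolynomial (Option (Fin m)) ℝ} {x z : ℝ} (h : VarB F c w ν g ω P x)
    (hz : ∀ τ ∈ Set.Icc (0 : ℝ) 1, ∀ y : ℝ, |y| ≤ 4 * (2 ^ ν / 2 ^ g) →
      |eval (Function.update (ptw F w ω τ) (some (c 2)) (ptw F w ω τ (some (c 2)) + y)) P' -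
        eval (Function.update (ptw F w ω τ) (some (c 2)) (ptw F w ω τ (some (c 2)) + y)) P| ≤ z) :
    VarB F c w ν g ω P' (x + 2 * z) := by
  intro τ hτ τ' hτ' y hy
  have h1 := h τ hτ τ' hτ' y hy
  have h2 := hz τ hτ y hy
  have h3 := hz τ' hτ' 0 (by rw [abs_zero]; positivity)
  rw [add_zero, Function.update_eq_self] at h3
  have e1 : eval (Function.update (ptw F w ω τ) (some (c 2)) (ptw F w ω τ (some (c 2)) + y)) P' -
      eval (ptw F w ω τ') P' =
      (eval (Function.update (ptw F w ω τ) (some (c 2)) (ptw F w ω τ (some (c 2)) + y)) P' -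
        eval (Function.update (ptw F w ω τ) (some (c 2)) (ptw F w ω τ (some (c 2)) + y)) P) +
      ((eval (Function.update (ptw F w ω τ) (some (c 2)) (ptw F w ω τ (some (c 2)) + y)) P -
        eval (ptw F w ω τ') P) - (eval (ptw F w ω τ') P' - eval (ptw F w ω τ') P)) := by ring
  rw [e1]
  refine (abs_add_le _ _).trans ?_
  have h4 := abs_sub (eval (Function.update (ptw F w ω τ) (some (c 2))
    (ptw F w ω τ (some (c 2)) + y)) P - eval (ptw F w ω τ') P)
    (eval (ptw F w ω τ') P' - eval (ptw F w ω τ') P)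
  linarith

/-- **The variation on a smaller window.** -/
theorem var_sub (D : ℕ) : ∃ C : ℝ, 1 ≤ C ∧ ∀ {m J : ℕ} {F : Fam m J} {c : ℕ → Fin m}
    {w w' ν μ g g' : ℕ} {ω : F.Ω} {P : MvPolynomial (Option (Fin m)) ℝ} {x : ℝ}, w ≤ w' → w' ≤ J →
    P.totalDegree ≤ D → 0 ≤ x → g ≤ g' → g + (w' - w) ≤ g' + μ → VarB F c w ν g ω P x →
    VarB F c w' ν g' ω P (C * x * (2 ^ μ / 2 ^ (w' - w))) := by
  obtain ⟨C₀, hC, hlip⟩ := Pool.Agent.H40.SLP.lip_one D
  refine ⟨2 * C₀, by linarith, ?_⟩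
  intro m J F c w w' ν μ g g' ω P x hw hw' hP hx hgg hg hV τ hτ τ' hτ' y hy
  obtain ⟨q, hq, hpt⟩ := ptw_nest F hw hw' ω
  obtain ⟨n, hn⟩ : ∃ n, n = w' - w := ⟨_, rfl⟩
  rw [← hn] at hq hpt hg ⊢
  have hσ := nest_mem hq hτ
  have hσ' := nest_mem hq hτ'
  rw [hpt τ, hpt τ']
  obtain ⟨σ, hσe⟩ : ∃ σ : ℝ, σ = ((q : ℝ) + τ) / 2 ^ n := ⟨_, rfl⟩
  obtain ⟨σ', hσe'⟩ : ∃ σ' : ℝ, σ' = ((q : ℝ) + τ') / 2 ^ n := ⟨_, rfl⟩
  rw [← hσe] at hσ ⊢
  rw [← hσe'] at hσ' ⊢
  have hww : |σ - σ'| ≤ 1 / 2 ^ n := by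
    rw [hσe, hσe', ← sub_div, abs_div, abs_of_pos (by positivity : (0 : ℝ) < 2 ^ n)]
    refine div_le_div_of_nonneg_right ?_ (by positivity)
    rw [abs_le]
    constructor <;> linarith [hτ.1, hτ.2, hτ'.1, hτ'.2]
  obtain ⟨Yj, hYj⟩ : ∃ Yj : ℝ, Yj = 4 * (2 ^ ν / 2 ^ g) := ⟨_, rfl⟩
  have hYj0 : 0 < Yj := by rw [hYj]; positivity
  have hyY : |y| ≤ Yj * (2 ^ μ / 2 ^ n) := by
    refine hy.trans ?_
    rw [hYj, mul_assoc]
    refine mul_le_mul_of_nonneg_left ?_ (by norm_num)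
    rw [div_mul_div_comm, div_le_div_iff₀ (by positivity) (by positivity), mul_assoc]
    refine mul_le_mul_of_nonneg_left ?_ (by positivity)
    rw [← pow_add, ← pow_add]
    exact pow_le_pow_right₀ (by norm_num) (by omega)
  -- the first step: along the own line
  obtain ⟨c₁, hc₁⟩ : ∃ c₁ : ℝ, c₁ = eval (ptw F w ω σ') P := ⟨_, rfl⟩
  have hPd : (P - C c₁).totalDegree ≤ D :=
    (totalDegree_sub _ _).trans (max_le hP (by rw [totalDegree_C]; exact Nat.zero_le _))
  obtain ⟨f1, hf1⟩ : ∃ f1 : Polynomial ℝ, f1 = MvPolynomial.aeval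
      (fun o => (lc w (slam F w ω) o)) (P - C c₁) := ⟨_, rfl⟩
  have hf1e : ∀ s, f1.eval s = eval (ptw F w ω s) P - c₁ := fun s => by
    rw [hf1, Pool.UNJ.eval_aeval_poly, map_sub, eval_C]
    rfl
  have hlc : ∀ o, (lc w (slam F w ω) o).natDegree ≤ 1 := fun o => by
    cases o with
    | none =>
      unfold lc
      compute_degree
    | some j =>
      unfold lc
      refine (Polynomial.natDegree_add_le _ _).trans (max_le (by
        rw [Polynomial.natDegree_C]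
        exact Nat.zero_le _) ?_)
      refine Polynomial.natDegree_C_mul_le _ _ |>.trans ?_
      compute_degree
  have hf1d : f1.natDegree ≤ D := by
    rw [hf1]
    exact Pool.UNJ.natDegree_aeval_le _ _ hlc hPd
  have k1 := hlip f1 x hf1d (fun s hs => by
    rw [hf1e, hc₁]
    have h1 := hV s hs σ' hσ' 0 (by rw [abs_zero]; positivity)
    rwa [add_zero, Function.update_eq_self] at h1) σ σ'
    (by rw [abs_of_nonneg hσ.1]; linarith [hσ.2]) (by rw [abs_of_nonneg hσ'.1]; linarith [hσ'.2])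
  rw [hf1e, hf1e] at k1
  -- the second step: in the direction of `u`
  obtain ⟨p, hp⟩ : ∃ p, p = ptw F w ω σ := ⟨_, rfl⟩
  rw [← hp] at k1 ⊢
  obtain ⟨e, he⟩ : ∃ e : ℝ, (e = 1 ∨ e = -1) ∧ e * |y| = y := by
    rcases le_total 0 y with h | h
    · exact ⟨1, Or.inl rfl, by rw [abs_of_nonneg h, one_mul]⟩
    · exact ⟨-1, Or.inr rfl, by rw [abs_of_nonpos h]; ring⟩
  have he1 : |e| = 1 := by
    rcases he.1 with h | h <;> rw [h] <;> norm_num
  obtain ⟨f2, hf2⟩ : ∃ f2 : Polynomial ℝ, f2 = MvPolynomial.aeval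
      (fun o => Polynomial.C (p o) + Polynomial.C (if o = some (c 2) then e * Yj else 0) *
        Polynomial.X) (P - C c₁) := ⟨_, rfl⟩
  have hf2e : ∀ s, f2.eval s =
      eval (Function.update p (some (c 2)) (p (some (c 2)) + e * Yj * s)) P - c₁ := fun s => by
    rw [hf2, Pool.UNJ.eval_aeval_poly, map_sub, eval_C]
    congr 1
    refine congrArg (fun z => eval z P) (funext fun o => ?_)
    simp only [Polynomial.eval_add, Polynomial.eval_mul, Polynomial.eval_C, Polynomial.eval_X]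
    by_cases ho : o = some (c 2)
    · rw [ho, Function.update_self, if_pos rfl]
    · rw [Function.update_of_ne ho, if_neg ho, zero_mul, add_zero]
  have hf2d : f2.natDegree ≤ D := by
    rw [hf2]
    refine Pool.UNJ.natDegree_aeval_le _ _ (fun o => ?_) hPd
    compute_degree
  have k2 := hlip f2 x hf2d (fun s hs => by
    rw [hf2e, hc₁, hp]
    refine hV σ hσ σ' hσ' (e * Yj * s) ?_
    rw [abs_mul, abs_mul, he1, one_mul, abs_of_pos hYj0, abs_of_nonneg hs.1, ← hYj]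
    exact mul_le_of_le_one_right hYj0.le hs.2) (|y| / Yj) 0 (by
      rw [abs_of_nonneg (by positivity)]
      have h1 : |y| ≤ Yj := by
        refine hy.trans ?_
        rw [hYj]
        refine mul_le_mul_of_nonneg_left ?_ (by norm_num)
        exact div_le_div_of_nonneg_left (by positivity) (by positivity)
          (pow_le_pow_right₀ (by norm_num) hgg)
      have h2 : |y| / Yj ≤ 1 := by rwa [div_le_one hYj0]
      linarith) (by norm_num)
  rw [hf2e, hf2e, mul_zero, add_zero, Function.update_eq_self, sub_zero] at k2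
  have e1 : e * Yj * (|y| / Yj) = y := by
    rw [mul_assoc, mul_div_cancel₀ _ hYj0.ne']
    exact he.2
  rw [e1, abs_of_nonneg (by positivity : 0 ≤ |y| / Yj)] at k2
  have k3 : C₀ * x * |σ - σ'| ≤ C₀ * x * (2 ^ μ / 2 ^ n) := by
    refine mul_le_mul_of_nonneg_left (hww.trans ?_) (by positivity)
    exact div_le_div_of_nonneg_right (one_le_pow₀ (by norm_num)) (by positivity)
  have k4 : C₀ * x * (|y| / Yj) ≤ C₀ * x * (2 ^ μ / 2 ^ n) := by
    refine mul_le_mul_of_nonneg_left ?_ (by positivity)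
    rw [div_le_iff₀ hYj0]
    linarith
  have e2 : eval (Function.update p (some (c 2)) (p (some (c 2)) + y)) P - eval (ptw F w ω σ') P =
      ((eval (Function.update p (some (c 2)) (p (some (c 2)) + y)) P - c₁) - (eval p P - c₁)) +
      ((eval p P - c₁) - (eval (ptw F w ω σ') P - c₁)) := by ring
  rw [e2]
  refine (abs_add_le _ _).trans ?_
  have e3 : 2 * C₀ * x * (2 ^ μ / 2 ^ n) = C₀ * x * (2 ^ μ / 2 ^ n) + C₀ * x * (2 ^ μ / 2 ^ n) := by
    ring
  rw [e3]
  exact add_le_add (k2.trans k4) (k1.trans k3)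

end Pool.CRC82
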