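import Pool.Agent.H82.CRC.Cma

/-!
# The charts of the windows without the slope line

`Npw`: the charts of `u` and `N` of the windows, with the relative balls, without the slope line;
`tel_slp`: the slopes of two windows on the fattened own path.
-/

set_option autoImplicit false

namespace Pool.CRC82

open Finset Real MvPolynomial
open Pool.Agent.H49.Ent Pool.Agent.H32.Dense Pool.STK Pool.KA Pool.KSAT Pool.K2S Pool.PB Pool.S6C
open Pool.GEN Pool.CHT Pool.CHX Pool.ISO Pool.D2R Pool.V1E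
open Pool.PB.Trl (rt rt_mem t_rt)
open Pool.CNC28 (ptw_at tel_sum)

variable {m J : ℕ}

/-- **The charts of the windows** `k ≤ n`, without the slope line. -/
structure Npw (F : Fam m J) (c : ℕ → Fin m) (B : F.Ω → Prop) (n D Dr ν μ h : ℕ) (κ : ℝ) (w : ℕ → ℕ)
    (g : ℕ → ℕ → ℕ) (G : ℕ → PtT F → ℕ → MvPolynomial (Option (Fin m)) ℝ)
    (H : ℕ → LnT F → ℕ → MvPolynomial (Option (Fin m)) ℝ) : Prop where
  νμ : ν ≤ μ
  wJ : ∀ k ≤ n, w k ≤ J
  wm : ∀ j ≤ n, ∀ k ≤ n, j ≤ k → w j ≤ w k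
  deg : ∀ k ≤ n, ∀ y i, (G k y i).totalDegree ≤ D
  dep : ∀ k ≤ n, ∀ y i, DepC c i (G k y i)
  degH : ∀ k ≤ n, ∀ s i, (H k s i).totalDegree ≤ D
  depH : ∀ k ≤ n, ∀ s i, DepC c i (H k s i)
  cls : ∀ k ≤ n, Clsd F 4 (w k) B (G k) (H k)
  own : ∀ k ≤ n, ∀ ω, B ω → ∀ l ≤ 3, ∀ τ ∈ Set.Icc (0 : ℝ) 1,
    |ptw F (w k) ω τ (some (c l)) - eval (ptw F (w k) ω τ) (G k (ptr F J ω) l)| ≤
      2 ^ ν / 2 ^ g k l
  bal : ∀ j ≤ n, ∀ k ≤ n, j ≤ k → ∀ ω, B ω → ∀ l, 2 ≤ l → l ≤ 3 → ∀ b : Option (Fin m) → ℝ,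
    NBx c (G k (ptr F J ω)) (g k) (w k) (F.t ω) l b →
    |eval b (G j (ptr F J ω) l) - eval b (G k (ptr F J ω) l)| ≤ 2 ^ μ / 2 ^ g j l
  stp : ∀ i < n, g (i + 1) 2 ≤ g i 2 + μ
  exc : ∀ j ≤ n, ∀ k ≤ n, j ≤ k → g k 2 + g j 3 ≤ g j 2 + g k 3 + μ
  mon : ∀ j ≤ n, ∀ k ≤ n, j ≤ k → g j 2 ≤ g k 2
  gn : ∀ j ≤ n, ∀ k ≤ n, j ≤ k → g j 2 + (w k - w j) ≤ g k 2 + μ
  relb : ∀ k ≤ n, RelvF F c 3 (w k) (w k) (g k) Dr h κ B (G k)

theorem depc_sub {c : ℕ → Fin m} {i : ℕ} {P Q : MvPolynomial (Option (Fin m)) ℝ}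
    (hP : DepC c i P) (hQ : DepC c i Q) : DepC c i (P - Q) := by
  intro b b' h1 h2
  rw [map_sub, map_sub, hP b b' h1 h2, hQ b b' h1 h2]

theorem ptw_tm (F : Fam m J) {w : ℕ} (hw : w ≤ J) (ω : F.Ω) {τ : ℝ} (hτ : τ ∈ Set.Icc (0 : ℝ) 1) :
    |ptw F w ω τ none - F.t ω| ≤ 1 / 2 ^ w := by
  rw [ptw_at F hw]
  have h1 := rt_mem F w ω
  have e1 : bt F ω none + (τ - rt F w ω) / 2 ^ w * bd F ω none - F.t ω =
      (τ - rt F w ω) / 2 ^ w := by
    show F.t ω + (τ - rt F w ω) / 2 ^ w * 1 - F.t ω = _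
    ring
  show |bt F ω none + (τ - rt F w ω) / 2 ^ w * bd F ω none - F.t ω| ≤ 1 / 2 ^ w
  rw [e1, abs_div, abs_of_pos (by positivity : (0 : ℝ) < 2 ^ w)]
  refine div_le_div_of_nonneg_right ?_ (by positivity)
  rw [abs_le]
  constructor <;> linarith [hτ.1, hτ.2, h1.1, h1.2]

section

variable {F : Fam m J} {c : ℕ → Fin m} {B : F.Ω → Prop} {n D Dr ν μ h : ℕ} {κ : ℝ} {w : ℕ → ℕ}
  {g : ℕ → ℕ → ℕ} {G : ℕ → PtT F → ℕ → MvPolynomial (Option (Fin m)) ℝ}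
  {H : ℕ → LnT F → ℕ → MvPolynomial (Option (Fin m)) ℝ}

/-- The fattened own path is in the natural boxes of the larger windows. -/
theorem Npw.fat (W : Npw F c B n D Dr ν μ h κ w g G H) (hc : Set.InjOn c (Set.Iio 3)) {j i : ℕ}
    (hi : i ≤ n) (hji : j ≤ i) {ω : F.Ω} (hω : B ω) {τ : ℝ} (hτ : τ ∈ Set.Icc (0 : ℝ) 1) {y : ℝ}
    (hy : |y| ≤ 4 * (2 ^ ν / 2 ^ g i 2)) {b : Option (Fin m) → ℝ}
    (hb : b = Function.update (ptw F (w i) ω τ) (some (c 2)) (ptw F (w i) ω τ (some (c 2)) + y)) :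
    |b none - F.t ω| ≤ 1 / 2 ^ w j ∧ ∀ l < 3, |b (some (c l)) - eval b (G j (ptr F J ω) l)| ≤
      2 ^ (ν + 3) / 2 ^ g j l := by
  have hj : j ≤ n := hji.trans hi
  obtain ⟨q, hq, hpt⟩ := ptw_nest F (W.wm j hj i hi hji) (W.wJ i hi) ω
  have hσ := nest_mem hq hτ
  rw [hpt τ] at hb
  obtain ⟨σ, hσe⟩ : ∃ σ : ℝ, σ = ((q : ℝ) + τ) / 2 ^ (w i - w j) := ⟨_, rfl⟩
  rw [← hσe] at hσ hb
  have hne : ∀ l < 2, (some (c l) : Option (Fin m)) ≠ some (c 2) := fun l hl h => by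
    have := hc (show l < 3 by omega) (show 2 < 3 by norm_num) (Option.some_injective _ h)
    omega
  have hev : ∀ l < 3, eval b (G j (ptr F J ω) l) = eval (ptw F (w j) ω σ) (G j (ptr F J ω) l) :=
    fun l hl => by
      refine W.dep j hj _ l _ _ ?_ fun k hk => ?_
      · rw [hb, Function.update_of_ne (by simp)]
      · rw [hb, Function.update_of_ne (hne k (by omega))]
  constructor
  · rw [hb, Function.update_of_ne (by simp)]
    exact ptw_tm F (W.wJ j hj) ω hσ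
  · intro l hl
    rw [hev l hl]
    have h1 := W.own j hj ω hω l (by omega) σ hσ
    have hg : (0 : ℝ) < 2 ^ g j l := by positivity
    rcases Nat.lt_or_ge l 2 with h2 | h2
    · rw [hb, Function.update_of_ne (hne l h2)]
      refine h1.trans (div_le_div_of_nonneg_right ?_ hg.le)
      exact pow_le_pow_right₀ (by norm_num) (by omega)
    · have h3 : l = 2 := by omega
      subst h3
      rw [hb, Function.update_self]
      have h4 : |y| ≤ 4 * (2 ^ ν / 2 ^ g j 2) := by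
        refine hy.trans (mul_le_mul_of_nonneg_left ?_ (by norm_num))
        exact div_le_div_of_nonneg_left (by positivity) (by positivity)
          (pow_le_pow_right₀ (by norm_num) (W.mon j hj i hi hji))
      have e1 : ptw F (w j) ω σ (some (c 2)) + y - eval (ptw F (w j) ω σ) (G j (ptr F J ω) 2) =
          (ptw F (w j) ω σ (some (c 2)) - eval (ptw F (w j) ω σ) (G j (ptr F J ω) 2)) + y := by
        ring
      rw [e1]
      refine (abs_add_le _ _).trans ((add_le_add h1 h4).trans ?_)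
      have e2 : (2 : ℝ) ^ ν / 2 ^ g j 2 + 4 * (2 ^ ν / 2 ^ g j 2) = 5 * (2 ^ ν / 2 ^ g j 2) := by
        ring
      have e3 : (2 : ℝ) ^ (ν + 3) / 2 ^ g j 2 = 8 * (2 ^ ν / 2 ^ g j 2) := by
        rw [pow_add]
        ring
      rw [e2, e3]
      exact mul_le_mul_of_nonneg_right (by norm_num) (by positivity)

end

/-- **The slopes of two windows** on the fattened own path. -/
theorem tel_slp (D : ℕ) : ∃ C : ℕ, 1 ≤ C ∧ ∀ {m J : ℕ} {F : Fam m J} {c : ℕ → Fin m}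
    {B : F.Ω → Prop} {n Dr ν μ h : ℕ} {κ : ℝ} {w : ℕ → ℕ} {g : ℕ → ℕ → ℕ}
    {G : ℕ → PtT F → ℕ → MvPolynomial (Option (Fin m)) ℝ}
    {H : ℕ → LnT F → ℕ → MvPolynomial (Option (Fin m)) ℝ},
    Npw F c B n D Dr ν μ h κ w g G H → Set.InjOn c (Set.Iio 3) → ∀ j i : ℕ, i ≤ n → j ≤ i →
    ∀ ω, B ω → ∀ τ ∈ Set.Icc (0 : ℝ) 1, ∀ y : ℝ, |y| ≤ 4 * (2 ^ ν / 2 ^ g i 2) →
      |eval (Function.update (ptw F (w i) ω τ) (some (c 2)) (ptw F (w i) ω τ (some (c 2)) + y))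
        (pderiv (some (c 2)) (G i (ptr F J ω) 3)) -
      eval (Function.update (ptw F (w i) ω τ) (some (c 2)) (ptw F (w i) ω τ (some (c 2)) + y))
        (pderiv (some (c 2)) (G j (ptr F J ω) 3))| ≤
        (n + 1) * (2 ^ (C * (μ + 1)) * (2 ^ g j 2 / 2 ^ g j 3)) := by
  obtain ⟨c₀, D₁, hD₁, hgr⟩ := grd_top 4 (fun _ => D)
  refine ⟨c₀ + 3 * D₁ + 3, by omega, ?_⟩
  intro m J F c B n Dr ν μ h κ w g G H W hc j i hi hji ω hω τ hτ y hy
  obtain ⟨b, hb⟩ : ∃ b, b = Function.update (ptw F (w i) ω τ) (some (c 2))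
    (ptw F (w i) ω τ (some (c 2)) + y) := ⟨_, rfl⟩
  rw [← hb]
  obtain ⟨d, rfl⟩ : ∃ d, i = j + d := ⟨i - j, by omega⟩
  have hνμ := W.νμ
  have hst : ∀ l, j ≤ l → l < j + d → |eval b (pderiv (some (c 2)) (G (l + 1) (ptr F J ω) 3)) -
      eval b (pderiv (some (c 2)) (G l (ptr F J ω) 3))| ≤
        2 ^ ((c₀ + 3 * D₁ + 3) * (μ + 1)) * (2 ^ g j 2 / 2 ^ g j 3) := by
    intro l hjl hl
    have hl1 : l + 1 ≤ n := by omega
    obtain ⟨f1, f2⟩ := W.fat hc (j := l + 1) hi (by omega) hω hτ hy hb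
    have key := hgr (c := c) (i := 2) (G := G (l + 1) (ptr F J ω))
      (Q := G (l + 1) (ptr F J ω) 3 - G l (ptr F J ω) 3) (g := g (l + 1)) (a := w (l + 1))
      (t := F.t ω) (M := 2 ^ μ / 2 ^ g l 3) (ν + 3) (by norm_num) hc
      (W.deg (l + 1) hl1 _) (W.dep (l + 1) hl1 _)
      (depc_sub (W.dep (l + 1) hl1 _ 3) (W.dep l (by omega) _ 3))
      ((totalDegree_sub _ _).trans (max_le (W.deg (l + 1) hl1 _ 3) (W.deg l (by omega) _ 3)))
      (by positivity) (fun b' hb' => by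
        rw [map_sub, abs_sub_comm]
        exact W.bal l (by omega) (l + 1) hl1 (Nat.le_succ l) ω hω 3 (by norm_num) le_rfl b' hb')
      b f1 f2
    rw [map_sub, map_sub] at key
    refine key.trans ?_
    have h1 := W.stp l (by omega)
    have h2 := W.exc j (by omega) l (by omega) hjl
    have e1 : (2 : ℝ) ^ (c₀ + (ν + 3) * D₁) * (2 ^ μ / 2 ^ g l 3) * 2 ^ g (l + 1) 2 =
        2 ^ (c₀ + (ν + 3) * D₁ + μ + g (l + 1) 2) / 2 ^ g l 3 := by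
      rw [pow_add _ _ (g (l + 1) 2), pow_add _ _ μ]
      ring
    have e2 : (2 : ℝ) ^ ((c₀ + 3 * D₁ + 3) * (μ + 1)) * (2 ^ g j 2 / 2 ^ g j 3) =
        2 ^ ((c₀ + 3 * D₁ + 3) * (μ + 1) + g j 2) / 2 ^ g j 3 := by
      rw [pow_add]
      ring
    rw [e1, e2, div_le_div_iff₀ (by positivity) (by positivity), ← pow_add, ← pow_add]
    refine pow_le_pow_right₀ (by norm_num) ?_
    have e3 : (c₀ + 3 * D₁ + 3) * (μ + 1) =
        c₀ * μ + c₀ + 3 * (D₁ * μ) + 3 * D₁ + 3 * μ + 3 := by ring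
    have e4 : (ν + 3) * D₁ = D₁ * ν + 3 * D₁ := by ring
    have h3 : D₁ * ν ≤ D₁ * μ := Nat.mul_le_mul_left _ hνμ
    rw [e3, e4]
    generalize D₁ * ν = p1 at *
    generalize D₁ * μ = p2 at *
    generalize c₀ * μ = p3 at *
    omega
  have h4 := tel_sum (f := fun l => eval b (pderiv (some (c 2)) (G l (ptr F J ω) 3))) hst d le_rfl
  refine h4.trans ?_
  refine mul_le_mul_of_nonneg_right ?_ (by positivity)
  have : (d : ℝ) ≤ n := by exact_mod_cast (by omega : d ≤ n)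
  linarith

end Pool.CRC82
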