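import Pool.Agent.H82.CRC.Cmb
import Pool.Agent.H28.CNC.Nwg

/-!
# The charts of the windows without the slope line, from `WG`

`npw_wg`: the structure `Npw` on the event of `WG`.
-/

set_option autoImplicit false

namespace Pool.CRC82

open Finset Real MvPolynomial
open Pool.Agent.H49.Ent Pool.Agent.H32.Dense Pool.STK Pool.KA Pool.KSAT Pool.K2S Pool.PB Pool.S6C
open Pool.GEN Pool.CHT Pool.CHX Pool.ISO Pool.D2R Pool.D2G30 Pool.V1E Pool.CR99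
open Pool.PB.Trl (rt rt_mem t_rt)

/-- **The charts of the windows** from `WG`. -/
theorem npw_wg {m : ℕ} {c : ℕ → Fin m} {D Dr N N₂ : ℕ}
    {R : ℕ → Prop} {C a Eb ε₀ η₀ : ℝ} {Pt : ℝ → ℝ → ℝ} {o : ℕ → ℝ} {lv be : ℕ → ℕ → ℝ} {J : ℕ}
    {F : Fam m J} {b : ℕ → ℕ → ℝ} {κ : ℝ} {z : ℕ → ℕ → ℕ} {B : F.Ω → Prop}
    {gc gT g₀ : ℕ → ℕ → ℕ} {G : ℕ → PtT F → ℕ → MvPolynomial (Option (Fin m)) ℝ}
    {H : ℕ → LnT F → ℕ → MvPolynomial (Option (Fin m)) ℝ}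
    {T : ℕ → PtT F → ℕ → MvPolynomial (Option (Fin m)) ℝ}
    {TH : ℕ → LnT F → ℕ → MvPolynomial (Option (Fin m)) ℝ}
    {Gt : ℕ → PtT F → MvPolynomial (Option (Fin m)) ℝ}
    {Ht : ℕ → LnT F → MvPolynomial (Option (Fin m)) ℝ}
    (W : WG c 3 D Dr N N₂ R C a Eb ε₀ η₀ Pt o lv be F b κ z B gc gT g₀ G H T TH Gt Ht)
    (hη : 0 ≤ η₀) {ix : ℕ → ℕ} {δ : ℝ} {n μ : ℕ} (hCJ : 8 ≤ C * (η₀ * J)) (hδ0 : 0 ≤ δ)
    (hnum : ∀ k ≤ n, ix k ≤ N₂ ∧ ⌊o (ix k) * J⌋₊ ≤ J)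
    (hord : ∀ j ≤ n, ∀ k ≤ n, j < k → o (ix j) + η₀ ≤ o (ix k))
    (hmon : ∀ j ≤ n, ∀ k ≤ n, j ≤ k → ∀ l, 2 ≤ l → l ≤ 3 → lv (ix j) l ≤ lv (ix k) l + δ)
    (hm2 : ∀ j ≤ n, ∀ k ≤ n, j < k → lv (ix j) 2 + η₀ ≤ lv (ix k) 2)
    (hst : ∀ i < n, lv (ix (i + 1)) 2 ≤ lv (ix i) 2 + δ)
    (hexc : ∀ j ≤ n, ∀ k ≤ n, j ≤ k →
      lv (ix k) 2 + lv (ix j) 3 ≤ lv (ix j) 2 + lv (ix k) 3 + δ)
    (hgn : ∀ j ≤ n, ∀ k ≤ n, j ≤ k →
      lv (ix j) 2 + (o (ix k) - o (ix j)) ≤ lv (ix k) 2 + δ)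
    (hμ : (8 * (C * η₀) + δ) * J ≤ μ) :
    Npw F c B n D Dr (⌊C * (η₀ * J)⌋₊ + 1) μ ⌊η₀ * J⌋₊ κ (fun k => ⌊o (ix k) * J⌋₊)
      (fun k => g₀ (ix k)) (fun k => G (ix k)) (fun k => H (ix k)) := by
  classical
  have hJ0 : (0 : ℝ) ≤ J := Nat.cast_nonneg J
  have h2 : (0 : ℝ) < 2 := by norm_num
  have hC1 : 1 ≤ C := W.win.C1
  have hηJ : 0 ≤ η₀ * J := mul_nonneg hη hJ0
  obtain ⟨x, hx⟩ : ∃ x : ℝ, x = C * (η₀ * J) := ⟨_, rfl⟩
  have hηx : η₀ * J ≤ x := by rw [hx]; exact le_mul_of_one_le_left hηJ hC1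
  have hx0 : 0 ≤ x := hηJ.trans hηx
  rw [← hx] at hCJ
  have hδJ : 0 ≤ δ * J := mul_nonneg hδ0 hJ0
  have hμ' : 8 * x + δ * J ≤ μ := by
    refine le_trans (le_of_eq ?_) hμ
    rw [hx]
    ring
  have hfl : (⌊C * (η₀ * J)⌋₊ : ℝ) ≤ x := by
    rw [hx]
    exact Nat.floor_le (by rw [← hx]; exact hx0)
  have hev := fun k (hk : k ≤ n) => W.wb.ev (ix k) (hnum k hk).1
  have gn := fun k (hk : k ≤ n) l (hl : l ≤ 3) => W.wb.g_num (hnum k hk).1 (l := l) hl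
  have hmul : ∀ {p q : ℝ}, p ≤ q → p * J ≤ q * J := fun h => mul_le_mul_of_nonneg_right h hJ0
  have hwm : ∀ j ≤ n, ∀ k ≤ n, j ≤ k → ⌊o (ix j) * J⌋₊ ≤ ⌊o (ix k) * J⌋₊ := by
    intro j hj k hk hjk
    refine Nat.floor_le_floor (hmul ?_)
    rcases Nat.lt_or_ge j k with h | h
    · linarith [hord j hj k hk h]
    · rw [le_antisymm hjk h]
  refine ⟨?_, fun k hk => (hnum k hk).2, hwm, fun k hk => (hev k hk).ball.degG,
    fun k hk => (hev k hk).ball.depG, fun k hk => (hev k hk).ball.degH,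
    fun k hk => (hev k hk).ball.depH, fun k hk => (hev k hk).cls, ?_, ?_, ?_, ?_, ?_, ?_,
    fun k hk => (hev k hk).relb⟩
  · have : ((⌊C * (η₀ * J)⌋₊ + 1 : ℕ) : ℝ) ≤ μ := by
      push_cast
      nlinarith
    exact_mod_cast this
  · intro k hk ω hω l hl τ hτ
    have h5 := W.own (ix k) (hnum k hk).1 ω hω l hl τ hτ
    have h6 : (dv ⌊o (ix k) * J⌋₊ (fun s _ => H (ix k) s l) (c l)
        (slam F ⌊o (ix k) * J⌋₊ ω)).eval τ = ptw F ⌊o (ix k) * J⌋₊ ω τ (some (c l)) -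
        eval (ptw F ⌊o (ix k) * J⌋₊ ω τ) (G (ix k) (ptr F J ω) l) := by
      rw [(hev k hk).cls ω hω l (by omega)]
      unfold dv
      rw [Polynomial.eval_sub, aeval_lc]
      rfl
    rw [h6] at h5
    exact h5
  · intro j hj k hk hjk ω hω l hl2 hl3 b' hb'
    rcases Nat.lt_or_ge j k with h | h
    swap
    · have e : j = k := le_antisymm hjk h
      subst e
      rw [sub_self, abs_zero]
      positivity
    · have ho := hord j hj k hk h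
      have hz := W.zz (ix j) (hnum j hj).1 (ix k) (hnum k hk).1 ho
      have hle : ⌊o (ix j) * J⌋₊ ≤ ⌊o (ix k) * J⌋₊ :=
        Nat.floor_le_floor (hmul (by linarith))
      have h5 := W.wb.bal (ix j) (hnum j hj).1 (ix k) (hnum k hk).1 (ix k) (hnum k hk).1 hle hz ω
        hω l hl3 b' hb'
      have h6 := (hev j hj).near ω hω l hl3 b'
      obtain ⟨u1, u2, u3, u4⟩ := gn j hj l hl3
      obtain ⟨-, -, v3, v4⟩ := gn k hk l hl3
      have hml := hmul (hmon j hj k hk hjk l hl2 hl3)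
      obtain ⟨M, hM⟩ : ∃ M : ℕ, M = min (⌊b (ix j) l * J⌋₊ + (⌊o (ix k) * J⌋₊ -
        ⌊o (ix j) * J⌋₊)) (g₀ (ix k) l) := ⟨_, rfl⟩
      rw [← hM] at h5
      have hMg : (g₀ (ix j) l : ℝ) ≤ M + (x + 1 + δ * J) := by
        rcases Nat.le_total (⌊b (ix j) l * J⌋₊ + (⌊o (ix k) * J⌋₊ - ⌊o (ix j) * J⌋₊))
          (g₀ (ix k) l) with hh | hh
        · have : M = ⌊b (ix j) l * J⌋₊ + (⌊o (ix k) * J⌋₊ - ⌊o (ix j) * J⌋₊) := by
            rw [hM]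
            exact min_eq_left hh
          rw [this]
          push_cast
          have : (0 : ℝ) ≤ ((⌊o (ix k) * J⌋₊ - ⌊o (ix j) * J⌋₊ : ℕ) : ℝ) := Nat.cast_nonneg _
          linarith
        · have : M = g₀ (ix k) l := by
            rw [hM]
            exact min_eq_right hh
          rw [this]
          have e5 : (lv (ix k) l + δ) * J = lv (ix k) l * J + δ * J := by ring
          linarith
      have h7 : (2 : ℝ) ^ ⌊C * (η₀ * J)⌋₊ / 2 ^ M ≤ 2 ^ μ / 2 / 2 ^ g₀ (ix j) l := by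
        rw [div_div, div_le_div_iff₀ (by positivity) (by positivity), ← Real.rpow_natCast,
          ← Real.rpow_natCast 2 (g₀ (ix j) l), ← Real.rpow_natCast 2 μ, ← Real.rpow_natCast 2 M]
        have e6 : (2 : ℝ) ^ ((⌊C * (η₀ * J)⌋₊ : ℕ) : ℝ) * (2 * 2 ^ ((g₀ (ix j) l : ℕ) : ℝ)) =
            2 ^ ((⌊C * (η₀ * J)⌋₊ : ℝ) + (1 + (g₀ (ix j) l : ℝ))) := by
          rw [Real.rpow_add h2, Real.rpow_add h2, Real.rpow_one]
        rw [e6, ← Real.rpow_add h2]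
        refine Real.rpow_le_rpow_of_exponent_le (by norm_num) ?_
        nlinarith
      have h8 : (2 : ℝ) / 2 ^ g₀ (ix j) l ≤ 2 ^ μ / 2 / 2 ^ g₀ (ix j) l := by
        refine div_le_div_of_nonneg_right ?_ (by positivity)
        rw [le_div_iff₀ h2]
        calc (2 : ℝ) * 2 = 2 ^ 2 := by norm_num
          _ ≤ 2 ^ μ := by
            refine pow_le_pow_right₀ (by norm_num) ?_
            have : ((2 : ℕ) : ℝ) ≤ μ := by
              push_cast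
              nlinarith
            exact_mod_cast this
      have e7 : eval b' (G (ix j) (ptr F J ω) l) - eval b' (G (ix k) (ptr F J ω) l) =
          (eval b' (Gno (c l) J J (fun y => G (ix j) y l) (ptr F J ω)) -
            eval b' (G (ix k) (ptr F J ω) l)) -
          (eval b' (Gno (c l) J J (fun y => G (ix j) y l) (ptr F J ω)) -
            eval b' (G (ix j) (ptr F J ω) l)) := by ring
      rw [e7]
      refine (abs_sub _ _).trans ((add_le_add (h5.trans h7) (h6.trans h8)).trans (le_of_eq ?_))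
      ring
  · intro i hi
    obtain ⟨-, -, u3, u4⟩ := gn i hi.le 2 (by norm_num)
    obtain ⟨-, -, v3, v4⟩ := gn (i + 1) hi 2 (by norm_num)
    have h5 := hmul (hst i hi)
    have : ((g₀ (ix (i + 1)) 2 : ℕ) : ℝ) ≤ ((g₀ (ix i) 2 + μ : ℕ) : ℝ) := by
      push_cast
      nlinarith
    exact_mod_cast this
  · intro j hj k hk hjk
    obtain ⟨-, -, u3, u4⟩ := gn j hj 2 (by norm_num)
    obtain ⟨-, -, v3, v4⟩ := gn k hk 2 (by norm_num)
    obtain ⟨-, -, s3, s4⟩ := gn j hj 3 le_rfl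
    obtain ⟨-, -, t3, t4⟩ := gn k hk 3 le_rfl
    have h5 := hmul (hexc j hj k hk hjk)
    have : ((g₀ (ix k) 2 + g₀ (ix j) 3 : ℕ) : ℝ) ≤ ((g₀ (ix j) 2 + g₀ (ix k) 3 + μ : ℕ) : ℝ) := by
      push_cast
      nlinarith
    exact_mod_cast this
  · intro j hj k hk hjk
    rcases Nat.lt_or_ge j k with h | h
    swap
    · rw [le_antisymm hjk h]
    · obtain ⟨-, -, u3, u4⟩ := gn j hj 2 (by norm_num)
      obtain ⟨-, -, v3, v4⟩ := gn k hk 2 (by norm_num)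
      have h5 := hmul (hm2 j hj k hk h)
      have : ((g₀ (ix j) 2 : ℕ) : ℝ) ≤ ((g₀ (ix k) 2 : ℕ) : ℝ) := by nlinarith
      exact_mod_cast this
  · intro j hj k hk hjk
    obtain ⟨-, -, u3, u4⟩ := gn j hj 2 (by norm_num)
    obtain ⟨-, -, v3, v4⟩ := gn k hk 2 (by norm_num)
    have h5 := hmul (hgn j hj k hk hjk)
    have hoj : 0 ≤ o (ix j) := (W.wb.ho (ix j) (hnum j hj).1).1
    have hok : 0 ≤ o (ix k) := (W.wb.ho (ix k) (hnum k hk).1).1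
    have q1 : (⌊o (ix k) * J⌋₊ : ℝ) ≤ o (ix k) * J := Nat.floor_le (mul_nonneg hok hJ0)
    have q2 : o (ix j) * J < ⌊o (ix j) * J⌋₊ + 1 := Nat.lt_floor_add_one _
    have hle := hwm j hj k hk hjk
    have : ((g₀ (ix j) 2 + (⌊o (ix k) * J⌋₊ - ⌊o (ix j) * J⌋₊) : ℕ) : ℝ) ≤
        ((g₀ (ix k) 2 + μ : ℕ) : ℝ) := by
      push_cast [Nat.cast_sub hle]
      have e5 : (lv (ix j) 2 + (o (ix k) - o (ix j))) * J =
        lv (ix j) 2 * J + (o (ix k) * J - o (ix j) * J) := by ring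
      have e6 : (lv (ix k) 2 + δ) * J = lv (ix k) 2 * J + δ * J := by ring
      linarith
    exact_mod_cast this

end Pool.CRC82
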