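import Pool.Agent.H82.CRC.Cmb
import Pool.Agent.H99.D2.Une

/-!
# The variation of the slope

`var_gro`: growth to a larger window. `Npw.var_dn`: the slope variation of a smaller window.
`var_rel`: from own values near a closed number. `var_triv`: the trivial bound.
-/

set_option autoImplicit false

namespace Pool.CRC82

open Finset Real MvPolynomial
open Pool.Agent.H49.Ent Pool.Agent.H32.Dense Pool.STK Pool.KA Pool.KSAT Pool.K2S Pool.PB Pool.S6C
open Pool.GEN Pool.CHT Pool.CHX Pool.ISO Pool.D2R Pool.V1E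
open Pool.PB.Trl (rt rt_mem t_rt)
open Pool.CNC28 (ptw_at tel_sum)
open Pool.CNC76 (Clo)

/-- **Growth**: the variation on a larger window. -/
theorem var_gro (D : ℕ) : ∃ C : ℝ, 1 ≤ C ∧ ∀ {m J : ℕ} {F : Fam m J} {c : ℕ → Fin m}
    {w w' ν g g' : ℕ} {ω : F.Ω} {P : MvPolynomial (Option (Fin m)) ℝ} {x : ℝ}, w ≤ w' → w' ≤ J →
    P.totalDegree ≤ D → 0 ≤ x → g ≤ g' → VarB F c w' ν g' ω P x →
    VarB F c w ν g ω P (C * 2 ^ ((w' - w + (g' - g) + 1) * D) * x) := by
  obtain ⟨C₀, hC, hgro⟩ := Pool.CHT.grow_one D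
  refine ⟨2 * C₀, by linarith, ?_⟩
  intro m J F c w w' ν g g' ω P x hw hw' hP hx hgg hV
  obtain ⟨q, hq, hpt⟩ := ptw_nest F hw hw' ω
  obtain ⟨n, hn⟩ : ∃ n, n = w' - w := ⟨_, rfl⟩
  rw [← hn] at hq hpt ⊢
  obtain ⟨σ₀, hσ₀⟩ : ∃ σ₀ : ℝ, σ₀ = ((q : ℝ) + 1 / 2) / 2 ^ n := ⟨_, rfl⟩
  have hσ0m : σ₀ ∈ Set.Icc (0 : ℝ) 1 := by
    rw [hσ₀]
    exact nest_mem hq ⟨by norm_num, by norm_num⟩
  obtain ⟨c₁, hc₁⟩ : ∃ c₁ : ℝ, c₁ = eval (ptw F w ω σ₀) P := ⟨_, rfl⟩
  have hc₁' : c₁ = eval (ptw F w' ω (1 / 2)) P := by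
    rw [hc₁, hpt (1 / 2), hσ₀]
  obtain ⟨N, hN⟩ : ∃ N : ℕ, N = n + (g' - g) + 1 := ⟨_, rfl⟩
  have hPd : (P - C c₁).totalDegree ≤ D :=
    (totalDegree_sub _ _).trans (max_le hP (by rw [totalDegree_C]; exact Nat.zero_le _))
  have hn2 : (0 : ℝ) < 2 ^ n := by positivity
  have hN2 : (0 : ℝ) < 2 ^ N := by positivity
  have hnN : (2 : ℝ) * 2 ^ n ≤ 2 ^ N := by
    rw [← pow_succ']
    exact pow_le_pow_right₀ (by norm_num) (by omega)
  have key : ∀ σ ∈ Set.Icc (0 : ℝ) 1, ∀ y : ℝ, |y| ≤ 4 * (2 ^ ν / 2 ^ g) →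
      |eval (Function.update (ptw F w ω σ) (some (c 2)) (ptw F w ω σ (some (c 2)) + y)) P - c₁| ≤
        C₀ * 2 ^ (N * D) * x := by
    intro σ hσ y hy
    obtain ⟨f, hf⟩ : ∃ f : Polynomial ℝ, f = MvPolynomial.aeval
        (fun o => (lc w (slam F w ω) o).comp (Polynomial.C σ₀ + Polynomial.C (σ - σ₀) *
          Polynomial.X) + Polynomial.C (if o = some (c 2) then y else 0) * Polynomial.X)
        (P - C c₁) := ⟨_, rfl⟩
    have hfe : ∀ s, f.eval s = eval (Function.update (ptw F w ω (σ₀ + (σ - σ₀) * s)) (some (c 2))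
        (ptw F w ω (σ₀ + (σ - σ₀) * s) (some (c 2)) + y * s)) P - c₁ := fun s => by
      rw [hf, Pool.UNJ.eval_aeval_poly, map_sub, eval_C]
      congr 1
      refine congrArg (fun z => eval z P) (funext fun o => ?_)
      simp only [Polynomial.eval_add, Polynomial.eval_mul, Polynomial.eval_C, Polynomial.eval_X,
        Polynomial.eval_comp]
      by_cases ho : o = some (c 2)
      · rw [ho, Function.update_self, if_pos rfl]
        rfl
      · rw [Function.update_of_ne ho, if_neg ho, zero_mul, add_zero]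
        rfl
    have hfd : f.natDegree ≤ D := by
      rw [hf]
      refine Pool.UNJ.natDegree_aeval_le _ _ (fun o => ?_) hPd
      refine (Polynomial.natDegree_add_le _ _).trans (max_le ?_ ?_)
      · refine (Polynomial.natDegree_comp_le).trans ?_
        have h1 : (lc w (slam F w ω) o).natDegree ≤ 1 := by
          cases o with
          | none =>
            unfold lc
            compute_degree
          | some j =>
            unfold lc
            refine (Polynomial.natDegree_add_le _ _).trans (max_le (by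
              rw [Polynomial.natDegree_C]
              exact Nat.zero_le _) ?_)
            refine Polynomial.natDegree_C_mul_le _ _ |>.trans ?_
            compute_degree
        have h2 : (Polynomial.C σ₀ + Polynomial.C (σ - σ₀) * Polynomial.X).natDegree ≤ 1 := by
          compute_degree
        calc _ ≤ 1 * 1 := Nat.mul_le_mul h1 h2
          _ = 1 := by norm_num
      · compute_degree
    have h1 := hgro f x N D hfd le_rfl (fun t ht => by
      rw [hfe]
      obtain ⟨τ, hτ⟩ : ∃ τ : ℝ, τ = 2 ^ n * (σ₀ + (σ - σ₀) * (t / 2 ^ N)) - q := ⟨_, rfl⟩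
      have e1 : σ₀ + (σ - σ₀) * (t / 2 ^ N) = ((q : ℝ) + τ) / 2 ^ n := by
        rw [hτ]
        field_simp
        ring
      have e2 : τ = 1 / 2 + (σ - σ₀) * t * (2 ^ n / 2 ^ N) := by
        rw [hτ, hσ₀]
        field_simp
        ring
      have e3 : |(σ - σ₀) * t| ≤ 1 := by
        rw [abs_mul]
        have a1 : |σ - σ₀| ≤ 1 := by
          rw [abs_le]
          constructor <;> linarith [hσ.1, hσ.2, hσ0m.1, hσ0m.2]
        have a2 : |t| ≤ 1 := by rw [abs_of_nonneg ht.1]; exact ht.2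
        calc |σ - σ₀| * |t| ≤ 1 * 1 := mul_le_mul a1 a2 (abs_nonneg _) (by norm_num)
          _ = 1 := by norm_num
      have e4 : 2 ^ n / 2 ^ N ≤ (1 : ℝ) / 2 := by
        rw [div_le_div_iff₀ hN2 (by norm_num)]
        linarith
      have e5 : (0 : ℝ) ≤ 2 ^ n / 2 ^ N := by positivity
      have hτm : τ ∈ Set.Icc (0 : ℝ) 1 := by
        rw [abs_le] at e3
        rw [e2]
        constructor <;> nlinarith [e3.1, e3.2]
      rw [e1, ← hpt τ, hc₁']
      refine hV τ hτm (1 / 2) ⟨by norm_num, by norm_num⟩ _ ?_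
      have e6 : |y * (t / 2 ^ N)| ≤ |y| * (1 / 2 ^ N) := by
        rw [abs_mul, abs_div, abs_of_nonneg ht.1, abs_of_pos hN2]
        exact mul_le_mul_of_nonneg_left (div_le_div_of_nonneg_right ht.2 hN2.le) (abs_nonneg _)
      refine e6.trans ((mul_le_mul_of_nonneg_right hy (by positivity)).trans ?_)
      rw [mul_assoc]
      refine mul_le_mul_of_nonneg_left ?_ (by norm_num)
      rw [div_mul_div_comm, mul_one, ← pow_add]
      exact div_le_div_of_nonneg_left (by positivity) (by positivity)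
        (pow_le_pow_right₀ (by norm_num) (by omega)))
    rw [hfe, mul_one, mul_one] at h1
    have e1 : σ₀ + (σ - σ₀) = σ := by ring
    rw [e1] at h1
    exact h1
  intro τ hτ τ' hτ' y hy
  have k1 := key τ hτ y hy
  have k2 := key τ' hτ' 0 (by rw [abs_zero]; positivity)
  rw [add_zero, Function.update_eq_self] at k2
  have e1 : eval (Function.update (ptw F w ω τ) (some (c 2)) (ptw F w ω τ (some (c 2)) + y)) P -
      eval (ptw F w ω τ') P =
      (eval (Function.update (ptw F w ω τ) (some (c 2)) (ptw F w ω τ (some (c 2)) + y)) P - c₁) -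
        (eval (ptw F w ω τ') P - c₁) := by ring
  rw [e1]
  refine (abs_sub _ _).trans ((add_le_add k1 k2).trans (le_of_eq ?_))
  rw [hN]
  ring

end Pool.CRC82
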