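import Pool.Agent.H82.CRC.Cmd

/-!
# The variation of the slope of `N`

`var_rel`: from own values near a closed number. `var_triv`: the trivial bound. `var_dn`, `var_up`:
smaller and larger windows.
-/

set_option autoImplicit false

namespace Pool.CRC82

open Finset Real MvPolynomial
open Pool.Agent.H49.Ent Pool.Agent.H32.Dense Pool.STK Pool.KA Pool.KSAT Pool.K2S Pool.PB Pool.S6C
open Pool.GEN Pool.CHT Pool.CHX Pool.ISO Pool.D2R Pool.V1E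
open Pool.PB.Trl (rt rt_mem t_rt)
open Pool.CNC28 (ptw_at tel_sum)
open Pool.CNC76 (Clo)

/-- The slope variation of the window `k`. -/
def SlB {m J : ℕ} (F : Fam m J) (c : ℕ → Fin m) (ν : ℕ) (w : ℕ → ℕ) (g : ℕ → ℕ → ℕ)
    (G : ℕ → PtT F → ℕ → MvPolynomial (Option (Fin m)) ℝ) (k : ℕ) (ω : F.Ω) (x : ℝ) : Prop :=
  VarB F c (w k) ν (g k 2) ω (pderiv (some (c 2)) (G k (ptr F J ω) 3)) x

theorem SlB.mono {m J : ℕ} {F : Fam m J} {c : ℕ → Fin m} {ν : ℕ} {w : ℕ → ℕ} {g : ℕ → ℕ → ℕ}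
    {G : ℕ → PtT F → ℕ → MvPolynomial (Option (Fin m)) ℝ} {k : ℕ} {ω : F.Ω} {x x' : ℝ}
    (h : SlB F c ν w g G k ω x) (hx : x ≤ x') : SlB F c ν w g G k ω x' := VarB.mono h hx

/-- **From own values near a closed number.** -/
theorem var_rel (D : ℕ) : ∃ C : ℕ, 1 ≤ C ∧ ∀ {m J : ℕ} {F : Fam m J} {c : ℕ → Fin m}
    {B : F.Ω → Prop} {n Dr ν μ h : ℕ} {κ : ℝ} {w : ℕ → ℕ} {g : ℕ → ℕ → ℕ}
    {G : ℕ → PtT F → ℕ → MvPolynomial (Option (Fin m)) ℝ}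
    {H : ℕ → LnT F → ℕ → MvPolynomial (Option (Fin m)) ℝ},
    Npw F c B n D Dr ν μ h κ w g G H → D ≤ Dr → Set.InjOn c (Set.Iio 3) → ∀ {j : ℕ}, j ≤ n →
    ∀ {B₁ : F.Ω → Prop} {K₀ : F.Ω → ℝ} {X : ℝ}, Sub B₁ B → κ * Pe F.p B ≤ Pe F.p B₁ →
    Clo B₁ (ptr F J) (slam F (w j)) K₀ → 0 < X →
    (∀ ω, B₁ ω → |eval (bt F ω) (pderiv (some (c 2)) (G j (ptr F J ω) 3)) - K₀ ω| ≤ X) →
    ∃ B₂ : F.Ω → Prop, Sub B₂ B₁ ∧ Pe F.p B₁ / 2 ≤ Pe F.p B₂ ∧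
      ∀ ω, B₂ ω → SlB F c ν w g G j ω (2 ^ (C * (μ + 1) + h) * X) := by
  obtain ⟨c₀, D₁, hD₁, hdil⟩ := nbx_dil 4 (fun _ => D)
  refine ⟨c₀ + 3 * D₁ + 1, by omega, ?_⟩
  intro m J F c B n Dr ν μ h κ w g G H W hDr hc j hj B₁ K₀ X hB hκ hK hX hown
  obtain ⟨κL, κG, k1, k2⟩ := Pool.CR99.clo_fun hK
  have hdC : ∀ (P : MvPolynomial (Option (Fin m)) ℝ) (x : ℝ), P.totalDegree ≤ D →
      (pderiv (some (c 2)) P - C x).totalDegree ≤ D := fun P x hP =>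
    (totalDegree_sub _ _).trans (max_le (totalDegree_pdσ hP _)
      (by rw [totalDegree_C]; exact Nat.zero_le _))
  have hpC : ∀ (P : MvPolynomial (Option (Fin m)) ℝ) (x : ℝ), DepC c 3 P →
      DepC c 3 (pderiv (some (c 2)) P - C x) := fun P x hP => by
    refine depc_sub (hP.pderiv 2) ?_
    intro b b' _ _
    rw [eval_C, eval_C]
  obtain ⟨B₂, h1, h2, h3⟩ := W.relb j hj B₁ hB hκ
    (fun y => pderiv (some (c 2)) (G j y 3) - C (κG y))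
    (fun s => pderiv (some (c 2)) (H j s 3) - C (κL s)) X
    (fun y => (hdC _ _ (W.deg j hj y 3)).trans hDr)
    (fun s => (hdC _ _ (W.degH j hj s 3)).trans hDr)
    (fun y => hpC _ _ (W.dep j hj y 3)) (fun s => hpC _ _ (W.depH j hj s 3)) hX
    (fun ω hω => by
      rw [map_sub, eval_C, k1 ω hω]
      exact hown ω hω)
    (fun ω hω b _ => by
      rw [W.cls j hj ω (hB ω hω) 3 (by norm_num), k1 ω hω, k2 ω hω, sub_self, abs_zero]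
      exact hX.le)
  refine ⟨B₂, h1, h2, fun ω hω => ?_⟩
  have hωB : B ω := hB ω (h1 ω hω)
  have key : ∀ τ ∈ Set.Icc (0 : ℝ) 1, ∀ y : ℝ, |y| ≤ 4 * (2 ^ ν / 2 ^ g j 2) →
      |eval (Function.update (ptw F (w j) ω τ) (some (c 2)) (ptw F (w j) ω τ (some (c 2)) + y))
        (pderiv (some (c 2)) (G j (ptr F J ω) 3) - C (κG (ptr F J ω)))| ≤
        2 ^ (c₀ + (ν + 3) * D₁) * (2 ^ h * X) := by
    intro τ hτ y hy
    obtain ⟨f1, f2⟩ := W.fat hc hj le_rfl hωB hτ hy rfl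
    exact hdil (c := c) (i := 3) (G := G j (ptr F J ω)) (g := g j) (a := w j) (t := F.t ω)
      (ν + 3) (by norm_num) hc (W.deg j hj _) (W.dep j hj _) (hpC _ _ (W.dep j hj _ 3))
      (hdC _ _ (W.deg j hj _ 3)) (by positivity) (fun b hb => h3 ω hω b hb) _ f1 f2
  intro τ hτ τ' hτ' y hy
  have e1 := key τ hτ y hy
  have e2 := key τ' hτ' 0 (by rw [abs_zero]; positivity)
  rw [add_zero, Function.update_eq_self] at e2
  rw [map_sub, eval_C] at e1 e2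
  have e3 : ∀ a b d : ℝ, a - b = (a - d) - (b - d) := fun a b d => by ring
  rw [e3 _ _ (κG (ptr F J ω))]
  refine (abs_sub _ _).trans ((add_le_add e1 e2).trans ?_)
  have e4 : 2 ^ (c₀ + (ν + 3) * D₁) * (2 ^ h * X) + 2 ^ (c₀ + (ν + 3) * D₁) * (2 ^ h * X) =
      2 ^ (c₀ + (ν + 3) * D₁ + 1 + h) * X := by
    rw [pow_add _ _ h, pow_succ]
    ring
  rw [e4]
  refine mul_le_mul_of_nonneg_right (pow_le_pow_right₀ (by norm_num) ?_) hX.le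
  have e5 : (c₀ + 3 * D₁ + 1) * (μ + 1) = c₀ * μ + 3 * (D₁ * μ) + μ + c₀ + 3 * D₁ + 1 := by ring
  have e6 : (ν + 3) * D₁ = D₁ * ν + 3 * D₁ := by ring
  have e7 : D₁ * ν ≤ D₁ * μ := Nat.mul_le_mul_left _ W.νμ
  rw [e5, e6]
  generalize D₁ * ν = p1 at *
  generalize D₁ * μ = p2 at *
  generalize c₀ * μ = p3 at *
  omega

/-- **The trivial bound.** -/
theorem var_triv (D : ℕ) : ∃ C : ℕ, 1 ≤ C ∧ ∀ {m J : ℕ} {F : Fam m J} {c : ℕ → Fin m}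
    {B : F.Ω → Prop} {n Dr ν μ h : ℕ} {κ : ℝ} {w : ℕ → ℕ} {g : ℕ → ℕ → ℕ}
    {G : ℕ → PtT F → ℕ → MvPolynomial (Option (Fin m)) ℝ}
    {H : ℕ → LnT F → ℕ → MvPolynomial (Option (Fin m)) ℝ},
    Npw F c B n D Dr ν μ h κ w g G H → D ≤ Dr → Set.InjOn c (Set.Iio 3) → ∀ {j : ℕ}, j ≤ n →
    ∀ {B₁ : F.Ω → Prop}, Sub B₁ B → κ * Pe F.p B ≤ Pe F.p B₁ →
    ∃ B₂ : F.Ω → Prop, Sub B₂ B₁ ∧ Pe F.p B₁ / 2 ≤ Pe F.p B₂ ∧
      ∀ ω, B₂ ω → SlB F c ν w g G j ω (2 ^ (C * (μ + 1) + h) * 2 ^ g j 2) := by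
  obtain ⟨c₀, D₁, hD₁, hgr⟩ := grd_top 4 (fun _ => D)
  refine ⟨c₀ + 3 * D₁ + 3, by omega, ?_⟩
  intro m J F c B n Dr ν μ h κ w g G H W hDr hc j hj B₁ hB hκ
  have hwJ := W.wJ j hj
  have hdC : ∀ (P : MvPolynomial (Option (Fin m)) ℝ) (x : ℝ), P.totalDegree ≤ D →
      (P - C x).totalDegree ≤ D := fun P x hP =>
    (totalDegree_sub _ _).trans (max_le hP (by rw [totalDegree_C]; exact Nat.zero_le _))
  have hpC : ∀ (P : MvPolynomial (Option (Fin m)) ℝ) (x : ℝ), DepC c 3 P →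
      DepC c 3 (P - C x) := fun P x hP => by
    refine depc_sub hP ?_
    intro b b' _ _
    rw [eval_C, eval_C]
  have hκd : ∀ ω, |(((ptr F J ω).1 (c 3) : ℤ) : ℝ) / 2 ^ J - F.x ω (c 3)| ≤ 1 := fun ω =>
    (Pool.PB.Trl.x_near F J ω (c 3)).trans (by
      rw [div_le_one (by positivity)]
      exact one_le_pow₀ (by norm_num))
  have hκl : ∀ ω, |F.x ω (c 3) - (lc (w j) (slam F (w j) ω) (some (c 3))).eval 0| ≤ 1 := by
    intro ω
    have e1 : (lc (w j) (slam F (w j) ω) (some (c 3))).eval 0 = ptw F (w j) ω 0 (some (c 3)) := rfl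
    rw [e1, ptw_at F hwJ]
    have e2 : F.x ω (c 3) - (bt F ω (some (c 3)) + (0 - rt F (w j) ω) / 2 ^ w j *
        bd F ω (some (c 3))) = rt F (w j) ω / 2 ^ w j * F.d ω (c 3) := by
      show F.x ω (c 3) - (F.x ω (c 3) + (0 - rt F (w j) ω) / 2 ^ w j * F.d ω (c 3)) = _
      ring
    show |F.x ω (c 3) - (bt F ω (some (c 3)) + (0 - rt F (w j) ω) / 2 ^ w j *
        bd F ω (some (c 3)))| ≤ 1
    rw [e2, abs_mul, abs_div, abs_of_pos (by positivity : (0 : ℝ) < 2 ^ w j)]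
    have h1 := rt_mem F (w j) ω
    have h2 : |rt F (w j) ω| / 2 ^ w j ≤ 1 := by
      rw [div_le_one (by positivity), abs_of_nonneg h1.1]
      exact h1.2.trans (one_le_pow₀ (by norm_num))
    calc |rt F (w j) ω| / 2 ^ w j * |F.d ω (c 3)| ≤ 1 * 1 :=
          mul_le_mul h2 (F.dir ω (c 3)) (abs_nonneg _) (by norm_num)
      _ = 1 := by norm_num
  have hν1 : (1 : ℝ) ≤ 2 ^ ν := one_le_pow₀ (by norm_num)
  obtain ⟨B₂, h1, h2, h3⟩ := W.relb j hj B₁ hB hκ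
    (fun y => G j y 3 - C (((y.1 (c 3) : ℤ) : ℝ) / 2 ^ J))
    (fun s => H j s 3 - C ((lc (w j) s (some (c 3))).eval 0)) (2 ^ (ν + 1))
    (fun y => (hdC _ _ (W.deg j hj y 3)).trans hDr)
    (fun s => (hdC _ _ (W.degH j hj s 3)).trans hDr)
    (fun y => hpC _ _ (W.dep j hj y 3)) (fun s => hpC _ _ (W.depH j hj s 3)) (by positivity)
    (fun ω hω => by
      rw [map_sub, eval_C]
      have a1 := W.own j hj ω (hB ω hω) 3 le_rfl (rt F (w j) ω)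
        (rt_mem F (w j) ω)
      rw [ptw_rt F hwJ] at a1
      have a2 : (2 : ℝ) ^ ν / 2 ^ g j 3 ≤ 2 ^ ν := div_le_self (by positivity)
        (one_le_pow₀ (by norm_num))
      have a3 := hκd ω
      have a4 : bt F ω (some (c 3)) = F.x ω (c 3) := rfl
      rw [a4] at a1
      rw [pow_succ]
      rw [abs_le] at a1 a3 ⊢
      constructor <;> linarith [a1.1, a1.2, a3.1, a3.2])
    (fun ω hω b _ => by
      rw [map_sub, map_sub, eval_C, eval_C, W.cls j hj ω (hB ω hω) 3 (by norm_num)]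
      have a1 := hκd ω
      have a2 := hκl ω
      rw [pow_succ]
      rw [abs_le] at a1 a2 ⊢
      constructor <;> linarith [a1.1, a1.2, a2.1, a2.2])
  refine ⟨B₂, h1, h2, fun ω hω => ?_⟩
  have hωB : B ω := hB ω (h1 ω hω)
  have key : ∀ τ ∈ Set.Icc (0 : ℝ) 1, ∀ y : ℝ, |y| ≤ 4 * (2 ^ ν / 2 ^ g j 2) →
      |eval (Function.update (ptw F (w j) ω τ) (some (c 2)) (ptw F (w j) ω τ (some (c 2)) + y))
        (pderiv (some (c 2)) (G j (ptr F J ω) 3))| ≤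
        2 ^ (c₀ + (ν + 3) * D₁) * (2 ^ h * 2 ^ (ν + 1)) * 2 ^ g j 2 := by
    intro τ hτ y hy
    obtain ⟨f1, f2⟩ := W.fat hc hj le_rfl hωB hτ hy rfl
    have h4 := hgr (c := c) (i := 2) (G := G j (ptr F J ω)) (g := g j) (a := w j) (t := F.t ω)
      (ν + 3) (by norm_num) hc (W.deg j hj _) (W.dep j hj _) (hpC _ _ (W.dep j hj _ 3))
      (hdC _ _ (W.deg j hj _ 3)) (by positivity) (fun b hb => h3 ω hω b hb) _ f1 f2
    rwa [map_sub, pderiv_C, sub_zero] at h4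
  intro τ hτ τ' hτ' y hy
  have e1 := key τ hτ y hy
  have e2 := key τ' hτ' 0 (by rw [abs_zero]; positivity)
  rw [add_zero, Function.update_eq_self] at e2
  refine (abs_sub _ _).trans ((add_le_add e1 e2).trans ?_)
  have e4 : 2 ^ (c₀ + (ν + 3) * D₁) * (2 ^ h * 2 ^ (ν + 1)) * 2 ^ g j 2 +
      2 ^ (c₀ + (ν + 3) * D₁) * (2 ^ h * 2 ^ (ν + 1)) * 2 ^ g j 2 =
      (2 : ℝ) ^ (c₀ + (ν + 3) * D₁ + h + (ν + 1) + 1) * 2 ^ g j 2 := by
    rw [pow_succ _ (c₀ + (ν + 3) * D₁ + h + (ν + 1)), pow_add _ _ (ν + 1), pow_add _ _ h]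
    ring
  rw [e4]
  refine mul_le_mul_of_nonneg_right (pow_le_pow_right₀ (by norm_num) ?_) (by positivity)
  have e5 : (c₀ + 3 * D₁ + 3) * (μ + 1) = c₀ * μ + 3 * (D₁ * μ) + 3 * μ + c₀ + 3 * D₁ + 3 := by
    ring
  have e6 : (ν + 3) * D₁ = D₁ * ν + 3 * D₁ := by ring
  have e7 : D₁ * ν ≤ D₁ * μ := Nat.mul_le_mul_left _ W.νμ
  have e8 := W.νμ
  rw [e5, e6]
  generalize D₁ * ν = p1 at *
  generalize D₁ * μ = p2 at *
  generalize c₀ * μ = p3 at *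
  omega

/-- **Smaller and larger windows.** -/
theorem var_win (D : ℕ) : ∃ C : ℕ, 1 ≤ C ∧ ∀ {m J : ℕ} {F : Fam m J} {c : ℕ → Fin m}
    {B : F.Ω → Prop} {n Dr ν μ h : ℕ} {κ : ℝ} {w : ℕ → ℕ} {g : ℕ → ℕ → ℕ}
    {G : ℕ → PtT F → ℕ → MvPolynomial (Option (Fin m)) ℝ}
    {H : ℕ → LnT F → ℕ → MvPolynomial (Option (Fin m)) ℝ},
    Npw F c B n D Dr ν μ h κ w g G H → Set.InjOn c (Set.Iio 3) → ∀ {j i : ℕ}, i ≤ n → j ≤ i →
    ∀ {ω : F.Ω}, B ω → ∀ {x : ℝ}, 0 ≤ x →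
    (SlB F c ν w g G j ω x → SlB F c ν w g G i ω
      ((n + 1) * 2 ^ (C * (μ + 1)) * (x / 2 ^ (w i - w j) + 2 ^ g j 2 / 2 ^ g j 3))) ∧
    (SlB F c ν w g G i ω x → SlB F c ν w g G j ω
      ((n + 1) * 2 ^ (C * ((w i - w j) + (g i 2 - g j 2) + μ + 1)) *
        (x + 2 ^ g j 2 / 2 ^ g j 3))) := by
  obtain ⟨C₁, hC₁, htel⟩ := tel_slp D
  obtain ⟨C₂, hC₂, hsub⟩ := var_sub D
  obtain ⟨C₃, hC₃, hgro⟩ := var_gro D
  obtain ⟨a₂, ha₂⟩ := pow_unbounded_of_one_lt C₂ (one_lt_two (α := ℝ))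
  obtain ⟨a₃, ha₃⟩ := pow_unbounded_of_one_lt C₃ (one_lt_two (α := ℝ))
  refine ⟨C₁ + a₂ + a₃ + 2 * D + 3, by omega, ?_⟩
  intro m J F c B n Dr ν μ h κ w g G H W hc j i hi hji ω hω x hx
  have hj : j ≤ n := hji.trans hi
  have hww := W.wm j hj i hi hji
  have hwJ := W.wJ i hi
  have hgg := W.mon j hj i hi hji
  obtain ⟨Rj, hRj⟩ : ∃ Rj : ℝ, Rj = 2 ^ g j 2 / 2 ^ g j 3 := ⟨_, rfl⟩
  have hR0 : 0 < Rj := by rw [hRj]; positivity
  obtain ⟨Z, hZ⟩ : ∃ Z : ℝ, Z = (n + 1) * (2 ^ (C₁ * (μ + 1)) * Rj) := ⟨_, rfl⟩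
  have hZ0 : 0 ≤ Z := by rw [hZ]; positivity
  have ht : ∀ τ ∈ Set.Icc (0 : ℝ) 1, ∀ y : ℝ, |y| ≤ 4 * (2 ^ ν / 2 ^ g i 2) →
      |eval (Function.update (ptw F (w i) ω τ) (some (c 2)) (ptw F (w i) ω τ (some (c 2)) + y))
        (pderiv (some (c 2)) (G i (ptr F J ω) 3)) -
      eval (Function.update (ptw F (w i) ω τ) (some (c 2)) (ptw F (w i) ω τ (some (c 2)) + y))
        (pderiv (some (c 2)) (G j (ptr F J ω) 3))| ≤ Z := fun τ hτ y hy => by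
    have h1 := htel W hc j i hi hji ω hω τ hτ y hy
    rwa [← hRj, ← hZ] at h1
  have hdj : (pderiv (some (c 2)) (G j (ptr F J ω) 3)).totalDegree ≤ D :=
    totalDegree_pdσ (W.deg j hj _ 3) _
  have hn0 : (0 : ℝ) ≤ n := Nat.cast_nonneg n
  rw [← hRj]
  constructor
  · intro hV
    have h1 := hsub hww hwJ hdj hx hgg (W.gn j hj i hi hji) hV
    have h2 := VarB.near h1 ht
    refine VarB.mono h2 ?_
    obtain ⟨y, hy⟩ : ∃ y : ℝ, y = x / 2 ^ (w i - w j) := ⟨_, rfl⟩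
    have hy0 : 0 ≤ y := by rw [hy]; positivity
    have e1 : C₂ * x * (2 ^ μ / 2 ^ (w i - w j)) = C₂ * 2 ^ μ * y := by
      rw [hy]
      ring
    rw [e1, hZ, ← hy]
    obtain ⟨E, hE⟩ : ∃ E : ℝ, E = 2 ^ ((C₁ + a₂ + a₃ + 2 * D + 3) * (μ + 1)) := ⟨_, rfl⟩
    rw [← hE]
    have hE0 : 0 < E := by rw [hE]; positivity
    have q1 : C₂ * 2 ^ μ ≤ E := by
      rw [hE]
      calc C₂ * 2 ^ μ ≤ 2 ^ a₂ * 2 ^ μ := mul_le_mul_of_nonneg_right ha₂.le (by positivity)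
        _ = 2 ^ (a₂ + μ) := (pow_add _ _ _).symm
        _ ≤ _ := pow_le_pow_right₀ (by norm_num) (by nlinarith)
    have q2 : 2 * (2 : ℝ) ^ (C₁ * (μ + 1)) ≤ E := by
      rw [hE, ← pow_succ']
      refine pow_le_pow_right₀ (by norm_num) ?_
      have : C₁ * (μ + 1) + 1 ≤ C₁ * (μ + 1) + (a₂ + a₃ + 2 * D + 3) * (μ + 1) := by nlinarith
      refine this.trans (le_of_eq (by ring))
    have q3 := mul_le_mul_of_nonneg_right q1 hy0
    have q4 := mul_le_mul_of_nonneg_right q2 hR0.le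
    have q5 : (n + 1) * E * (y + Rj) = (n + 1) * (E * Rj) + (E * y + n * (E * y)) := by ring
    have q6 : 0 ≤ n * (E * y) := by positivity
    have q7 : 2 * ((n + 1) * (2 ^ (C₁ * (μ + 1)) * Rj)) ≤ (n + 1) * (E * Rj) := by
      have := mul_le_mul_of_nonneg_left q4 (by linarith : (0 : ℝ) ≤ n + 1)
      linarith
    linarith
  · intro hV
    have h2 : VarB F c (w i) ν (g i 2) ω (pderiv (some (c 2)) (G j (ptr F J ω) 3)) (x + 2 * Z) :=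
      VarB.near hV fun τ hτ y hy => by
        rw [abs_sub_comm]
        exact ht τ hτ y hy
    have h3 := hgro hww hwJ hdj (by linarith) hgg h2
    refine VarB.mono h3 ?_
    obtain ⟨E, hE⟩ : ∃ E : ℝ, E = 2 ^ ((C₁ + a₂ + a₃ + 2 * D + 3) *
      ((w i - w j) + (g i 2 - g j 2) + μ + 1)) := ⟨_, rfl⟩
    obtain ⟨p, hp⟩ : ∃ p, p = (w i - w j) + (g i 2 - g j 2) := ⟨_, rfl⟩
    obtain ⟨A, hA⟩ : ∃ A : ℝ, A = C₃ * 2 ^ ((w i - w j + (g i 2 - g j 2) + 1) * D) := ⟨_, rfl⟩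
    rw [← hE, ← hA, hZ]
    rw [← hp] at hE hA
    have hE0 : 0 < E := by rw [hE]; positivity
    have hA0 : 0 < A := by rw [hA]; positivity
    have hA1 : A ≤ 2 ^ (a₃ + (p + 1) * D) := by
      rw [hA, pow_add]
      exact mul_le_mul_of_nonneg_right ha₃.le (by positivity)
    have hDp : (p + 1) * D = D * p + D := by ring
    have q1 : A ≤ E := by
      refine hA1.trans ?_
      rw [hE]
      refine pow_le_pow_right₀ (by norm_num) ?_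
      have : (C₁ + a₂ + a₃ + 2 * D + 3) * (p + μ + 1) = a₃ + (D * p + D) +
        ((C₁ + a₂ + D + 3) * (p + μ + 1) + a₃ * (p + μ) + D * μ) := by ring
      rw [this, hDp]
      exact Nat.le_add_right _ _
    have q2 : 2 * A * (2 : ℝ) ^ (C₁ * (μ + 1)) ≤ E := by
      have r1 : 2 * A * (2 : ℝ) ^ (C₁ * (μ + 1)) ≤
          2 * 2 ^ (a₃ + (p + 1) * D) * 2 ^ (C₁ * (μ + 1)) := by gcongr
      refine r1.trans ?_
      rw [← pow_succ', ← pow_add, hE]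
      refine pow_le_pow_right₀ (by norm_num) ?_
      have : (C₁ + a₂ + a₃ + 2 * D + 3) * (p + μ + 1) = a₃ + (D * p + D) + 1 + C₁ * (μ + 1) +
        ((a₂ + D + 2) * (p + μ + 1) + (p + μ) + a₃ * (p + μ) + D * μ + C₁ * p) := by ring
      rw [this, hDp]
      exact Nat.le_add_right _ _
    have q3 := mul_le_mul_of_nonneg_right q1 hx
    have q4 := mul_le_mul_of_nonneg_right q2 hR0.le
    have q5 : (n + 1) * E * (x + Rj) = (n + 1) * (E * Rj) + (E * x + n * (E * x)) := by ring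
    have q6 : 0 ≤ n * (E * x) := by positivity
    have q7 := mul_le_mul_of_nonneg_left q4 (by linarith : (0 : ℝ) ≤ n + 1)
    have q8 : A * (x + 2 * ((n + 1) * (2 ^ (C₁ * (μ + 1)) * Rj))) =
        A * x + (n + 1) * (2 * A * 2 ^ (C₁ * (μ + 1)) * Rj) := by ring
    rw [q8]
    linarith

end Pool.CRC82
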