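import Pool.Agent.H82.CRC.Cme
import Pool.Agent.H82.CRC.Crs
import Pool.Agent.H28.CNC.Nev
import Pool.Agent.H99.FLF.PIG

/-!
# The chain of the windows without the slope line

`rlb`: the exponents of `N` from the variation of the slope. `chn_var`: the chain.
-/

set_option autoImplicit false

namespace Pool.CRC82

open Finset Real MvPolynomial
open Pool.Agent.H49.Ent Pool.Agent.H32.Dense Pool.STK Pool.KA Pool.KSAT Pool.K2S Pool.PB Pool.S6C
open Pool.GEN Pool.CHT Pool.CHX Pool.ISO Pool.D2R Pool.V1E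
open Pool.PB.Trl (rt rt_mem t_rt)
open Pool.AFF82 (AfN afc afp afs pul vlc eval_afs eval_pul pul_deg afp_afc afc_add pul_afc)
open Pool.CNC28
open Pool.CNC76

/-- The unit of the variation. -/
theorem slb_pig {Ω : Type} [Fintype Ω] {p : Ω → ℝ} (hp : IsLaw p) {A : Ω → Prop}
    (Q : ℕ → Ω → Prop) {Ne : ℕ} (hNe : 1 ≤ Ne) (htr : ∀ ω, A ω → Q Ne ω) :
    ∃ e : ℕ, 1 ≤ e ∧ e ≤ Ne ∧ ∃ B : Ω → Prop, (∀ ω, B ω → A ω) ∧ Pe p A ≤ Ne * Pe p B ∧
      ∀ ω, B ω → Q e ω ∧ (e = 1 ∨ ¬ Q (e - 1) ω) := by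
  classical
  obtain ⟨f, hf⟩ : ∃ f : Ω → ℕ, f = fun ω => if h : ∃ e, 1 ≤ e ∧ Q e ω then Nat.find h else 1 :=
    ⟨_, rfl⟩
  have hex : ∀ ω, A ω → ∃ e, 1 ≤ e ∧ Q e ω := fun ω hω => ⟨Ne, hNe, htr ω hω⟩
  have hfe : ∀ ω (h : A ω), f ω = Nat.find (hex ω h) := fun ω h => by
    rw [hf]
    exact dif_pos (hex ω h)
  obtain ⟨e, he, hP⟩ := Pool.FLF.pigeon hp (A := A) f (Finset.Icc 1 Ne) ⟨1, by simp [hNe]⟩
    (fun ω hω => by
      rw [hfe ω hω, Finset.mem_Icc]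
      exact ⟨(Nat.find_spec (hex ω hω)).1, Nat.find_le ⟨hNe, htr ω hω⟩⟩)
  rw [Finset.mem_Icc] at he
  refine ⟨e, he.1, he.2, fun ω => A ω ∧ f ω = e, fun ω h => h.1, ?_, fun ω hω => ?_⟩
  · have h1 : (Finset.Icc 1 Ne).card = Ne := by simp
    rw [h1, div_le_iff₀ (by exact_mod_cast hNe)] at hP
    linarith
  · have h1 := hfe ω hω.1
    have h2 := Nat.find_spec (hex ω hω.1)
    rw [← h1, hω.2] at h2
    refine ⟨h2.2, ?_⟩
    by_cases h3 : e = 1
    · exact Or.inl h3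
    · refine Or.inr fun hQ => ?_
      have h4 : Nat.find (hex ω hω.1) ≤ e - 1 := Nat.find_le ⟨by omega, hQ⟩
      rw [← h1, hω.2] at h4
      omega

/-- The exponents: `v` for the windows `≥ kk`, `t₀` for the other windows. -/
def rlb (g : ℕ → ℕ → ℕ) (kk v t₀ k l : ℕ) : ℕ :=
  if l = 3 then (if k < kk then t₀ + (g k 2 - g 0 2) else v + (g k 2 - g kk 2)) else g k l

theorem rlb_ne {g : ℕ → ℕ → ℕ} {kk v t₀ k l : ℕ} (h : l ≠ 3) : rlb g kk v t₀ k l = g k l :=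
  if_neg h

theorem rlb_lt {g : ℕ → ℕ → ℕ} {kk v t₀ k : ℕ} (h : k < kk) :
    rlb g kk v t₀ k 3 = t₀ + (g k 2 - g 0 2) := by
  unfold rlb
  rw [if_pos rfl, if_pos h]

theorem rlb_ge {g : ℕ → ℕ → ℕ} {kk v t₀ k : ℕ} (h : kk ≤ k) :
    rlb g kk v t₀ k 3 = v + (g k 2 - g kk 2) := by
  unfold rlb
  rw [if_pos rfl, if_neg (by omega)]

theorem nbx_rlb {m : ℕ} {c : ℕ → Fin m} {G : ℕ → MvPolynomial (Option (Fin m)) ℝ}
    {g : ℕ → ℕ → ℕ} {kk v t₀ k a l : ℕ} {t : ℝ} {b : Option (Fin m) → ℝ} (hl : l ≤ 3)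
    (h : NBx c G (rlb g kk v t₀ k) a t l b) : NBx c G (g k) a t l b :=
  ⟨h.1, fun i hi => by
    have h1 := h.2 i hi
    rwa [rlb_ne (by omega)] at h1⟩

theorem nbx_rlb' {m : ℕ} {c : ℕ → Fin m} {G : ℕ → MvPolynomial (Option (Fin m)) ℝ}
    {g : ℕ → ℕ → ℕ} {kk v t₀ k a l : ℕ} {t : ℝ} {b : Option (Fin m) → ℝ} (hl : l ≤ 3)
    (h : NBx c G (g k) a t l b) : NBx c G (rlb g kk v t₀ k) a t l b :=
  ⟨h.1, fun i hi => by
    have h1 := h.2 i hi
    rwa [rlb_ne (by omega)]⟩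

/-- **The charts with the exponents of the variation.** -/
theorem rlb_nph (D : ℕ) : ∃ C : ℕ, 1 ≤ C ∧ ∀ {m J : ℕ} {F : Fam m J} {c : ℕ → Fin m}
    {B : F.Ω → Prop} {n Dr ν μ hr : ℕ} {κ : ℝ} {w : ℕ → ℕ} {g : ℕ → ℕ → ℕ}
    {G : ℕ → PtT F → ℕ → MvPolynomial (Option (Fin m)) ℝ}
    {H : ℕ → LnT F → ℕ → MvPolynomial (Option (Fin m)) ℝ} {kk E Ne A A₁ μ' : ℕ},
    Npw F c B n D Dr ν μ hr κ w g G H → D ≤ Dr → Set.InjOn c (Set.Iio 3) → 0 < Pe F.p B →
    κ ≤ 1 → kk ≤ n → 1 ≤ Ne → μ ≤ E → μ ≤ g 0 3 → (∀ i ≤ kk, g kk 3 ≤ g i 3 + A₁) →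
    C * ((w kk - w 0) + (g kk 2 - g 0 2) + 1) + A₁ ≤ A → C * (μ + 1) + hr + n + E ≤ μ' →
    g 0 2 + (C * (μ + 1) + hr + n + E) ≤ g kk 2 →
    C * (μ + 1) + hr + n + g 0 2 + g kk 3 ≤ g kk 2 + Ne * E →
    ∃ (B₁ : F.Ω → Prop) (v t₀ : ℕ), Sub B₁ B ∧ Pe F.p B ≤ 2 * Ne * Pe F.p B₁ ∧
      t₀ = (g 0 2 + v) - (g kk 2 + A) ∧ v + E ≤ g kk 3 ∧
      Nph F c B₁ n D ν μ' w (rlb g kk v t₀) G H ∧
      ∀ ω, B₁ ω → v + E = g kk 3 ∨ ¬ SlB F c ν w g G kk ω (2 ^ g kk 2 / 2 ^ (v + E)) := by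
  classical
  obtain ⟨C₁, hC₁, htv⟩ := var_triv D
  obtain ⟨C₂, hC₂, hwn⟩ := var_win D
  refine ⟨C₁ + C₂ + 3, by omega, ?_⟩
  intro m J F c B n Dr ν μ hr κ w g G H kk E Ne A A₁ μ' W hDr hc hB hκ hkk hNe hμE hμ3 hA₁ hA hμ'
    h02 hNE
  obtain ⟨q, hq⟩ : ∃ q, q = μ + 1 := ⟨_, rfl⟩
  obtain ⟨T₀, hT₀⟩ : ∃ T₀, T₀ = n + (C₁ + C₂) * (μ + 1) + 1 + hr := ⟨_, rfl⟩
  have hT : T₀ + μ ≤ (C₁ + C₂ + 3) * (μ + 1) + hr + n := by
    have : (C₁ + C₂ + 3) * (μ + 1) = (C₁ + C₂) * (μ + 1) + (3 * μ + 3) := by ring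
    rw [hT₀, this]
    generalize (C₁ + C₂) * (μ + 1) = p1
    omega
  obtain ⟨Cμ, hCμ⟩ : ∃ Cμ, Cμ = (C₁ + C₂ + 3) * (μ + 1) + hr + n := ⟨_, rfl⟩
  rw [← hCμ] at hT hμ' h02 hNE
  have hn2 : ((n : ℝ) + 1) ≤ 2 ^ n := by
    have : n + 1 ≤ 2 ^ n := Nat.lt_two_pow_self
    exact_mod_cast this
  have h0n : 0 ≤ n := Nat.zero_le n
  -- the trivial bound
  obtain ⟨B₂, b1, b2, b3⟩ := htv W hDr hc (j := 0) h0n (B₁ := B) (fun _ h => h) (by
    have := hB.le
    nlinarith)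
  have htriv : ∀ i ≤ n, ∀ ω, B₂ ω → SlB F c ν w g G i ω (2 ^ (T₀ + g 0 2)) := by
    intro i hi ω hω
    have h1 := (hwn W hc hi (Nat.zero_le i) (b1 ω hω)
      (by positivity : (0 : ℝ) ≤ 2 ^ (C₁ * (μ + 1) + hr) * 2 ^ g 0 2)).1 (b3 ω hω)
    refine h1.mono ?_
    obtain ⟨x, hx⟩ : ∃ x : ℝ, x = 2 ^ (C₁ * (μ + 1) + hr) * 2 ^ g 0 2 := ⟨_, rfl⟩
    have hx0 : 0 < x := by rw [hx]; positivity
    have h2 : x / 2 ^ (w i - w 0) ≤ x := div_le_self hx0.le (one_le_pow₀ (by norm_num))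
    have h3 : (2 : ℝ) ^ g 0 2 / 2 ^ g 0 3 ≤ x := by
      refine (div_le_self (by positivity) (one_le_pow₀ (by norm_num))).trans ?_
      rw [hx]
      exact le_mul_of_one_le_left (by positivity) (one_le_pow₀ (by norm_num))
    rw [← hx]
    calc (n + 1) * 2 ^ (C₂ * (μ + 1)) * (x / 2 ^ (w i - w 0) + 2 ^ g 0 2 / 2 ^ g 0 3) ≤
          2 ^ n * 2 ^ (C₂ * (μ + 1)) * (x + x) := by gcongr
      _ = 2 ^ (T₀ + g 0 2) := by
        rw [hx, hT₀]
        have e1 : n + (C₁ + C₂) * (μ + 1) + 1 + hr + g 0 2 =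
            n + C₂ * (μ + 1) + 1 + (C₁ * (μ + 1) + hr) + g 0 2 := by ring
        rw [e1, pow_add _ _ (g 0 2), pow_add _ _ (C₁ * (μ + 1) + hr), pow_succ, pow_add]
        ring
  obtain ⟨e, he1, heN, B₁, d1, d2, d3⟩ := slb_pig F.isLaw (A := B₂)
    (fun e ω => SlB F c ν w g G kk ω (2 ^ (g kk 2 + e * E) / 2 ^ g kk 3)) hNe (fun ω hω => by
      refine (htriv kk hkk ω hω).mono ?_
      rw [le_div_iff₀ (by positivity), ← pow_add]
      exact pow_le_pow_right₀ (by norm_num) (by omega))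
  have hPB : Pe F.p B ≤ 2 * Ne * Pe F.p B₁ := by
    have : Pe F.p B ≤ 2 * Pe F.p B₂ := by linarith
    nlinarith
  have hB₁ : 0 < Pe F.p B₁ := by
    have hN0 : (0 : ℝ) < 2 * Ne := by
      have : (1 : ℝ) ≤ Ne := by exact_mod_cast hNe
      linarith
    exact pos_of_mul_pos_right (lt_of_lt_of_le hB hPB) hN0.le
  obtain ⟨ω₀, hω₀⟩ : ∃ ω, B₁ ω := by
    by_contra hcon
    push Not at hcon
    have : Pe F.p B₁ = 0 := by
      rw [Pe_eq]
      exact Finset.sum_eq_zero fun ω _ => if_neg (hcon ω)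
    linarith
  have hexc0 := W.exc 0 h0n kk hkk (Nat.zero_le kk)
  have hmon0 := W.mon 0 h0n kk hkk (Nat.zero_le kk)
  have hkey : g kk 2 + (e - 1) * E ≤ T₀ + g 0 2 + g kk 3 := by
    rcases (d3 ω₀ hω₀).2 with h | h
    · rw [h]
      simp only [Nat.sub_self, Nat.zero_mul]
      have : μ ≤ T₀ := by
        rw [hT₀]
        have : μ + 1 ≤ (C₁ + C₂) * (μ + 1) := Nat.le_mul_of_pos_left _ (by omega)
        omega
      omega
    · by_contra hcon
      refine h ((htriv kk hkk ω₀ (d1 ω₀ hω₀)).mono ?_)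
      rw [le_div_iff₀ (by positivity), ← pow_add]
      exact pow_le_pow_right₀ (by norm_num) (by omega)
  have heE : e * E = (e - 1) * E + E := by
    obtain ⟨e', rfl⟩ : ∃ e', e = e' + 1 := ⟨e - 1, by omega⟩
    rw [Nat.add_sub_cancel]
    ring
  have heE2 : g kk 2 + e * E ≤ T₀ + E + g 0 2 + g kk 3 := by omega
  have heE3 : e * E ≤ g kk 3 := by omega
  have hEe : E ≤ e * E := Nat.le_mul_of_pos_left E he1
  obtain ⟨v, hv⟩ : ∃ v, v = g kk 3 - e * E := ⟨_, rfl⟩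
  have hv' : v + e * E = g kk 3 := by omega
  obtain ⟨t₀, ht₀⟩ : ∃ t₀, t₀ = (g 0 2 + v) - (g kk 2 + A) := ⟨_, rfl⟩
  have hvE : v + E ≤ g kk 3 := by omega
  have hle3 : ∀ k ≤ n, rlb g kk v t₀ k 3 ≤ g k 3 := by
    intro k hk
    rcases Nat.lt_or_ge k kk with h | h
    · rw [rlb_lt h]
      have h1 := W.exc 0 h0n k hk (Nat.zero_le k)
      have h2 := W.mon 0 h0n k hk (Nat.zero_le k)
      have h3 := W.mon k hk kk hkk h.le
      have h4 := hA₁ k h.le
      omega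
    · rw [rlb_ge h]
      have h1 := W.exc kk hkk k hk h
      have h2 := W.mon kk hkk k hk h
      omega
  refine ⟨B₁, v, t₀, fun ω hω => b1 ω (d1 ω hω), hPB, ht₀, hvE, ?_, ?_⟩
  · have hsub : Sub B₁ B := fun ω hω => b1 ω (d1 ω hω)
    have hS : (2 : ℝ) ^ (g kk 2 + e * E) / 2 ^ g kk 3 = 2 ^ g kk 2 / 2 ^ v := by
      rw [← hv', pow_add, pow_add]
      field_simp
    have hvar : ∀ ω, B₁ ω → SlB F c ν w g G kk ω (2 ^ g kk 2 / 2 ^ v) := fun ω hω => by
      rw [← hS]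
      exact (d3 ω hω).1
    have hRS : (2 : ℝ) ^ g kk 2 / 2 ^ g kk 3 ≤ 2 ^ g kk 2 / 2 ^ v :=
      div_le_div_of_nonneg_left (by positivity) (by positivity)
        (pow_le_pow_right₀ (by norm_num) (by omega))
    have hC2μ : C₂ * (μ + 1) + n + 1 ≤ μ' := by
      have e1 : (C₁ + C₂ + 3) * (μ + 1) = C₂ * (μ + 1) + (C₁ * (μ + 1) + 3 * μ + 3) := by ring
      rw [hCμ, e1] at hμ'
      generalize C₂ * (μ + 1) = p1 at *
      generalize C₁ * (μ + 1) = p2 at *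
      omega
    have hslp : ∀ k ≤ n, ∀ ω, B₁ ω →
        SlB F c ν w g G k ω (2 ^ μ' * (2 ^ g k 2 / 2 ^ rlb g kk v t₀ k 3)) := by
      intro k hk ω hω
      have hωB := hsub ω hω
      rcases Nat.lt_or_ge k kk with h | h
      · rw [rlb_lt h]
        have hmk := W.mon 0 h0n k hk (Nat.zero_le k)
        have hmkk := W.mon k hk kk hkk h.le
        rcases Nat.eq_zero_or_pos t₀ with ht | ht
        · refine (htriv k hk ω (d1 ω hω)).mono ?_
          rw [ht, Nat.zero_add, ← mul_div_assoc, le_div_iff₀ (by positivity), ← pow_add, ← pow_add]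
          exact pow_le_pow_right₀ (by norm_num) (by omega)
        · have h1 := (hwn W hc hkk h.le hωB
            (by positivity : (0 : ℝ) ≤ 2 ^ g kk 2 / 2 ^ v)).2 (hvar ω hω)
          refine h1.mono ?_
          obtain ⟨S, hSd⟩ : ∃ S : ℝ, S = 2 ^ g kk 2 / 2 ^ v := ⟨_, rfl⟩
          have hS0 : 0 < S := by rw [hSd]; positivity
          rw [← hSd]
          have h2 : (2 : ℝ) ^ g k 2 / 2 ^ g k 3 ≤ 2 ^ A₁ * S := by
            rw [hSd, ← mul_div_assoc, div_le_div_iff₀ (by positivity) (by positivity), ← pow_add,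
              ← pow_add, ← pow_add]
            refine pow_le_pow_right₀ (by norm_num) ?_
            have := hA₁ k h.le
            omega
          have h3 : S + 2 ^ g k 2 / 2 ^ g k 3 ≤ 2 ^ (A₁ + 1) * S := by
            have h4 : S ≤ 2 ^ A₁ * S := le_mul_of_one_le_left hS0.le (one_le_pow₀ (by norm_num))
            have e1 : (2 : ℝ) ^ (A₁ + 1) * S = 2 ^ A₁ * S + 2 ^ A₁ * S := by
              rw [pow_succ]
              ring
            rw [e1]
            exact add_le_add h4 h2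
          have h5 : (2 : ℝ) ^ g k 2 / 2 ^ (t₀ + (g k 2 - g 0 2)) = 2 ^ A * S := by
            rw [hSd, ← mul_div_assoc, div_eq_div_iff (by positivity) (by positivity), ← pow_add,
              ← pow_add, ← pow_add]
            congr 1
            omega
          rw [h5]
          obtain ⟨d, hd⟩ : ∃ d, d = (w kk - w k) + (g kk 2 - g k 2) := ⟨_, rfl⟩
          have hdle : d ≤ (w kk - w 0) + (g kk 2 - g 0 2) := by
            have := W.wm 0 h0n k hk (Nat.zero_le k)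
            omega
          have hdA : C₂ * d + A₁ ≤ A := by
            refine le_trans ?_ hA
            refine Nat.add_le_add_right ?_ _
            refine Nat.mul_le_mul (by omega) (by omega)
          have e2 : (w kk - w k) + (g kk 2 - g k 2) + μ + 1 = d + (μ + 1) := by omega
          rw [e2]
          calc (n + 1) * 2 ^ (C₂ * (d + (μ + 1))) * (S + 2 ^ g k 2 / 2 ^ g k 3) ≤
                2 ^ n * 2 ^ (C₂ * (d + (μ + 1))) * (2 ^ (A₁ + 1) * S) := by gcongr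
            _ = 2 ^ (n + C₂ * (d + (μ + 1)) + (A₁ + 1)) * S := by
                rw [pow_add _ _ (A₁ + 1), pow_add]
                ring
            _ ≤ 2 ^ (μ' + A) * S := by
                refine mul_le_mul_of_nonneg_right (pow_le_pow_right₀ (by norm_num) ?_) hS0.le
                have : C₂ * (d + (μ + 1)) = C₂ * d + C₂ * (μ + 1) := by ring
                omega
            _ = 2 ^ μ' * (2 ^ A * S) := by rw [pow_add]; ring
      · rw [rlb_ge h]
        have hmk := W.mon kk hkk k hk h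
        have h1 := (hwn W hc hk h hωB
          (by positivity : (0 : ℝ) ≤ 2 ^ g kk 2 / 2 ^ v)).1 (hvar ω hω)
        refine h1.mono ?_
        have h5 : (2 : ℝ) ^ g k 2 / 2 ^ (v + (g k 2 - g kk 2)) = 2 ^ g kk 2 / 2 ^ v := by
          rw [div_eq_div_iff (by positivity) (by positivity), ← pow_add, ← pow_add]
          congr 1
          omega
        rw [h5]
        obtain ⟨S, hSd⟩ : ∃ S : ℝ, S = 2 ^ g kk 2 / 2 ^ v := ⟨_, rfl⟩
        have hS0 : 0 < S := by rw [hSd]; positivity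
        rw [← hSd] at hRS ⊢
        have h6 : S / 2 ^ (w k - w kk) ≤ S := div_le_self hS0.le (one_le_pow₀ (by norm_num))
        calc (n + 1) * 2 ^ (C₂ * (μ + 1)) * (S / 2 ^ (w k - w kk) + 2 ^ g kk 2 / 2 ^ g kk 3) ≤
              2 ^ n * 2 ^ (C₂ * (μ + 1)) * (S + S) := by gcongr
          _ = 2 ^ (C₂ * (μ + 1) + n + 1) * S := by
              rw [pow_succ, pow_add]
              ring
          _ ≤ 2 ^ μ' * S := mul_le_mul_of_nonneg_right (pow_le_pow_right₀ (by norm_num) hC2μ)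
              hS0.le
    have hμμ : μ ≤ μ' := by
      have : μ + 1 ≤ C₂ * (μ + 1) := Nat.le_mul_of_pos_left _ (by omega)
      omega
    refine ⟨W.νμ.trans hμμ, W.wJ, W.wm, W.deg, W.dep, fun k hk => (W.cls k hk).sub hsub, ?_, ?_,
      ?_, ?_, ?_⟩
    · intro k hk ω hω l hl2 hl3 τ hτ
      refine (W.own k hk ω (hsub ω hω) l hl3 τ hτ).trans ?_
      refine div_le_div_of_nonneg_left (by positivity) (by positivity)
        (pow_le_pow_right₀ (by norm_num) ?_)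
      rcases hl2.lt_or_eq with h | h
      · have : l = 3 := by omega
        rw [this]
        exact hle3 k hk
      · rw [rlb_ne (by omega)]
    · intro k hk ω hω τ hτ τ' hτ' y hy
      rw [rlb_ne (by norm_num)] at hy ⊢
      exact hslp k hk ω hω τ hτ τ' hτ' y hy
    · intro j hj k hk hjk ω hω l hl2 hl3 b hb
      refine (W.bal j hj k hk hjk ω (hsub ω hω) l hl2 hl3 b (nbx_rlb hl3 hb)).trans ?_
      have h1 : (2 : ℝ) ^ μ ≤ 2 ^ μ' := pow_le_pow_right₀ (by norm_num) hμμ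
      refine div_le_div₀ (by positivity) h1 (by positivity)
        (pow_le_pow_right₀ (by norm_num) ?_)
      rcases hl2.lt_or_eq with h | h
      · have : l = 3 := by omega
        rw [this]
        exact hle3 j hj
      · rw [rlb_ne (by omega)]
    · intro i hi
      rw [rlb_ne (by norm_num), rlb_ne (by norm_num)]
      have := W.stp i hi
      omega
    · intro j hj k hk hjk
      rw [rlb_ne (k := k) (l := 2) (by norm_num), rlb_ne (k := j) (l := 2) (by norm_num)]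
      have hj0 := W.mon 0 h0n j hj (Nat.zero_le j)
      have hjk2 := W.mon j hj k hk hjk
      rcases Nat.lt_or_ge j kk with h | h
      · have hjkk := W.mon j hj kk hkk h.le
        rcases Nat.lt_or_ge k kk with h' | h'
        · rw [rlb_lt h, rlb_lt h']
          omega
        · rw [rlb_lt h, rlb_ge h']
          have hkkk := W.mon kk hkk k hk h'
          omega
      · rw [rlb_ge h, rlb_ge (h.trans hjk)]
        have hkkk := W.mon kk hkk j hj h
        omega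
  · intro ω hω
    rcases (d3 ω hω).2 with h | h
    · left
      rw [h, Nat.one_mul] at hv'
      exact hv'
    · right
      intro hV
      refine h ?_
      have e1 : (2 : ℝ) ^ (g kk 2 + (e - 1) * E) / 2 ^ g kk 3 = 2 ^ g kk 2 / 2 ^ (v + E) := by
        rw [div_eq_div_iff (by positivity) (by positivity), ← pow_add, ← pow_add]
        congr 1
        omega
      rw [e1]
      exact hV

end Pool.CRC82
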