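import Pool.Agent.H82.CRC.Crs

/-!
# The conic theorem for four windows, with exponents

`fin_raw`: `conic_fin` for the windows base, `k`, `t`, `n`, the numbers in powers of two.
-/

set_option autoImplicit false

namespace Pool.CRC82

open Finset MvPolynomial
open Pool.Agent.H49.Ent
open Pool.STK (IsLaw)
open Pool.K2S (Pe)
open Pool.CUB46 (q2 l1 h3)
open Pool.CNC76

/-- The numbers of the conic theorem, powers of two. -/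
theorem fin_ar4 {u v w : ℕ → ℕ} {r m₀ L₀ D' : ℕ} {EU EN ρ : ℕ → ℝ} {T : ℝ}
    (hnum : ∀ j ≤ 3, EU j = 1 / 2 ^ u j ∧ EN j = 1 / 2 ^ v j ∧ ρ j = 2 ^ r / 2 ^ w j)
    (hT2 : T ≤ 2 ^ m₀)
    (hw : ∀ j ≤ 3, w 0 ≤ w j ∧ w j ≤ w 3) (h2 : 13 * m₀ + 2 * w 3 ≤ L₀ + 2 * w 0)
    (h3 : 13 * m₀ + 4 * w 3 + u 0 + v 1 ≤ L₀ + 1 + u 3 + 2 * w 1 + v 0 + 2 * w 0)
    (h4 : v 0 ≤ v 1) (h1 : u 2 + 2 * w 3 ≤ u 3 + 2 * w 2)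
    (h5 : 3 + m₀ + w 1 ≤ w 2) (h6 : 7 * m₀ + w 1 ≤ w 2)
    (h7 : (D' + 1) * (7 * m₀ + w 1) + 2 * w 2 + u 3 ≤ (D' + 1) * w 2 + 2 * w 3 + u 2) :
    ∃ τ Γ : ℝ, 1 ≤ Γ ∧ (∀ j ≤ 3, ρ 0 ≤ Γ * ρ j) ∧ (2 ^ m₀ : ℝ) ^ 13 * Γ ^ 2 ≤ 2 ^ L₀ ∧
      (2 ^ m₀ : ℝ) ^ 13 * Γ ^ 2 * EN 0 ≤ 2 ^ L₀ * τ * EU 0 ∧ EN 1 ≤ EN 0 ∧
      2 * (EN 1 / ρ 1 ^ 2) ≤ τ * (EU 2 / ρ 2 ^ 2) ∧ 2 * (EN 1 / ρ 1 ^ 2) ≤ τ * (EU 3 / ρ 3 ^ 2) ∧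
      8 * T * ρ 2 ≤ ρ 1 ∧ (2 ^ m₀ : ℝ) ^ 7 * (ρ 2 / ρ 1) ≤ 1 ∧
      EU 2 / ρ 2 ^ 2 * ((2 ^ m₀ : ℝ) ^ 7 * (ρ 2 / ρ 1)) ^ (D' + 1) ≤ EU 3 / ρ 3 ^ 2 ∧
      τ = 2 ^ (1 + u 3 + 2 * w 1) / 2 ^ (v 1 + 2 * w 3) := by
  have e0 := hnum 0 (by norm_num)
  have e2 := hnum 1 (by norm_num)
  have e3 := hnum 2 (by norm_num)
  have e4 := hnum 3 (by norm_num)
  have hρ2 : ∀ j ≤ 3, EU j / ρ j ^ 2 = 2 ^ (2 * w j) / 2 ^ (u j + 2 * r) := fun j hj => by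
    obtain ⟨a1, -, a3⟩ := hnum j hj
    rw [a1, a3, div_pow, pow_add, pow_mul' 2 2 (w j), pow_mul' 2 2 r]
    field_simp
  have hσ2 : ∀ j ≤ 3, EN j / ρ j ^ 2 = 2 ^ (2 * w j) / 2 ^ (v j + 2 * r) := fun j hj => by
    obtain ⟨-, a2, a3⟩ := hnum j hj
    rw [a2, a3, div_pow, pow_add, pow_mul' 2 2 (w j), pow_mul' 2 2 r]
    field_simp
  have hw0 : w 0 ≤ w 3 := (hw 3 le_rfl).1
  have hM : ∀ k : ℕ, ((2 : ℝ) ^ m₀) ^ k = 2 ^ (k * m₀) := fun k => by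
    rw [← pow_mul, mul_comm]
  have hρρ : ρ 2 / ρ 1 = 2 ^ w 1 / 2 ^ w 2 := by
    rw [e3.2.2, e2.2.2]
    field_simp
  have hθ : ((2 : ℝ) ^ m₀) ^ 7 * (ρ 2 / ρ 1) = 2 ^ (7 * m₀ + w 1) / 2 ^ w 2 := by
    rw [hM, hρρ, pow_add]
    ring
  refine ⟨2 ^ (1 + u 3 + 2 * w 1) / 2 ^ (v 1 + 2 * w 3), 2 ^ (w 3 - w 0), one_le_pow₀ (by norm_num),
    fun j hj => ?_, ?_, ?_, ?_, ?_, ?_, ?_, ?_, ?_, rfl⟩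
  · rw [e0.2.2, (hnum j hj).2.2, ← mul_div_assoc, ← pow_add]
    exact div_pw (by have := hw j hj; omega)
  · rw [hM, ← pow_mul, ← pow_add]
    exact pow_le_pow_right₀ (by norm_num) (by omega)
  · rw [hM, ← pow_mul, ← pow_add, e0.1, e0.2.1, mul_one_div, mul_one_div, ← mul_div_assoc,
      div_div, ← pow_add, ← pow_add]
    exact div_pw (by omega)
  · rw [e2.2.1, e0.2.1]
    exact one_div_le_one_div_of_le (by positivity) (pow_le_pow_right₀ (by norm_num) h4)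
  · rw [hσ2 1 (by norm_num), hρ2 2 (by norm_num), div_mul_div_comm, ← pow_add, ← pow_add,
      ← mul_div_assoc, ← pow_succ']
    exact div_pw (by omega)
  · rw [hσ2 1 (by norm_num), hρ2 3 (by norm_num), div_mul_div_comm, ← pow_add, ← pow_add,
      ← mul_div_assoc, ← pow_succ']
    exact div_pw (by omega)
  · rw [e3.2.2, e2.2.2]
    have h8 : 8 * T ≤ 2 ^ (3 + m₀) := by
      rw [pow_add]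
      norm_num
      exact hT2
    calc 8 * T * (2 ^ r / 2 ^ w 2) ≤ 2 ^ (3 + m₀) * (2 ^ r / 2 ^ w 2) :=
          mul_le_mul_of_nonneg_right h8 (by positivity)
      _ = 2 ^ (3 + m₀ + r) / 2 ^ w 2 := by rw [pow_add _ (3 + m₀)]; ring
      _ ≤ 2 ^ r / 2 ^ w 1 := div_pw (by omega)
  · rw [hθ, div_le_one (by positivity)]
    exact pow_le_pow_right₀ (by norm_num) h6
  · rw [hθ, hρ2 2 (by norm_num), hρ2 3 (by norm_num), div_pow, ← pow_mul, ← pow_mul,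
      div_mul_div_comm, ← pow_add, ← pow_add]
    refine div_pw ?_
    have e1 : (7 * m₀ + w 1) * (D' + 1) = (D' + 1) * (7 * m₀ + w 1) := by ring
    have e2 : w 2 * (D' + 1) = (D' + 1) * w 2 := by ring
    rw [e1, e2]
    omega

/-- **The conic theorem for four windows** base, `k`, `t`, `n`, with exponents. -/
theorem fin_raw (D₀ : ℕ) (hD₀ : 1 ≤ D₀) : ∃ C : ℕ, ∀ {Ω P S S' : Type} [Fintype Ω] {p : Ω → ℝ}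
    {B : Ω → Prop} {pt : Ω → P} {sl : ℕ → Ω → S}
    {sd : Ω → S'} {Y Yc X : Ω → Fin 3 → ℝ} {ctr : ℕ → Ω → Fin 3 → ℝ} {ρ EU EN : ℕ → ℝ}
    {U Ph : ℕ → Ω → MvPolynomial (Fin 3) ℝ} {cs : ℕ → Ω → ℝ} {D h Q D' : ℕ}
    {κ η c T s s' δ : ℝ} {xh : Ω → Fin 3 → Polynomial ℝ} {Tu : Ω → MvPolynomial (Fin 3) ℝ}
    {u v w : ℕ → ℕ} {r m₀ L₀ ζ : ℕ},
    Chn p B pt sl sd Y Yc X 3 ctr ρ EU EN U Ph cs D₀ D h Q κ η c T s →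
    Tub B (sl 2) Y X 2 3 ρ EU U xh Tu D₀ δ s' → (∀ ω, B ω → Pth (xh ω) (Y ω) (X ω)) →
    2 * D₀ ≤ D → (∀ j ≤ 3, EU j = 1 / 2 ^ u j ∧ EN j = 1 / 2 ^ v j ∧ ρ j = 2 ^ r / 2 ^ w j) →
    1 ≤ T → h ≤ m₀ → T ≤ 2 ^ m₀ → C ≤ m₀ → 0 < s → s ≤ 2 ^ m₀ → 0 < s' → s' ≤ 2 ^ m₀ →
    0 < η → η ≤ 1 → 1 ≤ 2 ^ m₀ * η → 12 * c ≤ 1 →
    (∀ j ≤ 3, w 0 ≤ w j ∧ w j ≤ w 3) → 13 * m₀ + 2 * w 3 ≤ L₀ + 2 * w 0 →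
    13 * m₀ + 4 * w 3 + u 0 + v 1 ≤ L₀ + 1 + u 3 + 2 * w 1 + v 0 + 2 * w 0 →
    v 0 ≤ v 1 → u 2 + 2 * w 3 ≤ u 3 + 2 * w 2 → 3 + m₀ + w 1 ≤ w 2 → 7 * m₀ + w 1 ≤ w 2 →
    (D' + 1) * (7 * m₀ + w 1) + 2 * w 2 + u 3 ≤ (D' + 1) * w 2 + 2 * w 3 + u 2 →
    15 * m₀ ≤ Q → 1 + u 3 + 2 * w 1 ≤ ζ + u 1 + 2 * w 3 →
    ∀ {B' : Ω → Prop}, (∀ ω, B' ω → B ω) → 4096 * (κ * Pe p B) ≤ Pe p B' → 0 < Pe p B' →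
      (∀ ω, B' ω → ∃ i j, 2 ^ L₀ * EU 0 / ρ 0 ^ 2 ≤ |h3 (U 0 ω) (Y ω) i j|) →
      ∃ B'' : Ω → Prop, (∀ ω, B'' ω → B' ω) ∧ Pe p B' ≤ 512 * Pe p B'' ∧
        ((∃ K : Ω → ℝ, Clo B'' pt (sl 0) K ∧
          ∀ ω, B'' ω → |K ω - cs 1 ω| ≤ 2 ^ (m₀ + ζ + 1) * (2 ^ u 1 / 2 ^ v 1)) ∨
        ∃ Hp : Ω → MvPolynomial (Fin 3) ℝ,
          (∀ ω ω', B'' ω → B'' ω' → sl 2 ω = sl 2 ω' → Hp ω = Hp ω') ∧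
          (∀ ω, B'' ω → (Hp ω).totalDegree ≤ (D' + 3) * (D₀ * D₀)) ∧
          ∀ ω, B'' ω → ∀ b : Fin 3 → ℝ, (∀ i, |b i - ctr 3 ω i| ≤ ρ 3) →
            |eval b (Hp ω) - eval b (U 3 ω)| ≤ 2 ^ ((D₀ + 21) * m₀) / 2 ^ u 3) := by
  obtain ⟨C, hC, hfin⟩ := conic_fin D₀ hD₀
  obtain ⟨C', hC'⟩ := pow_unbounded_of_one_lt C (one_lt_two (α := ℝ))
  refine ⟨C', ?_⟩
  intro Ω P S S' _ p B pt sl sd Y Yc X ctr ρ EU EN U Ph cs D h Q D' κ η c T s s' δ xh Tu u v w r m₀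
    L₀ ζ H HT hP hD hnum hT hh hTM hCM hs hsM hs' hsM' hη hη1 hηM hc hw h2 h3 h4 h1 h5 h6 h7 hQ hnr B'
    hB hκ hpos hvis
  obtain ⟨τ, Γ, t1, t2, t3, t4, t5, t6, t7, t8, t9, t10, t11⟩ := fin_ar4 hnum hTM hw h2 h3 h4 h1
    h5 h6 h7
  obtain ⟨B'', b1, b2, b3⟩ := hfin (M := 2 ^ m₀) (Γ := Γ) (Λ := 2 ^ L₀) (τ := τ) (D' := D') (k := 1)
    H HT hP (by norm_num) (by norm_num) hD hT (pow_le_pow_right₀ (by norm_num) hh) hTM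
    (hC'.le.trans (pow_le_pow_right₀ (by norm_num) hCM)) hs hsM hs' hsM' hη hη1 hηM hc t1 t2 t3 t4
    t5 t6 t7 t8 t9 t10 (by
      rw [← pow_mul]
      exact pow_le_pow_right₀ (by norm_num) (by omega)) hB hκ hpos hvis
  refine ⟨B'', b1, b2, b3.imp ?_ ?_⟩
  · rintro ⟨K, k1, k2⟩
    refine ⟨K, k1, fun ω hω => (k2 ω hω 1 le_rfl).trans ?_⟩
    obtain ⟨e1, e2, -⟩ := hnum 1 (by norm_num)
    have e3 : EN 1 / EU 1 = 2 ^ u 1 / 2 ^ v 1 := by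
      rw [e1, e2]
      field_simp
    rw [e3]
    obtain ⟨S, hS⟩ : ∃ S : ℝ, S = 2 ^ u 1 / 2 ^ v 1 := ⟨_, rfl⟩
    have hS0 : 0 < S := by rw [hS]; positivity
    have h8 : τ ≤ 2 ^ (m₀ + ζ) * S := by
      rw [t11, hS, ← mul_div_assoc, ← pow_add]
      exact div_pw (by omega)
    have h9 : s * S ≤ 2 ^ (m₀ + ζ) * S := by
      refine mul_le_mul_of_nonneg_right (hsM.trans ?_) hS0.le
      exact pow_le_pow_right₀ (by norm_num) (Nat.le_add_right _ _)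
    rw [← hS, pow_succ]
    linarith
  · rintro ⟨Hp, k1, k2, k3⟩
    refine ⟨Hp, k1, k2, fun ω hω b hb => (k3 ω hω b hb).trans ?_⟩
    rw [(hnum 3 le_rfl).1, ← pow_mul, mul_one_div, mul_comm m₀]

end Pool.CRC82
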