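import Pool.Agent.H82.CRC.Cmf
import Pool.Agent.H82.CRC.Cmg

/-!
# The conic theorem on one event, without the slope line

`cnc_ev`: charts `Npw`, frame, balls, tube at `t`, `n`, visibility at the base: the slope of `N` is
near a closed number, or the chart of `u` at `n` is near a polynomial closed at `t`.
-/

set_option autoImplicit false

namespace Pool.CRC82

open Finset Real MvPolynomial
open Pool.Agent.H49.Ent Pool.Agent.H32.Dense Pool.STK Pool.KA Pool.KSAT Pool.K2S Pool.PB Pool.S6C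
open Pool.GEN Pool.CHT Pool.CHX Pool.ISO Pool.D2R Pool.V1E
open Pool.PB.Trl (rt rt_mem t_rt)
open Pool.AFF82 (AfN afc afp afs pul vlc eval_afs eval_pul pul_deg afp_afc afc_add pul_afc)
open Pool.CUB46 (q2 l1 h3)
open Pool.CNC28
open Pool.CNC76

theorem tub_sub {Ω S : Type} {B B' : Ω → Prop} {sl : Ω → S} {Y X : Ω → Fin 3 → ℝ} {t n : ℕ}
    {ρ EU : ℕ → ℝ} {U : ℕ → Ω → MvPolynomial (Fin 3) ℝ} {xh : Ω → Fin 3 → Polynomial ℝ}
    {Tu : Ω → MvPolynomial (Fin 3) ℝ} {D₀ : ℕ} {δ s : ℝ}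
    (H : Tub B sl Y X t n ρ EU U xh Tu D₀ δ s) (hB : ∀ ω, B' ω → B ω) :
    Tub B' sl Y X t n ρ EU U xh Tu D₀ δ s where
  xc ω ω' h h' := H.xc ω ω' (hB ω h) (hB ω' h')
  Tc ω ω' h h' := H.Tc ω ω' (hB ω h) (hB ω' h')
  x0 ω h := H.x0 ω (hB ω h)
  xd ω h := H.xd ω (hB ω h)
  Td ω h := H.Td ω (hB ω h)
  near ω h := H.near ω (hB ω h)
  val j h1 h2 ω h := H.val j h1 h2 ω (hB ω h)
  grd j h1 h2 ω h := H.grd j h1 h2 ω (hB ω h)

theorem tub_shift {Ω S : Type} {B : Ω → Prop} {sl : Ω → S} {Y X : Ω → Fin 3 → ℝ} {t n : ℕ}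
    {ρ EU : ℕ → ℝ} {U : ℕ → Ω → MvPolynomial (Fin 3) ℝ} {xh : Ω → Fin 3 → Polynomial ℝ}
    {Tu : Ω → MvPolynomial (Fin 3) ℝ} {D₀ : ℕ} {δ s : ℝ}
    (H : Tub B sl Y X (t + 1) (n + 1) ρ EU U xh Tu D₀ δ s) :
    Tub B sl Y X t n (fun j => ρ (j + 1)) (fun j => EU (j + 1)) (fun j => U (j + 1)) xh Tu D₀ δ
      s where
  xc := H.xc
  Tc := H.Tc
  x0 := H.x0
  xd := H.xd
  Td := H.Td
  near := H.near
  val j h1 h2 := H.val (j + 1) (by omega) (by omega)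
  grd j h1 h2 := H.grd (j + 1) (by omega) (by omega)

theorem clo_slm {m J : ℕ} {F : Fam m J} {B : F.Ω → Prop} {w w' : ℕ} {T : Type} {f : F.Ω → T}
    (hw : w ≤ w') (hw' : w' ≤ J) (h : Clo B (ptr F J) (slam F w) f) :
    Clo B (ptr F J) (slam F w') f :=
  ⟨h.1, fun ω ω' h1 h2 e => h.2 ω ω' h1 h2 (by
    rw [slam_coarse F hw hw' ω, slam_coarse F hw hw' ω', e])⟩

/-- **The conic theorem, event level.** -/
theorem cnc_ev (D : ℕ) (hD : 1 ≤ D) : ∃ C : ℕ, 1 ≤ C ∧ ∀ {m J : ℕ} {S' : Type} {F : Fam m J}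
    {c : ℕ → Fin m} {B : F.Ω → Prop} {n Dr ν μ hr : ℕ} {κ : ℝ} {w : ℕ → ℕ} {g : ℕ → ℕ → ℕ}
    {G : ℕ → PtT F → ℕ → MvPolynomial (Option (Fin m)) ℝ}
    {H : ℕ → LnT F → ℕ → MvPolynomial (Option (Fin m)) ℝ} {N : F.Ω → AfN} {o s0 s1 sm : ℕ}
    {ctr : ℕ → F.Ω → Fin 3 → ℝ} {ρ : ℕ → ℝ} {sd : F.Ω → S'} {Yc : F.Ω → Fin 3 → ℝ}
    {DB h Q : ℕ} {κ₀ η c₀ T : ℝ} {f : ℕ → ℕ} {δ s' : ℝ} {xh : F.Ω → Fin 3 → Polynomial ℝ}
    {Tu : F.Ω → MvPolynomial (Fin 3) ℝ} {D' r₀ m₀ L₀ E Ne A A₁ μ' ζ j₀ X : ℕ},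
    Set.InjOn c (Set.Iio 3) → 0 < Pe F.p B → Npw F c B n D Dr ν μ hr κ w g G H → D ≤ Dr →
    Frm F c B n w g G N o s0 s1 sm ctr ρ →
    (∀ k ≤ n, Bll F.p B (ptr F J) (slam F (w k)) sd
      (unt (fun ω => afc c (N ω) o s0 s1 (bt F ω)) (ctr k) (ρ k)) (unt Yc (ctr k) (ρ k))
      (fun ω => vlc c (N ω) o s0 s1 (bd F ω)) DB h Q κ₀ η c₀ T) → 2 * (D * D) ≤ DB →
    (∀ k ≤ n, ρ k = 2 ^ r₀ / 2 ^ w k) →
    f 0 = 0 → f 0 < f 1 → f 1 < f 2 → f 2 < f 3 → f 3 ≤ n → j₀ ≤ f 1 →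
    Tub B (slam F (w (f 2))) (fun ω => afc c (N ω) o s0 s1 (bt F ω))
      (fun ω => vlc c (N ω) o s0 s1 (bd F ω)) 2 3 (fun j => ρ (f j)) (fun j => 1 / 2 ^ g (f j) 2)
      (fun j => UU F c G N o s0 s1 (f j)) xh Tu (D * D) δ s' →
    (∀ ω, B ω → Pth (xh ω) (afc c (N ω) o s0 s1 (bt F ω)) (vlc c (N ω) o s0 s1 (bd F ω))) →
    (∀ ω, B ω → ∃ i j, 2 ^ L₀ * (1 / 2 ^ g 0 2) / ρ 0 ^ 2 ≤
      |h3 (UU F c G N o s0 s1 0 ω) (afc c (N ω) o s0 s1 (bt F ω)) i j|) →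
    -- the small numbers
    (2 : ℝ) ^ (C * (n + 1 + hr + μ' + h + sm)) ≤ 2 ^ m₀ * η → 1 ≤ T → T ≤ 2 ^ m₀ → 0 < s' →
    s' ≤ 2 ^ m₀ → 0 < η → η ≤ 1 → 12 * c₀ ≤ 1 → 15 * m₀ ≤ Q →
    κ * (2 * Ne * 2 ^ ((D + 1) * (n + 1) + 12)) ≤ 1 →
    κ₀ * (2 * Ne * 2 ^ ((D + 1) * (n + 1) + 12)) ≤ 1 →
    -- the unit
    1 ≤ Ne → μ ≤ E → μ ≤ g 0 3 → (∀ i ≤ f 1, g (f 1) 3 ≤ g i 3 + A₁) →
    C * ((w (f 1) - w 0) + (g (f 1) 2 - g 0 2) + 1) + A₁ ≤ A → C * (μ + 1) + hr + n + E ≤ μ' →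
    g 0 2 + (C * (μ + 1) + hr + n + E) ≤ g (f 1) 2 →
    C * (μ + 1) + hr + n + g 0 2 + g (f 1) 3 ≤ g (f 1) 2 + Ne * E →
    -- the windows
    13 * m₀ + 4 * w (f 3) + g (f 1) 2 + A ≤ L₀ + 1 + g (f 3) 2 + 2 * w (f 1) + 2 * w 0 →
    13 * m₀ + 2 * w (f 3) ≤ L₀ + 2 * w 0 →
    g (f 2) 2 + 2 * w (f 3) ≤ g (f 3) 2 + 2 * w (f 2) → 3 + 7 * m₀ + w (f 1) ≤ w (f 2) →
    (D' + 1) * (7 * m₀ + w (f 1)) + 2 * w (f 2) + g (f 3) 2 ≤
      (D' + 1) * w (f 2) + 2 * w (f 3) + g (f 2) 2 →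
    1 + g (f 3) 2 + 2 * w (f 1) ≤ ζ + g (f 1) 2 + 2 * w (f 3) →
    2 * m₀ + ζ + E + w j₀ ≤ w (f 1) → m₀ ≤ X →
    ∃ B' : F.Ω → Prop, Sub B' B ∧
      Pe F.p B ≤ 2 * Ne * 2 ^ ((D + 1) * (n + 1) + 10) * Pe F.p B' ∧
      ((∃ K : F.Ω → ℝ, Clo B' (ptr F J) (slam F (w 0)) K ∧ ∀ ω, B' ω → ∀ j ≤ f 1,
        2 * m₀ + ζ + E + g j₀ 2 + g j 3 ≤ X + g j₀ 3 + g j 2 →
        |eval (bt F ω) (pderiv (some (c 2)) (G j (ptr F J ω) 3)) - K ω| ≤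
          2 ^ X * (2 ^ g j 2 / 2 ^ g j 3)) ∨
      ∃ Hp : F.Ω → MvPolynomial (Fin 3) ℝ,
        (∀ ω ω', B' ω → B' ω' → slam F (w (f 2)) ω = slam F (w (f 2)) ω' → Hp ω = Hp ω') ∧
        (∀ ω, B' ω → (Hp ω).totalDegree ≤ (D' + 3) * (D * D * (D * D))) ∧
        ∀ ω, B' ω → ∀ b : Fin 3 → ℝ, (∀ i, |b i - ctr (f 3) ω i| ≤ ρ (f 3)) →
          |eval b (Hp ω) - eval b (UU F c G N o s0 s1 (f 3) ω)| ≤
            2 ^ ((D * D + 21) * m₀) / 2 ^ g (f 3) 2) := by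
  classical
  obtain ⟨C₁, hC₁, hrlb⟩ := rlb_nph D
  obtain ⟨C₂, hC₂, hnph⟩ := nph_core D hD
  obtain ⟨C₃, hfin⟩ := fin_raw (D * D) (Nat.mul_pos hD hD)
  obtain ⟨C₄, hC₄, hrel⟩ := var_rel D
  obtain ⟨C₅, hC₅, hwin⟩ := var_win D
  obtain ⟨C₆, hC₆, htel⟩ := tel_slp D
  obtain ⟨a₂, ha₂⟩ := pow_unbounded_of_one_lt C₂ (one_lt_two (α := ℝ))
  refine ⟨C₁ + a₂ + C₃ + C₄ + C₅ + C₆ + (D * D + 4) + 8, by omega, ?_⟩
  intro m J S' F c B n Dr ν μ hr κ w g G H N o s0 s1 sm ctr ρ sd Yc DB h Q κ₀ η c₀ T f δ s' xh Tu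
    D' r₀ m₀ L₀ E Ne A A₁ μ' ζ j₀ X hc hB W hDr V hb hDB hρ hf0 hf01 hf12 hf23 hf3 hj₀ HT hP hvis
    hbig hT hTM hs' hsM' hη hη1 hc0 hQ hκ hκ₀ hNe hμE hμ3 hA₁ hA hμ' h02 hNE w1 w2 w3 w4 w5 w6 w7
    hX
  obtain ⟨kk, hkk⟩ : ∃ kk, kk = f 1 := ⟨_, rfl⟩
  obtain ⟨Cc, hCc⟩ : ∃ Cc, Cc = C₁ + a₂ + C₃ + C₄ + C₅ + C₆ + (D * D + 4) + 8 := ⟨_, rfl⟩
  obtain ⟨Sg, hSg⟩ : ∃ Sg, Sg = n + 1 + hr + μ' + h + sm := ⟨_, rfl⟩
  rw [← hCc] at hA hμ' h02 hNE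
  rw [← hCc, ← hSg] at hbig
  rw [← hkk] at hf01 hf12 hj₀ hA₁ hA h02 hNE w1 w4 w5 w6 w7 ⊢
  have hkn : kk ≤ n := by omega
  have h0n : 0 ≤ n := Nat.zero_le n
  have hj₀n : j₀ ≤ n := hj₀.trans hkn
  have hμμ : μ + 1 ≤ Sg := by
    have h1 : μ + 1 ≤ Cc * (μ + 1) := Nat.le_mul_of_pos_left _ (by omega)
    omega
  have hSg1 : 1 ≤ Sg := by omega
  have hCm : Cc * Sg ≤ m₀ := by
    have h1 : (2 : ℝ) ^ (Cc * Sg) ≤ 2 ^ m₀ := hbig.trans (mul_le_of_le_one_right (by positivity) hη1)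
    exact (pow_le_pow_iff_right₀ (by norm_num)).1 h1
  have hCsum : (C₁ + a₂ + C₃ + C₄ + C₅ + C₆ + (D * D + 4) + 8) * Sg ≤ m₀ := by
    rw [← hCc]
    exact hCm
  have hm1 : 1 ≤ 2 ^ m₀ * η := (one_le_pow₀ (by norm_num)).trans hbig
  -- the exponents of the variation
  have hκ1 : κ ≤ 1 := by
    rcases le_or_gt κ 0 with h1 | h1
    · linarith
    · have h2 : (1 : ℝ) ≤ 2 * Ne * 2 ^ ((D + 1) * (n + 1) + 12) := by
        have h3 : (1 : ℝ) ≤ Ne := by exact_mod_cast hNe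
        have h4 : (1 : ℝ) ≤ 2 ^ ((D + 1) * (n + 1) + 12) := one_le_pow₀ (by norm_num)
        nlinarith
      exact (le_mul_of_one_le_right h1.le h2).trans hκ
  have hC1c : C₁ ≤ Cc := by omega
  obtain ⟨B₁, v, t₀, e1, e2, e3, e4, e5, e6⟩ := hrlb (kk := kk) W hDr hc hB hκ1 hkn hNe hμE hμ3 hA₁
    ((Nat.add_le_add_right (Nat.mul_le_mul_right _ hC1c) _).trans hA)
    (le_trans (by have := Nat.mul_le_mul_right (μ + 1) hC1c; omega) hμ')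
    (le_trans (by have := Nat.mul_le_mul_right (μ + 1) hC1c; omega) h02)
    (le_trans (by have := Nat.mul_le_mul_right (μ + 1) hC1c; omega) hNE)
  have hNe1 : (1 : ℝ) ≤ Ne := by exact_mod_cast hNe
  have hN0 : (0 : ℝ) < 2 * Ne := by linarith
  have hB₁ : 0 < Pe F.p B₁ := pos_of_mul_pos_right (lt_of_lt_of_le hB e2) hN0.le
  have V₁ : Frm F c B₁ n w (rlb g kk v t₀) G N o s0 s1 sm ctr ρ :=
    { sm1 := V.sm1
      Nc := fun k hk => (V.Nc k hk).sub e1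
      cc := fun k hk => (V.cc k hk).sub e1
      ρ0 := V.ρ0
      ρd := V.ρd
      ρw := V.ρw
      sml := fun k hk ω hω b hb' u => nbx_rlb' (by norm_num) (V.sml k hk ω (e1 ω hω) b hb' u) }
  obtain ⟨p, hp⟩ : ∃ p, p = (D + 1) * (n + 1) := ⟨_, rfl⟩
  rw [← hp] at hκ hκ₀ ⊢
  have hκ00 : 0 ≤ κ₀ := (hb 0 h0n).κ0
  have hb₁ : ∀ k ≤ n, Bll F.p B₁ (ptr F J) (slam F (w k)) sd
      (unt (fun ω => afc c (N ω) o s0 s1 (bt F ω)) (ctr k) (ρ k)) (unt Yc (ctr k) (ρ k))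
      (fun ω => vlc c (N ω) o s0 s1 (bd F ω)) DB h Q (κ₀ * (2 * Ne)) η c₀ T := fun k hk =>
    Bll.subk (hb k hk) e1 hN0 e2
  have hQm : 15 * m₀ ≤ Q := hQ
  have hexp : a₂ + n + h + (D * D + 4) * (sm + μ' + 1) ≤ Cc * Sg := by
    have h1 : (D * D + 4) * (sm + μ' + 1) ≤ (D * D + 4) * Sg := Nat.mul_le_mul_left _ (by omega)
    have h2 : a₂ ≤ a₂ * Sg := Nat.le_mul_of_pos_right _ (by omega)
    have h3 : n + h ≤ 8 * Sg := by omega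
    have h4 : Cc * Sg = (C₁ + C₃ + C₄ + C₅ + C₆) * Sg + a₂ * Sg + (D * D + 4) * Sg + 8 * Sg := by
      rw [hCc]
      ring
    rw [h4]
    have h5 : 0 ≤ (C₁ + C₃ + C₄ + C₅ + C₆) * Sg := Nat.zero_le _
    generalize (C₁ + C₃ + C₄ + C₅ + C₆) * Sg = p1 at *
    generalize (D * D + 4) * Sg = p2 at *
    generalize (D * D + 4) * (sm + μ' + 1) = p3 at *
    generalize a₂ * Sg = p4 at *
    omega
  obtain ⟨s, hs⟩ : ∃ s : ℝ, s = C₂ * (n + 1) * 2 ^ (h + (D * D + 4) * (sm + μ' + 1)) / η :=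
    ⟨_, rfl⟩
  have hn0 : (0 : ℝ) ≤ n := Nat.cast_nonneg n
  have hn2 : ((n : ℝ) + 1) ≤ 2 ^ n := by
    have : n + 1 ≤ 2 ^ n := Nat.lt_two_pow_self
    exact_mod_cast this
  have hs0 : 0 < s := by
    rw [hs]
    positivity
  have hsM : s ≤ 2 ^ m₀ := by
    rw [hs, div_le_iff₀ hη]
    refine le_trans ?_ hbig
    calc C₂ * (n + 1) * 2 ^ (h + (D * D + 4) * (sm + μ' + 1)) ≤
          2 ^ a₂ * 2 ^ n * 2 ^ (h + (D * D + 4) * (sm + μ' + 1)) := by gcongr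
      _ = 2 ^ (a₂ + n + h + (D * D + 4) * (sm + μ' + 1)) := by
          rw [← pow_add, ← pow_add]
          congr 1
          ring
      _ ≤ 2 ^ (Cc * Sg) := pow_le_pow_right₀ (by norm_num) hexp
  obtain ⟨B₂, g1, g2, g3, g4⟩ := hnph hc e5 V₁ hB₁ hb₁ (by omega) (by
      rw [← hp]
      calc κ₀ * (2 * Ne) * 2 ^ (p + 4) ≤ κ₀ * (2 * Ne) * 2 ^ (p + 12) :=
            mul_le_mul_of_nonneg_left (pow_le_pow_right₀ (by norm_num) (by omega))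
              (mul_nonneg hκ00 hN0.le)
        _ = κ₀ * (2 * Ne * 2 ^ (p + 12)) := by ring
        _ ≤ 1 := hκ₀) (by linarith) hη hη1 hT (by
      have h1 : C₂ * 2 ^ h ≤ 2 ^ m₀ * η := by
        refine le_trans ?_ hbig
        calc C₂ * 2 ^ h ≤ 2 ^ a₂ * 2 ^ h := mul_le_mul_of_nonneg_right ha₂.le (by positivity)
          _ = 2 ^ (a₂ + h) := (pow_add _ _ _).symm
          _ ≤ 2 ^ (Cc * Sg) := pow_le_pow_right₀ (by norm_num) (by omega)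
      calc C₂ * T * 2 ^ h = (C₂ * 2 ^ h) * T := by ring
        _ ≤ (2 ^ m₀ * η) * 2 ^ m₀ := by gcongr
        _ = η * 2 ^ (m₀ + m₀) := by rw [pow_add]; ring
        _ ≤ η * 2 ^ Q := mul_le_mul_of_nonneg_left (pow_le_pow_right₀ (by norm_num) (by omega))
            hη.le)
  rw [← hs] at g3 g4
  rw [← hp] at g2 g3
  have hru : (fun k => (1 : ℝ) / 2 ^ rlb g kk v t₀ k 2) = fun k => 1 / 2 ^ g k 2 := by
    funext k
    rw [rlb_ne (by norm_num)]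
  rw [hru] at g3
  have hB₂ : 0 < Pe F.p B₂ := pos_of_mul_pos_right (lt_of_lt_of_le hB₁ g2) (by positivity)
  have hfm : ∀ k ≤ 3, f k ≤ n := fun k hk => by
    have : k = 0 ∨ k = 1 ∨ k = 2 ∨ k = 3 := by omega
    rcases this with rfl | rfl | rfl | rfl <;> omega
  have hfl : ∀ j ≤ 3, ∀ k ≤ 3, j < k → f j < f k := fun j hj k hk hjk => by
    have h1 : j = 0 ∨ j = 1 ∨ j = 2 := by omega
    have h2 : k = 1 ∨ k = 2 ∨ k = 3 := by omega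
    rcases h1 with rfl | rfl | rfl <;> rcases h2 with rfl | rfl | rfl <;> omega
  have hchn := chn_sel g3 (f := f) (n' := 3) hfm hfl
  have hv1 : rlb g kk v t₀ (f 1) 3 = v := by
    rw [← hkk, rlb_ge le_rfl, Nat.sub_self, Nat.add_zero]
  have hv0 : rlb g kk v t₀ (f 0) 3 = t₀ := by
    rw [rlb_lt hf01, hf0, Nat.sub_self, Nat.add_zero]
  have hmon0 := W.mon 0 h0n kk hkn (Nat.zero_le kk)
  have hB₂B : ∀ ω, B₂ ω → B ω := fun ω hω => e1 ω (g1 ω hω)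
  obtain ⟨B₃, k1, k2, k3⟩ := hfin (u := fun j => g (f j) 2) (v := fun j => rlb g kk v t₀ (f j) 3)
    (w := fun j => w (f j)) (r := r₀) (m₀ := m₀) (L₀ := L₀) (ζ := ζ) (D' := D') hchn
    (tub_sub HT hB₂B) (fun ω hω => hP ω (hB₂B ω hω)) hDB
    (fun j hj => ⟨rfl, rfl, hρ (f j) (hfm j hj)⟩) hT (by
      have : h ≤ Cc * Sg := by
        have : Sg ≤ Cc * Sg := Nat.le_mul_of_pos_left _ (by omega)
        omega
      omega) hTM (by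
      have : C₃ ≤ Cc * Sg := by
        have : Cc ≤ Cc * Sg := Nat.le_mul_of_pos_right _ (by omega)
        omega
      omega) hs0 hsM hs' hsM' hη hη1 hm1 hc0
    (fun j hj => by
      rw [hf0]
      refine ⟨W.wm 0 h0n (f j) (hfm j hj) (Nat.zero_le _), W.wm (f j) (hfm j hj) (f 3) hf3 ?_⟩
      rcases hj.lt_or_eq with h1 | h1
      · exact (hfl j hj 3 le_rfl h1).le
      · rw [h1]) (by rw [hf0]; exact w2) (by
      rw [hv1, hv0, hf0, ← hkk]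
      omega) (by
      rw [hv1, hv0]
      omega) w3 (by rw [← hkk]; omega) (by rw [← hkk]; omega)
    (by rw [← hkk]; exact w5) hQ (by rw [← hkk]; exact w6)
    (B' := B₂) (fun _ h => h) (by
      have h1 : κ₀ * (2 * Ne) * 2 ^ p * 4096 ≤ 1 := by
        refine le_trans (le_of_eq ?_) hκ₀
        rw [pow_add]
        norm_num
        ring
      have h2 := mul_le_mul_of_nonneg_right h1 hB₂.le
      linarith) hB₂ (fun ω hω => by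
      rw [hf0]
      exact hvis ω (hB₂B ω hω))
  have hk3B : Sub B₃ B := fun ω hω => hB₂B ω (k1 ω hω)
  have hPB₃ : Pe F.p B ≤ 2 * Ne * 2 ^ (p + 9) * Pe F.p B₃ := by
    have h1 : Pe F.p B₁ ≤ 2 ^ p * (512 * Pe F.p B₃) :=
      g2.trans (mul_le_mul_of_nonneg_left k2 (by positivity))
    have h2 := mul_le_mul_of_nonneg_left h1 hN0.le
    refine e2.trans (h2.trans (le_of_eq ?_))
    rw [pow_add]
    norm_num
    ring
  have hPB₃0 : 0 ≤ Pe F.p B₃ := Pe_nonneg F.isLaw B₃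
  rcases k3 with ⟨K, k3, k4⟩ | ⟨Hp, k3, k4, k5⟩
  swap
  · refine ⟨B₃, hk3B, hPB₃.trans ?_, Or.inr ⟨Hp, k3, k4, fun ω hω b hb' => k5 ω hω b hb'⟩⟩
    refine mul_le_mul_of_nonneg_right ?_ hPB₃0
    exact mul_le_mul_of_nonneg_left (pow_le_pow_right₀ (by norm_num) (by omega)) hN0.le
  -- the closed slope
  obtain ⟨R, hR⟩ : ∃ R : ℕ → ℝ, R = fun j => 2 ^ g j 2 / 2 ^ g j 3 := ⟨_, rfl⟩
  have hR0 : ∀ j, 0 < R j := fun j => by rw [hR]; positivity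
  have hRj : ∀ j, R j = 2 ^ g j 2 / 2 ^ g j 3 := fun j => by rw [hR]
  obtain ⟨S, hS⟩ : ∃ S : ℝ, S = 2 ^ g kk 2 / 2 ^ v := ⟨_, rfl⟩
  have hS0 : 0 < S := by rw [hS]; positivity
  obtain ⟨q₁, hq₁⟩ : ∃ q₁, q₁ = n + C₆ * (μ + 1) := ⟨_, rfl⟩
  have hq1m : 2 * n + (C₅ * (μ + 1) + C₄ * (μ + 1)) + hr + C₆ * (μ + 1) + 5 ≤ m₀ := by
    refine le_trans ?_ hCm
    have h1 : (C₄ + C₅ + C₆) * (μ + 1) ≤ (C₄ + C₅ + C₆) * Sg := Nat.mul_le_mul_left _ hμμ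
    have h2 : 2 * n + hr + 5 ≤ 8 * Sg := by omega
    have h3 : (C₄ + C₅ + C₆) * (μ + 1) = C₄ * (μ + 1) + C₅ * (μ + 1) + C₆ * (μ + 1) := by ring
    have h4 : Cc * Sg = (C₁ + a₂ + C₃ + (D * D + 4)) * Sg + (C₄ + C₅ + C₆) * Sg + 8 * Sg := by
      rw [hCc]
      ring
    rw [h4]
    rw [h3] at h1
    generalize (C₁ + a₂ + C₃ + (D * D + 4)) * Sg = p1 at *
    generalize (C₄ + C₅ + C₆) * Sg = p2 at *
    omega
  have hown : ∀ ω, B₃ ω → ∀ j ≤ kk,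
      |eval (bt F ω) (pderiv (some (c 2)) (G j (ptr F J ω) 3)) - K ω| ≤
        2 ^ q₁ * R j + 2 ^ (m₀ + ζ + 2) * S := by
    intro ω hω j hj
    have a1 := htel W hc j kk hkn hj ω (hk3B ω hω) (rt F (w kk) ω) (rt_mem F (w kk) ω) 0 (by
      rw [abs_zero]
      positivity)
    rw [add_zero, Function.update_eq_self, ptw_rt F (W.wJ kk hkn), ← hRj] at a1
    have a2 := g4 kk hkn ω (k1 ω hω)
    rw [rlb_ge le_rfl, Nat.sub_self, Nat.add_zero, rlb_ne (by norm_num)] at a2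
    have a3 := k4 ω hω
    rw [hv1] at a3
    have e7 : (1 : ℝ) / 2 ^ v / (1 / 2 ^ g kk 2) = S := by
      rw [hS]
      field_simp
    rw [e7] at a2
    rw [← hkk, ← hS] at a3
    have a4 : (n + 1) * (2 ^ (C₆ * (μ + 1)) * R j) ≤ 2 ^ q₁ * R j := by
      rw [hq₁, pow_add, mul_assoc]
      exact mul_le_mul_of_nonneg_right hn2 (mul_nonneg (by positivity) (hR0 j).le)
    have a5 : s * S ≤ 2 ^ (m₀ + ζ + 1) * S := by
      refine mul_le_mul_of_nonneg_right (hsM.trans ?_) hS0.le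
      exact pow_le_pow_right₀ (by norm_num) (by omega)
    have a6 : (2 : ℝ) ^ (m₀ + ζ + 2) * S = 2 ^ (m₀ + ζ + 1) * S + 2 ^ (m₀ + ζ + 1) * S := by
      rw [pow_succ _ (m₀ + ζ + 1)]
      ring
    rw [a6]
    rw [abs_le] at a1 a2 a3 ⊢
    constructor <;> linarith [a1.1, a1.2, a2.1, a2.2, a3.1, a3.2]
  obtain ⟨X₀, hX₀⟩ : ∃ X₀ : ℝ, X₀ = 2 ^ q₁ * R j₀ + 2 ^ (m₀ + ζ + 2) * S := ⟨_, rfl⟩
  have hX0 : 0 < X₀ := by
    rw [hX₀]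
    have := hR0 j₀
    positivity
  obtain ⟨B₄, l1, l2, l3⟩ := hrel W hDr hc hj₀n (B₁ := B₃) (K₀ := K) (X := X₀) hk3B (by
      rcases le_or_gt κ 0 with h1 | h1
      · exact (mul_nonpos_of_nonpos_of_nonneg h1 hB.le).trans hPB₃0
      · have h2 := mul_le_mul_of_nonneg_left hPB₃ h1.le
        refine h2.trans ?_
        have h3 : κ * (2 * Ne * 2 ^ (p + 9)) ≤ 1 := by
          refine le_trans ?_ hκ
          refine mul_le_mul_of_nonneg_left ?_ h1.le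
          exact mul_le_mul_of_nonneg_left (pow_le_pow_right₀ (by norm_num) (by omega)) hN0.le
        have h4 := mul_le_mul_of_nonneg_right h3 hPB₃0
        rw [one_mul] at h4
        linarith) (clo_slm (by rw [hf0]; exact W.wm 0 h0n j₀ hj₀n (Nat.zero_le _)) (W.wJ j₀ hj₀n) k3)
    hX0 (fun ω hω => by
      rw [hX₀]
      exact hown ω hω j₀ hj₀)
  have hl1B : ∀ ω, B₄ ω → B ω := fun ω hω => hk3B ω (l1 ω hω)
  refine ⟨B₄, hl1B, ?_, Or.inl ⟨K, (hf0 ▸ k3).sub l1, fun ω hω j hj hN2 => ?_⟩⟩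
  · have h1 : Pe F.p B₃ ≤ 2 * Pe F.p B₄ := by linarith
    refine hPB₃.trans ?_
    have h2 := mul_le_mul_of_nonneg_left h1
      (by positivity : (0 : ℝ) ≤ 2 * Ne * 2 ^ (p + 9))
    refine h2.trans (le_of_eq ?_)
    rw [pow_succ _ (p + 9)]
    ring
  have hSR : S ≤ 2 ^ (E + (m₀ - 3)) * R j₀ := by
    rcases e6 ω (g1 ω (k1 ω (l1 ω hω))) with h | h
    · rw [hS, hRj, ← mul_div_assoc, ← pow_add]
      refine div_pw ?_
      have h1 := W.exc j₀ hj₀n kk hkn hj₀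
      have h2 : μ + 1 ≤ C₅ * (μ + 1) := Nat.le_mul_of_pos_left _ (by omega)
      omega
    · have h1 := (hwin W hc hkn hj₀ (hl1B ω hω)
        (by positivity : (0 : ℝ) ≤ 2 ^ (C₄ * (μ + 1) + hr) * X₀)).1 (l3 ω hω)
      have h2 : 2 ^ g kk 2 / 2 ^ (v + E) < ((n : ℝ) + 1) * 2 ^ (C₅ * (μ + 1)) *
          (2 ^ (C₄ * (μ + 1) + hr) * X₀ / 2 ^ (w kk - w j₀) + 2 ^ g j₀ 2 / 2 ^ g j₀ 3) := by
        by_contra hcon
        exact h (h1.mono (not_lt.1 hcon))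
      rw [← hRj] at h2
      obtain ⟨d, hd⟩ : ∃ d, d = w kk - w j₀ := ⟨_, rfl⟩
      rw [← hd] at h2
      have hd1 : 2 * m₀ + ζ + E ≤ d := by omega
      have e8 : (2 : ℝ) ^ g kk 2 / 2 ^ (v + E) = S / 2 ^ E := by
        rw [hS, pow_add, div_div]
      rw [e8] at h2
      obtain ⟨b, hb'⟩ : ∃ b, b = C₄ * (μ + 1) + hr := ⟨_, rfl⟩
      obtain ⟨a, ha⟩ : ∃ a, a = n + C₅ * (μ + 1) := ⟨_, rfl⟩
      rw [← hb'] at h2
      have h3 : 2 ^ b * X₀ / 2 ^ d ≤ 2 ^ (b + q₁) * R j₀ + 2 ^ (b + (m₀ + ζ + 2)) / 2 ^ d * S := by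
        have e9 : 2 ^ b * X₀ / 2 ^ d = 2 ^ (b + q₁) * R j₀ / 2 ^ d +
            2 ^ (b + (m₀ + ζ + 2)) / 2 ^ d * S := by
          rw [hX₀, pow_add _ b q₁, pow_add _ b (m₀ + ζ + 2)]
          ring
        rw [e9]
        refine add_le_add ?_ le_rfl
        exact div_le_self (mul_nonneg (by positivity) (hR0 j₀).le) (one_le_pow₀ (by norm_num))
      have h4 : 2 ^ b * X₀ / 2 ^ d + R j₀ ≤ 2 ^ (b + q₁ + 1) * R j₀ +
          2 ^ (b + (m₀ + ζ + 2)) / 2 ^ d * S := by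
        have h5 : R j₀ ≤ 2 ^ (b + q₁) * R j₀ :=
          le_mul_of_one_le_left (hR0 j₀).le (one_le_pow₀ (by norm_num))
        have e9 : (2 : ℝ) ^ (b + q₁ + 1) * R j₀ = 2 ^ (b + q₁) * R j₀ + 2 ^ (b + q₁) * R j₀ := by
          rw [pow_succ]
          ring
        rw [e9]
        linarith
      have h5 : S / 2 ^ E < 2 ^ (a + (b + q₁ + 1)) * R j₀ + S / 2 ^ (E + 1) := by
        refine lt_of_lt_of_le h2 ?_
        calc ((n : ℝ) + 1) * 2 ^ (C₅ * (μ + 1)) * (2 ^ b * X₀ / 2 ^ d + R j₀) ≤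
              2 ^ n * 2 ^ (C₅ * (μ + 1)) * (2 ^ (b + q₁ + 1) * R j₀ +
                2 ^ (b + (m₀ + ζ + 2)) / 2 ^ d * S) := by
                refine mul_le_mul (mul_le_mul_of_nonneg_right hn2 (by positivity)) h4 ?_
                  (by positivity)
                have := hR0 j₀
                positivity
          _ = 2 ^ (a + (b + q₁ + 1)) * R j₀ + 2 ^ (a + (b + (m₀ + ζ + 2))) / 2 ^ d * S := by
              rw [pow_add _ a (b + q₁ + 1), pow_add _ a (b + (m₀ + ζ + 2)), ha, pow_add _ n]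
              ring
          _ ≤ 2 ^ (a + (b + q₁ + 1)) * R j₀ + S / 2 ^ (E + 1) := by
              refine add_le_add le_rfl ?_
              have e9 : S / 2 ^ (E + 1) = 2 ^ 0 / 2 ^ (E + 1) * S := by
                rw [pow_zero]
                ring
              rw [e9]
              exact mul_le_mul_of_nonneg_right (div_pw (by omega)) hS0.le
      have h6 : S / 2 ^ E = S / 2 ^ (E + 1) + S / 2 ^ (E + 1) := by
        rw [pow_succ]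
        field_simp
        ring
      have h7 : S / 2 ^ (E + 1) < 2 ^ (a + (b + q₁ + 1)) * R j₀ := by linarith
      rw [div_lt_iff₀ (by positivity)] at h7
      refine h7.le.trans ?_
      rw [mul_right_comm, ← pow_add]
      refine mul_le_mul_of_nonneg_right (pow_le_pow_right₀ (by norm_num) ?_) (hR0 j₀).le
      omega
  refine (hown ω (l1 ω hω) j hj).trans ?_
  have h8 : 2 ^ (m₀ + ζ + 2) * S ≤ 2 ^ X / 2 * R j := by
    calc 2 ^ (m₀ + ζ + 2) * S ≤ 2 ^ (m₀ + ζ + 2) * (2 ^ (E + (m₀ - 3)) * R j₀) :=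
          mul_le_mul_of_nonneg_left hSR (by positivity)
      _ = 2 ^ (m₀ + ζ + 2 + (E + (m₀ - 3)) + g j₀ 2) / 2 ^ g j₀ 3 := by
          rw [hRj, pow_add _ _ (g j₀ 2), pow_add _ (m₀ + ζ + 2)]
          ring
      _ ≤ 2 ^ (X - 1 + g j 2) / 2 ^ g j 3 := div_pw (by omega)
      _ = 2 ^ X / 2 * R j := by
          have e9 : (2 : ℝ) ^ X = 2 ^ (X - 1) * 2 := by
            rw [← pow_succ]
            congr 1
            omega
          rw [hRj, e9, pow_add]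
          ring
  have h9 : 2 ^ q₁ * R j ≤ 2 ^ X / 2 * R j := by
    refine mul_le_mul_of_nonneg_right ?_ (hR0 j).le
    have e9 : (2 : ℝ) ^ X / 2 = 2 ^ (X - 1) := by
      have : (2 : ℝ) ^ X = 2 ^ (X - 1) * 2 := by
        rw [← pow_succ]
        congr 1
        omega
      rw [this]
      ring
    rw [e9]
    exact pow_le_pow_right₀ (by norm_num) (by omega)
  rw [← hRj]
  linarith

end Pool.CRC82
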