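import Mathlib

/-!
# The numbers of the conic theorem without the slope line

`sml_num`: the small numbers; `win_num`: the windows.
-/

set_option autoImplicit false

namespace Pool.CRC82

/-- **The small numbers.** -/
theorem sml_num {Cn n' c₀ C₁ c₁ DB hr μ xx gn m₀ : ℕ} {a τ ξ Q : ℝ} (hτ : 0 ≤ τ) (hQ : 0 ≤ Q)
    (h1 : (hr : ℝ) ≤ τ * Q) (h2 : (μ : ℝ) ≤ (a + 3) * (τ * Q))
    (h3 : (xx : ℝ) ≤ τ * Q) (h4 : (gn : ℝ) ≤ 2 * (τ * Q)) (h5 : ξ * Q ≤ m₀ + 1)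
    (hΛ : (Cn * (1 + (Cn * (a + 3) + 1 + (a + 3)) + (1 + 20 * DB) + 20) + 4 * C₁) * τ ≤ ξ / 2)
    (hK : (Cn * (n' + 1 + (Cn + n') + (20 * c₀ * DB + c₁) + 20 * c₀) + C₁ + 3 : ℝ) ≤
      ξ / 2 * Q) :
    Cn * (n' + 1 + hr + (Cn * (μ + 1) + hr + n' + μ) + (hr + 20 * (c₀ + xx) * DB + c₁) +
      20 * (c₀ + xx)) + (C₁ * (xx + xx + gn + 1) + 2) ≤ m₀ := by
  have hCn : (0 : ℝ) ≤ Cn := Nat.cast_nonneg _
  have hC₁ : (0 : ℝ) ≤ C₁ := Nat.cast_nonneg _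
  have hDB : (0 : ℝ) ≤ DB := Nat.cast_nonneg _
  have e1 := mul_le_mul_of_nonneg_left h1 hCn
  have e2 := mul_le_mul_of_nonneg_left h2 hCn
  have e3 := mul_le_mul_of_nonneg_left h2 (mul_nonneg hCn hCn)
  have e4 := mul_le_mul_of_nonneg_left h3 (mul_nonneg hCn hDB)
  have e5 := mul_le_mul_of_nonneg_left h3 hCn
  have e6 := mul_le_mul_of_nonneg_left h3 hC₁
  have e7 := mul_le_mul_of_nonneg_left h4 hC₁
  have e8 := mul_le_mul_of_nonneg_right hΛ hQ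
  have e0 : 0 ≤ Cn * (τ * Q) := by positivity
  have key : ((Cn * (n' + 1 + hr + (Cn * (μ + 1) + hr + n' + μ) +
      (hr + 20 * (c₀ + xx) * DB + c₁) + 20 * (c₀ + xx)) + (C₁ * (xx + xx + gn + 1) + 2) : ℕ) : ℝ) ≤
      (m₀ : ℝ) := by
    push_cast
    linarith
  exact_mod_cast key

/-- **The windows.** Positions `V k = -A + k / p`, `k ≤ (A + 1) p`; `u`, `v`, `w`: exponents of `u`,
`N`, and the window. -/
structure WNum (A p : ℕ) (a b s Q U₀ N₀ T₀ : ℝ) (u v w : ℕ → ℕ) : Prop where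
  hu : ∀ k ≤ (A + 1) * p, |(u k : ℝ) - (U₀ + a * (-A + k / p) * Q)| ≤ s * Q
  hv : ∀ k ≤ (A + 1) * p, |(v k : ℝ) - (N₀ + b * (-A + k / p) * Q)| ≤ s * Q
  hw : ∀ k ≤ (A + 1) * p, |(w k : ℝ) - (T₀ + (-A + k / p) * Q)| ≤ 1

section

variable {A p : ℕ} {a b s Q U₀ N₀ T₀ : ℝ} {u v w : ℕ → ℕ} (W : WNum A p a b s Q U₀ N₀ T₀ u v w)
include W

theorem WNum.at' (hp : 1 ≤ p) {i : ℕ} (hi : i ≤ A + 1) :
    |(u (i * p) : ℝ) - (U₀ + a * (-A + i) * Q)| ≤ s * Q ∧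
    |(v (i * p) : ℝ) - (N₀ + b * (-A + i) * Q)| ≤ s * Q ∧
    |(w (i * p) : ℝ) - (T₀ + (-A + i) * Q)| ≤ 1 := by
  have hp0 : (p : ℝ) ≠ 0 := by
    have : (1 : ℝ) ≤ p := by exact_mod_cast hp
    positivity
  have h1 : i * p ≤ (A + 1) * p := Nat.mul_le_mul_right p hi
  have e : ((i * p : ℕ) : ℝ) / p = i := by
    push_cast
    field_simp
  refine ⟨?_, ?_, ?_⟩
  · have := W.hu (i * p) h1
    rwa [e] at this
  · have := W.hv (i * p) h1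
    rwa [e] at this
  · have := W.hw (i * p) h1
    rwa [e] at this

/-- **The windows of the conic theorem.** -/
theorem WNum.out (hp : 1 ≤ p) (ha : 2 < a) (hab : a < b) {ξ : ℝ} {x R₁ D' m₀ E ζ : ℕ}
    (hs0 : 0 ≤ s) (hs : s ≤ 1 / 32) (hsa : 8 * s ≤ a - 2) (hξ : ξ ≤ 1 / 32) (hm : (m₀ : ℝ) ≤ ξ * Q)
    (hE : E ≤ m₀) (hD' : 2 * a ≤ D') (hζ0 : 2 * a * Q ≤ ζ + 1) (hζ1 : (ζ : ℝ) ≤ 2 * a * Q)
    (hx : 2 * a + 1 ≤ x) (hR : 2 * a + 2 ≤ (b - a) * (R₁ - 1 - x)) (hRA : R₁ + 1 ≤ A)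
    (hxR : x + 1 ≤ R₁) (hQ1 : 8 * (D' + 4) ≤ Q) (hQ2 : 16 ≤ (a - 2) * Q) :
    u 0 + m₀ ≤ u ((A - 1) * p) ∧
    (∀ i ≤ (A - 1) * p, v ((A - 1) * p) ≤ v i + ⌈(b * A + 2 * s) * Q⌉₊) ∧
    u (A * p) + 2 * w ((A + 1) * p) ≤ u ((A + 1) * p) + 2 * w (A * p) ∧
    3 + 7 * m₀ + w ((A - 1) * p) ≤ w (A * p) ∧
    (D' + 1) * (7 * m₀ + w ((A - 1) * p)) + 2 * w (A * p) + u ((A + 1) * p) ≤
      (D' + 1) * w (A * p) + 2 * w ((A + 1) * p) + u (A * p) ∧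
    1 + u ((A + 1) * p) + 2 * w ((A - 1) * p) ≤ ζ + u ((A - 1) * p) + 2 * w ((A + 1) * p) ∧
    2 * m₀ + ζ + E + w ((A - 1 - x) * p) ≤ w ((A - 1) * p) ∧
    (∀ j, j = 0 ∨ j = (A - R₁) * p →
      2 * m₀ + ζ + E + u ((A - 1 - x) * p) + v j ≤ m₀ + v ((A - 1 - x) * p) + u j) := by
  have hQ0 : 0 ≤ Q := by
    have : (0 : ℝ) ≤ D' := Nat.cast_nonneg _
    linarith
  have hA1 : 1 ≤ A := by omega
  have cA1 : ((A - 1 : ℕ) : ℝ) = A - 1 := by rw [Nat.cast_sub hA1]; norm_num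
  have cAx : ((A - 1 - x : ℕ) : ℝ) = A - 1 - x := by
    rw [Nat.cast_sub (by omega), cA1]
  have cAR : ((A - R₁ : ℕ) : ℝ) = A - R₁ := by rw [Nat.cast_sub (by omega)]
  obtain ⟨k1, k2, k3⟩ := W.at' hp (i := A - 1) (by omega)
  obtain ⟨t1, t2, t3⟩ := W.at' hp (i := A) (by omega)
  obtain ⟨n1, n2, n3⟩ := W.at' hp (i := A + 1) le_rfl
  obtain ⟨j1, j2, j3⟩ := W.at' hp (i := A - 1 - x) (by omega)
  obtain ⟨i1, i2, -⟩ := W.at' hp (i := A - R₁) (by omega)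
  obtain ⟨b1, b2, b3⟩ := W.at' hp (i := 0) (by omega)
  rw [cA1] at k1 k2 k3
  rw [cAx] at j1 j2 j3
  rw [cAR] at i1 i2
  rw [Nat.zero_mul] at b1 b2 b3
  push_cast at n1 n2 n3 b1 b2 b3
  have e1 : -(A : ℝ) + (A - 1) = -1 := by ring
  have e2 : -(A : ℝ) + A = 0 := by ring
  have e3 : -(A : ℝ) + (A + 1) = 1 := by ring
  have e4 : -(A : ℝ) + (A - 1 - x) = -1 - x := by ring
  have e5 : -(A : ℝ) + (A - R₁) = -R₁ := by ring
  rw [e1] at k1 k2 k3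
  rw [e2] at t1 t2 t3
  rw [e3] at n1 n2 n3
  rw [e4] at j1 j2 j3
  rw [e5] at i1 i2
  rw [add_zero] at b1 b2 b3
  obtain ⟨k1a, k1b⟩ := abs_le.1 k1
  obtain ⟨k2a, k2b⟩ := abs_le.1 k2
  obtain ⟨k3a, k3b⟩ := abs_le.1 k3
  obtain ⟨t1a, t1b⟩ := abs_le.1 t1
  obtain ⟨t3a, t3b⟩ := abs_le.1 t3
  obtain ⟨n1a, n1b⟩ := abs_le.1 n1
  obtain ⟨n3a, n3b⟩ := abs_le.1 n3
  obtain ⟨j1a, j1b⟩ := abs_le.1 j1
  obtain ⟨j2a, j2b⟩ := abs_le.1 j2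
  obtain ⟨j3a, j3b⟩ := abs_le.1 j3
  obtain ⟨i1a, i1b⟩ := abs_le.1 i1
  obtain ⟨i2a, i2b⟩ := abs_le.1 i2
  obtain ⟨b1a, b1b⟩ := abs_le.1 b1
  obtain ⟨b2a, b2b⟩ := abs_le.1 b2
  have hD0 : (0 : ℝ) ≤ D' := Nat.cast_nonneg _
  have hEr : (E : ℝ) ≤ m₀ := by exact_mod_cast hE
  have hξQ : ξ * Q ≤ Q / 32 := by
    have := mul_le_mul_of_nonneg_right hξ hQ0
    linarith
  have hsQ : s * Q ≤ Q / 32 := by
    have := mul_le_mul_of_nonneg_right hs hQ0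
    linarith
  have hsQ0 : 0 ≤ s * Q := mul_nonneg hs0 hQ0
  have hsaQ : 8 * (s * Q) ≤ a * Q - 2 * Q := by
    have := mul_le_mul_of_nonneg_right hsa hQ0
    linarith
  have hAr : (R₁ : ℝ) + 1 ≤ A := by exact_mod_cast hRA
  have hxr : (x : ℝ) + 1 ≤ R₁ := by exact_mod_cast hxR
  have hx0 : (0 : ℝ) ≤ x := Nat.cast_nonneg _
  have haQ : 2 * Q ≤ a * Q := mul_le_mul_of_nonneg_right ha.le hQ0
  have hbQ : a * Q ≤ b * Q := mul_le_mul_of_nonneg_right hab.le hQ0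
  have hA0 : (3 : ℝ) ≤ A := by linarith
  refine ⟨?_, ?_, ?_, ?_, ?_, ?_, ?_, ?_⟩
  · have : ((u 0 + m₀ : ℕ) : ℝ) ≤ ((u ((A - 1) * p) : ℕ) : ℝ) := by
      push_cast
      have h1 : a * Q * 3 ≤ a * Q * A := mul_le_mul_of_nonneg_left hA0 (by linarith)
      linarith
    exact_mod_cast this
  · intro i hi
    have hi' : i ≤ (A + 1) * p := hi.trans (Nat.mul_le_mul_right p (by omega))
    obtain ⟨h1, h2⟩ := abs_le.1 (W.hv i hi')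
    have h3 := Nat.le_ceil ((b * A + 2 * s) * Q)
    have h4 : (0 : ℝ) ≤ (i : ℝ) / p := by positivity
    have h5 : 0 ≤ b * Q := by linarith
    have h6 := mul_nonneg h5 h4
    have : ((v ((A - 1) * p) : ℕ) : ℝ) ≤ ((v i + ⌈(b * A + 2 * s) * Q⌉₊ : ℕ) : ℝ) := by
      push_cast
      have h7 : b * (-(A : ℝ) + i / p) * Q = -(b * A * Q) + b * Q * (i / p) := by ring
      have h8 : (b * A + 2 * s) * Q = b * A * Q + 2 * (s * Q) := by ring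
      linarith
    exact_mod_cast this
  · have : ((u (A * p) + 2 * w ((A + 1) * p) : ℕ) : ℝ) ≤
        ((u ((A + 1) * p) + 2 * w (A * p) : ℕ) : ℝ) := by
      push_cast
      linarith
    exact_mod_cast this
  · have : ((3 + 7 * m₀ + w ((A - 1) * p) : ℕ) : ℝ) ≤ ((w (A * p) : ℕ) : ℝ) := by
      push_cast
      linarith
    exact_mod_cast this
  · have key : ((D' + 1 : ℝ)) * (7 * m₀ + w ((A - 1) * p)) + 2 * w (A * p) + u ((A + 1) * p) ≤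
        (D' + 1) * w (A * p) + 2 * w ((A + 1) * p) + u (A * p) := by
      have h1 : 3 / 4 * Q - 2 ≤ (w (A * p) : ℝ) - w ((A - 1) * p) - 7 * m₀ := by linarith
      have h2 := mul_le_mul_of_nonneg_left h1 (by linarith : (0 : ℝ) ≤ D' + 1)
      have h3 := mul_le_mul_of_nonneg_right hD' hQ0
      linarith
    exact_mod_cast key
  · have : ((1 + u ((A + 1) * p) + 2 * w ((A - 1) * p) : ℕ) : ℝ) ≤
        ((ζ + u ((A - 1) * p) + 2 * w ((A + 1) * p) : ℕ) : ℝ) := by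
      push_cast
      linarith
    exact_mod_cast this
  · have : ((2 * m₀ + ζ + E + w ((A - 1 - x) * p) : ℕ) : ℝ) ≤ ((w ((A - 1) * p) : ℕ) : ℝ) := by
      push_cast
      have h1 := mul_le_mul_of_nonneg_right hx hQ0
      linarith
    exact_mod_cast this
  · have h1 := mul_le_mul_of_nonneg_right hR hQ0
    intro j hj
    rcases hj with rfl | rfl
    · have : ((2 * m₀ + ζ + E + u ((A - 1 - x) * p) + v 0 : ℕ) : ℝ) ≤
          ((m₀ + v ((A - 1 - x) * p) + u 0 : ℕ) : ℝ) := by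
        push_cast
        have h2 : (b - a) * Q * R₁ ≤ (b - a) * Q * A :=
          mul_le_mul_of_nonneg_left (by linarith) (mul_nonneg (by linarith) hQ0)
        linarith
      exact_mod_cast this
    · have : ((2 * m₀ + ζ + E + u ((A - 1 - x) * p) + v ((A - R₁) * p) : ℕ) : ℝ) ≤
          ((m₀ + v ((A - 1 - x) * p) + u ((A - R₁) * p) : ℕ) : ℝ) := by
        push_cast
        linarith
      exact_mod_cast this

omit W in
theorem sub_le_of {x y : ℕ} {d : ℝ} (hd : 0 ≤ d) (h : (x : ℝ) ≤ y + d) : ((x - y : ℕ) : ℝ) ≤ d := by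
  rcases Nat.le_total y x with h1 | h1
  · rw [Nat.cast_sub h1]
    linarith
  · rw [Nat.sub_eq_zero_of_le h1, Nat.cast_zero]
    exact hd

/-- **The visibility.** -/
theorem WNum.big (hp : 1 ≤ p) (ha : 2 < a) (hab : a < b) {ξ : ℝ} {m₀ L₀ Cn : ℕ}
    (hs0 : 0 ≤ s) (hs : s ≤ 1 / 32) (hξ : ξ ≤ 1 / 32) (hm : (m₀ : ℝ) ≤ ξ * Q)
    (hA3 : 3 ≤ A) (hQ1 : 32 ≤ Q)
    (hL : (Cn * ((1 + a) * A + 1) + b * A + 2 * A + 10) * Q ≤ L₀) :
    13 * m₀ + 4 * w ((A + 1) * p) + u ((A - 1) * p) +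
      (Cn * ((w ((A - 1) * p) - w 0) + (u ((A - 1) * p) - u 0) + 1) +
        ⌈(b * A + 2 * s) * Q⌉₊) ≤
      L₀ + 1 + u ((A + 1) * p) + 2 * w ((A - 1) * p) + 2 * w 0 ∧
    13 * m₀ + 2 * w ((A + 1) * p) ≤ L₀ + 2 * w 0 := by
  have hQ0 : 0 ≤ Q := by linarith
  have hA1 : 1 ≤ A := by omega
  have cA1 : ((A - 1 : ℕ) : ℝ) = A - 1 := by rw [Nat.cast_sub hA1]; norm_num
  obtain ⟨k1, -, k3⟩ := W.at' hp (i := A - 1) (by omega)
  obtain ⟨n1, -, n3⟩ := W.at' hp (i := A + 1) le_rfl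
  obtain ⟨b1, -, b3⟩ := W.at' hp (i := 0) (by omega)
  rw [cA1] at k1 k3
  rw [Nat.zero_mul] at b1 b3
  push_cast at n1 n3 b1 b3
  have e1 : -(A : ℝ) + (A - 1) = -1 := by ring
  have e3 : -(A : ℝ) + (A + 1) = 1 := by ring
  rw [e1] at k1 k3
  rw [e3] at n1 n3
  rw [add_zero] at b1 b3
  obtain ⟨k1a, k1b⟩ := abs_le.1 k1
  obtain ⟨k3a, k3b⟩ := abs_le.1 k3
  obtain ⟨n1a, n1b⟩ := abs_le.1 n1
  obtain ⟨n3a, n3b⟩ := abs_le.1 n3
  obtain ⟨b1a, b1b⟩ := abs_le.1 b1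
  obtain ⟨b3a, b3b⟩ := abs_le.1 b3
  have hξQ : ξ * Q ≤ Q / 32 := by
    have := mul_le_mul_of_nonneg_right hξ hQ0
    linarith
  have hsQ : s * Q ≤ Q / 32 := by
    have := mul_le_mul_of_nonneg_right hs hQ0
    linarith
  have hsQ0 : 0 ≤ s * Q := mul_nonneg hs0 hQ0
  have hA0 : (3 : ℝ) ≤ A := by exact_mod_cast hA3
  have haQ : 2 * Q ≤ a * Q := mul_le_mul_of_nonneg_right ha.le hQ0
  have hbQ : a * Q ≤ b * Q := mul_le_mul_of_nonneg_right hab.le hQ0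
  have hAQ : 3 * Q ≤ A * Q := mul_le_mul_of_nonneg_right hA0 hQ0
  have haA : a * Q * 3 ≤ a * Q * A := mul_le_mul_of_nonneg_left hA0 (by linarith)
  have hbA : b * Q * 3 ≤ b * Q * A := mul_le_mul_of_nonneg_left hA0 (by linarith)
  have hCn : (0 : ℝ) ≤ Cn := Nat.cast_nonneg _
  have d1 : ((w ((A - 1) * p) - w 0 : ℕ) : ℝ) ≤ A * Q := sub_le_of (by linarith) (by linarith)
  have d2 : ((u ((A - 1) * p) - u 0 : ℕ) : ℝ) ≤ a * A * Q := sub_le_of (by linarith) (by linarith)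
  have d3 := mul_le_mul_of_nonneg_left (add_le_add (add_le_add d1 d2) (le_refl (1 : ℝ))) hCn
  have d4 := Nat.ceil_lt_add_one (show 0 ≤ (b * A + 2 * s) * Q by
    have e : (b * A + 2 * s) * Q = b * Q * A + 2 * (s * Q) := by ring
    rw [e]
    linarith)
  have d5 : (Cn : ℝ) ≤ Cn * Q := le_mul_of_one_le_right hCn (by linarith)
  have e4 : (Cn * ((1 + a) * A + 1) + b * A + 2 * A + 10) * Q =
      Cn * (A * Q + a * A * Q) + Cn * Q + b * Q * A + 2 * (A * Q) + 10 * Q := by ring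
  rw [e4] at hL
  have e5 : (b * A + 2 * s) * Q = b * Q * A + 2 * (s * Q) := by ring
  rw [e5] at d4
  have d6 : (0 : ℝ) ≤ Cn * (A * Q + a * A * Q) := by
    have : 0 ≤ A * Q + a * A * Q := by
      have e : a * A * Q = a * Q * A := by ring
      rw [e]
      linarith
    positivity
  have d7 : 0 ≤ (Cn : ℝ) * Q := by positivity
  rw [← e5] at d4
  constructor
  · have key : (13 * m₀ + 4 * w ((A + 1) * p) + u ((A - 1) * p) +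
        (Cn * (((w ((A - 1) * p) - w 0 : ℕ) : ℝ) + ((u ((A - 1) * p) - u 0 : ℕ) : ℝ) + 1) +
          (⌈(b * A + 2 * s) * Q⌉₊ : ℝ)) : ℝ) ≤
        L₀ + 1 + u ((A + 1) * p) + 2 * w ((A - 1) * p) + 2 * w 0 := by
      linarith
    exact_mod_cast key
  · have : ((13 * m₀ + 2 * w ((A + 1) * p) : ℕ) : ℝ) ≤ ((L₀ + 2 * w 0 : ℕ) : ℝ) := by
      push_cast
      linarith
    exact_mod_cast this

end

end Pool.CRC82
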