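import Pool.Agent.H60.CNC.Tub
import Pool.Agent.H3.D2G.RecN

/-!
# Row windows and ball windows of a record

`wgt_rec`: the windows with rows, the ball windows and the rows of the thin labels of a record, as data
of a class.
-/

set_option autoImplicit false

namespace Pool.CRC82

open Finset Real MvPolynomial
open Pool.Agent.H49.Ent Pool.Agent.H32.Dense Pool.STK Pool.KA Pool.KSAT Pool.K2S Pool.PB Pool.S6C
open Pool.GEN Pool.CHT Pool.CHX Pool.ISO Pool.D2R Pool.D2G30 Pool.V1E Pool.PKG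
open Pool.LBT (ThrOf)
open Pool.LEV (Law)
open Pool.CNC60 (TubR wgt_con)

/-- **Row windows and ball windows** of a record. -/
theorem wgt_rec (m r S₂ : ℕ) (hr : 1 ≤ r) (hS₂ : 1 ≤ S₂) : ∃ D : ℕ, 1 ≤ D ∧ ∀ Dr : ℕ, D ≤ Dr →
    ∃ C C₃ : ℝ, 1 ≤ C ∧ 1 ≤ C₃ ∧ ∀ {S : PCl m} {al : ℝ} {g₀ : ℝ → ℝ}
    {P : List (Fin m) × Fin m → ℝ → ℝ → ℝ} {θ : ℝ}
    {P₂ : ℕ → List (Fin m) × Fin m → ℝ → ℝ → ℝ} {θ₂ Eb e₂ : ℕ → ℝ} {c : ℕ → Fin m}
    {Pt : ℝ → ℝ → ℝ} {rr : ℝ → ℝ} {h K₀ g : ℝ} {L T : ℕ → ℝ → ℝ → ℝ} {Sl : ℕ → ℝ}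
    {κ : ℕ → Kg} {G : Set ℝ} {S₀ N : ℕ} {A V : ℕ → ℝ} {N' : ℕ} {V' : ℕ → ℝ} {K ε q t : ℝ},
    RecG S al g₀ P θ P₂ θ₂ Eb e₂ c Pt rr h K₀ g L T Sl κ G S₀ N A V S₂ N' V' K ε q t →
    r < m → S₀ ≤ S₂ → 0 ≤ ε → ∀ {a η : ℝ} {W : ℕ → ℝ} {n n₂ : ℕ}, n ≤ n₂ →
    (∀ k ≤ n, ∃ j < N, A j = a ∧ V j = W k) → (∀ k, n < k → k ≤ n₂ → ∃ j < N', V' j = W k) →
    (∀ k ≤ n₂, -K + 1 ≤ W k ∧ W k + 1 ≤ a) → a ≤ K →
    0 < η → 3 * C * ε < η → 4 * (C * η) ≤ 1 →
    ∃ (K₁ : ℝ) (b : ℕ → ℕ → ℝ), 0 < K₁ ∧ ∀ κ' : ℝ, 0 < κ' → Bas S (fun _ F A =>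
      ∃ (B : F.Ω → Prop) (z gc gT g₀ : ℕ → ℕ → ℕ)
        (G : ℕ → PtT F → ℕ → MvPolynomial (Option (Fin m)) ℝ)
        (H : ℕ → LnT F → ℕ → MvPolynomial (Option (Fin m)) ℝ)
        (T : ℕ → PtT F → ℕ → MvPolynomial (Option (Fin m)) ℝ)
        (TH : ℕ → LnT F → ℕ → MvPolynomial (Option (Fin m)) ℝ)
        (Gt : ℕ → PtT F → MvPolynomial (Option (Fin m)) ℝ)
        (Ht : ℕ → LnT F → MvPolynomial (Option (Fin m)) ℝ), Sub B A ∧
        Pe F.p A ≤ K₁ * Pe F.p B ∧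
        WG c r D Dr n n₂ (fun l => κ l = .one ∨ κ l = .thin) C (t + a * q) (Eb r) (3 * ε * q)
          (η * q) (L r) (fun k => t + W k * q)
          (fun k l => lvN P c r (L r) l (t + W k * q) (t + W k * q))
          (fun k l => bet P c l (t + a * q) (t + W k * q)) F b κ' z B gc gT g₀ G H T TH Gt Ht ∧
        TubR F c r n C₃ (t + a * q) (η * q) (fun k => t + W k * q) gc gT g₀ B G H T TH) := by
  obtain ⟨D, hD, hw⟩ := wgt_con m r S₂ hr hS₂
  refine ⟨D, hD, fun Dr hDr => ?_⟩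
  obtain ⟨C, C₃, hC, hC₃, hw⟩ := hw Dr hDr
  refine ⟨C, C₃, hC, hC₃, ?_⟩
  intro S al g₀ P θ P₂ θ₂ Eb e₂ c Pt rr h K₀ g L T Sl κ G S₀ N A V N' V' K ε q t Rc hrm hS hε a η W n
    n₂ hn hW hWc hWb haK hη hεη hCη
  have hq := Rc.q0
  have ht0 := Rc.t0
  have ht1 := Rc.t1
  have Tg := Rc.tg r hr hrm
  have hlv : ∀ l ≤ r, ∀ x y : ℝ, lvN P c r (L r) l x y = L l x y :=
    fun l hl x y => by rw [← Rc.lv_at hrm hl]
  have hC0 : 0 < C := by linarith
  have hCηq : 4 * (C * (η * q)) ≤ q := by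
    have := mul_le_mul_of_nonneg_right hCη hq.le
    linarith
  have hηq : 0 < η * q := by positivity
  have hηC : η * q ≤ C * (η * q) := le_mul_of_one_le_left hηq.le hC
  have hWq : ∀ k ≤ n₂, -(K * q) + q ≤ W k * q ∧ W k * q + q ≤ a * q := fun k hk => by
    have h1 := mul_le_mul_of_nonneg_right (hWb k hk).1 hq.le
    have h2 := mul_le_mul_of_nonneg_right (hWb k hk).2 hq.le
    constructor <;> linarith
  have haq : a * q ≤ K * q := mul_le_mul_of_nonneg_right haK hq.le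
  have hWx : ∀ k ≤ n₂, |t + W k * q - t| ≤ K * q := fun k hk => by
    obtain ⟨h1, h2⟩ := hWq k hk
    rw [abs_le]
    constructor <;> linarith
  have hax : ∀ k ≤ n₂, |t + a * q - t| ≤ K * q := fun k hk => by
    obtain ⟨h1, h2⟩ := hWq k hk
    rw [abs_le]
    constructor <;> linarith
  exact hw (S := S) (P := P) (θ := θ) (c := c) (Pt := L r)
    (R := fun l => κ l = .one ∨ κ l = .thin) (a := t + a * q) (Eb := Eb r)
    (ε₀ := 3 * ε * q) (η₀ := η * q) (o := fun k => t + W k * q) n n₂ hn Rc.thr Rc.th0 Rc.tmh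
    (Rc.inj.mono fun x hx => by
      rw [Set.mem_Iio] at hx ⊢
      omega) (Rc.lawL _ hrm) Tg.Eb0.le (fun k hk => by
      obtain ⟨j, hj, hA, hV⟩ := hW k hk
      have h1 := Rc.winD (i := r) hr hrm hj (by rw [hV]; linarith [(hWb k (hk.trans hn)).1])
        (by rw [hA, hV]; linarith [(hWb k (hk.trans hn)).2]) (by rw [hA]; exact haK)
        (ε' := 3 * ε * q) le_rfl
        hε (Rg := fun l => κ l = .one ∨ κ l = .thin) (fun l _ h => h)
      rw [hA, hV] at h1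
      exact h1) (fun k h1 h2 => by
      obtain ⟨j, hj, hV⟩ := hWc k h1 h2
      obtain ⟨h3, h4⟩ := hWb k h2
      have h5 := Rc.balD_at (i := r) hr hrm hS hj (x := a) (by rw [hV]; linarith)
        (by rw [hV]; linarith) (by
          rw [hV, abs_le]
          constructor <;> linarith)
      rw [hV] at h5
      exact h5) (by
      have := mul_lt_mul_of_pos_right hεη hq
      linarith) (fun k hk => by
      obtain ⟨h1, h2⟩ := hWq k (hk.trans hn)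
      have h3 : 0 ≤ t + W k * q := by linarith
      have h4 := Rc.low_at hrm (a := t + a * q) (w := t + W k * q) h3 (by linarith) (by linarith)
      have h5 := Rc.low_at hrm (a := t + W k * q) (w := t + W k * q) h3 le_rfl (by linarith)
      rw [hlv _ le_rfl]
      refine ⟨by linarith, by linarith, by linarith⟩) (fun k hk => by
      obtain ⟨h1, h2⟩ := hWq k hk
      linarith) (by linarith [(hWq 0 (Nat.zero_le _)).1]) (fun k hk l hl => by
      obtain ⟨h1, h2⟩ := hWq k (hk.trans hn)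
      have h3 := Tg.room l hl _ (hWx k (hk.trans hn))
      rw [hlv l hl]
      linarith) (fun k hk l hl => by
      obtain ⟨h1, h2⟩ := hWq k (hk.trans hn)
      have h3 := Tg.room l hl.le _ (hax k (hk.trans hn))
      rw [Rc.lv_lt (l := l) (by omega)] at h3
      have h4 : bet P c l (t + a * q) (t + W k * q) ≤ bet P c l (t + a * q) (t + a * q) :=
        (Rc.thr.law _).mono_w _ _ _ (by linarith) (by linarith) le_rfl (by linarith)
      linarith)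

end Pool.CRC82
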