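import Pool.Agent.H82.CRC.Cri
import Pool.Agent.H82.CRC.Crw
import Pool.Agent.H99.D2.Rga

/-!
# Rows and balls of the conic theorem at a record

`wgt_con`: `wgt_rec` for the windows `Wn`. `row_con`: the level of the row `t` of `u`.
-/

set_option autoImplicit false

namespace Pool.CRC82

open Finset Real MvPolynomial
open Pool.Agent.H49.Ent Pool.Agent.H32.Dense Pool.STK Pool.KA Pool.KSAT Pool.K2S Pool.PB Pool.S6C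
open Pool.GEN Pool.CHT Pool.CHX Pool.ISO Pool.D2R Pool.D2G30 Pool.V1E Pool.PKG
open Pool.LBT (ThrOf)
open Pool.LEV (Law)
open Pool.CNC60 (TubR)
open Pool.CR99

/-- **Row windows and ball windows** of the conic theorem. -/
theorem wgt_con (m S₂ : ℕ) (hS₂ : 1 ≤ S₂) : ∃ D : ℕ, 1 ≤ D ∧ ∀ Dr : ℕ, D ≤ Dr →
    ∃ C C₃ : ℝ, 1 ≤ C ∧ 1 ≤ C₃ ∧ ∀ {S : PCl m} {al : ℝ} {g₀ : ℝ → ℝ}
    {P : List (Fin m) × Fin m → ℝ → ℝ → ℝ} {θ : ℝ}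
    {P₂ : ℕ → List (Fin m) × Fin m → ℝ → ℝ → ℝ} {θ₂ Eb e₂ : ℕ → ℝ} {c : ℕ → Fin m}
    {Pt : ℝ → ℝ → ℝ} {rr : ℝ → ℝ} {h K₀ g : ℝ} {L T : ℕ → ℝ → ℝ → ℝ} {Sl : ℕ → ℝ}
    {κ : ℕ → Kg} {G : Set ℝ} {S₀ N : ℕ} {A' V : ℕ → ℝ} {N' : ℕ} {V' : ℕ → ℝ} {K ε q t : ℝ},
    RecG S al g₀ P θ P₂ θ₂ Eb e₂ c Pt rr h K₀ g L T Sl κ G S₀ N A' V S₂ N' V' K ε q t →
    3 < m → S₀ ≤ S₂ → 0 ≤ ε → ∀ {a η g₂ : ℝ} {A p : ℕ}, 1 ≤ p → 0 ≤ g₂ → g₂ ≤ 1 →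
    (∃ j < N, A' j = a ∧ V j = 0) → (∃ j < N, A' j = a ∧ V j = 1) →
    (∀ k, 2 ≤ k → k ≤ (A + 1) * p + 6 → ∃ j < N', V' j = Wn A p g₂ k) →
    2 * A + 12 ≤ K → 3 ≤ a → a ≤ K → 0 < η → 3 * C * ε < η → 4 * (C * η) ≤ 1 →
    ∃ (K₁ : ℝ) (b : ℕ → ℕ → ℝ), 0 < K₁ ∧ ∀ κ' : ℝ, 0 < κ' → Bas S (fun _ F B₀ =>
      ∃ (B : F.Ω → Prop) (z gc gT g₀ : ℕ → ℕ → ℕ)
        (G : ℕ → PtT F → ℕ → MvPolynomial (Option (Fin m)) ℝ)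
        (H : ℕ → LnT F → ℕ → MvPolynomial (Option (Fin m)) ℝ)
        (T : ℕ → PtT F → ℕ → MvPolynomial (Option (Fin m)) ℝ)
        (TH : ℕ → LnT F → ℕ → MvPolynomial (Option (Fin m)) ℝ)
        (Gt : ℕ → PtT F → MvPolynomial (Option (Fin m)) ℝ)
        (Ht : ℕ → LnT F → MvPolynomial (Option (Fin m)) ℝ), Sub B B₀ ∧
        Pe F.p B₀ ≤ K₁ * Pe F.p B ∧
        WG c 3 D Dr 1 ((A + 1) * p + 6) (fun l => κ l = .one ∨ κ l = .thin) C (t + a * q) (Eb 3)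
          (3 * ε * q) (η * q) (L 3) (fun k => t + Wn A p g₂ k * q)
          (fun k l => lvN P c 3 (L 3) l (t + Wn A p g₂ k * q) (t + Wn A p g₂ k * q))
          (fun k l => bet P c l (t + a * q) (t + Wn A p g₂ k * q)) F b κ' z B gc gT g₀ G H T TH
          Gt Ht ∧
        TubR F c 3 1 C₃ (t + a * q) (η * q) (fun k => t + Wn A p g₂ k * q) gc gT g₀ B G H T
          TH) := by
  obtain ⟨D, hD, hw⟩ := wgt_rec m 3 S₂ (by norm_num) hS₂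
  refine ⟨D, hD, fun Dr hDr => ?_⟩
  obtain ⟨C, C₃, hC, hC₃, hw⟩ := hw Dr hDr
  refine ⟨C, C₃, hC, hC₃, ?_⟩
  intro S al g₀ P θ P₂ θ₂ Eb e₂ c Pt rr h K₀ g L T Sl κ G S₀ N A' V N' V' K ε q t Rc hm hS hε a η
    g₂ A p hp hg0 hg1 hr0 hr1 hb hK ha haK hη hεη hCη
  refine hw Rc hm hS hε (a := a) (η := η) (W := Wn A p g₂) (n := 1) (by omega) (fun k hk => ?_)
    (fun k h1 h2 => hb k h1 h2) (fun k hk => ?_) haK hη hεη hCη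
  · rcases k with _ | _ | k
    · exact hr0
    · exact hr1
    · omega
  · obtain ⟨h1, h2⟩ := Wn_le (A := A) (g₂ := g₂) hp hg0 hk hg1
    constructor <;> linarith

/-- **The level of the row `t`** of `u`. -/
theorem row_con {m : ℕ} {S : PCl m} {al : ℝ} {g₀ : ℝ → ℝ}
    {P : List (Fin m) × Fin m → ℝ → ℝ → ℝ} {θ : ℝ}
    {P₂ : ℕ → List (Fin m) × Fin m → ℝ → ℝ → ℝ} {θ₂ Eb e₂ : ℕ → ℝ} {c : ℕ → Fin m}
    {Pt : ℝ → ℝ → ℝ} {rr : ℝ → ℝ} {h K₀ g : ℝ} {L T : ℕ → ℝ → ℝ → ℝ} {Sl : ℕ → ℝ}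
    {κ : ℕ → Kg} {G : Set ℝ} {S₀ N : ℕ} {A' V : ℕ → ℝ} {S₂ N' : ℕ} {V' : ℕ → ℝ} {K ε q t : ℝ}
    (Rc : RecG S al g₀ P θ P₂ θ₂ Eb e₂ c Pt rr h K₀ g L T Sl κ G S₀ N A' V S₂ N' V' K ε q t)
    (hm : 3 < m) (hκ : κ 2 = .stp ∨ κ 2 = .sta) (hε : 0 ≤ ε) {a : ℝ}
    (hj : ∃ j < N, A' j = a ∧ V j = 0) (ha1 : 1 ≤ a) (haS : Sl 2 - 1 ≤ a) (haK : a ≤ K)
    {w : ℝ} (hw : w = 0 ∨ w = 1) :
    lvN P c 3 (L 3) 2 (t + w * q) (t + w * q) + (t + a * q) ≤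
      bet P c 2 (t + a * q) (t + 0 * q) + (t + w * q) + 4 * ε * q := by
  have hlv : ∀ x y : ℝ, lvN P c 3 (L 3) 2 x y = L 2 x y :=
    fun x y => by rw [← Rc.lv_at hm (by norm_num)]
  have h1 := Pool.CR99.RecG.row_ge Rc (i := 2) (by omega) hκ hε (a := a) (w₀ := 0) (w := w) hj (by linarith)
    (by rcases hw with h | h <;> linarith) (by linarith) (by rcases hw with h | h <;> linarith)
    haK (by
      rcases hw with h | h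
      · rw [h]
        linarith
      · rw [h]
        linarith)
  rw [hlv]
  have h2 : L 2 (t + a * q) (t + 0 * q) = bet P c 2 (t + a * q) (t + 0 * q) := by
    rw [Rc.lv_lt (l := 2) (by omega)]
  rw [h2] at h1
  linarith

end Pool.CRC82
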