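import Pool.Agent.H82.CRC.Cmc
import Pool.Agent.H82.CRC.Cmi
import Pool.Agent.H82.CRC.Crj

/-!
# The charts and the numbers of the conic theorem at a record

`wnum_rec`: the exponents of the windows. `npw_rec`: the charts `Npw`.
-/

set_option autoImplicit false

namespace Pool.CRC82

open Finset Real MvPolynomial
open Pool.Agent.H49.Ent Pool.Agent.H32.Dense Pool.STK Pool.KA Pool.KSAT Pool.K2S Pool.PB Pool.S6C
open Pool.GEN Pool.CHT Pool.CHX Pool.ISO Pool.D2R Pool.D2G30 Pool.V1E Pool.PKG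
open Pool.LBT (ThrOf)
open Pool.LEV (Law)
open Pool.CR99

section

variable {m : ℕ} {S : PCl m} {al : ℝ} {g₀ : ℝ → ℝ}
    {P : List (Fin m) × Fin m → ℝ → ℝ → ℝ} {θ : ℝ}
    {P₂ : ℕ → List (Fin m) × Fin m → ℝ → ℝ → ℝ} {θ₂ Eb e₂ : ℕ → ℝ} {c : ℕ → Fin m}
    {Pt : ℝ → ℝ → ℝ} {rr : ℝ → ℝ} {h K₀ g : ℝ} {L T' : ℕ → ℝ → ℝ → ℝ} {Sl : ℕ → ℝ}
    {κ' : ℕ → Kg} {G' : Set ℝ} {S₀ N : ℕ} {A' V' : ℕ → ℝ} {S₂ N' : ℕ} {V'' : ℕ → ℝ}
    {K ε q t : ℝ}
    (Rc : RecG S al g₀ P θ P₂ θ₂ Eb e₂ c Pt rr h K₀ g L T' Sl κ' G' S₀ N A' V' S₂ N' V'' K ε q t)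
    (hm : 3 < m) {D Dr : ℕ} {R : ℕ → Prop} {C a Ebb ε₀ η : ℝ} {be : ℕ → ℕ → ℝ} {J : ℕ}
    {F : Fam m J} {b : ℕ → ℕ → ℝ} {κ : ℝ} {z : ℕ → ℕ → ℕ} {B : F.Ω → Prop}
    {gc gT gg : ℕ → ℕ → ℕ} {G : ℕ → PtT F → ℕ → MvPolynomial (Option (Fin m)) ℝ}
    {H : ℕ → LnT F → ℕ → MvPolynomial (Option (Fin m)) ℝ}
    {T : ℕ → PtT F → ℕ → MvPolynomial (Option (Fin m)) ℝ}
    {TH : ℕ → LnT F → ℕ → MvPolynomial (Option (Fin m)) ℝ}
    {Gt : ℕ → PtT F → MvPolynomial (Option (Fin m)) ℝ}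
    {Ht : ℕ → LnT F → MvPolynomial (Option (Fin m)) ℝ} {A p : ℕ} {g₂ : ℝ}
    (W : WG c 3 D Dr 1 ((A + 1) * p + 6) R C a Ebb ε₀ (η * q) (L 3)
      (fun k => t + Wn A p g₂ k * q)
      (fun k l => lvN P c 3 (L 3) l (t + Wn A p g₂ k * q) (t + Wn A p g₂ k * q)) be F b κ z B gc
      gT gg G H T TH Gt Ht)
    (hp : 1 ≤ p) (hK : A + 1 ≤ K)
include Rc hm hp hK

omit hm in
/-- The levels of the windows. -/
theorem lv_con {l : ℕ} (hl : l < m) {k : ℕ} (hk : k ≤ (A + 1) * p) :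
    |L l (t + (-A + k / p) * q) (t + (-A + k / p) * q) - (L l t t + Sl l * (-A + k / p) * q)| ≤
      ε * q := by
  have hq := Rc.q0
  have hp0 : (0 : ℝ) < p := by
    have : (1 : ℝ) ≤ p := by exact_mod_cast hp
    linarith
  have h1 : (0 : ℝ) ≤ (k : ℝ) / p := by positivity
  have h2 : (k : ℝ) / p ≤ A + 1 := by
    rw [div_le_iff₀ hp0]
    exact_mod_cast hk
  have h3 := Rc.dL l hl (t + (-A + k / p) * q) (by
    rw [add_sub_cancel_left, abs_mul, abs_of_pos hq]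
    refine mul_le_mul_of_nonneg_right ?_ hq.le
    rw [abs_le]
    have hA0 : (0 : ℝ) ≤ A := Nat.cast_nonneg A
    constructor <;> linarith)
  rw [add_sub_cancel_left] at h3
  have e : L l (t + (-A + k / p) * q) (t + (-A + k / p) * q) -
      (L l t t + Sl l * (-A + k / p) * q) =
      L l (t + (-A + k / p) * q) (t + (-A + k / p) * q) - L l t t -
        Sl l * ((-A + k / p) * q) := by ring
  rw [e]
  exact h3

include W

/-- **The exponents of the windows.** -/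
theorem wnum_rec :
    WNum A p (Sl 2) (Sl 3) (ε + η) (q * J) (L 2 t t * J) (L 3 t t * J) (t * J)
      (fun k => gg (ixn A p (k + 1)) 2) (fun k => gg (ixn A p (k + 1)) 3)
      (fun k => ⌊(t + Wn A p g₂ (ixn A p (k + 1)) * q) * J⌋₊) := by
  have hq := Rc.q0
  have hJ0 : (0 : ℝ) ≤ J := Nat.cast_nonneg J
  have hlv : ∀ l ≤ 3, ∀ x y : ℝ, lvN P c 3 (L 3) l x y = L l x y :=
    fun l hl x y => by rw [← Rc.lv_at hm hl]
  have hg : ∀ l ≤ 3, ∀ k ≤ (A + 1) * p, |(gg (ixn A p (k + 1)) l : ℝ) -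
      (L l t t * J + Sl l * (-A + k / p) * (q * J))| ≤ (ε + η) * (q * J) := by
    intro l hl k hk
    obtain ⟨h1, h2⟩ := W.wb.sds (ixn A p (k + 1)) (ixn_le (by omega)) l hl
    rw [hlv l hl, ixn_succ hk, Wn_cix hp] at h1 h2
    have h3 := lv_con Rc hp hK (l := l) (by omega) hk
    rw [← ixn_succ hk] at h1 h2
    obtain ⟨h3a, h3b⟩ := abs_le.1 h3
    have h4 := mul_le_mul_of_nonneg_right h3a hJ0
    have h5 := mul_le_mul_of_nonneg_right h3b hJ0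
    have h6 : 0 ≤ η * q := (W.wb.hσ 0 (Nat.zero_le _)).1
    have h7 : 0 ≤ η * q * J := mul_nonneg h6 hJ0
    rw [abs_le]
    constructor <;> linarith
  refine ⟨fun k hk => hg 2 (by norm_num) k hk, fun k hk => hg 3 le_rfl k hk, fun k hk => ?_⟩
  rw [ixn_succ hk, Wn_cix hp]
  have hA0 : (0 : ℝ) ≤ A := Nat.cast_nonneg A
  have h1 : (0 : ℝ) ≤ (k : ℝ) / p := by positivity
  have h2 : 0 ≤ t + (-A + k / p) * q := by
    have h3 : A * q ≤ K * q := mul_le_mul_of_nonneg_right (by linarith) hq.le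
    have h4 := Rc.t0
    have h5 : 0 ≤ (k : ℝ) / p * q := by positivity
    linarith
  have h3 := mul_nonneg h2 hJ0
  have h4 := Nat.floor_le h3
  have h5 := Nat.lt_floor_add_one ((t + (-A + k / p) * q) * J)
  rw [abs_le]
  constructor <;> linarith

/-- **The charts.** -/
theorem npw_rec (hη0 : 0 ≤ η) (hε : 0 ≤ ε) (hηp : η * p ≤ 1) (ha : 1 ≤ Sl 2) (hab : Sl 2 ≤ Sl 3)
    (hst : (η + 2 * ε) * p ≤ Sl 2) {μ : ℕ} (hCJ : 8 ≤ C * (η * q * J))
    (hμ : (8 * (C * (η * q)) + (Sl 2 / p + 4 * ε) * q) * J ≤ μ) :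
    Npw F c B ((A + 1) * p) D Dr (⌊C * (η * q * J)⌋₊ + 1) μ ⌊η * q * J⌋₊ κ
      (fun k => ⌊(t + Wn A p g₂ (ixn A p (k + 1)) * q) * J⌋₊) (fun k => gg (ixn A p (k + 1)))
      (fun k => G (ixn A p (k + 1))) (fun k => H (ixn A p (k + 1))) := by
  have hq := Rc.q0
  have hJ0 : (0 : ℝ) ≤ J := Nat.cast_nonneg J
  have hp0 : (0 : ℝ) < p := by
    have : (1 : ℝ) ≤ p := by exact_mod_cast hp
    linarith
  have hA0 : (0 : ℝ) ≤ A := Nat.cast_nonneg A
  have hlv : ∀ l ≤ 3, ∀ x y : ℝ, lvN P c 3 (L 3) l x y = L l x y :=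
    fun l hl x y => by rw [← Rc.lv_at hm hl]
  have ho : ∀ k ≤ (A + 1) * p, t + Wn A p g₂ (ixn A p (k + 1)) * q = t + (-A + k / p) * q :=
    fun k hk => by rw [ixn_succ hk, Wn_cix hp]
  have hL : ∀ l ≤ 3, ∀ k ≤ (A + 1) * p,
      lvN P c 3 (L 3) l (t + Wn A p g₂ (ixn A p (k + 1)) * q)
        (t + Wn A p g₂ (ixn A p (k + 1)) * q) ≤ L l t t + Sl l * (-A + k / p) * q + ε * q ∧
      L l t t + Sl l * (-A + k / p) * q - ε * q ≤
        lvN P c 3 (L 3) l (t + Wn A p g₂ (ixn A p (k + 1)) * q)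
          (t + Wn A p g₂ (ixn A p (k + 1)) * q) := by
    intro l hl k hk
    rw [hlv l hl, ho k hk]
    have h3 := abs_le.1 (lv_con Rc hp hK (l := l) (by omega) hk)
    constructor <;> linarith [h3.1, h3.2]
  have hdiv : ∀ j k : ℕ, j ≤ k → (j : ℝ) / p ≤ k / p := fun j k h =>
    div_le_div_of_nonneg_right (by exact_mod_cast h) hp0.le
  have hdiv1 : ∀ j k : ℕ, j < k → (j : ℝ) / p + 1 / p ≤ k / p := fun j k h => by
    rw [← add_div]
    exact div_le_div_of_nonneg_right (by exact_mod_cast h) hp0.le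
  have hη1 : η ≤ 1 / p := by
    rw [le_div_iff₀ hp0]
    exact hηp
  have hst' : η + 2 * ε ≤ Sl 2 / p := by
    rw [le_div_iff₀ hp0]
    exact hst
  have hεq : 0 ≤ ε * q := mul_nonneg hε hq.le
  have haq : 0 ≤ Sl 2 / p * q := by
    have : 0 ≤ Sl 2 := by linarith
    positivity
  have hδ : (Sl 2 / p + 4 * ε) * q = Sl 2 / p * q + 4 * (ε * q) := by ring
  have mulq : ∀ {x y : ℝ}, x ≤ y → x * q ≤ y * q := fun h => mul_le_mul_of_nonneg_right h hq.le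
  refine npw_wg W (by positivity) (ix := fun k => ixn A p (k + 1)) (δ := (Sl 2 / p + 4 * ε) * q)
    (n := (A + 1) * p) hCJ (by rw [hδ]; linarith) (fun k hk => ⟨ixn_le (by omega), ?_⟩)
    (fun j hj k hk hjk => ?_) (fun j hj k hk hjk l h2 h3 => ?_) (fun j hj k hk hjk => ?_)
    (fun i hi => ?_) (fun j hj k hk hjk => ?_) (fun j hj k hk hjk => ?_) (by
      refine le_trans (le_of_eq ?_) hμ
      ring)
  · show ⌊(t + Wn A p g₂ (ixn A p (k + 1)) * q) * J⌋₊ ≤ J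
    rw [ho k hk]
    refine Nat.floor_le_of_le ?_
    have h1 : (k : ℝ) / p ≤ A + 1 := by
      rw [div_le_iff₀ hp0]
      exact_mod_cast hk
    have h2 : t + (-A + k / p) * q ≤ 1 := by
      have h3 := mulq (show -(A : ℝ) + k / p ≤ K by linarith)
      linarith [Rc.t1]
    calc (t + (-A + k / p) * q) * J ≤ 1 * J := mul_le_mul_of_nonneg_right h2 hJ0
      _ = J := one_mul _
  · show t + Wn A p g₂ (ixn A p (j + 1)) * q + η * q ≤ t + Wn A p g₂ (ixn A p (k + 1)) * q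
    rw [ho j hj, ho k hk]
    have h1 := mulq (show -(A : ℝ) + j / p + η ≤ -A + k / p by linarith [hdiv1 j k hjk])
    linarith
  · show lvN P c 3 (L 3) l (t + Wn A p g₂ (ixn A p (j + 1)) * q)
      (t + Wn A p g₂ (ixn A p (j + 1)) * q) ≤ lvN P c 3 (L 3) l
        (t + Wn A p g₂ (ixn A p (k + 1)) * q) (t + Wn A p g₂ (ixn A p (k + 1)) * q) + _
    have h4 := (hL l h3 j hj).1
    have h5 := (hL l h3 k hk).2
    have h6 : 0 ≤ Sl l := by
      have : l = 2 ∨ l = 3 := by omega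
      rcases this with rfl | rfl <;> linarith
    have h7 := mulq (mul_le_mul_of_nonneg_left (show -(A : ℝ) + j / p ≤ -A + k / p by
      linarith [hdiv j k hjk]) h6)
    rw [hδ]
    linarith
  · show lvN P c 3 (L 3) 2 (t + Wn A p g₂ (ixn A p (j + 1)) * q)
      (t + Wn A p g₂ (ixn A p (j + 1)) * q) + η * q ≤ lvN P c 3 (L 3) 2
        (t + Wn A p g₂ (ixn A p (k + 1)) * q) (t + Wn A p g₂ (ixn A p (k + 1)) * q)
    have h4 := (hL 2 (by norm_num) j hj).1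
    have h5 := (hL 2 (by norm_num) k hk).2
    have h7 := mulq (mul_le_mul_of_nonneg_left (show -(A : ℝ) + j / p + 1 / p ≤ -A + k / p by
      linarith [hdiv1 j k hjk]) (by linarith : 0 ≤ Sl 2))
    have h8 := mulq hst'
    have e : Sl 2 * (-A + j / p + 1 / p) * q = Sl 2 * (-A + j / p) * q + Sl 2 / p * q := by ring
    rw [e] at h7
    linarith
  · show lvN P c 3 (L 3) 2 (t + Wn A p g₂ (ixn A p (i + 1 + 1)) * q)
      (t + Wn A p g₂ (ixn A p (i + 1 + 1)) * q) ≤ lvN P c 3 (L 3) 2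
        (t + Wn A p g₂ (ixn A p (i + 1)) * q) (t + Wn A p g₂ (ixn A p (i + 1)) * q) + _
    have h4 := (hL 2 (by norm_num) (i + 1) (by omega)).1
    have h5 := (hL 2 (by norm_num) i (by omega)).2
    have e : Sl 2 * (-A + ((i + 1 : ℕ) : ℝ) / p) * q =
        Sl 2 * (-A + i / p) * q + Sl 2 / p * q := by
      push_cast
      ring
    rw [e] at h4
    rw [hδ]
    linarith
  · show lvN P c 3 (L 3) 2 (t + Wn A p g₂ (ixn A p (k + 1)) * q)
      (t + Wn A p g₂ (ixn A p (k + 1)) * q) + lvN P c 3 (L 3) 3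
        (t + Wn A p g₂ (ixn A p (j + 1)) * q) (t + Wn A p g₂ (ixn A p (j + 1)) * q) ≤
      lvN P c 3 (L 3) 2 (t + Wn A p g₂ (ixn A p (j + 1)) * q)
      (t + Wn A p g₂ (ixn A p (j + 1)) * q) + lvN P c 3 (L 3) 3
        (t + Wn A p g₂ (ixn A p (k + 1)) * q) (t + Wn A p g₂ (ixn A p (k + 1)) * q) + _
    have h4 := (hL 2 (by norm_num) k hk).1
    have h5 := (hL 2 (by norm_num) j hj).2
    have h6 := (hL 3 le_rfl j hj).1
    have h7 := (hL 3 le_rfl k hk).2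
    have h8 := mulq (mul_le_mul_of_nonneg_left (show -(A : ℝ) + j / p ≤ -A + k / p by
      linarith [hdiv j k hjk]) (by linarith : 0 ≤ Sl 3 - Sl 2))
    have e : ∀ y : ℝ, (Sl 3 - Sl 2) * y * q = Sl 3 * y * q - Sl 2 * y * q := fun y => by ring
    rw [e, e] at h8
    rw [hδ]
    linarith
  · show lvN P c 3 (L 3) 2 (t + Wn A p g₂ (ixn A p (j + 1)) * q)
      (t + Wn A p g₂ (ixn A p (j + 1)) * q) + (t + Wn A p g₂ (ixn A p (k + 1)) * q -
        (t + Wn A p g₂ (ixn A p (j + 1)) * q)) ≤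
      lvN P c 3 (L 3) 2 (t + Wn A p g₂ (ixn A p (k + 1)) * q)
        (t + Wn A p g₂ (ixn A p (k + 1)) * q) + _
    have h4 := (hL 2 (by norm_num) j hj).1
    have h5 := (hL 2 (by norm_num) k hk).2
    rw [ho j hj, ho k hk] at *
    have h8 := mulq (mul_le_mul_of_nonneg_left (show -(A : ℝ) + j / p ≤ -A + k / p by
      linarith [hdiv j k hjk]) (by linarith : 0 ≤ Sl 2 - 1))
    have e : ∀ y : ℝ, (Sl 2 - 1) * y * q = Sl 2 * y * q - y * q := fun y => by ring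
    rw [e, e] at h8
    rw [hδ]
    linarith

end

end Pool.CRC82
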