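import Pool.Agent.H82.CRC.Crf
import Pool.Agent.H60.CNC.Twg

/-!
# The tube of the line at two windows of the chain

`tub_two`: `tub_wg` for the windows `f 3`, `f 4` of the chain of `afb_cls`, with real numbers.
-/

set_option autoImplicit false

namespace Pool.CRC82

open Finset Real MvPolynomial
open Pool.Agent.H49.Ent Pool.Agent.H32.Dense Pool.STK Pool.KA Pool.KSAT Pool.K2S Pool.PB Pool.S6C
open Pool.GEN Pool.CHT Pool.CHX Pool.ISO Pool.D2R Pool.D2G30 Pool.V1E Pool.CR99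
open Pool.LBT (ThrOf)
open Pool.AFF82
open Pool.CNC76 Pool.CNC28 Pool.CNC60

/-- **The tube of the line** at the windows `f 3`, `f 4` of the chain. -/
theorem tub_two (D : ℕ) (hD : 1 ≤ D) : ∃ C : ℕ, 2 ≤ C ∧ ∀ {m J : ℕ} {F : Fam m J}
    {c : ℕ → Fin m} {r Dr N N₂ : ℕ} {R : ℕ → Prop} {C₁ C₃ a Eb ε₀ η₀ : ℝ} {Pt : ℝ → ℝ → ℝ}
    {o : ℕ → ℝ} {lv be b : ℕ → ℕ → ℝ} {κ : ℝ} {z : ℕ → ℕ → ℕ} {B B' : F.Ω → Prop}
    {gc gT g₀ : ℕ → ℕ → ℕ} {G : ℕ → PtT F → ℕ → MvPolynomial (Option (Fin m)) ℝ}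
    {H : ℕ → LnT F → ℕ → MvPolynomial (Option (Fin m)) ℝ}
    {T : ℕ → PtT F → ℕ → MvPolynomial (Option (Fin m)) ℝ}
    {TH : ℕ → LnT F → ℕ → MvPolynomial (Option (Fin m)) ℝ}
    {Gt : ℕ → PtT F → MvPolynomial (Option (Fin m)) ℝ}
    {Ht : ℕ → LnT F → MvPolynomial (Option (Fin m)) ℝ} {iF n' x y gx a' y' : ℕ} {ix : ℕ → ℕ}
    {θ : ℝ},
    WG c r D Dr N N₂ R C₁ a Eb ε₀ η₀ Pt o lv be F b κ z B gc gT g₀ G H T TH Gt Ht →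
    TubR F c r N C₃ a η₀ o gc gT g₀ B G H T TH → a ≤ 1 → 0 ≤ C₃ → 2 < r → R 0 → R 1 → ¬ R 2 →
    0 ≤ κ → Sub B' B → Pe F.p B ≤ 2 * Pe F.p B' →
    AfD F c D (n' + 2) ⌊o iF * J⌋₊ x y (fun k => ⌊o (ix k) * J⌋₊) (g₀ (ix 0)) (g₀ iF)
      (fun k => g₀ (ix k)) gx θ B' (G iF) (H iF) (fun k => G (ix k)) (fun k => H (ix k)) →
    (∀ ω, B' ω → AfE F c (n' + 2) a' y' (fun k => ⌊o (ix k) * J⌋₊) (g₀ (ix 0))
      (fun k => g₀ (ix k)) (G iF) (fun k => G (ix k)) ω ∧ ∀ k ≤ n' + 2, AfB F c a'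
        (fun k => ⌊o (ix k) * J⌋₊) (g₀ (ix 0)) (fun k => g₀ (ix k)) (G iF)
        (fun k => G (ix k)) k ω) →
    ∀ {D₀ x' : ℕ} {f : ℕ → ℕ} {δ xr : ℝ}, D ≤ D₀ → 0 ≤ δ → 0 ≤ η₀ → 8 * a' ≤ x' → x ≤ x' →
    (∀ j, 3 ≤ j → j ≤ 4 → f j ≤ n' ∧ ix (f j + 1) ≤ N ∧
      o (ix (f 3 + 1)) ≤ o (ix (f j + 1)) ∧
      lv (ix (f j + 1)) 2 + a ≤ be (ix (f 3 + 1)) 2 + o (ix (f j + 1)) + xr ∧
      (x' : ℝ) + (C₃ + 2) * (η₀ * J) + 1 ≤ lv (ix (f j + 1)) 2 * J) →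
    (xr + η₀) * J + 1 ≤ x' →
    Tub B' (slam F ⌊o (ix (f 3 + 1)) * J⌋₊)
      (fun ω => afc c (afr F c (fun k => ⌊o (ix k) * J⌋₊) (G iF) (fun k => G (ix k)) ω)
        ⌊o (ix 0) * J⌋₊ (g₀ (ix 0) 0) (g₀ (ix 0) 1) (bt F ω))
      (fun ω => vlc c (afr F c (fun k => ⌊o (ix k) * J⌋₊) (G iF) (fun k => G (ix k)) ω)
        ⌊o (ix 0) * J⌋₊ (g₀ (ix 0) 0) (g₀ (ix 0) 1) (bd F ω)) 3 4
      (fun j => rk a' (fun k => ⌊o (ix k) * J⌋₊) (f j + 1))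
      (fun j => 1 / 2 ^ g₀ (ix (f j + 1)) 2)
      (fun j => UU F c (fun k => G (ix (k + 1)))
        (afr F c (fun k => ⌊o (ix k) * J⌋₊) (G iF) (fun k => G (ix k)))
        ⌊o (ix 0) * J⌋₊ (g₀ (ix 0) 0) (g₀ (ix 0) 1) (f j))
      (fun ω => pth
        (aY F c (fun k => ⌊o (ix k) * J⌋₊) (g₀ (ix 0)) (G iF) (fun k => G (ix k)) ω)
        (aX F c (fun k => ⌊o (ix k) * J⌋₊) (g₀ (ix 0)) (G iF) (fun k => G (ix k)) ω))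
      (fun ω => pul c (afr F c (fun k => ⌊o (ix k) * J⌋₊) (G iF) (fun k => G (ix k)) ω)
        ⌊o (ix 0) * J⌋₊ (g₀ (ix 0) 0) (g₀ (ix 0) 1) 0
        (TH (ix (f 3 + 1)) (slam F ⌊o (ix (f 3 + 1)) * J⌋₊ ω) 2)) D₀ δ
      (2 ^ (C * (x' + ⌈(C₁ + C₃ + 1) * (η₀ * J)⌉₊ + 1))) := by
  obtain ⟨C, hC, htub⟩ := tub_wg D hD
  refine ⟨C, hC, ?_⟩
  intro m J F c r Dr N N₂ R C₁ C₃ a Eb ε₀ η₀ Pt o lv be b κ z B B' gc gT g₀ G H T TH Gt Ht iF n' x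
    y gx a' y' ix θ W hT ha1 hC₃ hr2 hR0 hR1 hR2 hκ hB' hPB' A hE D₀ x' f δ xr hDD hδ hη hax hxx
    hf hxr
  have hJ0 : (0 : ℝ) ≤ J := Nat.cast_nonneg J
  have hηJ : 0 ≤ η₀ * J := mul_nonneg hη hJ0
  have f3 := hf 3 le_rfl (by norm_num)
  exact htub W hT ha1 hC₃ hr2 hR0 hR1 hκ hB' hPB' A hE (t := 3) (n' := 4) (D₀ := D₀) (x' := x')
    (jf := fun j => f j + 1) (δ := δ) hDD hδ (by norm_num) hax hxx
    (fun j h1 h2 => ⟨by have := (hf j h1 h2).1; show f j + 1 ≤ n' + 2; omega, (hf j h1 h2).2.1,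
      (hf j h1 h2).2.2.1⟩)
    (fun j h1 h2 => ⟨rk_pos _ _ _, le_rfl⟩) (fun j h1 h2 => le_rfl) (fun j h1 h2 => by
      obtain ⟨-, e1, -, e2, e3⟩ := hf j h1 h2
      have s1 := W.wb.sds (ix (f j + 1)) (e1.trans W.nn) 2 hr2.le
      have s2 := (W.win.sds (ix (f 3 + 1)) f3.2.1).t1 2 hr2 hR2
      beta_reduce at s1 s2
      have fa : (⌊a * J⌋₊ : ℝ) ≤ a * J := Nat.floor_le (by
        have h3 := W.wb.ho (ix (f j + 1)) (e1.trans W.nn)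
        have h4 : 0 ≤ a := h3.1.trans h3.2
        positivity)
      have fo := Nat.lt_floor_add_one (o (ix (f j + 1)) * J)
      have e4 := mul_le_mul_of_nonneg_right e2 hJ0
      constructor
      · have : ((g₀ (ix (f j + 1)) 2 + ⌊a * J⌋₊ : ℕ) : ℝ) ≤
            ((gT (ix (f 3 + 1)) 2 + ⌊o (ix (f j + 1)) * J⌋₊ + x' : ℕ) : ℝ) := by
          push_cast
          linarith [s1.2]
        exact_mod_cast this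
      · linarith [s1.1])

end Pool.CRC82
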