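import Pool.Agent.H82.CRC.Cmh
import Pool.Agent.H82.CRC.Cmj
import Pool.Agent.H82.CRC.Crh
import Pool.Agent.H60.CNC.Tbe

/-!
# The event of the conic theorem at a record

`EvC`: the affine frame, the balls and the tube of the chain. `con_set`: in a class, at a record.
-/

set_option autoImplicit false

namespace Pool.CRC82

open Finset Real MvPolynomial
open Pool.Agent.H49.Ent Pool.Agent.H32.Dense Pool.STK Pool.KA Pool.KSAT Pool.K2S Pool.PB Pool.S6C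
open Pool.GEN Pool.CHT Pool.CHX Pool.ISO Pool.D2R Pool.D2G30 Pool.V1E Pool.PKG
open Pool.LBT (ThrOf)
open Pool.LEV (Law)
open Pool.CR99
open Pool.AFF82
open Pool.CNC76 Pool.CNC28 Pool.CNC60

/-- The exponents of the windows. -/
noncomputable abbrev cw (A p : ℕ) (g₂ t q : ℝ) (J : ℕ) : ℕ → ℕ := fun k =>
  ⌊(t + Wn A p g₂ (ixn A p k) * q) * J⌋₊

/-- The base, the last window before `t`, the window `t`, and `t + q`, in the chain. -/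
def fc (A p : ℕ) : ℕ → ℕ
  | 0 => 0
  | 1 => (A - 1) * p
  | 2 => A * p
  | _ => (A + 1) * p

/-- **The event of the conic theorem.** -/
structure EvC {m J : ℕ} (F : Fam m J) (c : ℕ → Fin m) (D DB A p : ℕ) (g₂ t q : ℝ)
    (g₀ : ℕ → ℕ → ℕ) (B B' : F.Ω → Prop)
    (G : ℕ → PtT F → ℕ → MvPolynomial (Option (Fin m)) ℝ)
    (H : ℕ → LnT F → ℕ → MvPolynomial (Option (Fin m)) ℝ) (xh : F.Ω → Fin 3 → Polynomial ℝ)
    (Tu : F.Ω → MvPolynomial (Fin 3) ℝ) (a' x y y' gx h Q : ℕ)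
    (θ' κ₁ η' c' T' s' : ℝ) : Prop where
  sub : Sub B' B
  pe : Pe F.p B ≤ 2 * Pe F.p B'
  pos : 0 < Pe F.p B'
  afd : AfD F c D ((A + 1) * p + 2) ⌊(t + Wn A p g₂ 2 * q) * J⌋₊ x y (cw A p g₂ t q J)
    (g₀ (ixn A p 0)) (g₀ 2) (fun k => g₀ (ixn A p k)) gx θ' B' (G 2) (H 2)
    (fun k => G (ixn A p k)) (fun k => H (ixn A p k))
  afe : ∀ ω, B' ω → AfE F c ((A + 1) * p + 2) a' y' (cw A p g₂ t q J) (g₀ (ixn A p 0))
    (fun k => g₀ (ixn A p k)) (G 2) (fun k => G (ixn A p k)) ω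
  afb : ∀ ω, B' ω → ∀ k ≤ (A + 1) * p + 2, AfB F c a' (cw A p g₂ t q J) (g₀ (ixn A p 0))
    (fun k => g₀ (ixn A p k)) (G 2) (fun k => G (ixn A p k)) k ω
  frm : Frm F c B' ((A + 1) * p) (fun k => cw A p g₂ t q J (k + 1))
    (fun k => g₀ (ixn A p (k + 1))) (fun k => G (ixn A p (k + 1)))
    (afr F c (cw A p g₂ t q J) (G 2) (fun k => G (ixn A p k)))
    (cw A p g₂ t q J 0) (g₀ (ixn A p 0) 0) (g₀ (ixn A p 0) 1) (20 * a')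
    (fun k => aC F c (cw A p g₂ t q J) (g₀ (ixn A p 0)) (G 2) (fun k => G (ixn A p k)) (k + 1))
    (fun k => rk a' (cw A p g₂ t q J) (k + 1))
  bll : ∀ k ≤ (A + 1) * p, Bll F.p B' (ptr F J) (slam F (cw A p g₂ t q J (k + 1)))
    (slam F (cw A p g₂ t q J ((A + 1) * p + 2)))
    (unt (fun ω => afc c (afr F c (cw A p g₂ t q J) (G 2) (fun k => G (ixn A p k)) ω)
      (cw A p g₂ t q J 0) (g₀ (ixn A p 0) 0) (g₀ (ixn A p 0) 1) (bt F ω))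
      (aC F c (cw A p g₂ t q J) (g₀ (ixn A p 0)) (G 2) (fun k => G (ixn A p k)) (k + 1))
      (rk a' (cw A p g₂ t q J) (k + 1)))
    (unt (aC F c (cw A p g₂ t q J) (g₀ (ixn A p 0)) (G 2) (fun k => G (ixn A p k))
        ((A + 1) * p + 2))
      (aC F c (cw A p g₂ t q J) (g₀ (ixn A p 0)) (G 2) (fun k => G (ixn A p k)) (k + 1))
      (rk a' (cw A p g₂ t q J) (k + 1)))
    (fun ω => vlc c (afr F c (cw A p g₂ t q J) (G 2) (fun k => G (ixn A p k)) ω)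
      (cw A p g₂ t q J 0) (g₀ (ixn A p 0) 0) (g₀ (ixn A p 0) 1) (bd F ω))
    DB h Q κ₁ η' c' T'
  tub : Tub B' (slam F (cw A p g₂ t q J (A * p + 1)))
    (fun ω => afc c (afr F c (cw A p g₂ t q J) (G 2) (fun k => G (ixn A p k)) ω)
      (cw A p g₂ t q J 0) (g₀ (ixn A p 0) 0) (g₀ (ixn A p 0) 1) (bt F ω))
    (fun ω => vlc c (afr F c (cw A p g₂ t q J) (G 2) (fun k => G (ixn A p k)) ω)
      (cw A p g₂ t q J 0) (g₀ (ixn A p 0) 0) (g₀ (ixn A p 0) 1) (bd F ω)) 2 3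
    (fun j => rk a' (cw A p g₂ t q J) (fc A p j + 1))
    (fun j => 1 / 2 ^ g₀ (ixn A p (fc A p j + 1)) 2)
    (fun j => UU F c (fun k => G (ixn A p (k + 1)))
      (afr F c (cw A p g₂ t q J) (G 2) (fun k => G (ixn A p k)))
      (cw A p g₂ t q J 0) (g₀ (ixn A p 0) 0) (g₀ (ixn A p 0) 1) (fc A p j))
    xh Tu (D * D) 0 s'
  pth : ∀ ω, B' ω → Pth (xh ω)
    (afc c (afr F c (cw A p g₂ t q J) (G 2) (fun k => G (ixn A p k)) ω)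
      (cw A p g₂ t q J 0) (g₀ (ixn A p 0) 0) (g₀ (ixn A p 0) 1) (bt F ω))
    (vlc c (afr F c (cw A p g₂ t q J) (G 2) (fun k => G (ixn A p k)) ω)
      (cw A p g₂ t q J 0) (g₀ (ixn A p 0) 0) (g₀ (ixn A p 0) 1) (bd F ω))

/-- **The event of the conic theorem**, in a class, at a record. -/
theorem con_set (m S₂ : ℕ) (hS₂ : 1 ≤ S₂) : ∃ D : ℕ, 1 ≤ D ∧ ∀ Dr DB : ℕ, D ≤ Dr → DB ≤ Dr →
    ∃ (C C₃ : ℝ) (Ka c₀ C₁ c₁ Ct : ℕ), 1 ≤ C ∧ 1 ≤ C₃ ∧ 4 ≤ c₀ ∧ 2 ≤ Ct ∧ ∀ {S : PCl m} {al : ℝ}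
    {g₀ : ℝ → ℝ} {P : List (Fin m) × Fin m → ℝ → ℝ → ℝ} {θ : ℝ}
    {P₂ : ℕ → List (Fin m) × Fin m → ℝ → ℝ → ℝ} {θ₂ Eb e₂ : ℕ → ℝ} {c : ℕ → Fin m}
    {Pt : ℝ → ℝ → ℝ} {rr : ℝ → ℝ} {h K₀ g : ℝ} {L T : ℕ → ℝ → ℝ → ℝ} {Sl : ℕ → ℝ}
    {κ : ℕ → Kg} {G : Set ℝ} {S₀ N : ℕ} {A' V : ℕ → ℝ} {N' : ℕ} {V' : ℕ → ℝ} {K ε q t : ℝ},
    RecG S al g₀ P θ P₂ θ₂ Eb e₂ c Pt rr h K₀ g L T Sl κ G S₀ N A' V S₂ N' V' K ε q t →
    3 < m → S₀ ≤ S₂ → 0 ≤ ε → κ 0 = .one → κ 1 = .one → κ 2 = .stp →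
    ∀ {a η g₂ x₁ g₁ : ℝ} {A p : ℕ}, 1 ≤ p → 1 ≤ A → 0 ≤ g₂ → g₂ ≤ 1 →
    (∃ j < N, A' j = a ∧ V j = 0) → (∃ j < N, A' j = a ∧ V j = 1) →
    (∀ k, 2 ≤ k → k ≤ (A + 1) * p + 6 → ∃ j < N', V' j = Wn A p g₂ k) →
    2 * A + 12 ≤ K → 3 ≤ a → Sl 2 - 1 ≤ a → a ≤ K → 0 < η → 3 * C * ε < η →
    4 * (C * η) ≤ 1 → η * p ≤ 1 → (C₃ + 3) * η + 4 * ε ≤ 1 →
    4 * ε + (C + 1) * η < x₁ → 8 * x₁ < 1 → 2 * ε + (C + 1) * η < g₂ →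
    g₂ + 2 * ε + η < g₁ → Ka * (x₁ + g₁) < 1 →
    ∃ (K₁ : ℝ) (b : ℕ → ℕ → ℝ), 0 < K₁ ∧ ∀ κ₁ c' : ℝ, 0 < κ₁ → 0 < c' → ∃ κ₂ : ℝ, 0 < κ₂ ∧
    ∀ κ' : ℝ, 0 < κ' → κ' ≤ κ₂ → Bas S (fun J F B₀ =>
      ∃ (B : F.Ω → Prop) (z gc gT g₀ : ℕ → ℕ → ℕ)
        (G : ℕ → PtT F → ℕ → MvPolynomial (Option (Fin m)) ℝ)
        (H : ℕ → LnT F → ℕ → MvPolynomial (Option (Fin m)) ℝ)
        (T : ℕ → PtT F → ℕ → MvPolynomial (Option (Fin m)) ℝ)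
        (TH : ℕ → LnT F → ℕ → MvPolynomial (Option (Fin m)) ℝ)
        (Gt : ℕ → PtT F → MvPolynomial (Option (Fin m)) ℝ)
        (Ht : ℕ → LnT F → MvPolynomial (Option (Fin m)) ℝ), Sub B B₀ ∧
        Pe F.p B₀ ≤ K₁ * Pe F.p B ∧
        WG c 3 D Dr 1 ((A + 1) * p + 6) (fun l => κ l = .one ∨ κ l = .thin) C (t + a * q) (Eb 3)
          (3 * ε * q) (η * q) (L 3) (fun k => t + Wn A p g₂ k * q)
          (fun k l => lvN P c 3 (L 3) l (t + Wn A p g₂ k * q) (t + Wn A p g₂ k * q))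
          (fun k l => bet P c l (t + a * q) (t + Wn A p g₂ k * q)) F b κ' z B gc gT g₀ G H T TH
          Gt Ht ∧
        ∃ (B' : F.Ω → Prop) (xh : F.Ω → Fin 3 → Polynomial ℝ) (Tu : F.Ω → MvPolynomial (Fin 3) ℝ)
          (y gx : ℕ) (θ' : ℝ),
          EvC F c D DB A p g₂ t q g₀ B B' G H xh Tu (c₀ + ⌊x₁ * q * J⌋₊) ⌊x₁ * q * J⌋₊ y
            (C₁ * (⌊x₁ * q * J⌋₊ + ⌊x₁ * q * J⌋₊ + ⌊g₁ * q * J⌋₊ + 1) + 3) gx
            (⌊η * q * J⌋₊ + 20 * (c₀ + ⌊x₁ * q * J⌋₊) * DB + c₁) ⌊q / 2 * J⌋₊ θ' κ₁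
            (1 / 2 ^ (C₁ * (⌊x₁ * q * J⌋₊ + ⌊x₁ * q * J⌋₊ + ⌊g₁ * q * J⌋₊ + 1) + 2)) c'
            (2 ^ (3 * (c₀ + ⌊x₁ * q * J⌋₊)))
            (2 ^ (Ct * (8 * (c₀ + ⌊x₁ * q * J⌋₊) + ⌈(4 * ε + η) * (q * J)⌉₊ + 2 +
              ⌈(C + C₃ + 1) * (η * q * J)⌉₊ + 1)))) := by
  obtain ⟨D, hD, hw⟩ := wgt_con m S₂ hS₂
  obtain ⟨Ct, hCt, htub⟩ := tub_two D hD
  refine ⟨D, hD, fun Dr DB hDr hDB => ?_⟩
  obtain ⟨C, C₃, hC, hC₃, hw⟩ := hw Dr hDr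
  obtain ⟨Ka, c₀, C₁, c₁, hc₀, hafb⟩ := afb_cls D Dr DB hDr hDB
  refine ⟨C, C₃, Ka, c₀, C₁, c₁, Ct, hC, hC₃, hc₀, hCt, ?_⟩
  intro S al g₀ P θ P₂ θ₂ Eb e₂ c Pt rr h K₀ g L T Sl κ G S₀ N A' V N' V' K ε q t Rc hm hS hε hk0
    hk1 hk2 a η g₂ x₁ g₁ A p hp hA hg0 hg1 hr0 hr1 hbw hK ha haS haK hη hεη hCη hηp hC₃η hx₁ hx8
    hQn hgn hs
  obtain ⟨K₁, b, hK₁, hw⟩ := hw Rc hm hS hε hp hg0 hg1 hr0 hr1 hbw hK ha haK hη hεη hCη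
  refine ⟨K₁, b, hK₁, fun κ₁ c' hκ₁ hc' => ?_⟩
  have hq := Rc.q0
  have ht0 := Rc.t0
  have ht1 := Rc.t1
  have hC0 : 0 < C := by linarith
  have hη1 : η ≤ 1 := by
    have := mul_le_mul_of_nonneg_right hC hη.le
    linarith
  have hS1 : Sl 1 = 1 := by
    have := Rc.kd 1 (by omega)
    rw [hk1] at this
    exact this
  obtain ⟨aq, h', hN⟩ := afnn_con Rc (r := 3) (by norm_num) hm hS1 hε hC hη.le (A := A) (p := p)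
    (Ka := Ka) hp hg0 hg1 hK (by
      obtain ⟨j, h1, h2⟩ := hbw 5 (by norm_num) (by omega)
      exact ⟨j, h1, h2⟩) hη1 hx₁ (by
      have := mul_le_mul_of_nonneg_right hC hη.le
      linarith) hQn hgn hs
  have Tg := Rc.tg 3 (by norm_num) hm
  have hinj : Set.InjOn c (Set.Iio 4) := Rc.inj.mono fun i hi => by
    have h1 : i < 4 := hi
    show i < m
    omega
  have Cm := chm_con (A := A) (g₂ := g₂) (η := η) (t := t) hp hq hη hηp hx8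
  obtain ⟨κ₂, hκ₂, hbas⟩ := hafb (N := 1) (N₂ := (A + 1) * p + 6) (iF := 2) (iQ := 3)
    (R := fun l => κ l = .one ∨ κ l = .thin) (a := t + a * q) (ε₀ := 3 * ε * q) (Pt := L 3)
    (be := fun k l => bet P c l (t + a * q) (t + Wn A p g₂ k * q))
    Tg.thr₂ Rc.tmh hinj (by omega) (by omega) (fun k hk => ixn_le hk) hN Cm κ₁ c' K₁ hκ₁ hc' hK₁
  refine ⟨κ₂, hκ₂, fun κ' hκ' hκκ => ?_⟩
  obtain ⟨J₁, hJ₁⟩ := exists_nat_gt ((8 * c₀ + 4) / (12 * q))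
  refine Bas.mono J₁ ((hw κ' hκ').and hbas) ?_
  rintro J hJ F B₀ ⟨⟨B, z, gc, gT, gg, G, H, T, TH, Gt, Ht, hBB, hPB, W, TR⟩, ev⟩
  refine ⟨B, z, gc, gT, gg, G, H, T, TH, Gt, Ht, hBB, hPB, W, ?_⟩
  obtain ⟨B', y, gx, θ', h1, h2, h3, h4, h5, h6, h7⟩ := ev hBB hPB hκκ W
  have hJ0 : (0 : ℝ) ≤ J := Nat.cast_nonneg J
  have hqJ : 0 ≤ q * J := mul_nonneg hq.le hJ0
  have hJq : 8 * (c₀ : ℝ) + 4 ≤ 12 * (q * J) := by
    have h8 : (J₁ : ℝ) ≤ J := by exact_mod_cast hJ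
    have h9 := hJ₁.le.trans h8
    rw [div_le_iff₀ (by positivity)] at h9
    linarith
  have hx0 : 0 < x₁ := by
    have : 0 ≤ (C + 1) * η := by positivity
    linarith
  have hxJ : (⌊x₁ * q * J⌋₊ : ℝ) ≤ x₁ * (q * J) := by
    refine (Nat.floor_le (by positivity)).trans (le_of_eq ?_)
    ring
  have hcJ : (⌈(4 * ε + η) * (q * J)⌉₊ : ℝ) ≤ (4 * ε + η) * (q * J) + 1 :=
    (Nat.ceil_lt_add_one (by positivity)).le
  have hcJ' : (4 * ε + η) * (q * J) ≤ (⌈(4 * ε + η) * (q * J)⌉₊ : ℝ) := Nat.le_ceil _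
  have haq : a * q ≤ K * q := mul_le_mul_of_nonneg_right haK hq.le
  have hKq : 14 * q ≤ K * q := mul_le_mul_of_nonneg_right (by
    have : (1 : ℝ) ≤ A := by exact_mod_cast hA
    linarith) hq.le
  have hlvN : ∀ x y : ℝ, lvN P c 3 (L 3) 2 x y = L 2 x y :=
    fun x y => by rw [← Rc.lv_at hm (by norm_num)]
  have hix2 : ixn A p (A * p + 1) = 0 := by
    rw [ixn_succ (by rw [Nat.add_mul]; omega), cixn_t]
  have hix3 : ixn A p ((A + 1) * p + 1) = 1 := by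
    rw [ixn_succ le_rfl, cixn_n hp]
  have hlev : ∀ w : ℝ, w = 0 ∨ w = 1 →
      ((8 * (c₀ + ⌊x₁ * q * J⌋₊) + ⌈(4 * ε + η) * (q * J)⌉₊ + 2 : ℕ) : ℝ) +
        (C₃ + 2) * (η * q * J) + 1 ≤ lvN P c 3 (L 3) 2 (t + w * q) (t + w * q) * J := by
    intro w hw'
    have hwq : 0 ≤ w * q ∧ w * q ≤ q := by
      rcases hw' with h | h
      · rw [h, zero_mul]
        exact ⟨le_rfl, hq.le⟩
      · rw [h, one_mul]
        exact ⟨hq.le, le_rfl⟩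
    rw [hlvN]
    have h8 := Rc.low_at (i := 2) (by omega) (a := t + w * q) (w := t + w * q) (by linarith) le_rfl
      (by linarith)
    have h9 : 14 * q ≤ L 2 (t + w * q) (t + w * q) := by linarith [hwq.1]
    have h10 := mul_le_mul_of_nonneg_right h9 hJ0
    refine le_trans ?_ h10
    push_cast
    have h11 := mul_le_mul_of_nonneg_right hC₃η hqJ
    have h12 := mul_le_mul_of_nonneg_right hx8.le hqJ
    linarith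
  have hR0 : κ 0 = .one ∨ κ 0 = .thin := Or.inl hk0
  have hR1 : κ 1 = .one ∨ κ 1 = .thin := Or.inl hk1
  have hR2 : ¬ (κ 2 = .one ∨ κ 2 = .thin) := by
    rw [hk2]
    rintro (h | h) <;> cases h
  have hrow : ∀ w : ℝ, w = 0 ∨ w = 1 →
      lvN P c 3 (L 3) 2 (t + w * q) (t + w * q) + (t + a * q) ≤
        bet P c 2 (t + a * q) (t + 0 * q) + (t + w * q) + 4 * ε * q := fun w hw' =>
    row_con Rc hm (Or.inl hk2) hε hr0 (by linarith) haS haK hw'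
  have htb := htub W TR (by linarith) (by linarith) (by norm_num : 2 < 3) hR0 hR1 hR2 hκ'.le h1 h2
    h4 h5 (D₀ := D * D)
    (x' := 8 * (c₀ + ⌊x₁ * q * J⌋₊) + ⌈(4 * ε + η) * (q * J)⌉₊ + 2)
    (f := fun j => fc A p (j - 1)) (δ := 0) (xr := 4 * ε * q) (Nat.le_mul_of_pos_left D hD) le_rfl
    (by positivity) (by omega) (by omega) (fun j hj3 hj4 => by
      have h34 : j = 3 ∨ j = 4 := by omega
      rcases h34 with rfl | rfl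
      · show A * p ≤ (A + 1) * p ∧ ixn A p (A * p + 1) ≤ 1 ∧
          t + Wn A p g₂ (ixn A p (A * p + 1)) * q ≤ t + Wn A p g₂ (ixn A p (A * p + 1)) * q ∧
          lvN P c 3 (L 3) 2 (t + Wn A p g₂ (ixn A p (A * p + 1)) * q)
            (t + Wn A p g₂ (ixn A p (A * p + 1)) * q) + (t + a * q) ≤
            bet P c 2 (t + a * q) (t + Wn A p g₂ (ixn A p (A * p + 1)) * q) +
            (t + Wn A p g₂ (ixn A p (A * p + 1)) * q) + 4 * ε * q ∧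
          ((8 * (c₀ + ⌊x₁ * q * J⌋₊) + ⌈(4 * ε + η) * (q * J)⌉₊ + 2 : ℕ) : ℝ) +
            (C₃ + 2) * (η * q * J) + 1 ≤
            lvN P c 3 (L 3) 2 (t + Wn A p g₂ (ixn A p (A * p + 1)) * q)
              (t + Wn A p g₂ (ixn A p (A * p + 1)) * q) * J
        rw [hix2]
        exact ⟨Nat.mul_le_mul_right _ (Nat.le_succ _), by norm_num, le_rfl, hrow 0 (Or.inl rfl),
          hlev 0 (Or.inl rfl)⟩
      · show (A + 1) * p ≤ (A + 1) * p ∧ ixn A p ((A + 1) * p + 1) ≤ 1 ∧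
          t + Wn A p g₂ (ixn A p (A * p + 1)) * q ≤
            t + Wn A p g₂ (ixn A p ((A + 1) * p + 1)) * q ∧
          lvN P c 3 (L 3) 2 (t + Wn A p g₂ (ixn A p ((A + 1) * p + 1)) * q)
            (t + Wn A p g₂ (ixn A p ((A + 1) * p + 1)) * q) + (t + a * q) ≤
            bet P c 2 (t + a * q) (t + Wn A p g₂ (ixn A p (A * p + 1)) * q) +
            (t + Wn A p g₂ (ixn A p ((A + 1) * p + 1)) * q) + 4 * ε * q ∧
          ((8 * (c₀ + ⌊x₁ * q * J⌋₊) + ⌈(4 * ε + η) * (q * J)⌉₊ + 2 : ℕ) : ℝ) +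
            (C₃ + 2) * (η * q * J) + 1 ≤
            lvN P c 3 (L 3) 2 (t + Wn A p g₂ (ixn A p ((A + 1) * p + 1)) * q)
              (t + Wn A p g₂ (ixn A p ((A + 1) * p + 1)) * q) * J
        rw [hix2, hix3]
        refine ⟨le_rfl, le_rfl, ?_, hrow 1 (Or.inr rfl), hlev 1 (Or.inr rfl)⟩
        show t + 0 * q ≤ t + 1 * q
        linarith) (by
      push_cast
      have h8 : (0 : ℝ) ≤ c₀ := Nat.cast_nonneg _
      have h9 : (0 : ℝ) ≤ ⌊x₁ * q * J⌋₊ := Nat.cast_nonneg _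
      linarith)
  exact ⟨B', _, _, y, gx, θ', ⟨h1, h2, h3, h4, fun ω hω => (h5 ω hω).1, fun ω hω => (h5 ω hω).2,
    h6, h7, tub_shift htb, fun ω hω i τ => eval_pth _ _ _ _⟩⟩

end Pool.CRC82
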