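import Mathlib
import Pool.Agent.H82.CRC.Cmi

/-!
# The parameters of the conic theorem

`CPr`: the parameters, `CLg`: large `J`. `CPr.set`, `CPr.num`: the inequalities.
-/

set_option autoImplicit false

namespace Pool.CRC82

/-- **The parameters.** `a`, `b`: the slopes of `u`, `N`; `1 / p`: the steps, `η`: the cubes, `ξ`: the
losses. -/
structure CPr (Cn DB C₁ Ct Ka A p x R₁ D' : ℕ) (Cw C₃ a b η ε ξ : ℝ) : Prop where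
  p16 : 16 ≤ p
  pKa : 3 * Ka < p
  a2 : 2 < a
  ab : a < b
  Cw1 : 1 ≤ Cw
  C31 : 1 ≤ C₃
  η0 : 0 < η
  ηp : 8 * (Cw + C₃ + 1) * (η * p) ≤ 1
  ε0 : 0 ≤ ε
  εp : 16 * (ε * p) ≤ 1
  εη : 3 * Cw * ε < η
  s8 : 8 * (ε + η) ≤ a - 2
  ξ0 : 0 < ξ
  ξ1 : 64 * ξ ≤ 1
  Λ : (Cn * (1 + (Cn * (a + 3) + 1 + (a + 3)) + (1 + 20 * DB) + 20) + 4 * C₁ + 10 * Ct + 4 +
    (a + 3)) * 2 ≤ ξ * p
  D2 : 2 * a ≤ D'
  x1 : 2 * a + 1 ≤ x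
  R : 2 * a + 2 ≤ (b - a) * (R₁ - 1 - x)
  RA : R₁ + 1 ≤ A
  xR : x + 1 ≤ R₁

/-- **Large `J`**: `Q = q J`. -/
structure CLg (Cn DB c₀ C₁ c₁ Ct A p D' : ℕ) (a η ξ Q : ℝ) : Prop where
  big : (Cn * (((A + 1) * p : ℕ) + 1 + (Cn + ((A + 1) * p : ℕ)) + (20 * c₀ * DB + c₁) + 20 * c₀) +
    C₁ + 3 + Ct * (8 * c₀ + 6) + 3 * c₀ + 8 * (D' + 4) + 64 : ℝ) ≤ ξ / 2 * Q
  bg2 : 16 ≤ (a - 2) * Q
  bg3 : 8 ≤ η * Q
  bg4 : (p : ℝ) ≤ Q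

/-- There is a large `J`. -/
theorem clg_ex (Cn DB c₀ C₁ c₁ Ct A p D' : ℕ) {a η ξ q : ℝ} (ha : 2 < a) (hη : 0 < η)
    (hξ : 0 < ξ) (hq : 0 < q) :
    ∃ J₀ : ℕ, ∀ J : ℕ, J₀ ≤ J → CLg Cn DB c₀ C₁ c₁ Ct A p D' a η ξ (q * J) := by
  have key : ∀ {s : ℝ}, 0 < s → ∀ M : ℝ, ∃ J₀ : ℕ, ∀ J : ℕ, J₀ ≤ J → M ≤ s * (q * J) := by
    intro s hs M
    obtain ⟨J₀, hJ₀⟩ := exists_nat_gt (M / (s * q))
    refine ⟨J₀, fun J hJ => ?_⟩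
    have h1 : (J₀ : ℝ) ≤ J := by exact_mod_cast hJ
    have h2 := hJ₀.le.trans h1
    rw [div_le_iff₀ (by positivity)] at h2
    linarith
  obtain ⟨J₁, h₁⟩ := key (show 0 < ξ / 2 by positivity)
    (Cn * (((A + 1) * p : ℕ) + 1 + (Cn + ((A + 1) * p : ℕ)) + (20 * c₀ * DB + c₁) + 20 * c₀) +
    C₁ + 3 + Ct * (8 * c₀ + 6) + 3 * c₀ + 8 * (D' + 4) + 64 : ℝ)
  obtain ⟨J₂, h₂⟩ := key (show 0 < a - 2 by linarith) 16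
  obtain ⟨J₃, h₃⟩ := key hη 8
  obtain ⟨J₄, h₄⟩ := key one_pos p
  refine ⟨J₁ + J₂ + J₃ + J₄, fun J hJ => ⟨h₁ J (by omega), h₂ J (by omega), h₃ J (by omega), ?_⟩⟩
  have := h₄ J (by omega)
  rwa [one_mul] at this

section

variable {Cn DB C₁ Ct Ka A p x R₁ D' : ℕ} {Cw C₃ a b η ε ξ : ℝ}
  (P : CPr Cn DB C₁ Ct Ka A p x R₁ D' Cw C₃ a b η ε ξ)
include P

theorem CPr.p0 : (0 : ℝ) < p := by
  have h1 : (16 : ℝ) ≤ p := by exact_mod_cast P.p16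
  linarith

theorem CPr.ητ : 8 * (Cw + C₃ + 1) * η ≤ 1 / p := by
  rw [le_div_iff₀ P.p0]
  refine le_trans (le_of_eq ?_) P.ηp
  ring

theorem CPr.ετ : 16 * ε ≤ 1 / p := by
  rw [le_div_iff₀ P.p0]
  refine le_trans (le_of_eq ?_) P.εp
  ring

theorem CPr.τ0 : 0 < 1 / (p : ℝ) := one_div_pos.2 P.p0

theorem CPr.τ16 : 16 * (1 / (p : ℝ)) ≤ 1 := by
  have h1 : (16 : ℝ) ≤ p := by exact_mod_cast P.p16
  rw [mul_one_div, div_le_one P.p0]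
  exact h1

theorem CPr.Cη : 8 * (Cw * η) + 8 * (C₃ * η) + 8 * η ≤ 1 / p := by
  refine le_trans (le_of_eq ?_) P.ητ
  ring

/-- **The numbers of the frame and the balls.** -/
theorem CPr.set : 4 * (Cw * η) ≤ 1 ∧ η * p ≤ 1 ∧ (C₃ + 3) * η + 4 * ε ≤ 1 ∧
    4 * ε + (Cw + 1) * η < 1 / p ∧ 8 * (1 / (p : ℝ)) < 1 ∧ 2 * ε + (Cw + 1) * η < 1 / p ∧
    1 / p + 2 * ε + η < 2 / p ∧ Ka * (1 / (p : ℝ) + 2 / p) < 1 := by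
  have h1 := P.Cη
  have h2 := P.ετ
  have h3 := P.τ16
  have h4 := P.τ0
  have h5 : 0 ≤ Cw * η := mul_nonneg (by linarith [P.Cw1]) P.η0.le
  have h6 : 0 ≤ C₃ * η := mul_nonneg (by linarith [P.C31]) P.η0.le
  have h7 := P.η0
  have h8 := P.ε0
  have e2 : (2 : ℝ) / p = 2 * (1 / p) := by ring
  have hηp : η * p ≤ 1 := by
    rw [← le_div_iff₀ P.p0]
    linarith
  refine ⟨by linarith, hηp, by linarith, by linarith, by linarith, by linarith, by linarith, ?_⟩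
  rw [show (Ka : ℝ) * (1 / (p : ℝ) + 2 / p) = 3 * Ka / p by ring, div_lt_one P.p0]
  exact_mod_cast P.pKa

/-- **The numbers of the charts.** -/
theorem CPr.npw : (η + 2 * ε) * p ≤ a ∧ 8 * (Cw * η) + (a / p + 4 * ε) ≤ (a + 2) * (1 / p) ∧
    ε + η ≤ 1 / 32 := by
  have h1 := P.Cη
  have h2 := P.ετ
  have h3 := P.τ16
  have h4 := P.τ0
  have h5 : 0 ≤ Cw * η := mul_nonneg (by linarith [P.Cw1]) P.η0.le
  have h6 : 0 ≤ C₃ * η := mul_nonneg (by linarith [P.C31]) P.η0.le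
  have h7 := P.η0
  have h8 := P.ε0
  have h9 := P.a2
  refine ⟨?_, ?_, ?_⟩
  · have h10 : η + 2 * ε ≤ 1 / p := by linarith
    rw [le_div_iff₀ P.p0] at h10
    linarith
  · have e : (a + 2) * (1 / (p : ℝ)) = a / p + 2 * (1 / p) := by ring
    rw [e]
    linarith
  · have h11 : 8 * η ≤ 1 / p := by linarith
    linarith

variable {c₀ c₁ : ℕ} {Q : ℝ} (L : CLg Cn DB c₀ C₁ c₁ Ct A p D' a η ξ Q)
include L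

theorem CPr.Q0 : (0 : ℝ) < Q := lt_of_lt_of_le P.p0 L.bg4

theorem CPr.τQ : 1 ≤ 1 / p * Q := by
  rw [one_div_mul_eq_div, le_div_iff₀ P.p0, one_mul]
  exact L.bg4

/-- **The exponents.** -/
theorem CPr.num {xx gn hr : ℕ} (h3 : (xx : ℝ) ≤ 1 / p * Q) (h4 : (gn : ℝ) ≤ 2 * (1 / p * Q))
    (h1 : (hr : ℝ) ≤ 1 / p * Q) :
    Cn * ((A + 1) * p + 1 + hr + (Cn * (⌊(a + 3) * (1 / p * Q)⌋₊ + 1) + hr + (A + 1) * p +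
      ⌊(a + 3) * (1 / p * Q)⌋₊) + (hr + 20 * (c₀ + xx) * DB + c₁) + 20 * (c₀ + xx)) +
      (C₁ * (xx + xx + gn + 1) + 2) ≤ ⌊ξ * Q⌋₊ ∧ 3 * (c₀ + xx) ≤ ⌊ξ * Q⌋₊ ∧
    ⌊(a + 3) * (1 / p * Q)⌋₊ ≤ ⌊ξ * Q⌋₊ ∧
    Ct * (8 * (c₀ + xx) + ⌈(4 * ε + η) * Q⌉₊ + 2 + ⌈(Cw + C₃ + 1) * (η * Q)⌉₊ + 1) ≤ ⌊ξ * Q⌋₊ ∧
    8 * ((D' : ℝ) + 4) ≤ Q ∧ 64 ≤ Q ∧ (⌊ξ * Q⌋₊ : ℝ) ≤ ξ * Q := by
  have hQ := P.Q0 L
  have hτ := P.τ0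
  have hξ := P.ξ0
  have hb := L.big
  have ha := P.a2
  have hξQ : 0 ≤ ξ * Q := by positivity
  have hτQ : 0 ≤ 1 / p * Q := by positivity
  have hμ : (⌊(a + 3) * (1 / p * Q)⌋₊ : ℝ) ≤ (a + 3) * (1 / p * Q) :=
    Nat.floor_le (mul_nonneg (by linarith) hτQ)
  have hm : ξ * Q ≤ (⌊ξ * Q⌋₊ : ℝ) + 1 := (Nat.lt_floor_add_one _).le
  have hΛ : (Cn * (1 + (Cn * (a + 3) + 1 + (a + 3)) + (1 + 20 * DB) + 20) + 4 * C₁ + 10 * Ct + 4 +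
      (a + 3)) * (1 / p) ≤ ξ / 2 := by
    rw [mul_one_div, div_le_iff₀ P.p0]
    linarith [P.Λ]
  obtain ⟨X, hX⟩ : ∃ X : ℝ, X = Cn * (1 + (Cn * (a + 3) + 1 + (a + 3)) + (1 + 20 * DB) + 20) :=
    ⟨_, rfl⟩
  obtain ⟨Y, hY⟩ : ∃ Y : ℝ, Y = Cn * (((A + 1) * p : ℕ) + 1 + (Cn + ((A + 1) * p : ℕ)) +
      (20 * c₀ * DB + c₁) + 20 * c₀) := ⟨_, rfl⟩
  have hX0 : 0 ≤ X := by
    rw [hX]
    have : 0 ≤ a + 3 := by linarith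
    positivity
  have hY0 : 0 ≤ Y := by rw [hY]; positivity
  rw [← hX] at hΛ
  rw [← hY] at hb
  have hXτ : 0 ≤ X * (1 / p) := mul_nonneg hX0 hτ.le
  have hC₁τ : 0 ≤ C₁ * (1 / (p : ℝ)) := by positivity
  have hCtτ : 0 ≤ Ct * (1 / (p : ℝ)) := by positivity
  have haτ : 0 ≤ (a + 3) * (1 / (p : ℝ)) := mul_nonneg (by linarith) hτ.le
  have hCt0 : (0 : ℝ) ≤ Ct := Nat.cast_nonneg _
  have hc0 : (0 : ℝ) ≤ c₀ := Nat.cast_nonneg _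
  have hC1 : (0 : ℝ) ≤ C₁ := Nat.cast_nonneg _
  have hD0 : (0 : ℝ) ≤ D' := Nat.cast_nonneg _
  have hCtc : (0 : ℝ) ≤ Ct * c₀ := by positivity
  have hξQ1 : ξ / 2 * Q ≤ 1 / 128 * Q := mul_le_mul_of_nonneg_right (by linarith [P.ξ1]) hQ.le
  have hΛQ : (X + 4 * C₁ + 10 * Ct + 4 + (a + 3)) * (1 / p * Q) ≤ ξ / 2 * Q := by
    have := mul_le_mul_of_nonneg_right hΛ hQ.le
    linarith
  have q1 : 0 ≤ X * (1 / p * Q) := mul_nonneg hX0 hτQ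
  have q2 : 0 ≤ C₁ * (1 / p * Q) := mul_nonneg hC1 hτQ
  have q3 : 0 ≤ Ct * (1 / p * Q) := mul_nonneg hCt0 hτQ
  have q4 : 0 ≤ (a + 3) * (1 / p * Q) := mul_nonneg (by linarith) hτQ
  have toN : ∀ {k : ℕ}, (k : ℝ) ≤ ξ * Q → k ≤ ⌊ξ * Q⌋₊ := fun h => Nat.le_floor h
  refine ⟨?_, ?_, ?_, ?_, ?_, ?_, Nat.floor_le hξQ⟩
  · exact sml_num (τ := 1 / p) (ξ := ξ) (Q := Q) (a := a) hτ.le hQ.le h1 hμ h3 h4 hm (by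
      rw [← hX]
      linarith) (by
      rw [← hY]
      linarith)
  · refine toN ?_
    push_cast
    linarith
  · refine toN (hμ.trans ?_)
    linarith
  · refine toN ?_
    have c1 : (⌈(4 * ε + η) * Q⌉₊ : ℝ) ≤ (4 * ε + η) * Q + 1 :=
      (Nat.ceil_lt_add_one (mul_nonneg (by linarith [P.ε0, P.η0]) hQ.le)).le
    have c2 : (⌈(Cw + C₃ + 1) * (η * Q)⌉₊ : ℝ) ≤ (Cw + C₃ + 1) * (η * Q) + 1 :=
      (Nat.ceil_lt_add_one (mul_nonneg (by linarith [P.Cw1, P.C31])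
        (mul_nonneg P.η0.le hQ.le))).le
    have c3 := mul_le_mul_of_nonneg_right P.ητ hQ.le
    have c4 := mul_le_mul_of_nonneg_right P.ετ hQ.le
    have c5 := mul_le_mul_of_nonneg_right P.Cη hQ.le
    have c6 : 0 ≤ Cw * η * Q := mul_nonneg (mul_nonneg (by linarith [P.Cw1]) P.η0.le) hQ.le
    have c7 : 0 ≤ C₃ * η * Q := mul_nonneg (mul_nonneg (by linarith [P.C31]) P.η0.le) hQ.le
    have c8 : 0 ≤ η * Q := mul_nonneg P.η0.le hQ.le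
    have c9 : 0 ≤ ε * Q := mul_nonneg P.ε0 hQ.le
    have c10 : (8 * ((c₀ : ℝ) + xx) + ⌈(4 * ε + η) * Q⌉₊ + 2 + ⌈(Cw + C₃ + 1) * (η * Q)⌉₊ + 1) ≤
        10 * (1 / p * Q) + (8 * c₀ + 5) := by linarith
    have c11 := mul_le_mul_of_nonneg_left c10 hCt0
    push_cast
    have c12 : (Ct : ℝ) * (10 * (1 / p * Q) + (8 * c₀ + 5)) =
      10 * (Ct * (1 / p * Q)) + Ct * (8 * c₀ + 6) - Ct := by ring
    linarith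
  · have h9 : 0 ≤ (Ct : ℝ) * (8 * c₀ + 6) := by positivity
    linarith
  · have h9 : 0 ≤ (Ct : ℝ) * (8 * c₀ + 6) := by positivity
    linarith

end

end Pool.CRC82
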