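import Pool.Agent.H82.CRC.Cmk
import Pool.Agent.H82.CRC.Cml

/-!
# The visible case of the conic theorem, on one event

`vis_evt`: with a visible second derivative at the base, the slope of `N` is near a closed number, or
the chart of `u` at `t + q` is near a polynomial closed at `t`.
-/

set_option autoImplicit false

namespace Pool.CRC82

open Finset Real MvPolynomial
open Pool.Agent.H49.Ent Pool.Agent.H32.Dense Pool.STK Pool.KA Pool.KSAT Pool.K2S Pool.PB Pool.S6C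
open Pool.GEN Pool.CHT Pool.CHX Pool.ISO Pool.D2R Pool.D2G30 Pool.V1E Pool.PKG
open Pool.LBT (ThrOf)
open Pool.LEV (Law)
open Pool.CUB46 (h3)
open Pool.CR99
open Pool.AFF82
open Pool.CNC76 Pool.CNC28 Pool.CNC60

theorem Npw.sub {m J : ℕ} {F : Fam m J} {c : ℕ → Fin m} {B B₁ : F.Ω → Prop}
    {n D Dr ν μ h : ℕ} {κ κ₂ : ℝ} {w : ℕ → ℕ}
    {g : ℕ → ℕ → ℕ} {G : ℕ → PtT F → ℕ → MvPolynomial (Option (Fin m)) ℝ}
    {H : ℕ → LnT F → ℕ → MvPolynomial (Option (Fin m)) ℝ} (W : Npw F c B n D Dr ν μ h κ w g G H)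
    (hB : Sub B₁ B) {K : ℝ} (hK : 0 < K) (hP : Pe F.p B ≤ K * Pe F.p B₁) (h2 : 0 ≤ κ₂)
    (hκ : κ * K ≤ κ₂) : Npw F c B₁ n D Dr ν μ h κ₂ w g G H where
  νμ := W.νμ
  wJ := W.wJ
  wm := W.wm
  deg := W.deg
  dep := W.dep
  degH := W.degH
  depH := W.depH
  cls k hk := (W.cls k hk).sub hB
  own k hk ω hω := W.own k hk ω (hB ω hω)
  bal j hj k hk hjk ω hω := W.bal j hj k hk hjk ω (hB ω hω)
  stp := W.stp
  exc := W.exc
  mon := W.mon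
  gn := W.gn
  relb k hk := (W.relb k hk).sub (κ₁ := 1 / K) hB (by
    rw [one_div_mul_eq_div, div_le_iff₀ hK]
    linarith) h2 (by
    rw [mul_one_div, le_div_iff₀ hK]
    exact hκ)

theorem frm_sub82 {m J : ℕ} {F : Fam m J} {c : ℕ → Fin m} {B B₁ : F.Ω → Prop} {n : ℕ} {w : ℕ → ℕ}
    {g : ℕ → ℕ → ℕ} {G : ℕ → PtT F → ℕ → MvPolynomial (Option (Fin m)) ℝ} {N : F.Ω → AfN}
    {o s0 s1 sm : ℕ} {ctr : ℕ → F.Ω → Fin 3 → ℝ} {ρ : ℕ → ℝ}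
    (V : Frm F c B n w g G N o s0 s1 sm ctr ρ) (hB : Sub B₁ B) :
    Frm F c B₁ n w g G N o s0 s1 sm ctr ρ where
  sm1 := V.sm1
  Nc k hk := (V.Nc k hk).sub hB
  cc k hk := (V.cc k hk).sub hB
  ρ0 := V.ρ0
  ρd := V.ρd
  ρw := V.ρw
  sml k hk ω hω b hb' u := V.sml k hk ω (hB ω hω) b hb' u

/-- **The visible case**, event level. -/
theorem vis_evt (D : ℕ) (hD : 1 ≤ D) : ∃ Cn : ℕ, 1 ≤ Cn ∧ ∀ {m : ℕ} {S : PCl m} {al : ℝ}
    {g₀ : ℝ → ℝ} {P : List (Fin m) × Fin m → ℝ → ℝ → ℝ} {θ : ℝ}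
    {P₂ : ℕ → List (Fin m) × Fin m → ℝ → ℝ → ℝ} {θ₂ Eb e₂ : ℕ → ℝ} {c : ℕ → Fin m}
    {Pt : ℝ → ℝ → ℝ} {rr : ℝ → ℝ} {h K₀ g : ℝ} {L T' : ℕ → ℝ → ℝ → ℝ} {Sl : ℕ → ℝ}
    {κ' : ℕ → Kg} {G' : Set ℝ} {S₀ N : ℕ} {A' V' : ℕ → ℝ} {S₂ N' : ℕ} {V'' : ℕ → ℝ}
    {K ε q t : ℝ}
    (_ : RecG S al g₀ P θ P₂ θ₂ Eb e₂ c Pt rr h K₀ g L T' Sl κ' G' S₀ N A' V' S₂ N' V'' K ε q t)
    (_ : 3 < m) {Dr DB Ka c₀ C₁ c₁ Ct A p x R₁ D' J Ne : ℕ} {R : ℕ → Prop}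
    {Cw C₃ a Ebb ε₀ η ξ : ℝ} {be b : ℕ → ℕ → ℝ}
    {F : Fam m J} {κ κ₁ c' θ' : ℝ} {z gc gT gg : ℕ → ℕ → ℕ} {B B' B'' : F.Ω → Prop}
    {G : ℕ → PtT F → ℕ → MvPolynomial (Option (Fin m)) ℝ}
    {H : ℕ → LnT F → ℕ → MvPolynomial (Option (Fin m)) ℝ}
    {T : ℕ → PtT F → ℕ → MvPolynomial (Option (Fin m)) ℝ}
    {TH : ℕ → LnT F → ℕ → MvPolynomial (Option (Fin m)) ℝ}
    {Gt : ℕ → PtT F → MvPolynomial (Option (Fin m)) ℝ}
    {Ht : ℕ → LnT F → MvPolynomial (Option (Fin m)) ℝ}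
    {xh : F.Ω → Fin 3 → Polynomial ℝ} {Tu : F.Ω → MvPolynomial (Fin 3) ℝ} {y y' gx : ℕ}
    (_ : CPr Cn DB C₁ Ct Ka A p x R₁ D' Cw C₃ (Sl 2) (Sl 3) η ε ξ)
    (_ : CLg Cn DB c₀ C₁ c₁ Ct A p D' (Sl 2) η ξ (q * J)) (_ : D ≤ Dr) (_ : 2 * (D * D) ≤ DB)
    (_ : 1 ≤ c₀) (_ : 2 * A + 12 ≤ K)
    (_ : WG c 3 D Dr 1 ((A + 1) * p + 6) R Cw a Ebb ε₀ (η * q) (L 3)
      (fun k => t + Wn A p (1 / p) k * q)
      (fun k l => lvN P c 3 (L 3) l (t + Wn A p (1 / p) k * q) (t + Wn A p (1 / p) k * q)) be F b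
      κ z B gc gT gg G H T TH Gt Ht)
    (_ : EvC F c D DB A p (1 / p) t q gg B B' G H xh Tu (c₀ + ⌊1 / p * q * J⌋₊) ⌊1 / p * q * J⌋₊ y
      y' gx (⌊η * q * J⌋₊ + 20 * (c₀ + ⌊1 / p * q * J⌋₊) * DB + c₁) ⌊q / 2 * J⌋₊ θ' κ₁
      (1 / 2 ^ (C₁ * (⌊1 / p * q * J⌋₊ + ⌊1 / p * q * J⌋₊ + ⌊2 / p * q * J⌋₊ + 1) + 2)) c'
      (2 ^ (3 * (c₀ + ⌊1 / p * q * J⌋₊)))
      (2 ^ (Ct * (8 * (c₀ + ⌊1 / p * q * J⌋₊) + ⌈(4 * ε + η) * (q * J)⌉₊ + 2 +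
        ⌈(Cw + C₃ + 1) * (η * q * J)⌉₊ + 1))))
    (_ : 12 * c' ≤ 1) (_ : 2 * (p : ℝ) ≤ q * Ne) (_ : 0 ≤ κ)
    (_ : 4 * κ * (2 * Ne * 2 ^ ((D + 1) * ((A + 1) * p + 1) + 12)) ≤ 1)
    (_ : κ₁ * 2 * (2 * Ne * 2 ^ ((D + 1) * ((A + 1) * p + 1) + 12)) ≤ 1)
    (_ : ∀ ω, B'' ω → B' ω) (_ : Pe F.p B' ≤ 2 * Pe F.p B'')
    (_ : ∀ ω, B'' ω → ∃ i j, 2 ^ ⌊(Cn * ((1 + Sl 2) * A + 1) + Sl 3 * A + 2 * A + 11) * q * J⌋₊ /
      2 ^ gg (ixn A p (0 + 1)) 2 / rk (c₀ + ⌊1 / p * q * J⌋₊) (cw A p (1 / p) t q J) (0 + 1) ^ 2 <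
        |h3 (UU F c (fun k => G (ixn A p (k + 1)))
          (afr F c (cw A p (1 / p) t q J) (G 2) (fun k => G (ixn A p k)))
          (cw A p (1 / p) t q J 0) (gg (ixn A p 0) 0) (gg (ixn A p 0) 1) 0 ω)
          (afc c (afr F c (cw A p (1 / p) t q J) (G 2) (fun k => G (ixn A p k)) ω)
            (cw A p (1 / p) t q J 0) (gg (ixn A p 0) 0) (gg (ixn A p 0) 1) (bt F ω)) i j|),
    ∃ B₃ : F.Ω → Prop, Sub B₃ B'' ∧
      Pe F.p B'' ≤ 2 * Ne * 2 ^ ((D + 1) * ((A + 1) * p + 1) + 10) * Pe F.p B₃ ∧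
      ((∃ K : F.Ω → ℝ, Clo B₃ (ptr F J) (slam F (cw A p (1 / p) t q J (0 + 1))) K ∧
        ∀ ω, B₃ ω → ∀ j, j = 0 ∨ j = (A - R₁) * p →
        |eval (bt F ω) (pderiv (some (c 2)) (G (ixn A p (j + 1)) (ptr F J ω) 3)) - K ω| ≤
          2 ^ ⌊ξ * (q * J)⌋₊ * (2 ^ gg (ixn A p (j + 1)) 2 / 2 ^ gg (ixn A p (j + 1)) 3)) ∨
      ∃ Hp : F.Ω → MvPolynomial (Fin 3) ℝ,
        (∀ ω ω', B₃ ω → B₃ ω' → slam F (cw A p (1 / p) t q J (A * p + 1)) ω =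
          slam F (cw A p (1 / p) t q J (A * p + 1)) ω' → Hp ω = Hp ω') ∧
        (∀ ω, B₃ ω → (Hp ω).totalDegree ≤ (D' + 3) * (D * D * (D * D))) ∧
        ∀ ω, B₃ ω → ∀ b : Fin 3 → ℝ,
          (∀ i, |b i - aC F c (cw A p (1 / p) t q J) (gg (ixn A p 0)) (G 2)
            (fun k => G (ixn A p k)) ((A + 1) * p + 1) ω i| ≤
            rk (c₀ + ⌊1 / p * q * J⌋₊) (cw A p (1 / p) t q J) ((A + 1) * p + 1)) →
          |eval b (Hp ω) - eval b (UU F c (fun k => G (ixn A p (k + 1)))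
            (afr F c (cw A p (1 / p) t q J) (G 2) (fun k => G (ixn A p k)))
            (cw A p (1 / p) t q J 0) (gg (ixn A p 0) 0) (gg (ixn A p 0) 1) ((A + 1) * p) ω)| ≤
            2 ^ ((D * D + 21) * ⌊ξ * (q * J)⌋₊) / 2 ^ gg (ixn A p ((A + 1) * p + 1)) 2) := by
  obtain ⟨Cn, hCn, hcnc⟩ := cnc_ev D hD
  refine ⟨Cn, hCn, ?_⟩
  intro m S al g₀ P θ P₂ θ₂ Eb e₂ c Pt rr h K₀ g L T' Sl κ' G' S₀ N A' V' S₂ N' V'' K ε q t Rc hm Dr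
    DB Ka c₀ C₁ c₁ Ct A p x R₁ D' J Ne R Cw C₃ a Ebb ε₀ η ξ be b F κ κ₁ c' θ' z gc gT gg B B' B'' G
    H T TH Gt Ht xh Tu y y' gx Pr Lg hDr hDB hc₀ hK W Ev hc' hNe hκ hκ4 hκ1 hB'' hPB'' hvis
  have hq := Rc.q0
  have ht0 := Rc.t0
  have ht1 := Rc.t1
  have hJ0 : (0 : ℝ) ≤ J := Nat.cast_nonneg J
  have hqJ := Pr.Q0 Lg
  have hτ := Pr.τ0
  have hτQ := Pr.τQ Lg
  have ha := Pr.a2
  have hab := Pr.ab
  have hη := Pr.η0
  have hε := Pr.ε0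
  have hξ0 := Pr.ξ0
  have hξ1 := Pr.ξ1
  have hC1 := Pr.Cw1
  have hp16 := Pr.p16
  have hp1 : 1 ≤ p := by omega
  have hxR := Pr.xR
  have hRA := Pr.RA
  have hA1 : 1 ≤ A := by omega
  have hA0 : (1 : ℝ) ≤ A := by exact_mod_cast hA1
  have hK' : (A : ℝ) + 1 ≤ K := by linarith
  obtain ⟨s1, s2, s3, s4, s5, s6, s7, s8⟩ := Pr.set
  obtain ⟨n1, n2, n3⟩ := Pr.npw
  have hinj3 : Set.InjOn c (Set.Iio 3) := Rc.inj.mono fun i hi => by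
    have h1 : i < 3 := hi
    show i < m
    omega
  have hη1 : η ≤ 1 / p := by
    rw [le_div_iff₀ Pr.p0]
    exact s2
  have f1 : (⌊1 / (p : ℝ) * q * J⌋₊ : ℝ) ≤ 1 / p * (q * J) :=
    (Nat.floor_le (by positivity)).trans (le_of_eq (by ring))
  have f2 : (⌊2 / (p : ℝ) * q * J⌋₊ : ℝ) ≤ 2 * (1 / p * (q * J)) :=
    (Nat.floor_le (by positivity)).trans (le_of_eq (by ring))
  have f3 : (⌊η * q * J⌋₊ : ℝ) ≤ 1 / p * (q * J) := by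
    refine (Nat.floor_le (by positivity)).trans ?_
    rw [mul_assoc]
    exact mul_le_mul_of_nonneg_right hη1 hqJ.le
  obtain ⟨u1, u2, u3, u4, u5, u6, u7⟩ := Pr.num Lg f1 f2 f3
  have eη : η * (q * (J : ℝ)) = η * q * J := by ring
  rw [eη] at u4
  obtain ⟨μ, hμ⟩ : ∃ μ, μ = ⌊(Sl 2 + 3) * (1 / p * (q * J))⌋₊ := ⟨_, rfl⟩
  obtain ⟨m₀, hm₀⟩ : ∃ m₀, m₀ = ⌊ξ * (q * J)⌋₊ := ⟨_, rfl⟩
  obtain ⟨ζ, hζ⟩ : ∃ ζ, ζ = ⌊2 * Sl 2 * (q * J)⌋₊ := ⟨_, rfl⟩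
  obtain ⟨L₀, hL₀⟩ : ∃ L₀, L₀ = ⌊(Cn * ((1 + Sl 2) * A + 1) + Sl 3 * A + 2 * A + 11) * q * J⌋₊ :=
    ⟨_, rfl⟩
  rw [← hμ, ← hm₀] at u1
  rw [← hm₀] at u2 u4 u7
  rw [← hμ, ← hm₀] at u3
  rw [← hL₀] at hvis
  rw [← hm₀]
  have hμ1 : (Sl 2 + 2) * (1 / p * (q * J)) ≤ μ := by
    have h1 := Nat.lt_floor_add_one ((Sl 2 + 3) * (1 / p * (q * (J : ℝ))))
    rw [← hμ] at h1
    linarith
  have hμ2 : 1 / p * (q * J) ≤ (μ : ℝ) := by
    have h1 := mul_le_mul_of_nonneg_right (show (1 : ℝ) ≤ Sl 2 + 2 by linarith)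
      (show 0 ≤ 1 / p * (q * (J : ℝ)) by linarith)
    linarith
  have hB''s : Sub B'' B := fun ω hω => Ev.sub ω (hB'' ω hω)
  have hPB4 : Pe F.p B ≤ 4 * Pe F.p B'' := by linarith [Ev.pe]
  have hposB'' : 0 < Pe F.p B'' := by linarith [Ev.pos]
  -- the windows
  have hWn := wnum_rec Rc hm W hp1 hK'
  have hζ0 : 2 * Sl 2 * (q * J) ≤ (ζ : ℝ) + 1 := by
    rw [hζ]
    exact (Nat.lt_floor_add_one _).le
  have hζ1 : (ζ : ℝ) ≤ 2 * Sl 2 * (q * J) := by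
    rw [hζ]
    exact Nat.floor_le (by positivity)
  obtain ⟨o1, o2, o3, o4, o5, o6, o7, o8⟩ := hWn.out hp1 ha hab (ξ := ξ) (x := x) (R₁ := R₁)
    (D' := D') (m₀ := m₀) (E := μ) (ζ := ζ) (by linarith) n3 Pr.s8 (by linarith) u7 u3 Pr.D2 hζ0
    hζ1 Pr.x1 Pr.R hRA hxR (by linarith) Lg.bg2
  have hx5 : 5 ≤ x := by
    have h1 := Pr.x1
    have h2 : (5 : ℝ) < x := by linarith
    have h3 : 5 < x := by exact_mod_cast h2
    omega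
  obtain ⟨b1, b2⟩ := hWn.big hp1 ha hab (ξ := ξ) (m₀ := m₀) (L₀ := L₀) (Cn := Cn) (by linarith) n3
    (by linarith) u7 (by omega) (by linarith) (by
      have h1 := Nat.lt_floor_add_one ((Cn * ((1 + Sl 2) * A + 1) + Sl 3 * A + 2 * A + 11) * q * J)
      rw [← hL₀] at h1
      linarith)
  -- the charts
  have hnpw := (npw_rec Rc hm W hp1 hK' hη.le hε s2 (by linarith) hab.le n1 (μ := μ) (by
      have h1 := mul_le_mul_of_nonneg_right hC1 (show 0 ≤ η * q * (J : ℝ) by positivity)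
      have h2 := Lg.bg3
      rw [eη] at h2
      linarith) (by
      have h1 := mul_le_mul_of_nonneg_right n2 hqJ.le
      refine le_trans (le_of_eq ?_) (h1.trans (le_trans (le_of_eq ?_) hμ1))
      · ring
      · ring)).sub hB''s (K := 4) (by norm_num) hPB4 (κ₂ := 4 * κ) (by linarith) (by linarith)
  have hNe0 : (0 : ℝ) < Ne := by
    have h1 : 0 < q * Ne := lt_of_lt_of_le (by linarith [Pr.p0]) hNe
    exact pos_of_mul_pos_right h1 hq.le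
  have hNe1 : 1 ≤ Ne := by exact_mod_cast hNe0
  have hsl : ∀ {x y z' : ℕ}, 2 ^ x * (1 / 2 ^ y) / 2 ^ z' = 2 ^ x / 2 ^ y / (2 : ℝ) ^ z' := by
    intro x y z'
    rw [mul_one_div]
  have hg3 : ∀ k ≤ (A + 1) * p, (gg (ixn A p (k + 1)) 3 : ℝ) ≤ J ∧
      11 * (q * J) ≤ gg (ixn A p (k + 1)) 3 := by
    intro k hk
    obtain ⟨h1, h2⟩ := W.wb.sds (ixn A p (k + 1)) (ixn_le (by omega)) 3 le_rfl
    have hlv : ∀ x y : ℝ, lvN P c 3 (L 3) 3 x y = L 3 x y :=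
      fun x y => by rw [← Rc.lv_at hm le_rfl]
    rw [hlv, ixn_succ hk, Wn_cix hp1] at h1 h2
    rw [← ixn_succ hk] at h1 h2
    have h3 : (0 : ℝ) ≤ (k : ℝ) / p := by positivity
    have h4 : (k : ℝ) / p ≤ A + 1 := by
      rw [div_le_iff₀ Pr.p0]
      exact_mod_cast hk
    have h5 : |(-A + (k : ℝ) / p) * q| ≤ K * q := by
      rw [abs_mul, abs_of_pos hq]
      refine mul_le_mul_of_nonneg_right ?_ hq.le
      rw [abs_le]
      constructor <;> linarith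
    have h6 := (Rc.tg 3 (by norm_num) hm).room 3 le_rfl (t + (-A + (k : ℝ) / p) * q) (by
      rw [add_sub_cancel_left]
      exact h5)
    have h7 := (Rc.tg 3 (by norm_num) hm).Eb0
    have h8 : 0 < K * q := by
      have : 0 < K := by linarith
      positivity
    have h9 := abs_le.1 h5
    have h10 : 0 < t + (-A + (k : ℝ) / p) * q := by linarith
    have h11 : t + (-A + (k : ℝ) / p) * q ≤ 1 := by linarith
    have h12 := Rc.low_at (i := 3) hm (a := t + (-A + (k : ℝ) / p) * q)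
      (w := t + (-A + (k : ℝ) / p) * q) h10.le le_rfl h11
    have h13 : 12 * q ≤ t + (-A + (k : ℝ) / p) * q := by
      have h14 := mul_le_mul_of_nonneg_right hK hq.le
      have h15 : 0 ≤ (k : ℝ) / p * q := by positivity
      have h16 : 0 ≤ A * q := by positivity
      linarith
    have hη2 : η ≤ 1 := by linarith [Pr.τ16]
    have h17 := mul_le_mul_of_nonneg_right hη2 hq.le
    constructor
    · refine h2.trans ?_
      have := mul_le_mul_of_nonneg_right (show L 3 (t + (-A + (k : ℝ) / p) * q)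
        (t + (-A + (k : ℝ) / p) * q) ≤ 1 by linarith) hJ0
      linarith
    · refine le_trans ?_ h1
      have := mul_le_mul_of_nonneg_right (show 11 * q ≤ L 3 (t + (-A + (k : ℝ) / p) * q)
        (t + (-A + (k : ℝ) / p) * q) - η * q by linarith) hJ0
      linarith
  obtain ⟨a', ha'⟩ : ∃ a', a' = c₀ + ⌊1 / (p : ℝ) * q * J⌋₊ := ⟨_, rfl⟩
  rw [← ha'] at u1 u2 u4 Ev hvis ⊢
  obtain ⟨hr, hhr⟩ : ∃ hr, hr = ⌊η * q * J⌋₊ := ⟨_, rfl⟩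
  rw [← hhr] at u1 Ev hnpw
  have hA1p : (A - 1) * p ≤ (A + 1) * p := Nat.mul_le_mul_right _ (by omega)
  have hAp : A * p ≤ (A + 1) * p := Nat.mul_le_mul_right _ (by omega)
  have hq1 : q ≤ 1 := by
    have h1 := mul_le_mul_of_nonneg_right (show (1 : ℝ) ≤ K by linarith) hq.le
    linarith
  have hmJ : (m₀ : ℝ) ≤ J := by
    have h1 := mul_le_mul_of_nonneg_right hq1 hJ0
    have h2 := mul_le_mul_of_nonneg_right (show ξ ≤ 1 by linarith) hqJ.le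
    linarith
  have hsm1 : Cn * (μ + 1) + hr + (A + 1) * p + μ ≤ m₀ := by
    have h1 : (Cn * (μ + 1) + hr + (A + 1) * p + μ) ≤ Cn * ((A + 1) * p + 1 + hr +
        (Cn * (μ + 1) + hr + (A + 1) * p + μ) + (hr + 20 * a' * DB + c₁) + 20 * a') := by
      refine le_trans ?_ (Nat.le_mul_of_pos_left _ hCn)
      omega
    omega
  have key := hcnc (S' := LnT F) hinj3 hposB'' hnpw hDr (frm_sub82 Ev.frm hB'')
    (fun k hk => Bll.subk (Ev.bll k hk) hB'' (by norm_num : (0 : ℝ) < 2) hPB'') hDB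
    (r₀ := 8 * a' + cw A p (1 / p) t q J 0) (fun k hk => by
      show rk a' (cw A p (1 / p) t q J) (k + 1) = _
      unfold Pool.AFF82.rk Pool.AFF82.ru
      rw [pow_add]
      ring)
    (f := fc A p) rfl (show 0 < (A - 1) * p from Nat.mul_pos (by omega) hp1)
    (show (A - 1) * p < A * p from Nat.mul_lt_mul_of_pos_right (by omega) hp1)
    (show A * p < (A + 1) * p from Nat.mul_lt_mul_of_pos_right (by omega) hp1)
    (show (A + 1) * p ≤ (A + 1) * p from le_rfl) (j₀ := (A - 1 - x) * p)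
    (show (A - 1 - x) * p ≤ (A - 1) * p from Nat.mul_le_mul_right _ (by omega))
    (tub_sub Ev.tub hB'') (fun ω hω => Ev.pth ω (hB'' ω hω)) (L₀ := L₀) (fun ω hω => by
      obtain ⟨i, j, h1⟩ := hvis ω hω
      refine ⟨i, j, le_trans (le_of_eq ?_) h1.le⟩
      show 2 ^ L₀ * (1 / 2 ^ gg (ixn A p (0 + 1)) 2) /
        rk a' (cw A p (1 / p) t q J) (0 + 1) ^ 2 = _
      rw [mul_one_div])
    (m₀ := m₀) (μ' := Cn * (μ + 1) + hr + (A + 1) * p + μ) (by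
      rw [mul_one_div, le_div_iff₀ (by positivity), ← pow_add]
      exact pow_le_pow_right₀ (by norm_num) u1)
    (one_le_pow₀ (by norm_num)) (pow_le_pow_right₀ (by norm_num) u2) (by positivity)
    (pow_le_pow_right₀ (by norm_num) u4) (by positivity) (by
      rw [div_le_one (by positivity)]
      exact one_le_pow₀ (by norm_num)) hc' (by
      refine Nat.le_floor ?_
      push_cast
      have h1 := mul_le_mul_of_nonneg_right hξ1 hqJ.le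
      linarith) (Ne := Ne) hκ4 hκ1 hNe1 (le_refl μ) (by
      have h1 := (hg3 0 (Nat.zero_le _)).2
      have h2 : (μ : ℝ) ≤ gg (ixn A p (0 + 1)) 3 := by
        have h3 : (μ : ℝ) ≤ m₀ := by exact_mod_cast u3
        have h2 := mul_le_mul_of_nonneg_right (show ξ ≤ 1 by linarith) hqJ.le
        linarith
      exact_mod_cast h2) (A₁ := ⌈(Sl 3 * A + 2 * (ε + η)) * (q * J)⌉₊) o2
    (A := _) le_rfl le_rfl (by
      show gg (ixn A p (0 + 1)) 2 + (Cn * (μ + 1) + hr + (A + 1) * p + μ) ≤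
        gg (ixn A p ((A - 1) * p + 1)) 2
      omega) (by
      show Cn * (μ + 1) + hr + (A + 1) * p + gg (ixn A p (0 + 1)) 2 +
        gg (ixn A p ((A - 1) * p + 1)) 3 ≤ gg (ixn A p ((A - 1) * p + 1)) 2 + Ne * μ
      have h1 : J + J ≤ Ne * μ := by
        have h2 : (2 : ℝ) * J ≤ Ne * μ := by
          have h3 := mul_le_mul_of_nonneg_left hμ2 hNe0.le
          refine le_trans ?_ h3
          have h4 := mul_le_mul_of_nonneg_right hNe hJ0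
          have h5 : (Ne : ℝ) * (1 / p * (q * J)) = q * Ne * J / p := by ring
          rw [h5, le_div_iff₀ Pr.p0]
          linarith
        have h6 : ((J + J : ℕ) : ℝ) ≤ ((Ne * μ : ℕ) : ℝ) := by
          push_cast
          linarith
        exact_mod_cast h6
      have h7 : gg (ixn A p ((A - 1) * p + 1)) 3 ≤ J := by
        exact_mod_cast (hg3 ((A - 1) * p) hA1p).1
      have h8 : m₀ ≤ J := by exact_mod_cast hmJ
      omega) b1 b2 o3 o4 o5 o6 o7 (le_refl m₀)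
  obtain ⟨B₃, k1, k2, k3⟩ := key
  refine ⟨B₃, k1, k2, ?_⟩
  rcases k3 with ⟨K₂, k3, k4⟩ | ⟨Hp, k3, k4, k5⟩
  · refine Or.inl ⟨K₂, k3, fun ω hω j hj => ?_⟩
    have hjk : j ≤ (A - 1) * p := by
      rcases hj with rfl | rfl
      · exact Nat.zero_le _
      · exact Nat.mul_le_mul_right _ (by omega)
    exact k4 ω hω j hjk (o8 j hj)
  · exact Or.inr ⟨Hp, k3, k4, k5⟩

end Pool.CRC82
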