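import Pool.Agent.H99.D2.Une
import Pool.Agent.H99.D2.Bld
import Pool.Agent.H73.D2.Tml

/-!
# A closed number near the slopes of the charts

`blx_ev`: a closed number near the own slopes `∂ N / ∂ u` of the charts of two windows gives the
labels of `BlX` on a part. `blx_of_ev`: the same in a class.
-/

set_option autoImplicit false

namespace Pool.CRC82

open Finset Real MvPolynomial
open Pool.Agent.H49.Ent Pool.Agent.H32.Dense Pool.STK Pool.KA Pool.KSAT Pool.K2S Pool.PB Pool.S6C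
open Pool.GEN Pool.CHT Pool.CHX Pool.ISO Pool.D2R Pool.D2G30 Pool.V1E Pool.CR99
open Pool.CNC76 (Clo)
open Pool.GRD (LbP)

/-- **The labels of a closed slope**, from a closed number. -/
theorem blx_ev {m J : ℕ} {F : Fam m J} {c : ℕ → Fin m} {D Dr Dg N N₂ : ℕ} {R : ℕ → Prop}
    {C a Eb ε₀ η₀ : ℝ} {Pt : ℝ → ℝ → ℝ} {o : ℕ → ℝ} {lv be b : ℕ → ℕ → ℝ} {κ : ℝ}
    {z : ℕ → ℕ → ℕ} {B B₁ : F.Ω → Prop} {gc gT g₀ : ℕ → ℕ → ℕ}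
    {G : ℕ → PtT F → ℕ → MvPolynomial (Option (Fin m)) ℝ}
    {H : ℕ → LnT F → ℕ → MvPolynomial (Option (Fin m)) ℝ}
    {T : ℕ → PtT F → ℕ → MvPolynomial (Option (Fin m)) ℝ}
    {TH : ℕ → LnT F → ℕ → MvPolynomial (Option (Fin m)) ℝ}
    {Gt : ℕ → PtT F → MvPolynomial (Option (Fin m)) ℝ}
    {Ht : ℕ → LnT F → MvPolynomial (Option (Fin m)) ℝ} {K₀ : F.Ω → ℝ} {iV iR x : ℕ} {ρ : ℝ}
    (W : WG c 3 D Dr N N₂ R C a Eb ε₀ η₀ Pt o lv be F b κ z B gc gT g₀ G H T TH Gt Ht)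
    (hD1 : 1 ≤ D) (hD : D ≤ Dr) (hDg : bmd D ≤ Dg) (hc : Set.InjOn c (Set.Iio 4))
    (hV : iV ≤ N₂) (hR : iR ≤ N₂) (hB₁ : Sub B₁ B) (hκ : κ * Pe F.p B ≤ Pe F.p B₁)
    (hclo : Clo B₁ (ptr F J) (slam F ⌊o iV * J⌋₊) K₀) (hη : 0 ≤ η₀)
    (hs : ∀ i, i = iV ∨ i = iR → ∀ ω, B₁ ω →
      |eval (bt F ω) (pderiv (some (c 2)) (G i (ptr F J ω) 3)) - K₀ ω| ≤
        2 ^ x * (2 ^ g₀ i 2 / 2 ^ g₀ i 3))
    (hx : x + 1 + 2 * (η₀ * J) ≤ ρ * J) (hρ : ρ ≤ lv iV 3) :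
    ∃ B₂ : F.Ω → Prop, Sub B₂ B₁ ∧ Pe F.p B₁ / 2 ≤ Pe F.p B₂ ∧
      ∃ (V : Type) (z : PtT F → V) (z' : LnT F → V) (G : V → MvPolynomial (Option (Fin m)) ℝ)
        (P' : ℕ), LbP F ((range (2 + 1)).image c) (c (2 + 1)) Dg J ⌊o iV * J⌋₊ P' B₂ z z' G ∧
      (lv iV 3 - ρ) * J ≤ P' ∧
      ∀ k < 1, ∃ (V₁ : Type) (z₁ : PtT F → V₁) (z₁' : LnT F → V₁)
        (G₁ : V₁ → MvPolynomial (Option (Fin m)) ℝ) (P₁ : ℕ),
        LbP F ((range (2 + 1)).image c) (c (2 + 1)) Dg J ⌊o iR * J⌋₊ P₁ B₂ z₁ z₁' G₁ ∧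
        (lv iR 3 - ρ) * J ≤ P₁ ∧
        ∀ ω, B₂ ω → |eval (bt F ω) (pderiv (some (c 2)) (G₁ (z₁' (slam F ⌊o iR * J⌋₊ ω)) -
          G (z' (slam F ⌊o iV * J⌋₊ ω))))| ≤ 2 ^ ((lv iR 2 - lv iR 3 + ρ) * J) := by
  have hJ0 : (0 : ℝ) ≤ J := Nat.cast_nonneg J
  have hηJ : 0 ≤ η₀ * J := by positivity
  have eV := W.wb.ev iV hV
  have eR := W.wb.ev iR hR
  have sV3 := W.wb.sds iV hV 3 le_rfl
  have sR3 := W.wb.sds iR hR 3 le_rfl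
  have sR2 := W.wb.sds iR hR 2 (by norm_num)
  have fh : (⌊η₀ * J⌋₊ : ℝ) ≤ η₀ * J := Nat.floor_le hηJ
  have hbD : D ≤ bmd D := by
    unfold bmd
    exact Nat.le_add_left _ _
  -- the number `P`
  have hg3 : ⌊η₀ * J⌋₊ + x + 1 ≤ g₀ iV 3 := by
    have h1 : (lv iV 3 - η₀) * J ≤ g₀ iV 3 := sV3.1
    have h2 : ρ * J ≤ lv iV 3 * J := mul_le_mul_of_nonneg_right hρ hJ0
    have : ((⌊η₀ * J⌋₊ + x + 1 : ℕ) : ℝ) ≤ (g₀ iV 3 : ℝ) := by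
      push_cast
      linarith
    exact_mod_cast this
  obtain ⟨P', hP'⟩ : ∃ P' : ℕ, P' + (⌊η₀ * J⌋₊ + x + 1) = g₀ iV 3 :=
    ⟨g₀ iV 3 - (⌊η₀ * J⌋₊ + x + 1), by omega⟩
  have hcls : ∀ i ≤ N₂, ∀ ω, B₁ ω → G i (ptr F J ω) 3 = H i (slam F ⌊o i * J⌋₊ ω) 3 :=
    fun i hi ω hω => (W.wb.ev i hi).cls ω (hB₁ ω hω) 3 (by norm_num)
  obtain ⟨B₂, h1, h2, V, zz, zz', G', h3, h4⟩ := lab_cst (r := 2) (n := 1) (o := fun _ => ⌊o iR * J⌋₊)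
    (g := fun _ => g₀ iR) (X := fun _ => 2 ^ x * (2 ^ g₀ iR 2 / 2 ^ g₀ iR 3)) (P := P')
    (K := 2 ^ x * (2 ^ g₀ iV 2 / 2 ^ g₀ iV 3)) (G := fun _ => G iR) (H := fun _ => H iR)
    hD1 hD (hc.mono fun i hi => by
      have : i < 3 := hi
      show i < 4
      omega) eV.ball eV.cls eV.relb
    (fun k hk => ⟨_, eR.ball, eR.cls⟩) hB₁ hκ hclo (fun ω hω => by
      rw [← hcls iV hV ω hω]
      exact hs iV (Or.inl rfl) ω hω) (by positivity) (fun k hk ω hω => by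
      beta_reduce
      rw [← hcls iR hR ω hω]
      exact hs iR (Or.inr rfl) ω hω) (by
      have e1 : (2 : ℝ) ^ ⌊η₀ * J⌋₊ * (2 ^ x * (2 ^ g₀ iV 2 / 2 ^ g₀ iV 3)) * (1 / 2 ^ g₀ iV 2) =
          2 ^ (⌊η₀ * J⌋₊ + x) / 2 ^ g₀ iV 3 := by
        rw [pow_add]
        field_simp
      rw [e1, ← add_div, div_le_div_iff₀ (by positivity) (by positivity), one_mul, ← hP']
      have e2 : (1 : ℝ) ≤ 2 ^ (⌊η₀ * J⌋₊ + x) := one_le_pow₀ (by norm_num)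
      rw [pow_add 2 P', pow_succ 2 (⌊η₀ * J⌋₊ + x), mul_comm]
      exact mul_le_mul_of_nonneg_left (by linarith) (by positivity))
  have hsub : (range (2 + 1)).image c ⊆ (range (2 + 1)).image c := subset_rfl
  refine ⟨B₂, h1, h2, V, zz, zz', G', P', h3.mono hsub hDg le_rfl, ?_, fun k hk => ?_⟩
  · have e1 : (P' : ℝ) + ((⌊η₀ * J⌋₊ : ℝ) + x + 1) = g₀ iV 3 := by exact_mod_cast hP'
    have h5 := sV3.1
    beta_reduce at h5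
    linarith
  · obtain ⟨V₁, z₁, z₁', G₁, h5, h6⟩ := h4 0 one_pos
    refine ⟨V₁, z₁, z₁', G₁, g₀ iR 3, h5.mono hsub (hbD.trans hDg) le_rfl, ?_, fun ω hω =>
      (h6 ω hω).trans ?_⟩
    · have h7 := sR3.1
      beta_reduce at h7
      nlinarith
    · have h7 := sR3.1
      have h8 := sR2.2
      beta_reduce at h7
      have e3 : (2 : ℝ) ^ x * (2 ^ g₀ iR 2 / 2 ^ g₀ iR 3) =
          2 ^ ((x : ℝ) + g₀ iR 2 - g₀ iR 3) := by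
        rw [Real.rpow_sub (by norm_num), Real.rpow_add (by norm_num), Real.rpow_natCast,
          Real.rpow_natCast, Real.rpow_natCast]
        ring
      rw [e3]
      refine Real.rpow_le_rpow_of_exponent_le (by norm_num) ?_
      linarith

end Pool.CRC82
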