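import Pool.Agent.H82.CRC.Crk

/-!
# A drop of the level: no closed polynomial near the ball chart

`lab_no2`: 78's `lab_no'` for ball charts of any exponent.
-/

set_option autoImplicit false

namespace Pool.CRC82

open Finset Real MvPolynomial
open Pool.Agent.H49.Ent Pool.Agent.H32.Dense Pool.STK Pool.KA Pool.KSAT Pool.K2S Pool.PB Pool.S6C
open Pool.GEN Pool.CHT Pool.CHX Pool.ISO Pool.D2R Pool.PKG
open Pool.LBT (ThrOf)
open Pool.LEV (Law)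
open Pool.NLB46 (Lab)
open Pool.RCD (floor_le)
open Pool.CNC78

/-- **A drop of the level of the target**: no closed polynomials near the ball charts, of any exponent. -/
theorem lab_no2 (r S₂ D : ℕ) (hr : 1 ≤ r) (hS₂ : 1 ≤ S₂) : ∃ Dr : ℕ, D ≤ Dr ∧
    ∀ D' : ℕ, ∃ C : ℝ, 1 ≤ C ∧ ∀ {m : ℕ} {S : PCl m} {al : ℝ} {g₀ : ℝ → ℝ}
    {P : List (Fin m) × Fin m → ℝ → ℝ → ℝ} {θ : ℝ}
    {P₂ : ℕ → List (Fin m) × Fin m → ℝ → ℝ → ℝ} {θ₂ Eb e₂ : ℕ → ℝ}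
    {c : ℕ → Fin m} {Pt : ℝ → ℝ → ℝ} {rt : ℝ → ℝ} {h K₀ g : ℝ} {L T : ℕ → ℝ → ℝ → ℝ}
    {Sl : ℕ → ℝ} {κ : ℕ → Kg} {G : Set ℝ} {S₀ N : ℕ} {A V : ℕ → ℝ} {N' : ℕ} {V' : ℕ → ℝ}
    {K ε q t : ℝ}
    (_ : RecG S al g₀ P θ P₂ θ₂ Eb e₂ c Pt rt h K₀ g L T Sl κ G S₀ N A V S₂ N' V' K ε q t)
    (_ : 1 ≤ K) (_ : 0 ≤ ε) (_ : r < m) (_ : ∀ l < r, κ l = .one) {k : ℕ} (_ : k < N)
    (_ : A k = 1) (_ : V k = 0) {η del : ℝ} (_ : 0 < η) (_ : del ≤ 1)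
    (_ : C * (η + ε * q) ≤ del * q) (_ : L r (t + q) t + del * q < L r (t + q) (t + q))
    (_ : Sl r + 2 ≤ K) (_ : ε ≤ 1)
    {K₁ : ℝ} (_ : 0 < K₁), ∃ κ₀ : ℝ, 0 < κ₀ ∧ Bas S (fun J F A' =>
      ¬ ∃ (B₀ B : F.Ω → Prop) (e h x : ℕ) (g : ℕ → ℕ)
        (G : PtT F → ℕ → MvPolynomial (Option (Fin m)) ℝ)
        (H : LnT F → ℕ → MvPolynomial (Option (Fin m)) ℝ)
        (Ht : LnT F → MvPolynomial (Option (Fin m)) ℝ), Sub B A' ∧ Sub B B₀ ∧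
        Pe F.p A' ≤ K₁ * Pe F.p B ∧ Pe F.p B₀ ≤ K₁ * Pe F.p B ∧
        (h : ℝ) ≤ η * J ∧ (x : ℝ) ≤ η * J ∧
        (∀ l ≤ r, (L l (t + q) (t + q) - η) * J ≤ g l ∧ (g l : ℝ) ≤ L l (t + q) (t + q) * J) ∧
        BLab F c r D Dr D' ⌊(t + q) * J⌋₊ ⌊t * J⌋₊ e h x g κ₀ B₀ B G H Ht) := by
  obtain ⟨D₁, hD₁, hthin⟩ := thin_labs r S₂ hr hS₂
  obtain ⟨D₂, hD₂⟩ : ∃ D₂, D₂ = max D D₁ := ⟨_, rfl⟩
  have hDD : D ≤ D₂ := by rw [hD₂]; exact le_max_left _ _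
  have hD1D : D₁ ≤ D₂ := by rw [hD₂]; exact le_max_right _ _
  refine ⟨D₂, hDD, fun D' => ?_⟩
  obtain ⟨C₁, hbal⟩ := bal_out D₂ r (hD₁.trans hD1D)
  obtain ⟨C₂, hinc⟩ := inc_of_bal D₂ r
  obtain ⟨C₃, hlab⟩ := lab_of_ball2 D₂ D' r
  -- the constant: exponents in terms of `η + ε q`
  obtain ⟨M, hM⟩ : ∃ M : ℝ, M = C₃ * (C₂ * (2 * C₁ + 9) + 2 * C₁ + 2) + 6 := ⟨_, rfl⟩
  have hM0 : 6 ≤ M := by
    rw [hM]
    have : (0 : ℝ) ≤ C₃ * (C₂ * (2 * C₁ + 9) + 2 * C₁ + 2) := by positivity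
    linarith
  refine ⟨2 * M, by linarith, ?_⟩
  intro m S al g₀ P θ P₂ θ₂ Eb e₂ c Pt rt h K₀ g L T Sl κ G S₀ N A V N' V' K ε q t R hK hε hrm hκ
    k hk hA hV η del hη hdel hC hdrop hSK hε1 K₁ hK₁
  have hq := R.q0
  have ht0 := R.t0
  have ht1 := R.t1
  have hKq : q ≤ K * q := le_mul_of_one_le_left hq.le hK
  have hεq : 0 ≤ ε * q := mul_nonneg hε hq.le
  have W := R.tg r hr hrm
  have htp : 0 < t := by linarith
  have e1 : t + A k * q = t + q := by rw [hA, one_mul]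
  have e2 : t + V k * q = t := by rw [hV, zero_mul, add_zero]
  obtain ⟨ρ, vs, e, e₀, E, sg, Q, hPD, hE0, -⟩ := (W.pt k hk).1
  rw [e1, e2] at hPD
  have hrat := W.ratN hk
  rw [e1, e2] at hrat
  have hroomA : ∀ j ≤ r, L j (t + q) (t + q) + Eb r + 3 * K * q < 1 := fun j hj =>
    W.room j hj (t + q) (by rw [add_sub_cancel_left, abs_of_pos hq]; exact hKq)
  have hEb := W.Eb0
  have h3K : 3 * q ≤ 3 * K * q := by linarith
  have hX1 : ∀ j ≤ r, L j (t + q) (t + q) < 1 := fun j hj => by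
    have := hroomA j hj
    linarith
  have hLw : ∀ j ≤ r, L j (t + q) t ≤ L j (t + q) (t + q) := fun j hj =>
    (R.lawL j (by omega)).mono_w (t + q) t (t + q) htp.le (by linarith) le_rfl (by linarith)
  have hlow : t + q ≤ L r (t + q) (t + q) := R.low_at hrm (by linarith) le_rfl (by linarith)
  have heθ : e₂ r < θ₂ r * t := W.eθ t (by rw [sub_self, abs_zero]; positivity)
  have hEe : Eb r + 3 * q < e₂ r := by
    have := W.Ebe
    linarith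
  have hinj : Set.InjOn c (Set.Iio (r + 1)) := R.inj.mono fun x hx => by
    rw [Set.mem_Iio] at hx ⊢
    omega
  have hinj' : Set.InjOn c (Set.Iio r) := hinj.mono fun x hx => by
    rw [Set.mem_Iio] at hx ⊢
    omega
  obtain ⟨K₂, dT, dN, hK₂, -, hdN, hth, -⟩ := hthin R.thr R.th0 R.tmh hinj (R.lawL r hrm) hPD 0
    η η hη hη
  -- the events
  obtain ⟨κ', hκ'⟩ : ∃ κ' : ℝ, κ' = 1 / (K₁ * K₂) := ⟨_, rfl⟩
  have hκ'0 : 0 < κ' := by rw [hκ']; positivity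
  obtain ⟨κ₀, hκ₀⟩ : ∃ κ₀ : ℝ, κ₀ = κ' / (4 * 4 ^ r) := ⟨_, rfl⟩
  have hκ₀0 : 0 < κ₀ := by rw [hκ₀]; positivity
  have hκκ : κ₀ * (4 * 4 ^ r) ≤ κ' := by
    rw [hκ₀, div_mul_cancel₀ _ (by positivity)]
  have hδq : 0 < η + ε * q := by linarith
  refine ⟨κ₀, hκ₀0, ?_⟩
  have hgn : 0 < L r (t + q) (t + q) - 2 * M * (η + ε * q) - L r (t + q) t := by
    have := hC
    linarith
  obtain ⟨δ, hδ, hno⟩ := rat_no W.thr₂ W.th₂0 (c := c) (i := r) (max D₂ D') 0 htp.le (by linarith)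
    (by linarith) heθ (lt_of_le_of_lt (hLw r le_rfl) (hX1 r le_rfl)) hrat hgn
  obtain ⟨Kc, hKc⟩ : ∃ Kc : ℝ, Kc = K₁ * K₂ * (2 * 4 ^ r) := ⟨_, rfl⟩
  have hKc0 : 0 < Kc := by rw [hKc]; positivity
  -- large `J`
  obtain ⟨J₁, hJ₁⟩ := exists_nat_ge (M / η)
  obtain ⟨J₂, hJ₂⟩ := exists_nat_ge (Real.log Kc / δ)
  refine Bas.mono (J₁ + J₂ + 1) (hno.and (bas_ev hth (κ := 1 / K₁) (by positivity))) ?_
  rintro J hJ F A' ⟨hnoA, hthA⟩ ⟨B₀, B, e', h', x, g', G', H', Ht, a1, b1, a2, b2, b4, b5, b6,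
    b7⟩
  obtain ⟨B₂, c1, c2, -, T', TH, c3⟩ := hthA B a1 (by
    rw [one_div, inv_mul_le_iff₀ hK₁]
    exact a2)
  have hJ0 : (0 : ℝ) ≤ J := Nat.cast_nonneg J
  have j1 : M ≤ η * J := by
    have e3 : (J₁ : ℝ) ≤ J := by exact_mod_cast (by omega : J₁ ≤ J)
    have e4 := hJ₁.trans e3
    rw [div_le_iff₀ hη] at e4
    linarith
  have j2 : Real.log Kc ≤ δ * J := by
    have e3 : (J₂ : ℝ) ≤ J := by exact_mod_cast (by omega : J₂ ≤ J)
    have e4 := hJ₂.trans e3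
    rw [div_le_iff₀ hδ] at e4
    linarith
  have hp := Pe_nonneg F.isLaw
  -- the precisions of the thin chain
  obtain ⟨gT, hgT⟩ : ∃ gT : ℕ → ℕ, gT = fun l =>
    ⌊(lvN P c r (L r) l (t + q) t - dN l) * J⌋₊ := ⟨_, rfl⟩
  rw [← hgT] at c3
  have hgTl : ∀ l ≤ r, gT l = ⌊(L l (t + q) t - dN l) * J⌋₊ := fun l hl => by
    rw [hgT, R.lv_at hrm hl]
  have hgTJ : ∀ l ≤ r, gT l ≤ J := fun l hl => by
    rw [hgTl l hl]
    refine floor_le ?_ J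
    have e3 := hLw l hl
    have e4 := hX1 l hl
    have e5 := (hdN l hl).1
    linarith
  obtain ⟨v, hv⟩ : ∃ v : ℕ, v = ⌈(η + 2 * (ε * q)) * J⌉₊ + 1 := ⟨_, rfl⟩
  have hv1 : (η + 2 * (ε * q)) * J + 1 ≤ v := by
    rw [hv]
    push_cast
    linarith [Nat.le_ceil ((η + 2 * (ε * q)) * (J : ℝ))]
  have hv2 : (v : ℝ) ≤ (η + 2 * (ε * q)) * J + 2 := by
    rw [hv]
    push_cast
    linarith [Nat.ceil_lt_add_one (show 0 ≤ (η + 2 * (ε * q)) * (J : ℝ) by positivity)]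
  have hgv : ∀ l < r, g' l ≤ gT l + v := by
    intro l hl
    have e3 := (b6 l hl.le).2
    have e4 := lv_pair R hK (by omega : l < m) (hκ l hl) (hX1 l hl.le)
    have e5 := (hdN l hl.le).2.1
    have e6 := Nat.lt_floor_add_one ((L l (t + q) t - dN l) * (J : ℝ))
    rw [← hgTl l hl.le] at e6
    have e7 : (g' l : ℝ) ≤ gT l + v := by
      have e8 : L l (t + q) (t + q) * J ≤ (L l (t + q) t + ε * q) * J :=
        mul_le_mul_of_nonneg_right e4 hJ0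
      have e9 : (L l (t + q) t - η) * J ≤ (L l (t + q) t - dN l) * J :=
        mul_le_mul_of_nonneg_right (by linarith) hJ0
      have e10 : 0 ≤ ε * q * J := mul_nonneg hεq hJ0
      linarith
    exact_mod_cast e7
  -- the thin chain against the ball
  have hwa : ⌊t * (J : ℝ)⌋₊ ≤ ⌊(t + q) * (J : ℝ)⌋₊ :=
    Nat.floor_le_floor (mul_le_mul_of_nonneg_right (by linarith) hJ0)
  have haJ : ⌊(t + q) * (J : ℝ)⌋₊ ≤ J := floor_le (by linarith) J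
  have hcT : ChOK F c (r + 1) (fun _ => D₂) ⌊(t + q) * (J : ℝ)⌋₊ ⌊t * (J : ℝ)⌋₊
      ⌊(E 0 + η) * (J : ℝ)⌋₊ gT B₂ T' TH :=
    c3.mono le_rfl (fun _ => hD1D) le_rfl le_rfl
  have hball : ChOK F c (r + 1) (fun _ => D₂) ⌊(t + q) * (J : ℝ)⌋₊ ⌊(t + q) * (J : ℝ)⌋₊ e' g'
      B₂ G' H' := (b7.ball.mono le_rfl (fun _ => hDD) le_rfl le_rfl).sub c1
  have hB₀ : κ' * Pe F.p B₀ ≤ Pe F.p B₂ := by
    rw [hκ', one_div, inv_mul_le_iff₀ (by positivity)]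
    calc Pe F.p B₀ ≤ K₁ * Pe F.p B := b2
      _ ≤ K₁ * (K₂ * Pe F.p B₂) := mul_le_mul_of_nonneg_left c2 hK₁.le
      _ = _ := by ring
  obtain ⟨B₃, d1, d2, d3⟩ := hbal hinj' hwa haJ b7.relb (fun ω hω => b1 ω (c1 ω hω)) hB₀
    hκ₀0.le hκκ hcT hball
  obtain ⟨hh, hhd⟩ : ∃ hh : ℕ, hh = C₁ * (h' + 1) + v := ⟨_, rfl⟩
  obtain ⟨u, hu⟩ : ∃ u : ℕ, u = C₂ * (hh + v + 1) := ⟨_, rfl⟩
  have hincl : ∀ ω, B₃ ω → ∀ b, NBx c (T' (ptr F J ω)) gT ⌊(t + q) * (J : ℝ)⌋₊ (F.t ω) r b →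
      ∀ j < r, |b (some (c j)) - eval b (G' (ptr F J ω) j)| ≤ 2 ^ u / 2 ^ g' j := by
    intro ω hω b hb j hj
    rw [hu]
    refine hinc hinj' (hcT.degG _) (hball.degG _) (hcT.depG _) (hball.depG _) hgv
      (fun l hl b hb => ?_) r le_rfl b hb j hj
    refine (d3 ω hω l hl.le b hb).trans ?_
    rw [div_le_div_iff₀ (by positivity) (by positivity), ← pow_add, ← pow_add]
    refine pow_le_pow_right₀ (by norm_num) ?_
    have e3 := hgv l hl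
    rw [hhd]
    omega
  -- the numbers
  have hh1 : (hh : ℝ) ≤ C₁ * (η * J + 1) + ((η + 2 * (ε * q)) * J + 2) := by
    rw [hhd]
    push_cast
    have := mul_le_mul_of_nonneg_left (add_le_add_left b4 1) (Nat.cast_nonneg (α := ℝ) C₁)
    linarith
  obtain ⟨Z, hZ⟩ : ∃ Z : ℝ, Z = (η + ε * q) * J := ⟨_, rfl⟩
  have hZ1 : 1 ≤ Z := by
    rw [hZ, add_mul]
    have := mul_nonneg hεq hJ0
    linarith
  have hηZ : η * J ≤ Z := by
    rw [hZ]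
    exact mul_le_mul_of_nonneg_right (by linarith) hJ0
  have hvZ : (v : ℝ) ≤ 2 * Z + 2 := by
    refine hv2.trans ?_
    have e3 : (η + 2 * (ε * q)) * J ≤ 2 * ((η + ε * q) * J) := by
      have e4 : 0 ≤ η * J := by positivity
      linarith
    rw [hZ]
    linarith
  have hC₁0 : (0 : ℝ) ≤ C₁ := Nat.cast_nonneg C₁
  have hC₂0 : (0 : ℝ) ≤ C₂ := Nat.cast_nonneg C₂
  have hC₃0 : (0 : ℝ) ≤ C₃ := Nat.cast_nonneg C₃
  have hhZ : (hh : ℝ) ≤ (2 * C₁ + 4) * Z := by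
    have e3 : (C₁ : ℝ) * (η * J + 1) ≤ C₁ * (Z + Z) :=
      mul_le_mul_of_nonneg_left (add_le_add hηZ hZ1) hC₁0
    have e4 : (η + 2 * (ε * q)) * J ≤ 2 * Z := by
      rw [hZ]
      have e5 : 0 ≤ η * J := by positivity
      linarith
    linarith
  have huZ : (u : ℝ) ≤ C₂ * (2 * C₁ + 9) * Z := by
    rw [hu]
    push_cast
    rw [mul_assoc]
    refine mul_le_mul_of_nonneg_left ?_ hC₂0
    have e3 : (2 * (C₁ : ℝ) + 9) * Z = (2 * C₁ + 4) * Z + 5 * Z := by ring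
    rw [e3]
    linarith
  obtain ⟨d, hd⟩ : ∃ d : ℕ, d = C₃ * (u + x + 1) := ⟨_, rfl⟩
  have hdZ : (d : ℝ) ≤ (M - 6) * Z := by
    rw [hd, hM]
    push_cast
    have e3 : (C₃ : ℝ) * (u + x + 1) ≤ C₃ * ((C₂ * (2 * C₁ + 9) + 2 * C₁ + 2) * Z) := by
      refine mul_le_mul_of_nonneg_left ?_ hC₃0
      have e4 : (C₂ * (2 * (C₁ : ℝ) + 9) + 2 * C₁ + 2) * Z =
          C₂ * (2 * C₁ + 9) * Z + 2 * C₁ * Z + 2 * Z := by ring
      have e5 : 0 ≤ 2 * (C₁ : ℝ) * Z := by positivity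
      rw [e4]
      linarith
    refine e3.trans (le_of_eq ?_)
    ring
  have hdZ' : ((C₃ * (u + C₁ * (h' + 1) + 1) : ℕ) : ℝ) ≤ (M - 6) * Z := by
    rw [hM]
    push_cast
    have e3 : (C₃ : ℝ) * (u + C₁ * (h' + 1) + 1) ≤
        C₃ * ((C₂ * (2 * C₁ + 9) + 2 * C₁ + 2) * Z) := by
      refine mul_le_mul_of_nonneg_left ?_ hC₃0
      have e4 : (C₂ * (2 * (C₁ : ℝ) + 9) + 2 * C₁ + 2) * Z =
          C₂ * (2 * C₁ + 9) * Z + C₁ * (Z + Z) + 2 * Z := by ring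
      have e5 : (C₁ : ℝ) * (h' + 1) ≤ C₁ * (Z + Z) :=
        mul_le_mul_of_nonneg_left (by linarith) hC₁0
      rw [e4]
      linarith
    refine e3.trans (le_of_eq ?_)
    ring
  have hMZ : 2 * M * Z ≤ q * J := by
    rw [hZ]
    have e3 : 2 * M * (η + ε * q) ≤ q := hC.trans (mul_le_of_le_one_left hq.le hdel)
    have e4 := mul_le_mul_of_nonneg_right e3 hJ0
    linarith
  have hMZ6 : 6 * Z ≤ M * Z := mul_le_mul_of_nonneg_right hM0 (by linarith)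
  obtain ⟨hgr1, hgr2⟩ := b6 r le_rfl
  have hgr0 : q * J ≤ g' r + Z := by
    have e3 : (t + q - η) * J ≤ (L r (t + q) (t + q) - η) * J :=
      mul_le_mul_of_nonneg_right (by linarith) hJ0
    have e4 : 0 ≤ t * J := by positivity
    linarith
  have hdg : d ≤ g' r := by
    have e3 : (d : ℝ) ≤ g' r := by linarith
    exact_mod_cast e3
  obtain ⟨p, hp'⟩ : ∃ p : ℕ, p = g' r - d := ⟨_, rfl⟩
  have hpr : (p : ℝ) = g' r - d := by rw [hp', Nat.cast_sub hdg]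
  have hgTg : gT r ≤ g' r := by
    have e3 : (gT r : ℝ) ≤ (L r (t + q) t - dN r) * J := by
      rw [hgTl r le_rfl]
      refine Nat.floor_le (mul_nonneg ?_ hJ0)
      have e4 := (hdN r le_rfl).2.1
      have e5 : t + q ≤ L r (t + q) t := R.low_at hrm htp.le (by linarith) (by linarith)
      have e6 : 2 * M * η ≤ 2 * M * (η + ε * q) := mul_le_mul_of_nonneg_left (by linarith)
        (by linarith)
      have e7 : 2 * M * (η + ε * q) ≤ q := hC.trans (mul_le_of_le_one_left hq.le hdel)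
      have e8 : 6 * η ≤ M * η := mul_le_mul_of_nonneg_right hM0 hη.le
      linarith
    have e4 : (L r (t + q) t - dN r) * J ≤ (L r (t + q) (t + q) - η) * J := by
      refine mul_le_mul_of_nonneg_right ?_ hJ0
      have e5 := (hdN r le_rfl).1
      have e6 : η ≤ 2 * M * (η + ε * q) := by
        have e7 : 1 * (η + ε * q) ≤ 2 * M * (η + ε * q) :=
          mul_le_mul_of_nonneg_right (by linarith) hδq.le
        linarith
      linarith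
    have e5 : (gT r : ℝ) ≤ g' r := e3.trans (e4.trans hgr1)
    exact_mod_cast e5
  have hpT : ((p - gT r : ℕ) : ℝ) ≤ (Sl r + 1) * q * J + η * J + 1 := by
    have e3 : ((p - gT r : ℕ) : ℝ) ≤ (L r (t + q) (t + q) - (L r (t + q) t - η)) * J + 1 := by
      have e4 : (gT r : ℝ) + 1 ≥ (L r (t + q) t - η) * J := by
        have e5 := Nat.lt_floor_add_one ((L r (t + q) t - dN r) * (J : ℝ))
        rw [← hgTl r le_rfl] at e5
        have e6 : (L r (t + q) t - η) * J ≤ (L r (t + q) t - dN r) * J :=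
          mul_le_mul_of_nonneg_right (by linarith [(hdN r le_rfl).2.1]) hJ0
        linarith
      rcases Nat.lt_or_ge (gT r) p with e5 | e5
      · rw [Nat.cast_sub e5.le]
        have e6 : (p : ℝ) ≤ L r (t + q) (t + q) * J := by
          rw [hpr]
          have : (0 : ℝ) ≤ d := Nat.cast_nonneg d
          linarith
        linarith
      · rw [Nat.sub_eq_zero_of_le e5, Nat.cast_zero]
        have e6 : 0 ≤ (L r (t + q) (t + q) - (L r (t + q) t - η)) * J :=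
          mul_nonneg (by linarith [hLw r le_rfl]) hJ0
        linarith
    have e4 : L r t t ≤ L r (t + q) t :=
      (R.lawL r hrm).mono_a t (t + q) t htp.le le_rfl (by linarith) (by linarith)
    have e5 := (abs_le.1 (R.dL r hrm (t + q) (by
      rw [add_sub_cancel_left, abs_of_pos hq]
      exact hKq))).2
    have e6 : ε * q ≤ 1 * q := mul_le_mul_of_nonneg_right hε1 hq.le
    have e7 : t + q - t = q := by ring
    rw [e7] at e5
    have e8 : (L r (t + q) (t + q) - (L r (t + q) t - η)) * J ≤ ((Sl r + 1) * q + η) * J :=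
      mul_le_mul_of_nonneg_right (by linarith) hJ0
    linarith
  have hee : ⌊(E 0 + η) * (J : ℝ)⌋₊ + C₃ * (u + C₁ * (h' + 1) + 1) + (p - gT r) ≤
      ⌊e₂ r * (J : ℝ)⌋₊ := by
    refine Nat.le_floor ?_
    have e3 : (⌊(E 0 + η) * (J : ℝ)⌋₊ : ℝ) ≤ (Eb r + η) * J := by
      have e9 : ⌊(E 0 + η) * (J : ℝ)⌋₊ ≤ ⌊(Eb r + η) * (J : ℝ)⌋₊ :=
        Nat.floor_le_floor (mul_le_mul_of_nonneg_right (by linarith) hJ0)
      have e10 : ((⌊(E 0 + η) * (J : ℝ)⌋₊ : ℕ) : ℝ) ≤ (⌊(Eb r + η) * (J : ℝ)⌋₊ : ℕ) := by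
        exact_mod_cast e9
      exact e10.trans (Nat.floor_le (mul_nonneg (by linarith) hJ0))
    have e4 : (Eb r + 3 * K * q) * J ≤ e₂ r * J := mul_le_mul_of_nonneg_right W.Ebe.le hJ0
    have e6 : (Sl r + 2) * q * J ≤ K * q * J :=
      mul_le_mul_of_nonneg_right (mul_le_mul_of_nonneg_right hSK hq.le) hJ0
    have e7 : q * J ≤ K * q * J := mul_le_mul_of_nonneg_right hKq hJ0
    have e8 : 0 ≤ q * J := by positivity
    push_cast at hdZ' ⊢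
    linarith
  have hET : ⌊(E 0 + η) * (J : ℝ)⌋₊ ≤ ⌊e₂ r * (J : ℝ)⌋₊ := by
    refine Nat.floor_le_floor (mul_le_mul_of_nonneg_right ?_ hJ0)
    have e3 : 2 * M * η ≤ 2 * M * (η + ε * q) := mul_le_mul_of_nonneg_left (by linarith)
      (by linarith)
    have e4 : 2 * M * (η + ε * q) ≤ q := hC.trans (mul_le_of_le_one_left hq.le hdel)
    have e5 : 6 * η ≤ M * η := mul_le_mul_of_nonneg_right hM0 hη.le
    linarith
  have hnear : ∀ ω, B₃ ω → ∀ b, NBx c (G' (ptr F J ω)) g' ⌊(t + q) * (J : ℝ)⌋₊ (F.t ω) r b →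
      |eval b (G' (ptr F J ω) r) - eval b (Ht (slam F ⌊t * (J : ℝ)⌋₊ ω))| ≤
        2 ^ x / 2 ^ g' r := fun ω hω => b7.near ω (c1 ω (d1 ω hω))
  have hL : Lab F c r (max D₂ D') ⌊(t + q) * (J : ℝ)⌋₊ ⌊t * (J : ℝ)⌋₊ ⌊e₂ r * (J : ℝ)⌋₊ p gT T'
      B₃ (fun y => G' y r) Ht :=
    hlab hinj' (hball.sub d1) (hcT.sub d1) b7.degH b7.depH hincl (fun ω hω b hb => by
      have e3 := d3 ω hω r le_rfl b hb
      rwa [min_eq_left hgTg] at e3) hnear hgv (by omega) hee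
  refine hnoA ⌊(t + q) * (J : ℝ)⌋₊ ⌊t * (J : ℝ)⌋₊ ⌊e₂ r * (J : ℝ)⌋₊ p (fun _ => D₂) gT T' TH
    (fun y => G' y r) Ht hwa le_rfl le_rfl le_rfl (fun _ => le_max_left _ _)
    (fun l hl => hgTJ l hl.le) ?_ ?_ B₃ (fun ω hω => a1 ω (c1 ω (d1 ω hω))) ?_
    ((hcT.sub d1).mono (Nat.le_succ r) (fun _ => le_rfl) le_rfl hET) hL
  · have e3 : (p : ℝ) ≤ J := by
      rw [hpr]
      have e4 : (0 : ℝ) ≤ d := Nat.cast_nonneg d
      have e5 : L r (t + q) (t + q) * J ≤ 1 * J :=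
        mul_le_mul_of_nonneg_right (hX1 r le_rfl).le hJ0
      linarith
    exact_mod_cast e3
  · rw [hpr]
    have e3 : (L r (t + q) t + (L r (t + q) (t + q) - 2 * M * (η + ε * q) - L r (t + q) t)) * J =
        L r (t + q) (t + q) * J - 2 * M * Z := by
      rw [hZ]
      ring
    rw [e3]
    linarith
  · have e3 : Pe F.p A' ≤ Kc * Pe F.p B₃ := by
      calc Pe F.p A' ≤ K₁ * Pe F.p B := a2
        _ ≤ K₁ * (K₂ * Pe F.p B₂) := mul_le_mul_of_nonneg_left c2 hK₁.le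
        _ ≤ K₁ * (K₂ * (2 * 4 ^ r * Pe F.p B₃)) :=
            mul_le_mul_of_nonneg_left (mul_le_mul_of_nonneg_left d2 hK₂.le) hK₁.le
        _ = _ := by rw [hKc]; ring
    have e4 : Real.exp (-(δ * J)) * Kc ≤ 1 := by
      have e5 : Kc ≤ Real.exp (δ * J) := (Real.log_le_iff_le_exp hKc0).1 j2
      calc Real.exp (-(δ * J)) * Kc ≤ Real.exp (-(δ * J)) * Real.exp (δ * J) :=
            mul_le_mul_of_nonneg_left e5 (Real.exp_pos _).le
        _ = 1 := by rw [← Real.exp_add, neg_add_cancel, Real.exp_zero]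
    calc Real.exp (-(δ * J)) * Pe F.p A' ≤ Real.exp (-(δ * J)) * (Kc * Pe F.p B₃) :=
          mul_le_mul_of_nonneg_left e3 (Real.exp_pos _).le
      _ = (Real.exp (-(δ * J)) * Kc) * Pe F.p B₃ := by ring
      _ ≤ 1 * Pe F.p B₃ := mul_le_mul_of_nonneg_right e4 (hp _)
      _ = _ := one_mul _

end Pool.CRC82
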