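import Pool.Agent.H82.CRC.Cmm
import Pool.Agent.H82.CRC.Crg
import Pool.Agent.H82.CRC.Crl
import Pool.Agent.H78.CNC.Brg
import Pool.Agent.H76.CNC.Jet

/-!
# The end of the two cases of the conic theorem, on one event

`brg_fin`: a polynomial closed at `t` near the chart of `u` at `t + q`: the labels `BLab` excluded by
the drop. `inv_evt`: such a polynomial, when the second derivatives are invisible.
-/

set_option autoImplicit false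

namespace Pool.CRC82

open Finset Real MvPolynomial
open Pool.Agent.H49.Ent Pool.Agent.H32.Dense Pool.STK Pool.KA Pool.KSAT Pool.K2S Pool.PB Pool.S6C
open Pool.GEN Pool.CHT Pool.CHX Pool.ISO Pool.D2R Pool.D2G30 Pool.V1E Pool.PKG
open Pool.LBT (ThrOf)
open Pool.LEV (Law)
open Pool.CUB46 (h3)
open Pool.CR99
open Pool.AFF82
open Pool.CNC76 Pool.CNC28 Pool.CNC60 Pool.CNC78

/-- **A polynomial closed at `t`** near the chart of `u` at `t + q` gives `BLab`. -/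
theorem brg_fin {m : ℕ} {S : PCl m} {al : ℝ}
    {g₀ : ℝ → ℝ} {P : List (Fin m) × Fin m → ℝ → ℝ → ℝ} {θ : ℝ}
    {P₂ : ℕ → List (Fin m) × Fin m → ℝ → ℝ → ℝ} {θ₂ Eb e₂ : ℕ → ℝ} {c : ℕ → Fin m}
    {Pt : ℝ → ℝ → ℝ} {rr : ℝ → ℝ} {h K₀ g : ℝ} {L T' : ℕ → ℝ → ℝ → ℝ} {Sl : ℕ → ℝ}
    {κ' : ℕ → Kg} {G' : Set ℝ} {S₀ N : ℕ} {A' V' : ℕ → ℝ} {S₂ N' : ℕ} {V'' : ℕ → ℝ}
    {K ε q t : ℝ}
    (Rc : RecG S al g₀ P θ P₂ θ₂ Eb e₂ c Pt rr h K₀ g L T' Sl κ' G' S₀ N A' V' S₂ N' V'' K ε q t)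
    (hm : 3 < m) {D Dr DB A p J : ℕ} {R : ℕ → Prop}
    {Cw a Ebb ε₀ η g₂ : ℝ} {be b : ℕ → ℕ → ℝ}
    {F : Fam m J} {κ κ₁ c' θ' η' T'' s' : ℝ} {z gc gT gg : ℕ → ℕ → ℕ} {B B' : F.Ω → Prop}
    {G : ℕ → PtT F → ℕ → MvPolynomial (Option (Fin m)) ℝ}
    {H : ℕ → LnT F → ℕ → MvPolynomial (Option (Fin m)) ℝ}
    {T : ℕ → PtT F → ℕ → MvPolynomial (Option (Fin m)) ℝ}
    {TH : ℕ → LnT F → ℕ → MvPolynomial (Option (Fin m)) ℝ}
    {Gt : ℕ → PtT F → MvPolynomial (Option (Fin m)) ℝ}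
    {Ht : ℕ → LnT F → MvPolynomial (Option (Fin m)) ℝ}
    {xh : F.Ω → Fin 3 → Polynomial ℝ} {Tu : F.Ω → MvPolynomial (Fin 3) ℝ} {y y' gx a' x hb Q : ℕ}
    (hp1 : 1 ≤ p) (hη : 0 ≤ η)
    (W : WG c 3 D Dr 1 ((A + 1) * p + 6) R Cw a Ebb ε₀ (η * q) (L 3)
      (fun k => t + Wn A p g₂ k * q)
      (fun k l => lvN P c 3 (L 3) l (t + Wn A p g₂ k * q) (t + Wn A p g₂ k * q)) be F b
      κ z B gc gT gg G H T TH Gt Ht)
    (Ev : EvC F c D DB A p g₂ t q gg B B' G H xh Tu a' x y y' gx hb Q θ' κ₁ η' c' T'' s')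
    {B₃ A₀ : F.Ω → Prop} {Hp : F.Ω → MvPolynomial (Fin 3) ℝ} {Dr₁ D'' x₂ : ℕ} {κ₀ δ K₂ : ℝ}
    (hDr : Dr₁ ≤ Dr) (hκ : κ ≤ κ₀) (hBA : Sub B A₀) (hB₃ : Sub B₃ B')
    (hPA : Pe F.p A₀ ≤ K₂ * Pe F.p B₃) (hPB : Pe F.p B ≤ K₂ * Pe F.p B₃) (hηδ : η * q ≤ δ)
    (hx₂ : (x₂ : ℝ) ≤ δ * J)
    (hHc : ∀ ω ω', B₃ ω → B₃ ω' → slam F (cw A p g₂ t q J (A * p + 1)) ω =
          slam F (cw A p g₂ t q J (A * p + 1)) ω' → Hp ω = Hp ω')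
    (hHd : ∀ ω, B₃ ω → (Hp ω).totalDegree ≤ D'')
    (hHn : ∀ ω, B₃ ω → ∀ b : Fin 3 → ℝ,
          (∀ i, |b i - aC F c (cw A p g₂ t q J) (gg (ixn A p 0)) (G 2)
            (fun k => G (ixn A p k)) ((A + 1) * p + 1) ω i| ≤
            rk a' (cw A p g₂ t q J) ((A + 1) * p + 1)) →
          |eval b (Hp ω) - eval b (UU F c (fun k => G (ixn A p (k + 1)))
            (afr F c (cw A p g₂ t q J) (G 2) (fun k => G (ixn A p k)))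
            (cw A p g₂ t q J 0) (gg (ixn A p 0) 0) (gg (ixn A p 0) 1) ((A + 1) * p) ω)| ≤
            2 ^ x₂ / 2 ^ gg (ixn A p ((A + 1) * p + 1)) 2) :
    ∃ (B₀ B : F.Ω → Prop) (e h x : ℕ) (g : ℕ → ℕ)
        (G : PtT F → ℕ → MvPolynomial (Option (Fin m)) ℝ)
        (H : LnT F → ℕ → MvPolynomial (Option (Fin m)) ℝ)
        (Ht : LnT F → MvPolynomial (Option (Fin m)) ℝ), Sub B A₀ ∧ Sub B B₀ ∧
        Pe F.p A₀ ≤ K₂ * Pe F.p B ∧ Pe F.p B₀ ≤ K₂ * Pe F.p B ∧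
        (h : ℝ) ≤ δ * J ∧ (x : ℝ) ≤ δ * J ∧
        (∀ l ≤ 2, (L l (t + q) (t + q) - δ) * J ≤ g l ∧ (g l : ℝ) ≤ L l (t + q) (t + q) * J) ∧
        BLab F c 2 D Dr₁ D'' ⌊(t + q) * J⌋₊ ⌊t * J⌋₊ e h x g κ₀ B₀ B G H Ht := by
  have hq := Rc.q0
  have hJ0 : (0 : ℝ) ≤ J := Nat.cast_nonneg J
  have hinj : Set.InjOn c (Set.Iio 4) := Rc.inj.mono fun i hi => by
    have h1 : i < 4 := hi
    show i < m
    omega
  have hix2 : ixn A p (A * p + 1) = 0 := by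
    rw [ixn_succ (by rw [Nat.add_mul]; omega), cixn_t]
  have hix3 : ixn A p ((A + 1) * p + 1) = 1 := by
    rw [ixn_succ le_rfl, cixn_n hp1]
  obtain ⟨e, h', Hq, e1, e2, e3, e4⟩ := brg_evt W hinj (by positivity) Ev.sub Ev.afd
    (fun k hk ω hω => Ev.afb ω hω k hk) (kn := (A + 1) * p + 1) (kt := A * p + 1) (by omega)
    (by rw [Nat.add_mul]; omega) (ixn_le (by omega)) hB₃ hHc hHd (x₂ := x₂) (fun ω hω z' hz => by
      rw [abs_sub_comm]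
      exact hHn ω hω z' hz)
  have ho3 : t + Wn A p g₂ (ixn A p ((A + 1) * p + 1)) * q = t + q := by
    rw [hix3]
    show t + 1 * q = t + q
    rw [one_mul]
  have ho2 : t + Wn A p g₂ (ixn A p (A * p + 1)) * q = t := by
    rw [hix2]
    show t + 0 * q = t
    rw [zero_mul, add_zero]
  rw [ho3, ho2] at e4
  rw [ho3] at e3
  have hlv : ∀ l ≤ 2, lvN P c 3 (L 3) l (t + q) (t + q) = L l (t + q) (t + q) :=
    fun l hl => by rw [← Rc.lv_at hm (by omega)]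
  refine ⟨B, B₃, e, h', x₂, _, _, _, Hq, fun ω hω => hBA ω (Ev.sub ω (hB₃ ω hω)),
    fun ω hω => Ev.sub ω (hB₃ ω hω), hPA, hPB, e2.trans (mul_le_mul_of_nonneg_right hηδ hJ0), hx₂,
    fun l hl => ?_, ⟨e4.ball, e4.relb.mono hDr hκ, e4.degH, e4.depH, e4.near⟩⟩
  obtain ⟨h1, h2⟩ := e3 l hl
  rw [hlv l hl] at h1 h2
  refine ⟨le_trans ?_ h1, h2⟩
  exact mul_le_mul_of_nonneg_right (by linarith) hJ0

/-- **The invisible case**, event level. -/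
theorem inv_evt (D : ℕ) (hD : 1 ≤ D) : ∃ Cj : ℕ, ∀ {m : ℕ}
    {c : ℕ → Fin m} {Dr DB A p J : ℕ} {R : ℕ → Prop}
    {Cw a Ebb ε₀ η g₂ t q : ℝ} {Pt : ℝ → ℝ → ℝ} {lv be b : ℕ → ℕ → ℝ}
    {F : Fam m J} {κ κ₁ c' θ' η' T'' s' : ℝ} {z gc gT gg : ℕ → ℕ → ℕ} {B B' B'' : F.Ω → Prop}
    {G : ℕ → PtT F → ℕ → MvPolynomial (Option (Fin m)) ℝ}
    {H : ℕ → LnT F → ℕ → MvPolynomial (Option (Fin m)) ℝ}
    {T : ℕ → PtT F → ℕ → MvPolynomial (Option (Fin m)) ℝ}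
    {TH : ℕ → LnT F → ℕ → MvPolynomial (Option (Fin m)) ℝ}
    {Gt : ℕ → PtT F → MvPolynomial (Option (Fin m)) ℝ}
    {Ht : ℕ → LnT F → MvPolynomial (Option (Fin m)) ℝ}
    {xh : F.Ω → Fin 3 → Polynomial ℝ} {Tu : F.Ω → MvPolynomial (Fin 3) ℝ}
    {y y' gx a' x hb Q m₀ z' : ℕ}
    (_ : WG c 3 D Dr 1 ((A + 1) * p + 6) R Cw a Ebb ε₀ (η * q) Pt
      (fun k => t + Wn A p g₂ k * q) lv be F b κ z B gc gT gg G H T TH Gt Ht)
    (_ : EvC F c D DB A p g₂ t q gg B B' G H xh Tu a' x y y' gx hb Q θ' κ₁ η' c' T'' s')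
    (_ : D * D ≤ DB) (_ : 16 * κ₁ ≤ 1) (_ : Cj ≤ m₀) (_ : hb ≤ m₀) (_ : 1 ≤ T'')
    (_ : T'' ≤ 2 ^ m₀) (_ : 0 < s') (_ : s' ≤ 2 ^ m₀)
    (_ : ∀ ω, B'' ω → B' ω) (_ : Pe F.p B' ≤ 8 * Pe F.p B'')
    (_ : ∀ ω, B'' ω → ∀ b : Fin 3 → ℝ,
      Cu (aC F c (cw A p g₂ t q J) (gg (ixn A p 0)) (G 2)
        (fun k => G (ixn A p k)) ((A + 1) * p + 1) ω)
        (rk a' (cw A p g₂ t q J) ((A + 1) * p + 1)) b → ∀ i j,
        |h3 (UU F c (fun k => G (ixn A p (k + 1)))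
          (afr F c (cw A p g₂ t q J) (G 2) (fun k => G (ixn A p k)))
          (cw A p g₂ t q J 0) (gg (ixn A p 0) 0) (gg (ixn A p 0) 1) ((A + 1) * p) ω) b i j| ≤
          2 ^ z' / 2 ^ gg (ixn A p ((A + 1) * p + 1)) 2 /
            rk a' (cw A p g₂ t q J) ((A + 1) * p + 1) ^ 2),
    ∃ B₃ : F.Ω → Prop, Sub B₃ B'' ∧ Pe F.p B'' ≤ 2 * Pe F.p B₃ ∧
      ∃ Hp : F.Ω → MvPolynomial (Fin 3) ℝ,
        (∀ ω ω', B₃ ω → B₃ ω' → slam F (cw A p g₂ t q J (A * p + 1)) ω =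
          slam F (cw A p g₂ t q J (A * p + 1)) ω' → Hp ω = Hp ω') ∧
        (∀ ω, B₃ ω → (Hp ω).totalDegree ≤ D * D * (D * D) + D * D) ∧
        ∀ ω, B₃ ω → ∀ b : Fin 3 → ℝ,
          (∀ i, |b i - aC F c (cw A p g₂ t q J) (gg (ixn A p 0)) (G 2)
            (fun k => G (ixn A p k)) ((A + 1) * p + 1) ω i| ≤
            rk a' (cw A p g₂ t q J) ((A + 1) * p + 1)) →
          |eval b (Hp ω) - eval b (UU F c (fun k => G (ixn A p (k + 1)))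
            (afr F c (cw A p g₂ t q J) (G 2) (fun k => G (ixn A p k)))
            (cw A p g₂ t q J 0) (gg (ixn A p 0) 0) (gg (ixn A p 0) 1) ((A + 1) * p) ω)| ≤
            2 ^ (z' + (D * D + 4) * m₀) / 2 ^ gg (ixn A p ((A + 1) * p + 1)) 2 := by
  obtain ⟨Cj, hjet⟩ := jet_ev (D * D) (Nat.mul_pos hD hD)
  refine ⟨Cj, ?_⟩
  intro m c Dr DB A p J R Cw a Ebb ε₀ η g₂ t q Pt lv be b F κ κ₁ c' θ' η' T'' s' z gc gT gg B B' B''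
    G H T TH Gt Ht xh Tu y y' gx a' x hb Q m₀ z' W Ev hDB hκ₁ hCj hhb hT1 hTm hs0 hsm hB'' hPB''
    hh
  have hn : (A + 1) * p + 1 ≤ (A + 1) * p + 6 := by omega
  have ev := W.wb.ev (ixn A p ((A + 1) * p + 1)) (ixn_le (by omega))
  have hBll := Bll.subk (Ev.bll ((A + 1) * p) le_rfl) hB'' (by norm_num : (0 : ℝ) < 8) hPB''
  have hGc : Clo B'' (ptr F J) (slam F (cw A p g₂ t q J ((A + 1) * p + 1)))
      (fun ω => G (ixn A p ((A + 1) * p + 1)) (ptr F J ω) 2) := by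
    refine ⟨fun ω ω' _ _ e => ?_, fun ω ω' h1 h2 e => ?_⟩
    · show G _ (ptr F J ω) 2 = G _ (ptr F J ω') 2
      rw [e]
    · show G _ (ptr F J ω) 2 = G _ (ptr F J ω') 2
      rw [ev.cls ω (Ev.sub ω (hB'' ω h1)) 2 (by norm_num),
        ev.cls ω' (Ev.sub ω' (hB'' ω' h2)) 2 (by norm_num)]
      exact congrArg (fun s => H _ s 2) e
  have hUc : Clo B'' (ptr F J) (slam F (cw A p g₂ t q J ((A + 1) * p + 1)))
      (UU F c (fun k => G (ixn A p (k + 1)))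
          (afr F c (cw A p g₂ t q J) (G 2) (fun k => G (ixn A p k)))
          (cw A p g₂ t q J 0) (gg (ixn A p 0) 0) (gg (ixn A p 0) 1) ((A + 1) * p)) :=
    ((Ev.frm.Nc ((A + 1) * p) le_rfl).sub hB'').map2 hGc fun N Q =>
      pul c N (cw A p g₂ t q J 0) (gg (ixn A p 0) 0) (gg (ixn A p 0) 1) 0 Q
  obtain ⟨B₃, k1, k2, Hp, k3, k4, k5⟩ := hjet (t := 2) (n := 3) (z := z') (m₀ := m₀)
    (ρ := fun j => rk a' (cw A p g₂ t q J) (fc A p j + 1)) hBll hDB (by norm_num) hUc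
    ((Ev.frm.cc ((A + 1) * p) le_rfl).sub hB'') (fun ω hω => by
      have h1 := pul_deg (c := c)
        (N := afr F c (cw A p g₂ t q J) (G 2) (fun k => G (ixn A p k)) ω)
        (o := cw A p g₂ t q J 0) (s0 := gg (ixn A p 0) 0) (s1 := gg (ixn A p 0) 1)
        (U := (0 : MvPolynomial (Fin 3) ℝ)) (K := 1)
        (by rw [totalDegree_zero]; exact Nat.zero_le _) le_rfl (ev.ball.degG (ptr F J ω) 2)
      rw [mul_one] at h1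
      exact h1.trans (Nat.le_mul_of_pos_left D hD))
    (rk_pos _ _ _) (EU := fun j => 1 / 2 ^ gg (ixn A p (fc A p j + 1)) 2) (by
      show (0 : ℝ) < 1 / 2 ^ gg (ixn A p (fc A p 3 + 1)) 2
      positivity) (by linarith)
    (tub_sub Ev.tub hB'') (fun ω hω => Ev.pth ω (hB'' ω hω)) hCj hhb hT1 hTm hs0 hsm
    (fun ω hω i j => by
      have hy := hBll.y1 ω hω
      refine (hh ω hω _ (fun i => ?_) i j).trans (le_of_eq ?_)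
      · have h1 := hy i
        unfold unt at h1
        have hρ := rk_pos a' (cw A p g₂ t q J) ((A + 1) * p + 1)
        rw [abs_div, abs_of_pos hρ, div_le_iff₀ hρ] at h1
        linarith
      · show _ = 2 ^ z' * (1 / 2 ^ gg (ixn A p ((A + 1) * p + 1)) 2) / _
        rw [mul_one_div]
        rfl)
  refine ⟨B₃, k1, k2, Hp, k3, k4, fun ω hω b' hb' => (k5 ω hω b' hb').trans (le_of_eq ?_)⟩
  show 2 ^ (z' + (D * D + 4) * m₀) * (1 / 2 ^ gg (ixn A p ((A + 1) * p + 1)) 2) = _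
  rw [mul_one_div]

end Pool.CRC82
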