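import Pool.Agent.H82.CRC.Cmn
import Pool.Agent.H60.AFF.Arc

/-!
# The two cases of the conic theorem, in a class

`ConE`: the event of `con_set`. `NoLab`: no labels at the drop. `vis_cls`, `inv_cls`.
-/

set_option autoImplicit false

namespace Pool.CRC82

open Finset Real MvPolynomial
open Pool.Agent.H49.Ent Pool.Agent.H32.Dense Pool.STK Pool.KA Pool.KSAT Pool.K2S Pool.PB Pool.S6C
open Pool.GEN Pool.CHT Pool.CHX Pool.ISO Pool.D2R Pool.D2G30 Pool.V1E Pool.PKG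
open Pool.LBT (ThrOf)
open Pool.LEV (Law)
open Pool.CUB46 (h3)
open Pool.CR99
open Pool.AFF82
open Pool.CNC76 Pool.CNC28 Pool.CNC60 Pool.CNC78 Pool.AFF60
open Pool.GRD (LbP)

/-- **The event of the conic theorem**, on a part of every event of a class. -/
def ConE {m : ℕ} (S : PCl m) (c : ℕ → Fin m) (κ : ℕ → Kg) (P : List (Fin m) × Fin m → ℝ → ℝ → ℝ)
    (Pt : ℝ → ℝ → ℝ) (D Dr DB A p c₀ C₁ c₁ Ct : ℕ) (C C₃ a η ε E t q K₁ κ₁ κ' : ℝ)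
    (b : ℕ → ℕ → ℝ) : Prop :=
  Bas S (fun J F B₀ =>
      ∃ (B : F.Ω → Prop) (z gc gT g₀ : ℕ → ℕ → ℕ)
        (G : ℕ → PtT F → ℕ → MvPolynomial (Option (Fin m)) ℝ)
        (H : ℕ → LnT F → ℕ → MvPolynomial (Option (Fin m)) ℝ)
        (T : ℕ → PtT F → ℕ → MvPolynomial (Option (Fin m)) ℝ)
        (TH : ℕ → LnT F → ℕ → MvPolynomial (Option (Fin m)) ℝ)
        (Gt : ℕ → PtT F → MvPolynomial (Option (Fin m)) ℝ)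
        (Ht : ℕ → LnT F → MvPolynomial (Option (Fin m)) ℝ), Sub B B₀ ∧
        Pe F.p B₀ ≤ K₁ * Pe F.p B ∧
        WG c 3 D Dr 1 ((A + 1) * p + 6) (fun l => κ l = .one ∨ κ l = .thin) C (t + a * q) E
          (3 * ε * q) (η * q) Pt (fun k => t + Wn A p (1 / p) k * q)
          (fun k l => lvN P c 3 Pt l (t + Wn A p (1 / p) k * q) (t + Wn A p (1 / p) k * q))
          (fun k l => bet P c l (t + a * q) (t + Wn A p (1 / p) k * q)) F b κ' z B gc gT g₀ G H T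
          TH Gt Ht ∧
        ∃ (B' : F.Ω → Prop) (xh : F.Ω → Fin 3 → Polynomial ℝ) (Tu : F.Ω → MvPolynomial (Fin 3) ℝ)
          (y gx : ℕ) (θ' : ℝ),
          EvC F c D DB A p (1 / p) t q g₀ B B' G H xh Tu (c₀ + ⌊1 / p * q * J⌋₊)
            ⌊1 / p * q * J⌋₊ y
            (C₁ * (⌊1 / p * q * J⌋₊ + ⌊1 / p * q * J⌋₊ + ⌊2 / p * q * J⌋₊ + 1) + 3) gx
            (⌊η * q * J⌋₊ + 20 * (c₀ + ⌊1 / p * q * J⌋₊) * DB + c₁) ⌊q / 2 * J⌋₊ θ' κ₁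
            (1 / 2 ^ (C₁ * (⌊1 / p * q * J⌋₊ + ⌊1 / p * q * J⌋₊ + ⌊2 / p * q * J⌋₊ + 1) + 2))
            (1 / 12)
            (2 ^ (3 * (c₀ + ⌊1 / p * q * J⌋₊)))
            (2 ^ (Ct * (8 * (c₀ + ⌊1 / p * q * J⌋₊) + ⌈(4 * ε + η) * (q * J)⌉₊ + 2 +
              ⌈(C + C₃ + 1) * (η * q * J)⌉₊ + 1))))

/-- **No labels at the drop.** -/
def NoLab {m : ℕ} (S : PCl m) (c : ℕ → Fin m) (L : ℕ → ℝ → ℝ → ℝ) (D Dr D' : ℕ)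
    (t q δ K₁ κ₀ : ℝ) : Prop :=
  Bas S (fun J F A' =>
      ¬ ∃ (B₀ B : F.Ω → Prop) (e h x : ℕ) (g : ℕ → ℕ)
        (G : PtT F → ℕ → MvPolynomial (Option (Fin m)) ℝ)
        (H : LnT F → ℕ → MvPolynomial (Option (Fin m)) ℝ)
        (Ht : LnT F → MvPolynomial (Option (Fin m)) ℝ), Sub B A' ∧ Sub B B₀ ∧
        Pe F.p A' ≤ K₁ * Pe F.p B ∧ Pe F.p B₀ ≤ K₁ * Pe F.p B ∧
        (h : ℝ) ≤ δ * J ∧ (x : ℝ) ≤ δ * J ∧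
        (∀ l ≤ 2, (L l (t + q) (t + q) - δ) * J ≤ g l ∧ (g l : ℝ) ≤ L l (t + q) (t + q) * J) ∧
        BLab F c 2 D Dr D' ⌊(t + q) * J⌋₊ ⌊t * J⌋₊ e h x g κ₀ B₀ B G H Ht)

/-- **The closed slope** gives `BlX`, on one event. -/
theorem blx_fin {m : ℕ} {S : PCl m} {al : ℝ}
    {g₀ : ℝ → ℝ} {P : List (Fin m) × Fin m → ℝ → ℝ → ℝ} {θ : ℝ}
    {P₂ : ℕ → List (Fin m) × Fin m → ℝ → ℝ → ℝ} {θ₂ Eb e₂ : ℕ → ℝ} {c : ℕ → Fin m}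
    {Pt : ℝ → ℝ → ℝ} {rr : ℝ → ℝ} {h K₀ g : ℝ} {L T' : ℕ → ℝ → ℝ → ℝ} {Sl : ℕ → ℝ}
    {κ' : ℕ → Kg} {G' : Set ℝ} {S₀ N : ℕ} {A' V' : ℕ → ℝ} {S₂ N' : ℕ} {V'' : ℕ → ℝ}
    {K ε q t : ℝ}
    (Rc : RecG S al g₀ P θ P₂ θ₂ Eb e₂ c Pt rr h K₀ g L T' Sl κ' G' S₀ N A' V' S₂ N' V'' K ε q t)
    (hm : 3 < m) {D Dr Dg A p R₁ J : ℕ} {R : ℕ → Prop}
    {Cw a Ebb ε₀ η g₂ : ℝ} {be b : ℕ → ℕ → ℝ}
    {F : Fam m J} {κ : ℝ} {z gc gT gg : ℕ → ℕ → ℕ} {B : F.Ω → Prop}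
    {G : ℕ → PtT F → ℕ → MvPolynomial (Option (Fin m)) ℝ}
    {H : ℕ → LnT F → ℕ → MvPolynomial (Option (Fin m)) ℝ}
    {T : ℕ → PtT F → ℕ → MvPolynomial (Option (Fin m)) ℝ}
    {TH : ℕ → LnT F → ℕ → MvPolynomial (Option (Fin m)) ℝ}
    {Gt : ℕ → PtT F → MvPolynomial (Option (Fin m)) ℝ}
    {Ht : ℕ → LnT F → MvPolynomial (Option (Fin m)) ℝ}
    (hp1 : 1 ≤ p) (hη : 0 ≤ η) (hD1 : 1 ≤ D) (hD : D ≤ Dr) (hDg : bmd D ≤ Dg)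
    (W : WG c 3 D Dr 1 ((A + 1) * p + 6) R Cw a Ebb ε₀ (η * q) (L 3)
      (fun k => t + Wn A p g₂ k * q)
      (fun k l => lvN P c 3 (L 3) l (t + Wn A p g₂ k * q) (t + Wn A p g₂ k * q)) be F b
      κ z B gc gT gg G H T TH Gt Ht)
    {B₃ A₀ : F.Ω → Prop} {Ks : F.Ω → ℝ} {x₂ : ℕ} {ρ K₂ : ℝ}
    (hBA : Sub B A₀) (hB₃ : Sub B₃ B) (hPA : Pe F.p A₀ ≤ K₂ * Pe F.p B₃)
    (hκ : κ * Pe F.p B ≤ Pe F.p B₃) (hK2 : 0 ≤ K₂) (hRA : R₁ ≤ A) (hK : 2 * A + 12 ≤ K)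
    (hρ1 : ρ ≤ 1)
    (hx : x₂ + 1 + 2 * (η * q * J) ≤ ρ * q * J)
    (hclo : Clo B₃ (ptr F J) (slam F (cw A p g₂ t q J (0 + 1))) Ks)
    (hs : ∀ ω, B₃ ω → ∀ j, j = 0 ∨ j = (A - R₁) * p →
        |eval (bt F ω) (pderiv (some (c 2)) (G (ixn A p (j + 1)) (ptr F J ω) 3)) - Ks ω| ≤
          2 ^ x₂ * (2 ^ gg (ixn A p (j + 1)) 2 / 2 ^ gg (ixn A p (j + 1)) 3)) :
    ∃ B : F.Ω → Prop, Sub B A₀ ∧ Pe F.p A₀ ≤ 2 * K₂ * Pe F.p B ∧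
    ∃ (V : Type) (z : PtT F → V) (z' : LnT F → V) (G : V → MvPolynomial (Option (Fin m)) ℝ)
      (P' : ℕ), LbP F ((range (2 + 1)).image c) (c (2 + 1)) Dg J ⌊(t + -(A : ℝ) * q) * J⌋₊ P' B z
        z' G ∧
      (L (2 + 1) (t + -(A : ℝ) * q) (t + -(A : ℝ) * q) - ρ * q) * J ≤ P' ∧
      ∀ k < 1, ∃ (V₁ : Type) (z₁ : PtT F → V₁) (z₁' : LnT F → V₁)
        (G₁ : V₁ → MvPolynomial (Option (Fin m)) ℝ) (P₁ : ℕ),
        LbP F ((range (2 + 1)).image c) (c (2 + 1)) Dg J ⌊(t - R₁ * q) * J⌋₊ P₁ B z₁ z₁' G₁ ∧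
        (L (2 + 1) (t - R₁ * q) (t - R₁ * q) - ρ * q) * J ≤ P₁ ∧
        ∀ ω, B ω → |eval (bt F ω) (pderiv (some (c 2)) (G₁ (z₁' (slam F ⌊(t - R₁ * q) * J⌋₊ ω)) -
          G (z' (slam F ⌊(t + -(A : ℝ) * q) * J⌋₊ ω))))| ≤
          2 ^ ((L 2 (t - R₁ * q) (t - R₁ * q) - L (2 + 1) (t - R₁ * q) (t - R₁ * q) + ρ * q) *
            J) := by
  have hq := Rc.q0
  have hJ0 : (0 : ℝ) ≤ J := Nat.cast_nonneg J
  have hinj : Set.InjOn c (Set.Iio 4) := Rc.inj.mono fun i hi => by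
    have h1 : i < 4 := hi
    show i < m
    omega
  have hp0 : (p : ℝ) ≠ 0 := by
    have : (1 : ℝ) ≤ p := by exact_mod_cast hp1
    linarith
  have hRp : (A - R₁) * p ≤ (A + 1) * p := Nat.mul_le_mul_right _ (by omega)
  have e1 : t + Wn A p g₂ (ixn A p (0 + 1)) * q = t + -(A : ℝ) * q := by
    rw [ixn_succ (Nat.zero_le _), Wn_cix hp1]
    push_cast
    rw [zero_div, add_zero]
  have e2 : t + Wn A p g₂ (ixn A p ((A - R₁) * p + 1)) * q = t - R₁ * q := by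
    rw [ixn_succ hRp, Wn_cix hp1]
    push_cast
    rw [Nat.cast_sub hRA, mul_div_assoc, div_self hp0]
    ring
  have hlv : ∀ l ≤ 3, ∀ x y : ℝ, lvN P c 3 (L 3) l x y = L l x y :=
    fun l hl x y => by rw [← Rc.lv_at hm hl]
  obtain ⟨B₂, k1, k2, V, z, z', G₀, P', k3, k4, k5⟩ := blx_ev W hD1 hD hDg hinj
    (iV := ixn A p (0 + 1)) (iR := ixn A p ((A - R₁) * p + 1)) (ρ := ρ * q) (x := x₂)
    (ixn_le (by omega)) (ixn_le (by omega)) hB₃ hκ hclo (by positivity)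
    (fun i hi ω hω => by
      rcases hi with rfl | rfl
      · exact hs ω hω 0 (Or.inl rfl)
      · exact hs ω hω _ (Or.inr rfl)) hx (by
      show ρ * q ≤ lvN P c 3 (L 3) 3 (t + Wn A p g₂ (ixn A p (0 + 1)) * q)
        (t + Wn A p g₂ (ixn A p (0 + 1)) * q)
      rw [e1, hlv 3 le_rfl]
      have h1 := mul_le_mul_of_nonneg_right hK hq.le
      have h2 := Rc.t0
      have h3 := Rc.t1
      have hA0 : (0 : ℝ) ≤ A * q := by positivity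
      have h4 := Rc.low_at (i := 3) hm (a := t + -(A : ℝ) * q) (w := t + -(A : ℝ) * q)
        (by linarith) le_rfl (by linarith)
      have h5 := mul_le_mul_of_nonneg_right hρ1 hq.le
      linarith)
  rw [e1] at k3 k4 k5
  rw [e2] at k5
  rw [hlv 3 le_rfl] at k4
  refine ⟨B₂, fun ω hω => hBA ω (hB₃ ω (k1 ω hω)), ?_, V, z, z', G₀, P', k3, k4, fun k hk => ?_⟩
  · refine hPA.trans ?_
    have h1 := mul_le_mul_of_nonneg_left k2 hK2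
    linarith
  · obtain ⟨V₁, z₁, z₁', G₁, P₁, h1, h2, h3⟩ := k5 k hk
    rw [hlv 3 le_rfl] at h2 h3
    rw [hlv 2 (by norm_num)] at h3
    exact ⟨V₁, z₁, z₁', G₁, P₁, h1, h2, h3⟩

end Pool.CRC82
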