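import Pool.Agent.H82.CRC.Cmo

/-!
# The visible case of the conic theorem, in a class

`vis_cls`: with a visible second derivative of the chart of `u` at the base, and without labels at the
drop, the closed slope `BlX`.
-/

set_option autoImplicit false

namespace Pool.CRC82

open Finset Real MvPolynomial
open Pool.Agent.H49.Ent Pool.Agent.H32.Dense Pool.STK Pool.KA Pool.KSAT Pool.K2S Pool.PB Pool.S6C
open Pool.GEN Pool.CHT Pool.CHX Pool.ISO Pool.D2R Pool.D2G30 Pool.V1E Pool.PKG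
open Pool.LBT (ThrOf)
open Pool.LEV (Law)
open Pool.CUB46 (h3)
open Pool.CR99
open Pool.AFF82
open Pool.CNC76 Pool.CNC28 Pool.CNC60 Pool.CNC78 Pool.AFF60

/-- **The visible case**, in a class. -/
theorem vis_cls (D : ℕ) (hD : 1 ≤ D) : ∃ Cn : ℕ, 1 ≤ Cn ∧ ∀ {m : ℕ} {S : PCl m} {al : ℝ}
    {g₀ : ℝ → ℝ} {P : List (Fin m) × Fin m → ℝ → ℝ → ℝ} {θ : ℝ}
    {P₂ : ℕ → List (Fin m) × Fin m → ℝ → ℝ → ℝ} {θ₂ Eb e₂ : ℕ → ℝ} {c : ℕ → Fin m}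
    {Pt : ℝ → ℝ → ℝ} {rr : ℝ → ℝ} {h K₀ g : ℝ} {L T' : ℕ → ℝ → ℝ → ℝ} {Sl : ℕ → ℝ}
    {κ' : ℕ → Kg} {G' : Set ℝ} {S₀ N : ℕ} {A' V' : ℕ → ℝ} {S₂ N' : ℕ} {V'' : ℕ → ℝ}
    {K ε q t : ℝ}
    {Dr Dr₁ DB Dg Ka c₀ C₁ c₁ Ct A p x R₁ D' Ne : ℕ} {Cw C₃ a η ξ ρ δ x₀ d K₁ κ₁ κw κ₀ : ℝ}
    {b : ℕ → ℕ → ℝ} {Pa : (ℚ × ℕ) × (List (Fin m) × Fin m) → ℝ → ℝ → ℝ} {θa : ℚ}
    (_ : RecG S al g₀ P θ P₂ θ₂ Eb e₂ c Pt rr h K₀ g L T' Sl κ' G' S₀ N A' V' S₂ N' V'' K ε q t)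
    (_ : 3 < m)
    (_ : CPr Cn DB C₁ Ct Ka A p x R₁ D' Cw C₃ (Sl 2) (Sl 3) η ε ξ)
    (_ : D ≤ Dr) (_ : Dr₁ ≤ Dr) (_ : 2 * (D * D) ≤ DB) (_ : bmd D ≤ Dg) (_ : 1 ≤ c₀)
    (_ : 2 * A + 12 ≤ K) (_ : 0 < K₁) (_ : 0 ≤ κw)
    (_ : ConE S c κ' P (L 3) D Dr DB A p c₀ C₁ c₁ Ct Cw C₃ a η ε (Eb 3) t q K₁ κ₁ κw b)
    (_ : NoLab S c L D Dr₁ ((D' + 3) * (D * D * (D * D))) t q δ
      ((K₁ + 1) * (4 * (2 * Ne * 2 ^ ((D + 1) * ((A + 1) * p + 1) + 10)))) κ₀)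
    (_ : 2 * (p : ℝ) ≤ q * Ne) (_ : κw ≤ κ₀)
    (_ : 4 * κw * (2 * Ne * 2 ^ ((D + 1) * ((A + 1) * p + 1) + 12)) ≤ 1)
    (_ : κ₁ * 2 * (2 * Ne * 2 ^ ((D + 1) * ((A + 1) * p + 1) + 12)) ≤ 1) (_ : 4 * κ₁ ≤ 1)
    (_ : 0 < ρ) (_ : ρ ≤ 1) (_ : 4 * ξ ≤ ρ) (_ : 4 * η ≤ ρ)
    (_ : (D * D + 21 : ℕ) * ξ * q ≤ δ) (_ : η * q ≤ δ)
    (_ : ThrOf (affsys m) S Pa) (_ : ∀ y, |y - x₀| ≤ d → alt Pa θa D c 2 y y + d ≤ L 2 y y)
    (_ : 0 < θa) (_ : |t + -(A : ℝ) * q - x₀| < d)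
    (_ : Eb 3 + 2 * (η * q) ≤ θa * (t + -(A : ℝ) * q))
    (_ : 2 * ((Cn * ((1 + Sl 2) * A + 1) + Sl 3 * A + 2 * A + 11) * q) + (η + 2 * ε) * q < d),
    BlX S c 2 Dg Dg (t + -(A : ℝ) * q) (L (2 + 1) (t + -(A : ℝ) * q) (t + -(A : ℝ) * q) - ρ * q) 1
      (fun _ => t - R₁ * q) (fun _ => L (2 + 1) (t - R₁ * q) (t - R₁ * q) - ρ * q)
      (fun _ => L 2 (t - R₁ * q) (t - R₁ * q) - L (2 + 1) (t - R₁ * q) (t - R₁ * q) + ρ * q)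
      (2 * ((K₁ + 1) * (4 * (2 * Ne * 2 ^ ((D + 1) * ((A + 1) * p + 1) + 10))))) := by
  obtain ⟨Cn, hCn, hevt⟩ := vis_evt D hD
  obtain ⟨cC, hvis⟩ := vis_rec D hD
  refine ⟨Cn, hCn, ?_⟩
  intro m S al g₀ P θ P₂ θ₂ Eb e₂ c Pt rr h K₀ g L T' Sl κ' G' S₀ N A' V' S₂ N' V'' K ε q t
    Dr Dr₁ DB Dg Ka c₀ C₁ c₁ Ct A p x R₁ D' Ne Cw C₃ a η ξ ρ δ x₀ d K₁ κ₁ κw κ₀ b Pa θa
    Rc hm Pr hDr hDr₁ hDB hDg hc₀ hK hK₁ hκw hset hlab hNe hκκ₀ hκ4 hκ1 hκ14 hρ0 hρ1 hξρ hηρ hξδ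
    hηδ hPa hal hθa hx₀ he hℓ
  have hq := Rc.q0
  have hη := Pr.η0
  have hε := Pr.ε0
  have hξ0 := Pr.ξ0
  have hp16 := Pr.p16
  have hp1 : 1 ≤ p := by omega
  have hxR := Pr.xR
  have hRA := Pr.RA
  have hA1 : 1 ≤ A := by omega
  have hA0 : (1 : ℝ) ≤ A := by exact_mod_cast hA1
  have ha := Pr.a2
  have hab := Pr.ab
  obtain ⟨s1, s2, s3, s4, s5, s6, s7, s8⟩ := Pr.set
  obtain ⟨J₁, hJ₁⟩ := clg_ex Cn DB c₀ C₁ c₁ Ct A p D' (a := Sl 2) ha hη hξ0 hq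
  obtain ⟨J₂, hJ₂⟩ := exists_nat_gt ((cC + 4 / ρ) / q)
  have hv := hvis Rc hm hPa hε hal hθa (W := -(A : ℝ)) (d := d) (η := η) (e₁ := Eb 3 + 2 * (η * q))
    (ℓ := (Cn * ((1 + Sl 2) * A + 1) + Sl 3 * A + 2 * A + 11) * q) (by
      rw [abs_neg, abs_of_nonneg (by linarith)]
      linarith) hx₀ he hη.le (by
      have h1 : 0 ≤ Sl 2 := by linarith
      have h2 : 0 ≤ Sl 3 := by linarith
      positivity) hℓ (2 * K₁) 1 (by positivity) one_pos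
  refine Bas.mono (max J₁ J₂) ((hset.and hv).and hlab) ?_
  rintro J hJ F A₀ ⟨⟨⟨B, z, gc, gT, gg, G, H, T, TH, Gt, Ht, hBB, hPB, W, B', xh, Tu, y, gx, θ',
    Ev⟩, hv⟩, hnl⟩
  have Lg := hJ₁ J (by omega)
  have hJ0 : (0 : ℝ) ≤ J := Nat.cast_nonneg J
  have hqJ := Pr.Q0 Lg
  have hJ₂' : (cC : ℝ) + 4 / ρ ≤ q * J := by
    have h1 : (J₂ : ℝ) ≤ J := by
      have : J₂ ≤ J := by omega
      exact_mod_cast this
    have h2 := hJ₂.le.trans h1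
    rw [div_le_iff₀ hq] at h2
    linarith
  obtain ⟨ℓ, hℓd⟩ : ∃ ℓ : ℝ, ℓ = (Cn * ((1 + Sl 2) * A + 1) + Sl 3 * A + 2 * A + 11) * q :=
    ⟨_, rfl⟩
  have hη1 : η ≤ 1 / p := by
    rw [le_div_iff₀ Pr.p0]
    exact s2
  have hτ := Pr.τ0
  have f1 : (⌊1 / (p : ℝ) * q * J⌋₊ : ℝ) ≤ 1 / p * (q * J) :=
    (Nat.floor_le (by positivity)).trans (le_of_eq (by ring))
  have f2 : (⌊2 / (p : ℝ) * q * J⌋₊ : ℝ) ≤ 2 * (1 / p * (q * J)) :=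
    (Nat.floor_le (by positivity)).trans (le_of_eq (by ring))
  have f3 : (⌊η * q * J⌋₊ : ℝ) ≤ 1 / p * (q * J) := by
    refine (Nat.floor_le (by positivity)).trans ?_
    rw [mul_assoc]
    exact mul_le_mul_of_nonneg_right hη1 hqJ.le
  obtain ⟨u1, -, -, -, -, u6, u7⟩ := Pr.num Lg f1 f2 f3
  have e1 : t + Wn A p (1 / p) (ixn A p (0 + 1)) * q = t + -(A : ℝ) * q := by
    rw [ixn_succ (Nat.zero_le _), Wn_cix hp1]
    push_cast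
    rw [zero_div, add_zero]
  have hlv : ∀ l ≤ 3, ∀ x y : ℝ, lvN P c 3 (L 3) l x y = L l x y :=
    fun l hl x y => by rw [← Rc.lv_at hm hl]
  have ev := W.wb.ev (ixn A p (0 + 1)) (ixn_le (by omega))
  have hsd : ∀ l ≤ 2, (L l (t + -(A : ℝ) * q) (t + -(A : ℝ) * q) - η * q) * J ≤
      gg (ixn A p (0 + 1)) l ∧ gg (ixn A p (0 + 1)) l ≤ J := by
    intro l hl
    obtain ⟨h1, h2⟩ := W.wb.sds (ixn A p (0 + 1)) (ixn_le (by omega)) l (by omega)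
    rw [hlv l (by omega), e1] at h1 h2
    refine ⟨h1, ?_⟩
    have h3 := (Rc.tg 3 (by norm_num) hm).room l (by omega) (t + -(A : ℝ) * q) (by
      rw [add_sub_cancel_left, abs_mul, abs_of_pos hq, abs_neg, abs_of_nonneg (by linarith)]
      exact mul_le_mul_of_nonneg_right (by linarith) hq.le)
    have h4 := (Rc.tg 3 (by norm_num) hm).Eb0
    have h5 : 0 < K * q := by
      have : 0 < K := by linarith
      positivity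
    have h6 : (gg (ixn A p (0 + 1)) l : ℝ) ≤ J := by
      refine h2.trans ?_
      have := mul_le_mul_of_nonneg_right (show L l (t + -(A : ℝ) * q)
        (t + -(A : ℝ) * q) ≤ 1 by linarith) hJ0
      linarith
    exact_mod_cast h6
  obtain ⟨hb, hhb⟩ : ∃ hb, hb = ⌊η * q * J⌋₊ + 20 * (c₀ + ⌊1 / (p : ℝ) * q * J⌋₊) * DB + c₁ :=
    ⟨_, rfl⟩
  have hhbm : hb ≤ ⌊ξ * (q * J)⌋₊ := by
    refine le_trans ?_ ((Nat.le_add_right _ _).trans u1)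
    refine le_trans ?_ (Nat.le_mul_of_pos_left _ hCn)
    rw [hhb]
    omega
  have hPA' : Pe F.p A₀ ≤ 2 * K₁ * Pe F.p B' := by
    have h1 := mul_le_mul_of_nonneg_left Ev.pe hK₁.le
    linarith
  have hB'A : Sub B' A₀ := fun ω hω => hBB ω (Ev.sub ω hω)
  -- the visible second derivative
  obtain ⟨B'', v1, v2, v3⟩ := hv (B := B') (B' := B') (k := 0) (w := fun k =>
      cw A p (1 / p) t q J (k + 1)) (g := fun k => gg (ixn A p (k + 1)))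
    (G := fun k => G (ixn A p (k + 1))) (H := H (ixn A p (0 + 1))) hB'A hPA' Ev.frm
    (Nat.zero_le _) (by
      show ⌊(t + Wn A p (1 / p) (ixn A p (0 + 1)) * q) * J⌋₊ = _
      rw [e1])
    ((ev.ball.mono (show 3 ≤ 3 + 1 by norm_num) (fun _ => le_rfl) le_rfl le_rfl).sub Ev.sub)
    (fun ω hω l hl => ev.cls ω (Ev.sub ω hω) l (by omega))
    (Ev.bll 0 (Nat.zero_le _)) (by nlinarith) (by linarith) (by
      refine Nat.floor_le_floor ?_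
      refine mul_le_mul_of_nonneg_right (le_of_eq ?_) hJ0
      ring) (fun l hl => (hsd l hl).2) (hsd 2 le_rfl).1 (by
      rw [← hhb]
      refine Nat.le_floor ?_
      push_cast
      have h1 : (hb : ℝ) ≤ ξ * (q * J) := (by exact_mod_cast hhbm : (hb : ℝ) ≤ _).trans u7
      have h2 := mul_le_mul_of_nonneg_right (show ξ ≤ 1 by linarith [Pr.ξ1]) hqJ.le
      have h3 : 0 ≤ 4 / ρ := by positivity
      have h4 : 0 ≤ Cn * ((1 + Sl 2) * A + 1) + Sl 3 * A + 2 * A := by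
        have h1 : 0 ≤ Sl 2 := by linarith
        have h2 : 0 ≤ Sl 3 := by linarith
        positivity
      have h5 := mul_nonneg h4 hqJ.le
      linarith) (fun _ h => h) (by linarith)
  obtain ⟨B₃, k1, k2, k3⟩ := hevt Rc hm Pr Lg hDr hDB hc₀ hK W Ev (by norm_num) hNe hκw hκ4 hκ1 v1
    v2 v3
  obtain ⟨M, hM⟩ : ∃ M : ℝ, M = 2 * Ne * 2 ^ ((D + 1) * ((A + 1) * p + 1) + 10) := ⟨_, rfl⟩
  rw [← hM] at k2 hnl ⊢
  have hM0 : 0 ≤ M := by rw [hM]; positivity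
  have hB₃0 : 0 ≤ Pe F.p B₃ := Pe_nonneg F.isLaw B₃
  have hB₃' : Sub B₃ B' := fun ω hω => v1 ω (k1 ω hω)
  have hPB : Pe F.p B ≤ 4 * M * Pe F.p B₃ := by
    have h1 := Ev.pe
    linarith
  have hMB : 0 ≤ 4 * M * Pe F.p B₃ := by positivity
  have hPB2 : Pe F.p B ≤ (K₁ + 1) * (4 * M) * Pe F.p B₃ := by
    have h1 := mul_nonneg hK₁.le hMB
    linarith
  have hPA2 : Pe F.p A₀ ≤ (K₁ + 1) * (4 * M) * Pe F.p B₃ := by
    have h1 := mul_le_mul_of_nonneg_left hPB hK₁.le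
    linarith
  rcases k3 with ⟨Ks, k3, k4⟩ | ⟨Hp, k3, k4, k5⟩
  · refine blx_fin Rc hm (R₁ := R₁) hp1 hη.le hD hDr hDg W hBB
      (fun ω hω => Ev.sub ω (hB₃' ω hω)) hPA2 ?_ (by positivity) (by omega) hK hρ1 ?_ k3 k4
    · have h1 := mul_le_mul_of_nonneg_left hPB hκw
      have h2 : κw * (4 * M) ≤ 1 := by
        refine le_trans ?_ hκ4
        have h3 : M ≤ 2 * Ne * 2 ^ ((D + 1) * ((A + 1) * p + 1) + 12) := by
          rw [hM]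
          exact mul_le_mul_of_nonneg_left (pow_le_pow_right₀ (by norm_num) (by omega))
            (by positivity)
        have h4 := mul_le_mul_of_nonneg_left h3 hκw
        linarith
      have h5 := mul_le_mul_of_nonneg_right h2 hB₃0
      linarith
    · have h1 := mul_le_mul_of_nonneg_right hξρ hqJ.le
      have h2 := mul_le_mul_of_nonneg_right hηρ hqJ.le
      have h3 : (0 : ℝ) ≤ cC := Nat.cast_nonneg _
      have h4 : 4 / ρ ≤ q * J := by linarith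
      rw [div_le_iff₀ hρ0] at h4
      linarith
  · exfalso
    refine hnl (brg_fin Rc hm hp1 hη.le W Ev hDr₁ hκκ₀ hBB hB₃' hPA2 hPB2 hηδ ?_ k3 k4 k5)
    push_cast at hξδ ⊢
    have h1 := mul_le_mul_of_nonneg_left u7 (show (0 : ℝ) ≤ D * D + 21 by positivity)
    have h2 := mul_le_mul_of_nonneg_right hξδ hJ0
    linarith

end Pool.CRC82
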