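import Mathlib

/-!
# The numbers of the conic theorem

`CrN`: the numbers of the conic theorem, `CrJ`: the numbers for one `J`; `crn_nat`.
-/

set_option autoImplicit false

namespace Pool.CRC82

open Finset Real

/-- Linear inequalities hold for large `J`. -/
theorem lin_lt' {a b : ℝ} (h : a < b) (k : ℝ) : ∃ J₀ : ℕ, ∀ J : ℕ, J₀ ≤ J → a * J + k ≤ b * J := by
  obtain ⟨J₀, hJ₀⟩ := exists_nat_gt (k / (b - a))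
  refine ⟨J₀, fun J hJ => ?_⟩
  have h1 : (J₀ : ℝ) ≤ J := by exact_mod_cast hJ
  have h2 : k / (b - a) ≤ J := hJ₀.le.trans h1
  rw [div_le_iff₀ (by linarith)] at h2
  linarith

theorem flo' {x : ℝ} (h : 0 ≤ x) : (⌊x⌋₊ : ℝ) ≤ x ∧ x < ⌊x⌋₊ + 1 :=
  ⟨Nat.floor_le h, Nat.lt_floor_add_one x⟩

/-- **The numbers of the five windows** `O j`, `j ≤ 4`, and the window `Ov` of the visibility;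
`lu`, `ln`: the levels of `u` and `N`. -/
structure CrN (D' : ℕ) (ξ ℓ lam η₀ Ov Qr luv : ℝ) (O lu ln : ℕ → ℝ) : Prop where
  ξ0 : 0 < ξ
  ℓ0 : 0 ≤ ℓ
  lam0 : 0 ≤ lam
  η0 : 0 ≤ η₀
  O0 : ∀ j ≤ 4, 0 ≤ O j
  Ov0 : 0 ≤ Ov
  Qr0 : 0 ≤ Qr
  mon : ∀ j ≤ 4, O 0 ≤ O j ∧ O j ≤ O 4
  c2 : 13 * ξ + 2 * O 4 < ℓ + 2 * O 0
  c3 : 13 * ξ + 4 * O 4 + lu 0 + ln 2 + 2 * η₀ < ℓ + lu 4 + 2 * O 2 + ln 0 + 2 * O 0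
  c4 : ln 0 + η₀ < ln 2
  c1 : lu 3 + 2 * O 4 + η₀ < lu 4 + 2 * O 3
  c6 : 7 * ξ + O 2 < O 3
  c7 : (D' + 1) * (7 * ξ + O 2) + 2 * O 3 + lu 4 + η₀ < (D' + 1) * O 3 + 2 * O 4 + lu 3
  c8 : 15 * ξ < Qr
  c9 : ∀ j ≤ 1, lu 4 + 2 * O 2 + ln j + 2 * η₀ < ξ + ln 2 + 2 * O 4 + lu j
  v1 : ξ + 2 * O 4 + luv + lam + η₀ < lu 0 + 2 * Ov
  v2 : ℓ + 2 * O 0 + lam + luv + η₀ < lu 0 + 2 * Ov

/-- **The numbers for one `J`.** -/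
structure CrJ (D' k₀ m₀ L₀ l₀ wv Q uv : ℕ) (w u v : ℕ → ℕ) : Prop where
  m1 : k₀ ≤ m₀
  mon : ∀ j ≤ 4, w 0 ≤ w j ∧ w j ≤ w 4
  c2 : 13 * m₀ + 2 * w 4 ≤ L₀ + 2 * w 0
  c3 : 13 * m₀ + 4 * w 4 + u 0 + v 2 ≤ L₀ + 1 + u 4 + 2 * w 2 + v 0 + 2 * w 0
  c4 : v 0 ≤ v 2
  c1 : u 3 + 2 * w 4 ≤ u 4 + 2 * w 3
  c5 : 3 + m₀ + w 2 ≤ w 3
  c6 : 7 * m₀ + w 2 ≤ w 3
  c7 : (D' + 1) * (7 * m₀ + w 2) + 2 * w 3 + u 4 ≤ (D' + 1) * w 3 + 2 * w 4 + u 3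
  c8 : 15 * m₀ ≤ Q
  c9 : ∀ j ≤ 1, 1 + u 4 + 2 * w 2 + v j ≤ m₀ + v 2 + 2 * w 4 + u j
  v1 : k₀ + m₀ + 2 * w 4 + uv + l₀ ≤ u 0 + 2 * wv
  v2 : k₀ + L₀ + 2 * w 0 + l₀ + uv ≤ u 0 + 2 * wv

/-- **The numbers for large `J`.** -/
theorem crn_nat {D' : ℕ} {ξ ℓ lam η₀ Ov Qr luv : ℝ} {O lu ln : ℕ → ℝ}
    (H : CrN D' ξ ℓ lam η₀ Ov Qr luv O lu ln) (k₀ : ℕ) : ∃ J₀ : ℕ, ∀ J : ℕ, J₀ ≤ J →
    ∀ {uv : ℕ} {u v : ℕ → ℕ}, (luv * J - η₀ * J ≤ (uv : ℝ) ∧ (uv : ℝ) ≤ luv * J) →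
      (∀ j ≤ 4, lu j * J - η₀ * J ≤ (u j : ℝ) ∧ (u j : ℝ) ≤ lu j * J ∧
        ln j * J - η₀ * J ≤ (v j : ℝ) ∧ (v j : ℝ) ≤ ln j * J) →
      CrJ D' k₀ ⌊ξ * J⌋₊ ⌊ℓ * J⌋₊ ⌊lam * J⌋₊ ⌊Ov * J⌋₊ ⌊Qr * J⌋₊ uv (fun j => ⌊O j * J⌋₊) u v := by
  obtain ⟨k, hk⟩ : ∃ k : ℝ, k = 100 * (D' + 1) + k₀ + 100 := ⟨_, rfl⟩
  obtain ⟨J₁, h1⟩ := lin_lt' H.ξ0 k
  obtain ⟨J₂, h2⟩ := lin_lt' H.c2 k
  obtain ⟨J₃, h3⟩ := lin_lt' H.c3 k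
  obtain ⟨J₄, h4⟩ := lin_lt' H.c4 k
  obtain ⟨J₅, h5⟩ := lin_lt' H.c1 k
  obtain ⟨J₆, h6⟩ := lin_lt' H.c6 k
  obtain ⟨J₇, h7⟩ := lin_lt' H.c7 k
  obtain ⟨J₈, h8⟩ := lin_lt' H.c8 k
  obtain ⟨J₉, h9⟩ := lin_lt' (H.c9 0 (by norm_num)) k
  obtain ⟨J₁₀, h10⟩ := lin_lt' (H.c9 1 le_rfl) k
  obtain ⟨J₁₁, h11⟩ := lin_lt' H.v1 k
  obtain ⟨J₁₂, h12⟩ := lin_lt' H.v2 k
  refine ⟨max (max (max J₁ J₂) (max J₃ J₄)) (max (max (max J₅ J₆) (max J₇ J₈))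
    (max (max J₉ J₁₀) (max J₁₁ J₁₂))), fun J hJ uv u v huv huj => ?_⟩
  replace h1 := h1 J (by omega)
  replace h2 := h2 J (by omega)
  replace h3 := h3 J (by omega)
  replace h4 := h4 J (by omega)
  replace h5 := h5 J (by omega)
  replace h6 := h6 J (by omega)
  replace h7 := h7 J (by omega)
  replace h8 := h8 J (by omega)
  replace h9 := h9 J (by omega)
  replace h10 := h10 J (by omega)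
  replace h11 := h11 J (by omega)
  replace h12 := h12 J (by omega)
  clear hJ
  have hJ0 : (0 : ℝ) ≤ J := Nat.cast_nonneg J
  have hD0 : (0 : ℝ) ≤ D' := Nat.cast_nonneg D'
  have hk00 : (0 : ℝ) ≤ k₀ := Nat.cast_nonneg k₀
  have hk100 : 100 + (k₀ : ℝ) ≤ k := by rw [hk]; linarith
  have fξ := flo' (mul_nonneg H.ξ0.le hJ0)
  have fl := flo' (mul_nonneg H.ℓ0 hJ0)
  have fm := flo' (mul_nonneg H.lam0 hJ0)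
  have fv := flo' (mul_nonneg H.Ov0 hJ0)
  have fc := flo' (mul_nonneg H.Qr0 hJ0)
  have f0 := flo' (mul_nonneg (H.O0 0 (by norm_num)) hJ0)
  have f2 := flo' (mul_nonneg (H.O0 2 (by norm_num)) hJ0)
  have f3 := flo' (mul_nonneg (H.O0 3 (by norm_num)) hJ0)
  have f4 := flo' (mul_nonneg (H.O0 4 (by norm_num)) hJ0)
  have u0 := huj 0 (by norm_num)
  have u1 := huj 1 (by norm_num)
  have u2 := huj 2 (by norm_num)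
  have u3 := huj 3 (by norm_num)
  have u4 := huj 4 (by norm_num)
  refine
    { m1 := ?_, mon := fun j hj => ?_, c2 := ?_, c3 := ?_, c4 := ?_, c1 := ?_, c5 := ?_, c6 := ?_
      c7 := ?_, c8 := ?_, c9 := fun j hj => ?_, v1 := ?_, v2 := ?_ }
  · have : (k₀ : ℝ) ≤ (⌊ξ * J⌋₊ : ℝ) := by linarith
    exact_mod_cast this
  · exact ⟨Nat.floor_le_floor (mul_le_mul_of_nonneg_right (H.mon j hj).1 hJ0),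
      Nat.floor_le_floor (mul_le_mul_of_nonneg_right (H.mon j hj).2 hJ0)⟩
  · have : ((13 * ⌊ξ * J⌋₊ + 2 * ⌊O 4 * J⌋₊ : ℕ) : ℝ) ≤ ((⌊ℓ * J⌋₊ + 2 * ⌊O 0 * J⌋₊ : ℕ) : ℝ) := by
      push_cast
      linarith
    exact_mod_cast this
  · have : ((13 * ⌊ξ * J⌋₊ + 4 * ⌊O 4 * J⌋₊ + u 0 + v 2 : ℕ) : ℝ) ≤
        ((⌊ℓ * J⌋₊ + 1 + u 4 + 2 * ⌊O 2 * J⌋₊ + v 0 + 2 * ⌊O 0 * J⌋₊ : ℕ) : ℝ) := by
      push_cast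
      linarith
    exact_mod_cast this
  · have : (v 0 : ℝ) ≤ (v 2 : ℝ) := by linarith
    exact_mod_cast this
  · have : ((u 3 + 2 * ⌊O 4 * J⌋₊ : ℕ) : ℝ) ≤ ((u 4 + 2 * ⌊O 3 * J⌋₊ : ℕ) : ℝ) := by
      push_cast
      linarith
    exact_mod_cast this
  · have : ((3 + ⌊ξ * J⌋₊ + ⌊O 2 * J⌋₊ : ℕ) : ℝ) ≤ ((⌊O 3 * J⌋₊ : ℕ) : ℝ) := by
      push_cast
      linarith
    exact_mod_cast this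
  · have : ((7 * ⌊ξ * J⌋₊ + ⌊O 2 * J⌋₊ : ℕ) : ℝ) ≤ ((⌊O 3 * J⌋₊ : ℕ) : ℝ) := by
      push_cast
      linarith
    exact_mod_cast this
  · have h13 : (D' + 1 : ℝ) * (7 * ⌊ξ * J⌋₊ + ⌊O 2 * J⌋₊) ≤ (D' + 1) * ((7 * ξ + O 2) * J) :=
      mul_le_mul_of_nonneg_left (by linarith) (by linarith)
    have h14 : (D' + 1 : ℝ) * (O 3 * J - 1) ≤ (D' + 1) * ⌊O 3 * J⌋₊ :=
      mul_le_mul_of_nonneg_left (by linarith) (by linarith)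
    have : (((D' + 1) * (7 * ⌊ξ * J⌋₊ + ⌊O 2 * J⌋₊) + 2 * ⌊O 3 * J⌋₊ + u 4 : ℕ) : ℝ) ≤
        (((D' + 1) * ⌊O 3 * J⌋₊ + 2 * ⌊O 4 * J⌋₊ + u 3 : ℕ) : ℝ) := by
      push_cast
      rw [hk] at h7
      linarith
    exact_mod_cast this
  · have : ((15 * ⌊ξ * J⌋₊ : ℕ) : ℝ) ≤ ((⌊Qr * J⌋₊ : ℕ) : ℝ) := by
      push_cast
      linarith
    exact_mod_cast this
  · rcases (show j = 0 ∨ j = 1 by omega) with rfl | rfl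
    · have : ((1 + u 4 + 2 * ⌊O 2 * J⌋₊ + v 0 : ℕ) : ℝ) ≤
          ((⌊ξ * J⌋₊ + v 2 + 2 * ⌊O 4 * J⌋₊ + u 0 : ℕ) : ℝ) := by
        push_cast
        linarith
      exact_mod_cast this
    · have : ((1 + u 4 + 2 * ⌊O 2 * J⌋₊ + v 1 : ℕ) : ℝ) ≤
          ((⌊ξ * J⌋₊ + v 2 + 2 * ⌊O 4 * J⌋₊ + u 1 : ℕ) : ℝ) := by
        push_cast
        linarith
      exact_mod_cast this
  · have : ((k₀ + ⌊ξ * J⌋₊ + 2 * ⌊O 4 * J⌋₊ + uv + ⌊lam * J⌋₊ : ℕ) : ℝ) ≤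
        ((u 0 + 2 * ⌊Ov * J⌋₊ : ℕ) : ℝ) := by
      push_cast
      linarith
    exact_mod_cast this
  · have : ((k₀ + ⌊ℓ * J⌋₊ + 2 * ⌊O 0 * J⌋₊ + ⌊lam * J⌋₊ + uv : ℕ) : ℝ) ≤
        ((u 0 + 2 * ⌊Ov * J⌋₊ : ℕ) : ℝ) := by
      push_cast
      linarith
    exact_mod_cast this

end Pool.CRC82
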