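import Pool.Agent.H82.CRC.Cmo
import Pool.Agent.H82.CRC.Crb

/-!
# The invisible case of the conic theorem, in a class

`inv_cls`: if the second derivatives of the chart of `u` at `t + q` are invisible, there are labels at
the drop.
-/

set_option autoImplicit false

namespace Pool.CRC82

open Finset Real MvPolynomial
open Pool.Agent.H49.Ent Pool.Agent.H32.Dense Pool.STK Pool.KA Pool.KSAT Pool.K2S Pool.PB Pool.S6C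
open Pool.GEN Pool.CHT Pool.CHX Pool.ISO Pool.D2R Pool.D2G30 Pool.V1E Pool.PKG
open Pool.LBT (ThrOf)
open Pool.LEV (Law)
open Pool.CUB46 (h3)
open Pool.CR99
open Pool.AFF82
open Pool.CNC76 Pool.CNC28 Pool.CNC60 Pool.CNC78 Pool.AFF60

/-- **The invisible case**, in a class. -/
theorem inv_cls (D : ℕ) (hD : 1 ≤ D) : ∃ Ci : ℕ, ∀ {m : ℕ} {S : PCl m} {al : ℝ}
    {g₀ : ℝ → ℝ} {P : List (Fin m) × Fin m → ℝ → ℝ → ℝ} {θ : ℝ}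
    {P₂ : ℕ → List (Fin m) × Fin m → ℝ → ℝ → ℝ} {θ₂ Eb e₂ : ℕ → ℝ} {c : ℕ → Fin m}
    {Pt : ℝ → ℝ → ℝ} {rr : ℝ → ℝ} {h K₀ g : ℝ} {L T' : ℕ → ℝ → ℝ → ℝ} {Sl : ℕ → ℝ}
    {κ' : ℕ → Kg} {G' : Set ℝ} {S₀ N : ℕ} {A' V' : ℕ → ℝ} {S₂ N' : ℕ} {V'' : ℕ → ℝ}
    {K ε q t : ℝ}
    {Cn Dr Dr₁ DB Ka c₀ C₁ c₁ Ct A p x R₁ D' j : ℕ} {Cw C₃ a η ξ δ ω ζ δi K₁ κ₁ κw κ₀ : ℝ}
    {b : ℕ → ℕ → ℝ} {Pa : (ℚ × ℕ) × (List (Fin m) × Fin m) → ℝ → ℝ → ℝ} {θa : ℚ}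
    (_ : RecG S al g₀ P θ P₂ θ₂ Eb e₂ c Pt rr h K₀ g L T' Sl κ' G' S₀ N A' V' S₂ N' V'' K ε q t)
    (_ : 3 < m) (_ : 1 ≤ Cn)
    (_ : CPr Cn DB C₁ Ct Ka A p x R₁ D' Cw C₃ (Sl 2) (Sl 3) η ε ξ)
    (_ : D ≤ Dr) (_ : Dr₁ ≤ Dr) (_ : D * D ≤ DB) (_ : 2 * A + 12 ≤ K) (_ : 0 < K₁) (_ : 0 ≤ κw)
    (_ : ConE S c κ' P (L 3) D Dr DB A p c₀ C₁ c₁ Ct Cw C₃ a η ε (Eb 3) t q K₁ κ₁ κw b)
    (_ : NoLab S c L D Dr₁ (D * D * (D * D) + D * D) t q δ (32 * (K₁ + 1)) κ₀)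
    (_ : κw ≤ κ₀) (_ : 32 * κw ≤ 1) (_ : 16 * κ₁ ≤ 1)
    (_ : η * q ≤ δ)
    (_ : ThrOf (affsys m) S Pa) (_ : 0 ≤ θa) (_ : 0 < ω) (_ : ω ≤ 1) (_ : j < N')
    (_ : V'' j = 1 - ω) (_ : θa * (t + q) ≤ e₂ 3)
    (_ : L 2 (t + q) (t + q) ≤ alt Pa θa D c 2 (t + q) (t + q) + δi)
    (_ : δi + 2 * ε * q < (Sl 2 - 1) * ω * q) (_ : δi + ω * q < ζ * q) (_ : 0 ≤ ζ)
    (_ : (Ci * 21 * (1 / p) + ζ + (D * D + 4) * ξ) * q < δ),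
    Bas S (fun _ _ _ => False) := by
  obtain ⟨Cj, hevt⟩ := inv_evt D hD
  obtain ⟨Ci, hinv⟩ := inv_rec D hD
  refine ⟨Ci, ?_⟩
  intro m S al g₀ P θ P₂ θ₂ Eb e₂ c Pt rr h K₀ g L T' Sl κ' G' S₀ N A' V' S₂ N' V'' K ε q t
    Cn Dr Dr₁ DB Ka c₀ C₁ c₁ Ct A p x R₁ D' j Cw C₃ a η ξ δ ω ζ δi K₁ κ₁ κw κ₀ b Pa θa
    Rc hm hCn Pr hDr hDr₁ hDB hK hK₁ hκw hset hlab hκκ₀ hκ32 hκ16 hηδ hPa hθa hω hω1 hj hV hθe hal
    hδi hζ hζ0 hbud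
  have hq := Rc.q0
  have hη := Pr.η0
  have hε := Pr.ε0
  have hξ0 := Pr.ξ0
  have hp16 := Pr.p16
  have hp1 : 1 ≤ p := by omega
  have hxR := Pr.xR
  have hRA := Pr.RA
  have hA1 : 1 ≤ A := by omega
  have hA0 : (1 : ℝ) ≤ A := by exact_mod_cast hA1
  have ha := Pr.a2
  have hab := Pr.ab
  obtain ⟨s1, s2, s3, s4, s5, s6, s7, s8⟩ := Pr.set
  obtain ⟨J₁, hJ₁⟩ := clg_ex Cn DB c₀ C₁ c₁ Ct A p D' (a := Sl 2) ha hη hξ0 hq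
  obtain ⟨J₂, hJ₂⟩ := exists_nat_gt ((Cj + 1) / (ξ * q))
  obtain ⟨J₃, hJ₃⟩ := lin_lt' hbud (Ci * (20 * c₀ + 1) + 1)
  have hv := hinv Rc hm hPa hε hθa (W := 1) (ξ := ω) (δ := δi) (ζ := ζ * q) (by
      rw [abs_one]
      linarith) hω hω1 hj hV (by rw [one_mul]; exact hθe) (by rw [one_mul]; exact hal) hδi hζ
  refine Bas.mono (max J₁ (max J₂ J₃)) ((hset.and hv).and hlab) ?_
  rintro J hJ F A₀ ⟨⟨⟨B, z, gc, gT, gg, G, H, T, TH, Gt, Ht, hBB, hPB, W, B', xh, Tu, y, gx, θ',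
    Ev⟩, hv⟩, hnl⟩
  have Lg := hJ₁ J (by omega)
  have hJ0 : (0 : ℝ) ≤ J := Nat.cast_nonneg J
  have hqJ := Pr.Q0 Lg
  have hJ₃' := hJ₃ J (by omega)
  have hJ₂' : (Cj : ℝ) + 1 ≤ ξ * (q * J) := by
    have h1 : (J₂ : ℝ) ≤ J := by
      have : J₂ ≤ J := by omega
      exact_mod_cast this
    have h2 := hJ₂.le.trans h1
    rw [div_le_iff₀ (by positivity)] at h2
    linarith
  have hη1 : η ≤ 1 / p := by
    rw [le_div_iff₀ Pr.p0]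
    exact s2
  have hτ := Pr.τ0
  have f1 : (⌊1 / (p : ℝ) * q * J⌋₊ : ℝ) ≤ 1 / p * (q * J) :=
    (Nat.floor_le (by positivity)).trans (le_of_eq (by ring))
  have f2 : (⌊2 / (p : ℝ) * q * J⌋₊ : ℝ) ≤ 2 * (1 / p * (q * J)) :=
    (Nat.floor_le (by positivity)).trans (le_of_eq (by ring))
  have f3 : (⌊η * q * J⌋₊ : ℝ) ≤ 1 / p * (q * J) := by
    refine (Nat.floor_le (by positivity)).trans ?_
    rw [mul_assoc]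
    exact mul_le_mul_of_nonneg_right hη1 hqJ.le
  obtain ⟨u1, u2, -, u4, -, u6, u7⟩ := Pr.num Lg f1 f2 f3
  have eη : η * (q * (J : ℝ)) = η * q * J := by ring
  rw [eη] at u4
  obtain ⟨m₀, hm₀⟩ : ∃ m₀, m₀ = ⌊ξ * (q * J)⌋₊ := ⟨_, rfl⟩
  rw [← hm₀] at u1 u2 u4 u7
  have e1 : t + Wn A p (1 / p) (ixn A p ((A + 1) * p + 1)) * q = t + 1 * q := by
    rw [ixn_succ le_rfl, cixn_n hp1]
    rfl
  have hlv : ∀ l ≤ 3, ∀ x y : ℝ, lvN P c 3 (L 3) l x y = L l x y :=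
    fun l hl x y => by rw [← Rc.lv_at hm hl]
  have ev := W.wb.ev (ixn A p ((A + 1) * p + 1)) (ixn_le (by omega))
  have hsd : (gg (ixn A p ((A + 1) * p + 1)) 2 : ℝ) ≤ L 2 (t + 1 * q) (t + 1 * q) * J := by
    obtain ⟨-, h2⟩ := W.wb.sds (ixn A p ((A + 1) * p + 1)) (ixn_le (by omega)) 2 (by norm_num)
    rw [hlv 2 (by norm_num), e1] at h2
    exact h2
  obtain ⟨B'', v1, v2, v3⟩ := hv (B := B') (B' := B') (k := (A + 1) * p) (w := fun k =>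
      cw A p (1 / p) t q J (k + 1)) (g := fun k => gg (ixn A p (k + 1)))
    (G := fun k => G (ixn A p (k + 1))) (H := H (ixn A p ((A + 1) * p + 1)))
    (κ := 2 * κw) (κ' := 1) (Dr := Dr)
    (fun ω hω => hBB ω (Ev.sub ω hω)) Ev.frm le_rfl (by
      show ⌊(t + Wn A p (1 / p) (ixn A p ((A + 1) * p + 1)) * q) * J⌋₊ = _
      rw [e1])
    ((ev.ball.mono (show 3 ≤ 3 + 1 by norm_num) (fun _ => le_rfl) le_rfl le_rfl).sub Ev.sub)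
    (ev.relb.sub (κ₁ := 1 / 2) Ev.sub (by linarith [Ev.pe]) (by linarith) (by linarith)) hDr
    (fun _ h => h) (by linarith) (by linarith) hsd
  obtain ⟨xx, hxx⟩ : ∃ xx, xx = ⌊1 / (p : ℝ) * q * J⌋₊ := ⟨_, rfl⟩
  obtain ⟨hr, hhr⟩ : ∃ hr, hr = ⌊η * q * J⌋₊ := ⟨_, rfl⟩
  obtain ⟨B₃, k1, k2, Hp, k3, k4, k5⟩ := hevt W Ev hDB hκ16 (m₀ := m₀) (by
      have h1 := Nat.lt_floor_add_one (ξ * (q * (J : ℝ)))
      rw [← hm₀] at h1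
      have h2 : (Cj : ℝ) ≤ m₀ := by linarith
      exact_mod_cast h2) (by
      refine le_trans ?_ ((Nat.le_add_right _ _).trans u1)
      refine le_trans ?_ (Nat.le_mul_of_pos_left _ hCn)
      omega) (one_le_pow₀ (by norm_num)) (pow_le_pow_right₀ (by norm_num) u2) (by positivity)
    (pow_le_pow_right₀ (by norm_num) u4) v1 v2 v3
  have hB₃0 : 0 ≤ Pe F.p B₃ := Pe_nonneg F.isLaw B₃
  have hB₃' : Sub B₃ B' := fun ω' hω' => v1 ω' (k1 ω' hω')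
  have hPB3 : Pe F.p B ≤ 32 * Pe F.p B₃ := by
    have h1 := Ev.pe
    linarith
  have hPB2 : Pe F.p B ≤ 32 * (K₁ + 1) * Pe F.p B₃ := by
    have h1 : 0 ≤ K₁ * Pe F.p B₃ := by positivity
    linarith
  have hPA2 : Pe F.p A₀ ≤ 32 * (K₁ + 1) * Pe F.p B₃ := by
    have h1 := mul_le_mul_of_nonneg_left hPB3 hK₁.le
    linarith
  refine hnl (brg_fin Rc hm hp1 hη.le W Ev hDr₁ hκκ₀ hBB hB₃' hPA2 hPB2 hηδ ?_ k3 k4 k5)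
  rw [← hxx, ← hhr]
  rw [← hxx] at f1
  rw [← hhr] at f3
  push_cast
  have hCi : (0 : ℝ) ≤ Ci := Nat.cast_nonneg _
  have h1 := mul_le_mul_of_nonneg_left (show (hr : ℝ) + 20 * (c₀ + xx) + 1 ≤
    21 * (1 / p * (q * J)) + (20 * c₀ + 1) by linarith) hCi
  have h2 : (⌈ζ * q * J⌉₊ : ℝ) ≤ ζ * q * J + 1 :=
    (Nat.ceil_lt_add_one (by positivity)).le
  have h3 := mul_le_mul_of_nonneg_left u7 (show (0 : ℝ) ≤ D * D + 4 by positivity)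
  linarith

end Pool.CRC82
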