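import Pool.Agent.H82.CRC.Cmp
import Pool.Agent.H82.CRC.Cmq

/-!
# The conic theorem at a record

`con_par`: with the parameters chosen, at a record with a drop: the closed slope `BlX`, above the
threshold of degree one or at it.
-/

set_option autoImplicit false

namespace Pool.CRC82

open Finset Real MvPolynomial
open Pool.Agent.H49.Ent Pool.Agent.H32.Dense Pool.STK Pool.KA Pool.KSAT Pool.K2S Pool.PB Pool.S6C
open Pool.GEN Pool.CHT Pool.CHX Pool.ISO Pool.D2R Pool.D2G30 Pool.V1E Pool.PKG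
open Pool.LBT (ThrOf)
open Pool.LEV (Law)
open Pool.CR99
open Pool.CNC76 Pool.CNC28 Pool.CNC60 Pool.CNC78 Pool.AFF60

/-- **The choice of the parameters.** -/
theorem cpr_ex (Cn DB C₁ Ct Ka Ci A x R₁ D' n₂ : ℕ) {Cw C₃ a b δ₀ ρ : ℝ} (ha : 2 < a) (hab : a < b)
    (hCw : 1 ≤ Cw) (hC₃ : 1 ≤ C₃) (hδ : 0 < δ₀) (hδ1 : δ₀ ≤ 1) (hρ : 0 < ρ) (hρ1 : ρ ≤ 1)
    (hn₂ : 21 ≤ n₂) (hD' : 2 * a ≤ D') (hx : 2 * a + 1 ≤ x)
    (hR : 2 * a + 2 ≤ (b - a) * (R₁ - 1 - x)) (hRA : R₁ + 1 ≤ A) (hxR : x + 1 ≤ R₁) :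
    ∃ (p : ℕ) (η ξ ε₀ : ℝ), 0 < ε₀ ∧ ε₀ ≤ δ₀ / 128 ∧ 4 * ξ ≤ ρ ∧ 4 * η ≤ ρ ∧ n₂ * ξ ≤ δ₀ / 4 ∧
      η ≤ δ₀ ∧ Ci * 21 * (1 / p) ≤ δ₀ / 4 ∧
      ∀ ε : ℝ, 0 ≤ ε → ε ≤ ε₀ → CPr Cn DB C₁ Ct Ka A p x R₁ D' Cw C₃ a b η ε ξ := by
  obtain ⟨Λ, hΛ⟩ : ∃ Λ : ℝ, Λ = Cn * (1 + (Cn * (a + 3) + 1 + (a + 3)) + (1 + 20 * DB) + 20) +
      4 * C₁ + 10 * Ct + 4 + (a + 3) := ⟨_, rfl⟩
  have ha3 : 0 ≤ a + 3 := by linarith
  have hΛ4 : 4 ≤ Λ := by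
    rw [hΛ]
    have h1 : 0 ≤ Cn * (1 + (Cn * (a + 3) + 1 + (a + 3)) + (1 + 20 * (DB : ℝ)) + 20) := by
      positivity
    have h2 : (0 : ℝ) ≤ C₁ := Nat.cast_nonneg _
    have h3 : (0 : ℝ) ≤ Ct := Nat.cast_nonneg _
    linarith
  have hn0 : (21 : ℝ) ≤ n₂ := by exact_mod_cast hn₂
  obtain ⟨ξ, hξ⟩ : ∃ ξ : ℝ, ξ = δ₀ * ρ / (64 * n₂) := ⟨_, rfl⟩
  have hδρ : 0 < δ₀ * ρ := mul_pos hδ hρ
  have hξ0 : 0 < ξ := by rw [hξ]; positivity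
  have hξn : n₂ * ξ = δ₀ * ρ / 64 := by
    rw [hξ]
    field_simp
  have hδρ1 : δ₀ * ρ ≤ δ₀ := mul_le_of_le_one_right hδ.le hρ1
  have hδρ2 : δ₀ * ρ ≤ ρ := mul_le_of_le_one_left hρ.le hδ1
  have hξn' : ξ ≤ n₂ * ξ := le_mul_of_one_le_left hξ0.le (by linarith)
  have hD0 : 0 < a - 2 := by linarith
  obtain ⟨p, hp⟩ := exists_nat_gt (16 + 3 * Ka + 2 * Λ / ξ + 16 / (a - 2) + 84 * Ci / δ₀)
  have t1 : (0 : ℝ) ≤ 3 * Ka := by positivity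
  have t2 : 0 ≤ 2 * Λ / ξ := by
    have : 0 ≤ Λ := by linarith
    positivity
  have t3 : 0 ≤ 16 / (a - 2) := by positivity
  have t4 : 0 ≤ 84 * Ci / δ₀ := by positivity
  have hp0 : (0 : ℝ) < p := by linarith
  have hpξ : 2 * Λ / ξ ≤ p := by linarith
  rw [div_le_iff₀ hξ0] at hpξ
  have hpa : 16 / (a - 2) ≤ p := by linarith
  rw [div_le_iff₀ hD0] at hpa
  have hpC : 84 * Ci / δ₀ ≤ p := by linarith
  rw [div_le_iff₀ hδ] at hpC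
  have hB : 0 < 8 * (Cw + C₃ + 1) * p := by positivity
  obtain ⟨η, hη⟩ : ∃ η : ℝ, η = 1 / (8 * (Cw + C₃ + 1) * p) := ⟨_, rfl⟩
  have hη0 : 0 < η := by rw [hη]; positivity
  have hηe : 8 * (Cw + C₃ + 1) * (η * p) = 1 := by
    rw [hη]
    field_simp
  have hηp : 24 * (η * p) ≤ 1 := by
    rw [← hηe]
    exact mul_le_mul_of_nonneg_right (by linarith) (by positivity)
  have hηξ : η ≤ ξ := by
    have h1 : η * p ≤ ξ * p := by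
      have h2 : 8 ≤ ξ * p := by linarith
      linarith
    exact le_of_mul_le_mul_right h1 hp0
  have hηa : 16 * η ≤ a - 2 := by
    have h1 : 16 * η * p ≤ (a - 2) * p := by linarith
    exact le_of_mul_le_mul_right h1 hp0
  refine ⟨p, η, ξ, min (min (1 / (16 * p)) (η / (4 * Cw))) (min ((a - 2) / 16) (δ₀ / 128)), ?_, ?_,
    by linarith, by linarith, by linarith, by linarith, ?_, fun ε hε0 hε => ?_⟩
  · exact lt_min (lt_min (by positivity) (by positivity)) (lt_min (by positivity) (by positivity))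
  · exact (min_le_right _ _).trans (min_le_right _ _)
  · rw [mul_one_div, div_le_iff₀ hp0]
    linarith
  · have e1 := (hε.trans (min_le_left _ _)).trans (min_le_left _ _)
    have e2 := (hε.trans (min_le_left _ _)).trans (min_le_right _ _)
    have e3 := (hε.trans (min_le_right _ _)).trans (min_le_left _ _)
    rw [le_div_iff₀ (by positivity)] at e1 e2
    refine ⟨?_, ?_, ha, hab, hCw, hC₃, hη0, hηe.le, hε0, by linarith, ?_, by linarith, hξ0, ?_, ?_,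
      hD', hx, hR, hRA, hxR⟩
    · have h1 : (16 : ℝ) ≤ p := by linarith
      exact_mod_cast h1
    · have h1 : 3 * (Ka : ℝ) < p := by linarith
      exact_mod_cast h1
    · rcases hε0.lt_or_eq with h1 | h1
      · have h2 : 0 < Cw * ε := by positivity
        linarith
      · rw [← h1, mul_zero]
        exact hη0
    · linarith
    · rw [← hΛ]
      linarith

/-- **The conic theorem at a record.** -/
theorem con_par (S₂ : ℕ) (hS₂ : 1 ≤ S₂) : ∃ D : ℕ, 1 ≤ D ∧ ∀ {a b : ℝ} {A x R₁ : ℕ} {ρ del : ℝ},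
    2 < a → a < b → 2 * a + 1 ≤ x → 2 * a + 2 ≤ (b - a) * (R₁ - 1 - x) → R₁ + 1 ≤ A →
    x + 1 ≤ R₁ → 0 < ρ → ρ ≤ 1 → 0 < del → del ≤ 1 →
    ∃ (p : ℕ) (ω ε₀ M : ℝ), 1 ≤ p ∧ 0 < ω ∧ ω ≤ 1 ∧ 0 < ε₀ ∧ 0 < M ∧ ∀ {S : PCl 4} {al : ℝ}
    {g₀ : ℝ → ℝ} {P : List (Fin 4) × Fin 4 → ℝ → ℝ → ℝ} {θ : ℝ}
    {P₂ : ℕ → List (Fin 4) × Fin 4 → ℝ → ℝ → ℝ} {θ₂ Eb e₂ : ℕ → ℝ} {c : ℕ → Fin 4}
    {Pt : ℝ → ℝ → ℝ} {rr : ℝ → ℝ} {h K₀ g : ℝ} {L T' : ℕ → ℝ → ℝ → ℝ} {Sl : ℕ → ℝ}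
    {κ' : ℕ → Kg} {G' : Set ℝ} {S₀ N : ℕ} {A' V' : ℕ → ℝ} {N' : ℕ} {V'' : ℕ → ℝ}
    {K ε q t : ℝ} {Pa : (ℚ × ℕ) × (List (Fin 4) × Fin 4) → ℝ → ℝ → ℝ} {θa : ℚ},
    RecG S al g₀ P θ P₂ θ₂ Eb e₂ c Pt rr h K₀ g L T' Sl κ' G' S₀ N A' V' S₂ N' V'' K ε q t →
    S₀ ≤ S₂ → 0 ≤ ε → ε ≤ ε₀ → κ' 0 = .one → κ' 1 = .one → κ' 2 = .stp → Sl 2 = a → Sl 3 = b →
    (∃ j < N, A' j = a + 1 ∧ V' j = 0) → (∃ j < N, A' j = a + 1 ∧ V' j = 1) →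
    (∃ j < N, A' j = 1 ∧ V' j = 0) →
    (∀ k, 2 ≤ k → k ≤ (A + 1) * p + 6 → ∃ j < N', V'' j = Wn A p (1 / p) k) →
    (∃ j < N', V'' j = 1 - ω) → 2 * A + 12 ≤ K → a + 2 ≤ K →
    L 2 (t + q) t + del * q < L 2 (t + q) (t + q) → ThrOf (affsys 4) S Pa → 0 < θa →
    ((∃ x₀ d : ℝ, (∀ y, |y - x₀| ≤ d → alt Pa θa D c 2 y y + d ≤ L 2 y y) ∧
      |t + -(A : ℝ) * q - x₀| < d ∧ Eb 3 + 2 * q ≤ θa * (t + -(A : ℝ) * q) ∧ M * q < d) ∨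
    (∃ e : ℝ, 4 * e ≤ ω ∧ θa * (t + q) ≤ e₂ 3 ∧
      L 2 (t + q) (t + q) ≤ alt Pa θa D c 2 (t + q) (t + q) + e * q)) →
    ∃ κ : ℝ, 0 < κ ∧ BlX S c 2 (bmd D) (bmd D) (t + -(A : ℝ) * q)
      (L (2 + 1) (t + -(A : ℝ) * q) (t + -(A : ℝ) * q) - ρ * q) 1
      (fun _ => t - R₁ * q) (fun _ => L (2 + 1) (t - R₁ * q) (t - R₁ * q) - ρ * q)
      (fun _ => L 2 (t - R₁ * q) (t - R₁ * q) - L (2 + 1) (t - R₁ * q) (t - R₁ * q) + ρ * q)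
      κ := by
  obtain ⟨D, hD, hset⟩ := con_set 4 S₂ hS₂
  obtain ⟨Dr₁, hDr₁, hlab⟩ := lab_no2 2 S₂ D (by norm_num) hS₂
  obtain ⟨Cn, hCn, hvis⟩ := vis_cls D hD
  obtain ⟨Ci, hinv⟩ := inv_cls D hD
  have hDD : D ≤ D * D := Nat.le_mul_of_pos_left D hD
  obtain ⟨C, C₃, Ka, c₀, C₁, c₁, Ct, hC, hC₃, hc₀, hCt, hset⟩ :=
    hset (max Dr₁ (2 * (D * D))) (2 * (D * D)) (hDr₁.trans (le_max_left _ _)) (le_max_right _ _)
  obtain ⟨Dr, hDr⟩ : ∃ Dr, Dr = max Dr₁ (2 * (D * D)) := ⟨_, rfl⟩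
  rw [← hDr] at hset
  have hDrD : D ≤ Dr := by rw [hDr]; exact hDr₁.trans (le_max_left _ _)
  have hDrDr : Dr₁ ≤ Dr := by rw [hDr]; exact le_max_left _ _
  refine ⟨D, hD, ?_⟩
  intro a b A x R₁ ρ del ha hab hx hR hRA hxR hρ hρ1 hdel hdel1
  obtain ⟨D', hD'⟩ := exists_nat_ge (2 * a)
  obtain ⟨Cl₁, hCl₁, hlab₁⟩ := hlab ((D' + 3) * (D * D * (D * D)))
  obtain ⟨Cl₂, hCl₂, hlab₂⟩ := hlab (D * D * (D * D) + D * D)
  obtain ⟨δ₀, hδ₀⟩ : ∃ δ₀ : ℝ, δ₀ = del / (2 * (Cl₁ + Cl₂)) := ⟨_, rfl⟩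
  have hCl : 0 < 2 * (Cl₁ + Cl₂) := by linarith
  have hδ0 : 0 < δ₀ := by rw [hδ₀]; positivity
  have hδe : 2 * (Cl₁ + Cl₂) * δ₀ = del := by
    rw [hδ₀]
    field_simp
  have hδ1 : δ₀ ≤ 1 := by
    have h1 : 1 * δ₀ ≤ 2 * (Cl₁ + Cl₂) * δ₀ := mul_le_mul_of_nonneg_right (by linarith) hδ0.le
    linarith
  obtain ⟨p, η, ξ, ε₀, hε₀, hε₀δ, hξρ, hηρ, hnξ, hηδ, hCiτ, hcpr⟩ := cpr_ex Cn (2 * (D * D)) C₁ Ct
    Ka Ci A x R₁ D' (D * D + 21) ha hab hC hC₃ hδ0 hδ1 hρ hρ1 (by omega) hD' hx hR hRA hxR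
  have hp16 := (hcpr 0 le_rfl hε₀.le).p16
  have hp0 : (0 : ℝ) < p := (hcpr 0 le_rfl hε₀.le).p0
  have hη0 := (hcpr 0 le_rfl hε₀.le).η0
  have hξ0 := (hcpr 0 le_rfl hε₀.le).ξ0
  have hb0 : 0 < b := by linarith
  have hA1 : 1 ≤ A := by omega
  have hA0 : (1 : ℝ) ≤ A := by exact_mod_cast hA1
  refine ⟨p, δ₀ / 16, ε₀, 2 * (Cn * ((1 + a) * A + 1) + b * A + 2 * A + 11) + (η + 2 * ε₀),
    by omega, by positivity, by linarith, hε₀, by positivity, ?_⟩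
  intro S al g₀ P θ P₂ θ₂ Eb e₂ c Pt rr h K₀ g L T' Sl κ' G' S₀ N A' V' N' V'' K ε q t Pa θa Rc hS
    hε hεε hk0 hk1 hk2 hSa hSb hr0 hr1 hr2 hw hwi hK haK hdrop hPa hθa hcase
  have Pr := hcpr ε hε hεε
  obtain ⟨s1, s2, s3, s4, s5, s6, s7, s8⟩ := Pr.set
  have hq := Rc.q0
  have hη1 : η ≤ 1 := hηδ.trans hδ1
  obtain ⟨K₁, bb, hK₁, hset⟩ := hset Rc (by norm_num) hS hε hk0 hk1 hk2 (a := a + 1) (η := η)
    (g₂ := 1 / p) (x₁ := 1 / p) (g₁ := 2 / p) (A := A) (p := p) (by omega) hA1 (by positivity)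
    (by linarith [Pr.τ16, Pr.τ0]) hr0 hr1 hw hK (by linarith) (by linarith) (by linarith) hη0
    Pr.εη s1 s2 s3 s4 s5 s6 s7 s8
  obtain ⟨k, hkN, hkA, hkV⟩ := hr2
  have hκl : ∀ l < 2, κ' l = .one := fun l hl => by
    have : l = 0 ∨ l = 1 := by omega
    rcases this with rfl | rfl
    · exact hk0
    · exact hk1
  have hεδ : ε ≤ δ₀ := by linarith
  have hlabC : ∀ Cl : ℝ, 1 ≤ Cl → Cl ≤ Cl₁ + Cl₂ → Cl * (δ₀ * q + ε * q) ≤ del * q := by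
    intro Cl h1 h2
    have h3 : Cl * (δ₀ + ε) ≤ del := by
      have h4 := mul_le_mul_of_nonneg_left hεδ (show 0 ≤ Cl by linarith)
      have h5 := mul_le_mul_of_nonneg_right h2 hδ0.le
      linarith
    have h6 := mul_le_mul_of_nonneg_right h3 hq.le
    linarith
  have hηδq : η * q ≤ δ₀ * q := mul_le_mul_of_nonneg_right hηδ hq.le
  have hSK : Sl 2 + 2 ≤ K := by
    rw [hSa]
    exact haK
  have hε1 : ε ≤ 1 := by linarith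
  rcases hcase with ⟨x₀, d, v1, v2, v3, v4⟩ | ⟨e, i1, i2, i3⟩
  · -- the visible case
    obtain ⟨Ne, hNe⟩ := exists_nat_ge (2 * (p : ℝ) / q)
    rw [div_le_iff₀ hq] at hNe
    have hNe0 : (0 : ℝ) < Ne := by
      have h1 : 0 < (Ne : ℝ) * q := lt_of_lt_of_le (by positivity) hNe
      exact pos_of_mul_pos_left h1 hq.le
    obtain ⟨M₁, hM₁⟩ : ∃ M₁ : ℝ, M₁ = 2 * Ne * 2 ^ ((D + 1) * ((A + 1) * p + 1) + 12) := ⟨_, rfl⟩
    obtain ⟨K₂, hK₂⟩ : ∃ K₂ : ℝ, K₂ = (K₁ + 1) * (4 * (2 * Ne * 2 ^ ((D + 1) * ((A + 1) * p + 1) +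
      10))) := ⟨_, rfl⟩
    have hM₁0 : 0 < M₁ := by rw [hM₁]; positivity
    have hK₂0 : 0 < K₂ := by rw [hK₂]; positivity
    obtain ⟨κ₀, hκ₀, hnl⟩ := hlab₁ Rc (by linarith) hε (by norm_num) hκl hkN hkA hkV
      (η := δ₀ * q) (del := del) (by positivity) hdel1 (hlabC Cl₁ hCl₁ (by linarith)) hdrop hSK
      hε1 hK₂0
    obtain ⟨κ₂, hκ₂, hset⟩ := hset (1 / (2 * M₁ + 4)) (1 / 12) (by positivity) (by norm_num)
    obtain ⟨κw, hκw⟩ : ∃ κw : ℝ, κw = min κ₂ (min κ₀ (1 / (4 * M₁))) := ⟨_, rfl⟩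
    have hκw0 : 0 < κw := by
      rw [hκw]
      exact lt_min hκ₂ (lt_min hκ₀ (by positivity))
    have hκwκ₂ : κw ≤ κ₂ := by rw [hκw]; exact min_le_left _ _
    have hκwκ₀ : κw ≤ κ₀ := by rw [hκw]; exact (min_le_right _ _).trans (min_le_left _ _)
    have hκwM : κw ≤ 1 / (4 * M₁) := by rw [hκw]; exact (min_le_right _ _).trans (min_le_right _ _)
    rw [le_div_iff₀ (by positivity)] at hκwM
    refine ⟨2 * K₂, by positivity, ?_⟩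
    have hfin := hvis (Dr := Dr) (Dr₁ := Dr₁) (DB := 2 * (D * D)) (Dg := bmd D) (Ka := Ka)
      (c₀ := c₀) (C₁ := C₁) (c₁ := c₁) (Ct := Ct) (A := A) (p := p) (x := x) (R₁ := R₁) (D' := D')
      (Ne := Ne) (Cw := C) (C₃ := C₃) (a := a + 1) (η := η) (ξ := ξ) (ρ := ρ) (δ := δ₀ * q)
      (x₀ := x₀) (d := d) (K₁ := K₁) (κ₁ := 1 / (2 * M₁ + 4)) (κw := κw) (κ₀ := κ₀) (b := bb)
      (Pa := Pa) (θa := θa) Rc (by norm_num) (by rw [hSa, hSb]; exact Pr) hDrD hDrDr le_rfl le_rfl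
      (by omega) hK hK₁ hκw0.le (hset κw hκw0 hκwκ₂) (by rw [← hK₂]; exact hnl)
      (by linarith) hκwκ₀ (by rw [← hM₁]; linarith) (by
        rw [← hM₁, one_div_mul_eq_div, div_mul_eq_mul_div, div_le_one (by positivity)]
        linarith) (by
        rw [mul_one_div, div_le_one (by positivity)]
        linarith) hρ hρ1 hξρ hηρ (by
        have h1 := mul_le_mul_of_nonneg_right hnξ hq.le
        have h2 : 0 ≤ δ₀ * q := by positivity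
        linarith) hηδq hPa v1 hθa v2 (by
        have h1 := mul_le_mul_of_nonneg_right hη1 hq.le
        linarith) (by
        rw [hSa, hSb]
        have h1 := mul_le_mul_of_nonneg_right hεε hq.le
        linarith)
    rw [← hK₂] at hfin
    exact hfin
  · -- the invisible case
    obtain ⟨κ₀, hκ₀, hnl⟩ := hlab₂ Rc (by linarith) hε (by norm_num) hκl hkN hkA hkV
      (η := δ₀ * q) (del := del) (by positivity) hdel1 (hlabC Cl₂ hCl₂ (by linarith)) hdrop hSK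
      hε1 (K₁ := 32 * (K₁ + 1)) (by positivity)
    obtain ⟨κ₂, hκ₂, hset⟩ := hset (1 / 16) (1 / 12) (by norm_num) (by norm_num)
    obtain ⟨κw, hκw⟩ : ∃ κw : ℝ, κw = min κ₂ (min κ₀ (1 / 32)) := ⟨_, rfl⟩
    have hκw0 : 0 < κw := by
      rw [hκw]
      exact lt_min hκ₂ (lt_min hκ₀ (by positivity))
    have hκwκ₂ : κw ≤ κ₂ := by rw [hκw]; exact min_le_left _ _
    have hκwκ₀ : κw ≤ κ₀ := by rw [hκw]; exact (min_le_right _ _).trans (min_le_left _ _)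
    have hκw32 : κw ≤ 1 / 32 := by rw [hκw]; exact (min_le_right _ _).trans (min_le_right _ _)
    obtain ⟨j, hj, hjV⟩ := hwi
    refine ⟨1, one_pos, ?_⟩
    have hω0 : 0 < δ₀ / 16 * q := by positivity
    have heq : e * q ≤ δ₀ / 64 * q := mul_le_mul_of_nonneg_right (by linarith) hq.le
    have hεq : ε * q ≤ δ₀ / 128 * q := mul_le_mul_of_nonneg_right (by linarith) hq.le
    have hfin := hinv (Cn := Cn) (Dr := Dr) (Dr₁ := Dr₁) (DB := 2 * (D * D)) (Ka := Ka)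
      (c₀ := c₀) (C₁ := C₁) (c₁ := c₁) (Ct := Ct) (A := A) (p := p) (x := x) (R₁ := R₁) (D' := D')
      (j := j) (Cw := C) (C₃ := C₃) (a := a + 1) (η := η) (ξ := ξ) (δ := δ₀ * q) (ω := δ₀ / 16)
      (ζ := δ₀ / 4) (δi := e * q) (K₁ := K₁) (κ₁ := 1 / 16) (κw := κw) (κ₀ := κ₀) (b := bb)
      (Pa := Pa) (θa := θa) Rc (by norm_num) hCn (by rw [hSa, hSb]; exact Pr) hDrD hDrDr
      (Nat.le_mul_of_pos_left _ (by norm_num)) hK hK₁ hκw0.le (hset κw hκw0 hκwκ₂) hnl hκwκ₀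
      (by linarith) (by norm_num) hηδq hPa hθa.le (by positivity) (by linarith) hj hjV i2 i3 (by
        rw [hSa]
        have h1 : 1 * (δ₀ / 16 * q) ≤ (a - 1) * (δ₀ / 16 * q) :=
          mul_le_mul_of_nonneg_right (by linarith) hω0.le
        linarith) (by linarith) (by positivity) (by
        refine mul_lt_mul_of_pos_right ?_ hq
        push_cast at hnξ
        linarith)
    exact Bas.mono 0 hfin fun J _ F A₀ h => h.elim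

end Pool.CRC82
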