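import Pool.Agent.H82.CRC.Cmr
import Pool.Agent.H76.CNC.Afq
import Pool.Agent.H99.D2.Ref

/-!
# The conic theorem: the supply of the closed slope

`con_bl`: the supply `BlSup` of the closed slope of the coordinate 3 over the place 2, for slopes
`2 < Sl 2 < Sl 3`.
-/

set_option autoImplicit false

namespace Pool.CRC82

open Finset Real MvPolynomial
open Pool.Agent.H49.Ent Pool.Agent.H32.Dense Pool.STK Pool.KA Pool.KSAT Pool.K2S Pool.PB Pool.S6C
open Pool.GEN Pool.CHT Pool.CHX Pool.ISO Pool.D2R Pool.D2G30 Pool.V1E Pool.PKG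
open Pool.LBT (ThrOf)
open Pool.LEV (Law)
open Pool.CR99
open Pool.CNC76 Pool.AFF60

/-- `BlX` with worse numbers. -/
theorem blx_mono {m : ℕ} {S : PCl m} {c : ℕ → Fin m} {r K K₁ n : ℕ} {w P P' : ℝ}
    {v p₁ p₁' x₀ x₀' : ℕ → ℝ} {κ : ℝ} (h : BlX S c r K K₁ w P n v p₁ x₀ κ) (hP : P' ≤ P)
    (hp : ∀ k < n, p₁' k ≤ p₁ k) (hx : ∀ k < n, x₀ k ≤ x₀' k) :
    BlX S c r K K₁ w P' n v p₁' x₀' κ := by
  refine Bas.mono 0 h ?_
  rintro J - F A ⟨B, h1, h2, V, z, z', G, Q, h3, h4, h5⟩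
  have hJ0 : (0 : ℝ) ≤ J := Nat.cast_nonneg J
  refine ⟨B, h1, h2, V, z, z', G, Q, h3, (mul_le_mul_of_nonneg_right hP hJ0).trans h4,
    fun k hk => ?_⟩
  obtain ⟨V₁, z₁, z₁', G₁, P₁, e1, e2, e3⟩ := h5 k hk
  refine ⟨V₁, z₁, z₁', G₁, P₁, e1, (mul_le_mul_of_nonneg_right (hp k hk) hJ0).trans e2,
    fun ω hω => (e3 ω hω).trans ?_⟩
  exact Real.rpow_le_rpow_of_exponent_le (by norm_num)
    (mul_le_mul_of_nonneg_right (hx k hk) hJ0)

/-- The number of steps back, for the slope of `N`. -/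
noncomputable def xN (Sl : ℕ → ℝ) : ℕ := ⌈2 * Sl 2 + 1⌉₊

/-- **The radius of the supply.** -/
noncomputable def rN (Sl : ℕ → ℝ) : ℕ := xN Sl + 1 + ⌈(2 * Sl 2 + 2) / (Sl 3 - Sl 2)⌉₊

/-- **The supply of the closed slope.** -/
theorem con_bl {h : ℝ} {Sl : ℕ → ℝ} (ha : 2 < Sl 2) (hab : Sl 2 < Sl 3) {Λ : Type}
    (hΛ : Nonempty Λ) (Z : PropZ 4 Λ) :
    BlSup 4 2 h Sl (kg4 .one .one .stp .stp) (AffQ 2 : PropG 4 (ℚ × ℕ × ℚ)) Z (rN Sl) := by
  intro al hal K₀ hK₀ del hdel S₀ hS₀ R₀ hR₀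
  obtain ⟨A, hA⟩ : ∃ A : ℕ, A = max (rN Sl + 1) ⌈R₀⌉₊ := ⟨_, rfl⟩
  have hRA : rN Sl + 1 ≤ A := by rw [hA]; exact le_max_left _ _
  have hR₀A : R₀ ≤ A := (Nat.le_ceil R₀).trans (by
    rw [hA]
    exact_mod_cast le_max_right _ _)
  have hx : 2 * Sl 2 + 1 ≤ xN Sl := Nat.le_ceil _
  have hxR : xN Sl + 1 ≤ rN Sl := Nat.le_add_right _ _
  have hd0 : 0 < Sl 3 - Sl 2 := by linarith
  have hR : 2 * Sl 2 + 2 ≤ (Sl 3 - Sl 2) * ((rN Sl : ℝ) - 1 - xN Sl) := by
    have h1 : (rN Sl : ℝ) - 1 - xN Sl = (⌈(2 * Sl 2 + 2) / (Sl 3 - Sl 2)⌉₊ : ℕ) := by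
      unfold rN
      push_cast
      ring
    rw [h1]
    have h2 := Nat.le_ceil ((2 * Sl 2 + 2) / (Sl 3 - Sl 2))
    rw [div_le_iff₀ hd0] at h2
    linarith
  refine ⟨-(A : ℝ), by linarith, Sl 2 + 2, 3, fun k => if k = 2 then 1 else Sl 2 + 1,
    fun k => if k = 1 then 1 else 0, by linarith, fun k hk => ?_, fun S₂ hS₂ => ?_⟩
  · have h3 : k = 0 ∨ k = 1 ∨ k = 2 := by omega
    rcases h3 with rfl | rfl | rfl
    · norm_num
      constructor <;> linarith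
    · norm_num
      constructor <;> linarith
    · norm_num
      constructor <;> linarith
  obtain ⟨D, hD, hpar⟩ := con_par S₂ (hS₀.trans hS₂)
  refine ⟨bmd D, fun dd _ => ⟨1, 0, one_pos, fun φ _ _ kf _ ρ hρ => ?_⟩⟩
  obtain ⟨p, ω, ε₀, M, hp, hω, hω1, hε₀, hM, hpar⟩ := hpar (A := A) (x := xN Sl) (R₁ := rN Sl)
    (ρ := min ρ 1) (del := min del 1) ha hab hx hR hRA hxR (lt_min hρ one_pos) (min_le_right _ _)
    (lt_min hdel one_pos) (min_le_right _ _)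
  have hA0 : (0 : ℝ) ≤ A := Nat.cast_nonneg A
  obtain ⟨lam⟩ := hΛ
  refine ⟨lam, 2 * A + 12 + (Sl 2 + 2) + K₀, (A + 1) * p + 8,
    fun k => if k = (A + 1) * p + 7 then 1 - ω else Wn A p (1 / p) k, fun k hk => ?_,
    fun K' hK' => ⟨ε₀, hε₀, ?_⟩⟩
  · have hp1 : (1 : ℝ) ≤ p := by exact_mod_cast hp
    beta_reduce
    split_ifs with h1
    · constructor <;> linarith
    · obtain ⟨h2, h3⟩ := Wn_le (A := A) (g₂ := 1 / (p : ℝ)) hp (by positivity)
        (k := k) (by omega) (by rw [div_le_one (by linarith)]; exact hp1)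
      constructor <;> linarith
  intro ε hε hεε S g₀ P θ P₂ θ₂ Eb e₂ c Pt rt L T G g hG hg hder hZ
  obtain ⟨e, he0, he⟩ : ∃ e : ℚ, 0 < e ∧ 4 * (e * (K₀ + 1)) ≤ ω := by
    obtain ⟨e, h1, h2⟩ := exists_rat_btwn (show 0 < ω / (4 * (K₀ + 1)) by positivity)
    refine ⟨e, by exact_mod_cast h1, ?_⟩
    rw [lt_div_iff₀ (by positivity)] at h2
    linarith
  by_cases hθ : ∃ θa : ℚ, 0 < θa ∧ Eb 3 < θa * g ∧ θa * g < e₂ 3 ∧ L 2 g g + θa * g < 1
  swap
  · -- no gradients: no record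
    refine ⟨fun _ => (0, 0, 0), 0, fun _ => 0, fun _ => 1, fun j hj => absurd hj (Nat.not_lt_zero j),
      fun k₀ _ => ⟨1, one_pos, ?_⟩⟩
    intro q t x hq _ N A' V N' V' Rc
    exfalso
    refine hθ ?_
    have hq0 := Rc.q0
    have ht0 := Rc.t0
    have hKK : K₀ ≤ K' := by linarith
    have hKq : K₀ * q ≤ K' * q := mul_le_mul_of_nonneg_right hKK hq0.le
    have hKq0 : 0 < K₀ * q := by positivity
    have hgt : |g - t| ≤ K' * q := by
      rw [abs_sub_comm]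
      exact Rc.near.trans hKq
    have hg0 : 0 < g := by
      have := (abs_le.1 hgt).1
      linarith
    have Tg := Rc.tg 3 (by norm_num) (by norm_num)
    have h1 := Tg.Eb0
    have h2 := Tg.Ebe
    have h3 := Tg.room 2 (by norm_num) g hgt
    obtain ⟨θa, h4, h5⟩ := exists_rat_btwn (show Eb 3 / g < min (e₂ 3) (1 - L 2 g g) / g by
      refine div_lt_div_of_pos_right (lt_min ?_ ?_) hg0 <;> linarith)
    rw [div_lt_iff₀ hg0] at h4
    rw [lt_div_iff₀ hg0] at h5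
    refine ⟨θa, ?_, h4, h5.trans_le (min_le_left _ _), ?_⟩
    · have h6 : 0 < (θa : ℝ) * g := h1.trans h4
      have h7 : 0 < (θa : ℝ) := pos_of_mul_pos_left h6 hg0.le
      exact_mod_cast h7
    · have := h5.trans_le (min_le_right _ _)
      linarith
  obtain ⟨θa, hθ0, hθ1, hθ2, hθ3⟩ := hθ
  refine ⟨fun _ => (θa, D, e), 1, fun _ => 0, fun _ => 1, fun _ _ => one_pos, fun k₀ hk₀ => ?_⟩
  obtain ⟨Pa, hPa, hcase⟩ := hk₀ 0 one_pos (by norm_num) hθ0.le hθ3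
  have hθR : (0 : ℝ) < θa := by exact_mod_cast hθ0
  obtain ⟨d, hd⟩ : ∃ d : ℝ, d = 1 / 2 ^ k₀ 0 := ⟨_, rfl⟩
  have hd0 : 0 < d := by rw [hd]; positivity
  obtain ⟨Y, hY⟩ : ∃ Y : ℝ, Y = 2 + θa * (K₀ + A + 1) + (K₀ + A + 1) + M := ⟨_, rfl⟩
  have hY0 : 0 < Y := by rw [hY]; positivity
  obtain ⟨gp, hgp⟩ : ∃ gp : ℝ, gp = min (min (θa * g - Eb 3) (e₂ 3 - θa * g)) d := ⟨_, rfl⟩
  have hgp0 : 0 < gp := by
    rw [hgp]
    exact lt_min (lt_min (by linarith) (by linarith)) hd0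
  have hgp1 : gp ≤ θa * g - Eb 3 := by
    rw [hgp]
    exact (min_le_left _ _).trans (min_le_left _ _)
  have hgp2 : gp ≤ e₂ 3 - θa * g := by
    rw [hgp]
    exact (min_le_left _ _).trans (min_le_right _ _)
  have hgp3 : gp ≤ d := by
    rw [hgp]
    exact min_le_right _ _
  refine ⟨gp / Y, by positivity, ?_⟩
  intro q t x hq _ N A' V N' V' Rc hrow hwin pf pr Nf _ _ _ _
  have hq0 := Rc.q0
  have ht0 := Rc.t0
  have hYq : Y * q < gp := by
    rw [lt_div_iff₀ hY0] at hq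
    linarith
  have hKK : K₀ ≤ K' := by linarith
  obtain ⟨n1, n2⟩ := abs_le.1 Rc.near
  have hYq' : 2 * q + θa * (K₀ + A + 1) * q + (K₀ + A + 1) * q + M * q < gp := by
    rw [hY] at hYq
    linarith
  have p1 : 0 ≤ θa * (K₀ + A + 1) * q := by positivity
  have p2 : 0 ≤ (K₀ + A + 1) * q := by positivity
  have p3 : 0 ≤ M * q := by positivity
  have p4 : 0 ≤ A * q := by positivity
  have p5 : 0 ≤ K₀ * q := by positivity
  by_cases hdrop : L 2 (t + q) (t + q) ≤ L 2 (t + q) t + del * q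
  · exact Or.inl (Or.inr hdrop)
  right
  rw [not_le] at hdrop
  have hdel' : min del 1 * q ≤ del * q := mul_le_mul_of_nonneg_right (min_le_left _ _) hq0.le
  have hθA : (θa : ℝ) * (t + -(A : ℝ) * q) ≥ θa * g - θa * (K₀ + A + 1) * q := by
    have h1 : g - (K₀ + A + 1) * q ≤ t + -(A : ℝ) * q := by linarith
    have h2 := mul_le_mul_of_nonneg_left h1 hθR.le
    linarith
  have hθt : (θa : ℝ) * (t + q) ≤ θa * g + θa * (K₀ + A + 1) * q := by
    have h1 : t + q ≤ g + (K₀ + A + 1) * q := by linarith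
    have h2 := mul_le_mul_of_nonneg_left h1 hθR.le
    linarith
  obtain ⟨κ, hκ, hbl⟩ := hpar Rc hS₂ hε.le hεε rfl rfl rfl rfl rfl
    (by
      obtain ⟨j, h1, h2, h3⟩ := hrow 0 (by norm_num)
      exact ⟨j, h1, by simpa using h2, by simpa using h3⟩)
    (by
      obtain ⟨j, h1, h2, h3⟩ := hrow 1 (by norm_num)
      exact ⟨j, h1, by simpa using h2, by simpa using h3⟩)
    (by
      obtain ⟨j, h1, h2, h3⟩ := hrow 2 (by norm_num)
      exact ⟨j, h1, by simpa using h2, by simpa using h3⟩)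
    (fun k h2 hk => by
      obtain ⟨j, h1, h3⟩ := hwin k (by omega)
      beta_reduce at h3
      rw [if_neg (by omega)] at h3
      exact ⟨j, h1, h3⟩)
    (by
      obtain ⟨j, h1, h3⟩ := hwin ((A + 1) * p + 7) (by omega)
      beta_reduce at h3
      rw [if_pos rfl] at h3
      exact ⟨j, h1, h3⟩) (by linarith) (by linarith) (by linarith) hPa hθ0 (by
      rcases hcase with hv | hi
      · left
        refine ⟨g, d, fun y hy => ?_, ?_, by linarith, by linarith⟩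
        · rw [hd] at hy ⊢
          exact hv y hy
        · rw [abs_lt]
          constructor <;> linarith
      · right
        refine ⟨e * (K₀ + 1), he, by linarith, ?_⟩
        have h1 : |t + q - g| ≤ (K₀ + 1) * q := by
          rw [abs_le]
          constructor <;> linarith
        have h2 := hi he0 (t + q) (by
          rw [← hd]
          linarith)
        have h3 : (e : ℝ) * |t + q - g| ≤ e * ((K₀ + 1) * q) :=
          mul_le_mul_of_nonneg_left h1 (by exact_mod_cast he0.le)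
        linarith)
  have hρq : min ρ 1 * q ≤ ρ * q := mul_le_mul_of_nonneg_right (min_le_left _ _) hq0.le
  exact ⟨S, Rc.ne, fun _ _ _ _ h => h, κ, hκ, blx_mono hbl (by linarith)
    (fun _ _ => by linarith) (fun _ _ => by linarith)⟩

end Pool.CRC82
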