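import Pool.Agent.H82.CNC.Cnm
import Pool.Agent.H3.D2G.RecN

/-!
# The numbers of the affine frame at a record

`afnn_rec`: `AfNN` for windows of a record.
-/

set_option autoImplicit false

namespace Pool.CRC82

open Finset Real MvPolynomial
open Pool.Agent.H49.Ent Pool.Agent.H32.Dense Pool.STK Pool.KA Pool.KSAT Pool.K2S Pool.PB Pool.S6C
open Pool.GEN Pool.CHT Pool.CHX Pool.ISO Pool.D2R Pool.D2G30 Pool.V1E Pool.PKG
open Pool.LBT (ThrOf)
open Pool.LEV (Law)
open Pool.AFF82 (IsW AfNN)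

/-- **The numbers of the affine frame** at a record. -/
theorem afnn_rec {m : ℕ} {S : PCl m} {al : ℝ} {g₀ : ℝ → ℝ}
    {P : List (Fin m) × Fin m → ℝ → ℝ → ℝ} {θ : ℝ}
    {P₂ : ℕ → List (Fin m) × Fin m → ℝ → ℝ → ℝ} {θ₂ Eb e₂ : ℕ → ℝ} {c : ℕ → Fin m}
    {Pt : ℝ → ℝ → ℝ} {rr : ℝ → ℝ} {h K₀ g : ℝ} {L T : ℕ → ℝ → ℝ → ℝ} {Sl : ℕ → ℝ}
    {κ : ℕ → Kg} {G : Set ℝ} {S₀ N : ℕ} {A V : ℕ → ℝ} {S₂ N' : ℕ} {V' : ℕ → ℝ} {K ε q t : ℝ}
    (Rc : RecG S al g₀ P θ P₂ θ₂ Eb e₂ c Pt rr h K₀ g L T Sl κ G S₀ N A V S₂ N' V' K ε q t)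
    {r : ℕ} (hr : 2 ≤ r) (hrm : r < m) (hS1 : Sl 1 = 1) (hε : 0 ≤ ε) {C η : ℝ} (hC : 1 ≤ C)
    (hη : 0 ≤ η) {W : ℕ → ℝ} {n iF iQ : ℕ} {ix : ℕ → ℕ} {Ka : ℕ} {x₁ g₁ : ℝ}
    (hW : ∀ i, IsW n iF iQ ix i → -K + 1 ≤ W i ∧ W i + 1 ≤ K)
    (hcl : ∃ j < N', V' j = W (ix n)) (hg₁ : 0 ≤ g₁) (hx₁ : 4 * ε + (C + 1) * η < x₁)
    (hx1 : x₁ + η ≤ 1)
    (hFk : ∀ k ≤ n, W iF + η ≤ W (ix k)) (hFQ : W iF + η ≤ W iQ)
    (hBk : ∀ k ≤ n, W (ix 0) ≤ W (ix k)) (hkn : ∀ k ≤ n, W (ix k) ≤ W (ix n))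
    (hQn : 2 * ε + (C + 1) * η < W (ix n) - W iQ)
    (hgn : W (ix n) - W iQ + 2 * ε + η < g₁)
    (hsQ : Ka * (x₁ + g₁) < W iQ - W (ix 0))
    (hsM : Ka * (x₁ + g₁) < W (ix 0) - W iF - (W iQ - W (ix 0)))
    (hK : 2 * η + Ka * (x₁ + g₁) + (W iQ - W (ix 0)) ≤ 3 * K) :
    ∃ (aq : ℚ) (h' : ℝ), AfNN (P₂ r) c n iF iQ ix (θ₂ r) C (Eb r) (η * q) (2 * ε * q) (x₁ * q) Ka
      (fun k => t + W k * q) (fun k l => lvN P c r (L r) l (t + W k * q) (t + W k * q)) aq (e₂ r)
      h' (g₁ * q) := by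
  have hq := Rc.q0
  have ht0 := Rc.t0
  have ht1 := Rc.t1
  have Tg := Rc.tg r (by omega) hrm
  have hlv : ∀ l ≤ r, ∀ x y : ℝ, lvN P c r (L r) l x y = L l x y :=
    fun l hl x y => by rw [← Rc.lv_at hrm hl]
  have mq : ∀ {a b : ℝ}, a ≤ b → a * q ≤ b * q := fun h => mul_le_mul_of_nonneg_right h hq.le
  have mq' : ∀ {a b : ℝ}, a < b → a * q < b * q := fun h => mul_lt_mul_of_pos_right h hq
  have hWq : ∀ i, IsW n iF iQ ix i → -(K * q) + q ≤ W i * q ∧ W i * q + q ≤ K * q := fun i hi => by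
    have h1 := mq (hW i hi).1
    have h2 := mq (hW i hi).2
    constructor <;> linarith
  have hWx : ∀ i, IsW n iF iQ ix i → |t + W i * q - t| ≤ K * q := fun i hi => by
    obtain ⟨h1, h2⟩ := hWq i hi
    rw [abs_le]
    constructor <;> linarith
  have iF' : IsW n iF iQ ix iF := Or.inl rfl
  have iQ' : IsW n iF iQ ix iQ := Or.inr (Or.inl rfl)
  have ik' : ∀ k ≤ n, IsW n iF iQ ix (ix k) := fun k hk => Or.inr (Or.inr ⟨k, hk, rfl⟩)
  have hSl : ∀ l < 2, Sl l = 1 := fun l hl => by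
    rcases l with _ | _ | l
    · exact Rc.s0
    · exact hS1
    · omega
  have hKa : (0 : ℝ) ≤ Ka := Nat.cast_nonneg Ka
  have hx0 : 0 ≤ x₁ := by
    have : 0 ≤ (C + 1) * η := mul_nonneg (by linarith) hη
    linarith
  have hKx : 0 ≤ Ka * (x₁ + g₁) := mul_nonneg hKa (by linarith)
  have hεq : 0 ≤ ε * q := mul_nonneg hε hq.le
  have hηq : 0 ≤ η * q := mul_nonneg hη hq.le
  -- the closing window
  obtain ⟨j, hj, hV⟩ := hcl
  obtain ⟨gap, hgap⟩ : ∃ gap : ℝ, gap = (g₁ - (W (ix n) - W iQ + 2 * ε + η)) * q := ⟨_, rfl⟩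
  have hgap0 : 0 < gap := by rw [hgap]; exact mul_pos (by linarith) hq
  obtain ⟨e', he'⟩ : ∃ e' : ℝ, e' = min (gap / 4) (q / 4) := ⟨_, rfl⟩
  have he'0 : 0 < e' := by rw [he']; positivity
  have he1 : e' ≤ gap / 4 := by rw [he']; exact min_le_left _ _
  have he2 : e' ≤ q / 4 := by rw [he']; exact min_le_right _ _
  obtain ⟨d, hd, hrat⟩ := Tg.ratc j hj e' he'0
  rw [hV] at hrat
  obtain ⟨xn, hxn⟩ : ∃ xn : ℝ, xn = t + W (ix n) * q := ⟨_, rfl⟩
  rw [← hxn] at hrat
  obtain ⟨aq, ha1, ha2⟩ := exists_rat_btwn (show xn < xn + min d (q / 4) by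
    have : 0 < min d (q / 4) := by positivity
    linarith)
  have ha3 : (aq : ℝ) ≤ xn + d := ha2.le.trans (by linarith [min_le_left d (q / 4)])
  have ha4 : (aq : ℝ) ≤ xn + q / 4 := ha2.le.trans (by linarith [min_le_right d (q / 4)])
  have hbet := hrat aq ha1.le ha3
  obtain ⟨n1, n2⟩ := hWq (ix n) (ik' n le_rfl)
  obtain ⟨b1, b2⟩ := hWq (ix 0) (ik' 0 (Nat.zero_le _))
  have hlvl : ∀ i, IsW n iF iQ ix i → ∀ l < 2, |L l (t + W i * q) (t + W i * q) - L l t t -
      W i * q| ≤ ε * q := fun i hi l hl => by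
    have h1 := Rc.dL l (by omega) _ (hWx i hi)
    rw [hSl l hl, one_mul, show t + W i * q - t = W i * q by ring] at h1
    exact h1
  have hroom : ∀ l < 2, L l xn xn + Eb r + 3 * K * q < 1 := fun l hl => by
    rw [hxn]
    exact Tg.room l (by omega) _ (hWx _ (ik' n le_rfl))
  have hroomB : ∀ l < 2, L l (t + W (ix 0) * q) (t + W (ix 0) * q) + Eb r + 3 * K * q < 1 :=
    fun l hl => Tg.room l (by omega) _ (hWx _ (ik' 0 (Nat.zero_le _)))
  have hE0 := Tg.Eb0
  have hK0 : 0 ≤ K * q := by linarith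
  have hbxn : ∀ l < 2, L l xn xn ≤ L l (t + W (ix 0) * q) (t + W (ix 0) * q) +
      (W (ix n) * q - W (ix 0) * q) + 2 * (ε * q) := fun l hl => by
    have h1 := abs_le.1 (hlvl _ (ik' n le_rfl) l hl)
    have h2 := abs_le.1 (hlvl _ (ik' 0 (Nat.zero_le _)) l hl)
    rw [← hxn] at h1
    linarith [h1.2, h2.1]
  have hC1 : (C + 1) * (η * q) = (C + 1) * η * q := by ring
  refine ⟨aq, e', ?_⟩
  exact
    { C1 := hC
      η0 := hηq
      ζ0 := by positivity
      χ0 := by
        have := mq' hx₁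
        have e1 : (4 * ε + (C + 1) * η) * q = 2 * (2 * ε * q) + (C + 1) * (η * q) := by ring
        linarith
      E0 := hE0.le
      gn0 := mul_nonneg hg₁ hq.le
      oF := by
        have := (hWq iF iF').1
        show 0 ≤ t + W iF * q
        linarith
      oFk := fun k hk => by
        have := mq (hFk k hk)
        show t + W iF * q + η * q ≤ t + W (ix k) * q
        linarith
      oFQ := by
        have := mq hFQ
        show t + W iF * q + η * q ≤ t + W iQ * q
        linarith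
      oBk := fun k hk => by
        have := mq (hBk k hk)
        show t + W (ix 0) * q ≤ t + W (ix k) * q
        linarith
      okn := fun k hk => by
        have := mq (hkn k hk)
        show t + W (ix k) * q ≤ t + W (ix n) * q
        linarith
      oQn := by
        have := mq' hQn
        have e1 : (2 * ε + (C + 1) * η) * q = 2 * ε * q + (C + 1) * (η * q) := by ring
        show 2 * ε * q + (C + 1) * (η * q) < t + W (ix n) * q - (t + W iQ * q)
        linarith
      onq := by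
        show t + W (ix n) * q ≤ aq
        rw [← hxn]
        exact ha1.le
      a1 := by
        have : xn + q ≤ t + K * q := by rw [hxn]; linarith
        linarith
      ea := by
        have h1 := Tg.eθ xn (by rw [hxn]; exact hWx _ (ik' n le_rfl))
        exact h1.trans_le (mul_le_mul_of_nonneg_left ha1.le Tg.th₂0.le)
      h0 := he'0
      b1 := fun l hl => by
        have h1 := hbet l (by omega)
        have h2 := hroom l hl
        have : q ≤ 3 * K * q := by linarith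
        linarith
      gain := fun l hl => by
        have h1 := hbet l (by omega)
        have h2 := hbxn l hl
        have h3 := ha1.le
        show bet (P₂ r) c l aq aq + e' + (t + W (ix n) * q) + η * q <
          lvN P c r (L r) l (t + W (ix 0) * q) (t + W (ix 0) * q) +
            (t + W iQ * q - (t + W (ix 0) * q)) + g₁ * q + aq
        rw [hlv l (by omega), ← hxn]
        have e1 : gap = g₁ * q - (W (ix n) * q - W iQ * q + 2 * (ε * q) + η * q) := by
          rw [hgap]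
          ring
        linarith
      lvz := fun i hi l hl => by
        show |lvN P c r (L r) l (t + W i * q) (t + W i * q) - (t + W i * q) -
          (lvN P c r (L r) l (t + W (ix 0) * q) (t + W (ix 0) * q) - (t + W (ix 0) * q))| ≤
            2 * ε * q
        rw [hlv l (by omega), hlv l (by omega)]
        have h1 := abs_le.1 (hlvl i hi l hl)
        have h2 := abs_le.1 (hlvl _ (ik' 0 (Nat.zero_le _)) l hl)
        rw [abs_le]
        constructor <;> linarith [h1.1, h1.2, h2.1, h2.2]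
      lv0 := by
        show x₁ * q + η * q < lvN P c r (L r) 0 (t + W (ix 0) * q) (t + W (ix 0) * q)
        rw [hlv 0 (by omega)]
        have h1 := Rc.low_at (i := 0) (by omega) (a := t + W (ix 0) * q) (w := t + W (ix 0) * q)
          (by linarith) le_rfl (by linarith)
        have h2 := mq hx1
        have e1 : (x₁ + η) * q = x₁ * q + η * q := by ring
        linarith
      sQ := by
        have := mq' hsQ
        show Ka * (x₁ * q + g₁ * q) < t + W iQ * q - (t + W (ix 0) * q)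
        linarith
      sM := by
        have := mq' hsM
        show Ka * (x₁ * q + g₁ * q) < t + W (ix 0) * q - (t + W iF * q) -
          (t + W iQ * q - (t + W (ix 0) * q))
        linarith
      e2 := by
        have h1 := mq hK
        have h2 := Tg.Ebe
        have h3 : 0 ≤ (W iQ - W (ix 0)) * q := mul_nonneg (by linarith) hq.le
        linarith
      top := fun l hl => by
        show Eb r + 2 * (η * q) + lvN P c r (L r) l (t + W (ix 0) * q) (t + W (ix 0) * q) +
          (t + W iQ * q - (t + W (ix 0) * q)) + Ka * (x₁ * q + g₁ * q) < 1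
        rw [hlv l (by omega)]
        have h1 := mq hK
        have h2 := hroomB l hl
        linarith }

end Pool.CRC82
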