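import Pool.Agent.H99.D2.Sup
import Pool.Agent.H99.D2.Blf

/-!
# The supply of aliveness, and the closed slope on one class

`ConOne`: on one class whose velocity of `u = c 2` is alive at a finite list of windows: no drop, or the
closed slope of `N = c 3`. `AlSup`: at every scale of the record, the conclusion of `F1UD`, or a subclass
in which the velocity of `u` is alive at the list of windows.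
-/

set_option autoImplicit false

namespace Pool.CRC82

open Finset Real
open Pool.Agent.H49.Ent Pool.Agent.H32.Dense Pool.STK Pool.KA Pool.KSAT Pool.K2S Pool.PB
open Pool.GEN Pool.S6C Pool.STAT Pool.CHT Pool.GRW Pool.ONE Pool.STA Pool.PKG
open Pool.CR99 (AlvS BlX AltF BlSup)

/-- **Aliveness at a list of windows** `t + X k q`, `k ≤ n`: given the exact line of the places before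
`r`, the velocity of `c r` to `θ q` digits beyond its natural digits. -/
def AlvL {m : ℕ} (S : PCl m) (c : ℕ → Fin m) (r : ℕ) (L : ℕ → ℝ → ℝ → ℝ) (E θ q t : ℝ) (n : ℕ)
    (X : ℕ → ℝ) : Prop :=
  ∀ k ≤ n, ∃ hi lvl ν : ℝ, 0 < ν ∧ AlvS S c r (t + X k * q) hi lvl ν ∧
    (∀ l ≤ r + 1, 2 * E + L l (t + X k * q) (t + X k * q) + q ≤ hi) ∧
    L r (t + X k * q) (t + X k * q) - (t + X k * q) + θ / 2 * q ≤ lvl ∧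
    lvl ≤ L r (t + X k * q) (t + X k * q) - (t + X k * q) + θ * q

/-- **The closed slope on one class.** -/
def ConOne (m : ℕ) (Sl : ℕ → ℝ) (R₁ : ℝ) : Prop :=
  ∀ R₀ : ℝ, R₁ < R₀ → ∃ V₀ A₀ : ℝ, V₀ ≤ -R₀ ∧ 1 ≤ A₀ ∧
  ∃ (Kr : ℝ) (Nr : ℕ) (Ar Vr : ℕ → ℝ), 1 ≤ Kr ∧ (∀ k < Nr, -Kr ≤ Vr k ∧ Vr k ≤ Ar k ∧ Ar k ≤ Kr) ∧
  ∀ S₂ : ℕ, 1 ≤ S₂ → ∃ Dg : ℕ, ∀ del ρ : ℝ, 0 < del → del ≤ 1 → 0 < ρ →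
  ∃ (θ : ℝ) (n : ℕ) (X : ℕ → ℝ), 0 < θ ∧ (∀ k ≤ n, -A₀ ≤ X k ∧ X k ≤ A₀) ∧
  ∃ (K₁ : ℝ) (Nv : ℕ) (Vv : ℕ → ℝ), (∀ j < Nv, -K₁ ≤ Vv j ∧ Vv j ≤ K₁) ∧
  ∀ K' : ℝ, K₁ ≤ K' → ∃ ε₀ : ℝ, 0 < ε₀ ∧ ∀ ε : ℝ, 0 < ε → ε ≤ ε₀ →
  ∀ {S : PCl m} {al : ℝ} {g₀ : ℝ → ℝ} {P : List (Fin m) × Fin m → ℝ → ℝ → ℝ} {ϑ : ℝ}
    {P₂ : ℕ → List (Fin m) × Fin m → ℝ → ℝ → ℝ} {θ₂ Eb e₂ : ℕ → ℝ} {c : ℕ → Fin m}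
    {Pt : ℝ → ℝ → ℝ} {rt : ℝ → ℝ} {h K₀ g : ℝ} {L T : ℕ → ℝ → ℝ → ℝ} {κ : ℕ → Kg} {G : Set ℝ}
    {S₀ N : ℕ} {A V : ℕ → ℝ} {N' : ℕ} {V' : ℕ → ℝ} {q t : ℝ},
    RecG S al g₀ P ϑ P₂ θ₂ Eb e₂ c Pt rt h K₀ g L T Sl κ G S₀ N A V S₂ N' V' K' ε q t → S₀ ≤ S₂ →
    (∀ l < 2, κ l = .one) → κ 2 = .stp →
    (∀ k < Nr, ∃ j < N, A j = Ar k ∧ V j = Vr k) → (∀ k < Nv, ∃ j < N', V' j = Vv k) →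
    AlvL S c 2 L (Eb 3) θ q t n X →
    L 2 (t + q) (t + q) ≤ L 2 (t + q) t + del * q ∨
    ∃ κ' : ℝ, 0 < κ' ∧ BlX S c 2 Dg Dg (t + V₀ * q)
      (L 3 (t + V₀ * q) (t + V₀ * q) - ρ * q) 1 (fun _ => t - R₁ * q)
      (fun _ => L 3 (t - R₁ * q) (t - R₁ * q) - ρ * q)
      (fun _ => L 2 (t - R₁ * q) (t - R₁ * q) - L 3 (t - R₁ * q) (t - R₁ * q) + ρ * q) κ'

/-- **The supply of aliveness** of the place `r`, or else the conclusion of `F1UD`, at all scales of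
the record; the list of windows `X` and the scale `θ` are chosen after the degrees and the digits. -/
def AlSup (m r : ℕ) (h : ℝ) (Sl : ℕ → ℝ) (κ : ℕ → Kg) {ι Λ : Type} (Q : PropG m ι)
    (Z : PropZ m Λ) : Prop :=
  ∀ al : ℝ, 0 < al → ∀ K₀ : ℝ, 0 < K₀ → ∀ del : ℝ, 0 < del → ∀ S₀ : ℕ, 1 ≤ S₀ → ∀ A₀ : ℝ, 1 ≤ A₀ →
  ∃ (Kr : ℝ) (Nr : ℕ) (Ar Vr : ℕ → ℝ), 1 ≤ Kr ∧ (∀ k < Nr, -Kr ≤ Vr k ∧ Vr k ≤ Ar k ∧ Ar k ≤ Kr) ∧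
  ∀ S₂ : ℕ, S₀ ≤ S₂ → ∀ dd : ℝ, 0 < dd →
  ∃ φ₀ kf₀ : ℝ, 0 < φ₀ ∧ ∀ φ : ℝ, 0 < φ → φ ≤ φ₀ → ∀ kf : ℝ, kf₀ ≤ kf →
  ∀ (θ : ℝ) (n : ℕ) (X : ℕ → ℝ), 0 < θ → (∀ k ≤ n, -A₀ ≤ X k ∧ X k ≤ A₀) →
  ∃ (lam : Λ) (K₁ : ℝ) (Nv : ℕ) (Vv : ℕ → ℝ), (∀ j < Nv, -K₁ ≤ Vv j ∧ Vv j ≤ K₁) ∧
  ∀ K' : ℝ, K₁ ≤ K' →
  ∃ ε₀ : ℝ, 0 < ε₀ ∧ ∀ ε : ℝ, 0 < ε → ε ≤ ε₀ →
  ∀ (S : PCl m) (g₀ : ℝ → ℝ) (P : List (Fin m) × Fin m → ℝ → ℝ → ℝ)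
    (ϑ : ℝ) (P₂ : ℕ → List (Fin m) × Fin m → ℝ → ℝ → ℝ) (θ₂ Eb e₂ : ℕ → ℝ) (c : ℕ → Fin m)
    (Pt : ℝ → ℝ → ℝ) (rt : ℝ → ℝ) (L T : ℕ → ℝ → ℝ → ℝ) (G : Set ℝ) (g : ℝ),
    IsClosed G → g ∈ G → (∀ l < m, HasDerivAt (fun x => L l x x) (Sl l) g) →
    Z lam S P ϑ c Pt rt L T κ G g →
    ∃ (p : ℕ → ι) (M : ℕ) (B₀ B₁ : ℕ → ℝ),
    (∀ j < M, B₀ j < B₁ j) ∧ ∀ k₀ : ℕ → ℕ, (∀ j < M, Q (p j) (k₀ j) S P ϑ c Pt rt L T κ G g) →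
    ∃ q₁ : ℝ, 0 < q₁ ∧ ∀ (q t : ℝ) (x : ℕ → ℝ),
      q < q₁ → (∀ j < M, x j ∈ G ∧ t + B₀ j * q ≤ x j ∧ x j ≤ t + B₁ j * q ∧
        Q (p j) (k₀ j) S P ϑ c Pt rt L T κ G (x j)) →
      ∀ (N : ℕ) (A V : ℕ → ℝ) (N' : ℕ) (V' : ℕ → ℝ),
      RecG S al g₀ P ϑ P₂ θ₂ Eb e₂ c Pt rt h K₀ g L T Sl κ G S₀ N A V S₂ N' V' K' ε q t →
      (∀ k < Nr, ∃ j < N, A j = Ar k ∧ V j = Vr k) → (∀ k < Nv, ∃ j < N', V' j = Vv k) →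
      ∀ (pf : ℕ → ℝ) (pr : ℝ) (Nf : ℕ → ℕ → ℝ),
      (∀ l < r, L l t t - φ * q ≤ pf l ∧ pf l ≤ L l t t) →
      L r t t - φ * q ≤ pr → pr ≤ L r t t →
      (∀ l < r, ∀ j ≤ 1, Nf l j = L l t t + kf * q - (j : ℕ) * t) →
      AltF m r Sl del dd S c L q t pf pr Nf ∨
      ∃ S' : PCl m, S'.Ne ∧
        (∀ (τ : ℝ) (J : ℕ) (F : Fam m J) (A : F.Ω → Prop), S'.St τ J F A → S.St τ J F A) ∧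
        AlvL S' c r L (Eb (r + 1)) θ q t n X

end Pool.CRC82
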