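import Pool.Agent.H82.CNC.Ccl
import Pool.Agent.H82.CNC.Frk
import Pool.Agent.H28.CNC.Nev
import Pool.Agent.H60.CNC.Hdx

/-!
# The chain of the charts, in a class

`chn_cls`: the affine frame, the cubes and the chain `Chn` of the charts of `u` and `N` on the windows
`WG`, for a class in which the velocity of `u` is alive.
-/

set_option autoImplicit false

namespace Pool.CRC82

open Finset Real MvPolynomial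
open Pool.Agent.H49.Ent Pool.Agent.H32.Dense Pool.STK Pool.KA Pool.KSAT Pool.K2S Pool.PB Pool.S6C
open Pool.GEN Pool.CHT Pool.CHX Pool.ISO Pool.D2R Pool.D2G30 Pool.V1E Pool.CR99
open Pool.LBT (ThrOf)
open Pool.AFF82
open Pool.CNC76 Pool.CNC28
open Pool.CNC60 (alv_clo slm_mon)

/-- Less precision of the closed point. -/
theorem bll_q {Ω P S S' : Type} [Fintype Ω] {p : Ω → ℝ} {B : Ω → Prop} {pt : Ω → P}
    {sl : Ω → S} {sd : Ω → S'} {y yc X : Ω → Fin 3 → ℝ} {D h Q Q' : ℕ} {κ η c T : ℝ}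
    (W : Bll p B pt sl sd y yc X D h Q κ η c T) (hQ : Q' ≤ Q) :
    Bll p B pt sl sd y yc X D h Q' κ η c T where
  law := W.law
  κ0 := W.κ0
  pos := W.pos
  sls := W.sls
  y1 := W.y1
  yc1 := W.yc1
  ycc := W.ycc
  ycn := fun ω hω i => (W.ycn ω hω i).trans
    (one_div_le_one_div_of_le (by positivity) (pow_le_pow_right₀ (by norm_num) hQ))
  XT := W.XT
  rel := W.rel
  nhy := W.nhy

/-- The affine frame on a part. -/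
theorem afd_sub {m J : ℕ} {F : Fam m J} {c : ℕ → Fin m} {D n f x y : ℕ} {w s gf : ℕ → ℕ}
    {g : ℕ → ℕ → ℕ} {gx : ℕ} {θ : ℝ} {B B' : F.Ω → Prop}
    {P : PtT F → ℕ → MvPolynomial (Option (Fin m)) ℝ}
    {PH : LnT F → ℕ → MvPolynomial (Option (Fin m)) ℝ}
    {G : ℕ → PtT F → ℕ → MvPolynomial (Option (Fin m)) ℝ}
    {H : ℕ → LnT F → ℕ → MvPolynomial (Option (Fin m)) ℝ}
    (W : AfD F c D n f x y w s gf g gx θ B P PH G H) (hB : Sub B' B) :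
    AfD F c D n f x y w s gf g gx θ B' P PH G H :=
  { hc := W.hc, fo := W.fo, ow := W.ow, wJ := W.wJ, dP := W.dP, dG := W.dG, pP := W.pP
    pG := W.pG
    clP := fun ω hω => W.clP ω (hB ω hω)
    clG := fun k hk ω hω => W.clG k hk ω (hB ω hω)
    ownP := fun ω hω => W.ownP ω (hB ω hω)
    ownG := fun k hk ω hω => W.ownG k hk ω (hB ω hω)
    pos := fun k hk ω hω => W.pos k hk ω (hB ω hω)
    bal := fun k hk ω hω => W.bal k hk ω (hB ω hω)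
    lv1 := W.lv1, lv2 := W.lv2, lf := W.lf, gx1 := W.gx1, th0 := W.th0, th := W.th
    flat := fun ω hω => W.flat ω (hB ω hω) }

/-- **The real numbers of the chain.** `ix 0`: the base of the frame, `ix (k + 1)`, `k ≤ n'`: the
windows of the chain, `ix (n' + 2)`: the closing window. -/
structure ChN (D DB n' : ℕ) (Cn : ℕ) (C₁ : ℕ) (ix : ℕ → ℕ) (C Eb η₀ δ μ χ gn Qr : ℝ) (o : ℕ → ℝ)
    (lv : ℕ → ℕ → ℝ) (hi lvl : ℕ → ℝ) : Prop where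
  η0 : 0 < η₀
  o1 : ∀ k ≤ n', o (ix (k + 1)) ≤ 1
  hi0 : ∀ k ≤ n', 0 ≤ hi k ∧ 0 ≤ lvl k
  hiE : ∀ k ≤ n', ∀ l ≤ 3, Eb + lv (ix (k + 1)) l + Cn * (C * η₀) ≤ hi k
  lv1 : ∀ k ≤ n', lv (ix (k + 1)) 2 - o (ix (k + 1)) + C * η₀ ≤ lvl k
  lv2 : ∀ k ≤ n', lvl k ≤ lv (ix (k + 1)) 2 - o (ix (k + 1)) + δ
  ord : ∀ j ≤ n', ∀ k ≤ n', j < k → o (ix (j + 1)) + η₀ ≤ o (ix (k + 1))
  mon : ∀ j ≤ n', ∀ k ≤ n', j ≤ k → ∀ l, 2 ≤ l → l ≤ 3 →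
    lv (ix (j + 1)) l ≤ lv (ix (k + 1)) l + δ
  hst : ∀ i < n', lv (ix (i + 1 + 1)) 2 ≤ lv (ix (i + 1)) 2 + δ
  exc : ∀ j ≤ n', ∀ k ≤ n', j ≤ k →
    lv (ix (k + 1)) 2 + lv (ix (j + 1)) 3 ≤ lv (ix (j + 1)) 2 + lv (ix (k + 1)) 3 + δ
  mu : Cn * (C * η₀) + (2 * D * D + 1) * δ ≤ μ
  bas : o (ix 0) + 8 * χ < o (ix 1)
  clq : 3 * χ + (η₀ + 20 * DB * χ) + C₁ * (2 * χ + gn) < Qr
  clo : o (ix (n' + 1)) + Qr < o (ix (n' + 2))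

/-- **The chain of the charts**, in a class. -/
theorem chn_cls (D Dr DB : ℕ) (hD : 1 ≤ D) (hDr : D ≤ Dr) (hDB : DB ≤ Dr) (hDD : D * D ≤ DB) :
    ∃ (Ka c₀ C₁ c₁ Cn : ℕ) (Cs : ℝ), 4 ≤ c₀ ∧ 1 ≤ Cs ∧
    ∀ {m N N₂ n' iF iQ : ℕ} {S : PCl m} {R : ℕ → Prop}
    {P : List (Fin m) × Fin m → ℝ → ℝ → ℝ} {θ : ℝ} {c : ℕ → Fin m} {C a Eb ε₀ η₀ ζ χ : ℝ}
    {Pt : ℝ → ℝ → ℝ} {o : ℕ → ℝ} {lv be : ℕ → ℕ → ℝ} {ix : ℕ → ℕ} {aq : ℚ} {e h gn : ℝ},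
    ThrOf (chsys m θ) S P → TmH S → Set.InjOn c (Set.Iio 4) → iF ≤ N₂ → iQ ≤ N₂ →
    (∀ k ≤ n' + 2, ix k ≤ N₂) →
    AfNN P c (n' + 2) iF iQ ix θ C Eb η₀ ζ χ Ka o lv aq e h gn →
    ∀ {hi lvl : ℕ → ℝ} {δ μ ν Qr : ℝ}, ChN D DB n' Cn C₁ ix C Eb η₀ δ μ χ gn Qr o lv hi lvl →
    0 < ν → (∀ k ≤ n', AlvS S c 2 (o (ix (k + 1))) (hi k) (lvl k) ν) →
    ∀ κ₁ c' K₁ : ℝ, 0 < κ₁ → κ₁ ≤ 1 / 16 → 0 < c' → c' < 1 → 0 < K₁ → ∃ κ₂ : ℝ, 0 < κ₂ ∧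
      Bas S (fun J F A =>
      ∀ {b : ℕ → ℕ → ℝ} {κ : ℝ} {z : ℕ → ℕ → ℕ} {B : F.Ω → Prop} {gc gT g₀ : ℕ → ℕ → ℕ}
      {G : ℕ → PtT F → ℕ → MvPolynomial (Option (Fin m)) ℝ}
      {H : ℕ → LnT F → ℕ → MvPolynomial (Option (Fin m)) ℝ}
      {T : ℕ → PtT F → ℕ → MvPolynomial (Option (Fin m)) ℝ}
      {TH : ℕ → LnT F → ℕ → MvPolynomial (Option (Fin m)) ℝ}
      {Gt : ℕ → PtT F → MvPolynomial (Option (Fin m)) ℝ}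
      {Ht : ℕ → LnT F → MvPolynomial (Option (Fin m)) ℝ}, Sub B A →
      Pe F.p A ≤ K₁ * Pe F.p B → κ ≤ κ₂ →
      WG c 3 D Dr N N₂ R C a Eb ε₀ η₀ Pt o lv be F b κ z B gc gT g₀ G H T TH Gt Ht →
      ∃ (B' : F.Ω → Prop) (y gx : ℕ) (θ' : ℝ), Sub B' B ∧
        Pe F.p B ≤ 2 ^ ((D + 2) * (n' + 1) + 1) * Pe F.p B' ∧
        AfD F c D (n' + 2) ⌊o iF * J⌋₊ ⌊χ * J⌋₊ y (fun k => ⌊o (ix k) * J⌋₊) (g₀ (ix 0)) (g₀ iF)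
          (fun k => g₀ (ix k)) gx θ' B' (G iF) (H iF) (fun k => G (ix k)) (fun k => H (ix k)) ∧
        (∀ ω, B' ω → AfE F c (n' + 2) (c₀ + ⌊χ * J⌋₊)
          (C₁ * (⌊χ * J⌋₊ + ⌊χ * J⌋₊ + ⌊gn * J⌋₊ + 1) + 3) (fun k => ⌊o (ix k) * J⌋₊)
          (g₀ (ix 0)) (fun k => g₀ (ix k)) (G iF) (fun k => G (ix k)) ω ∧
          ∀ k ≤ n' + 2, AfB F c (c₀ + ⌊χ * J⌋₊) (fun k => ⌊o (ix k) * J⌋₊) (g₀ (ix 0))
            (fun k => g₀ (ix k)) (G iF) (fun k => G (ix k)) k ω) ∧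
        Chn F.p B' (ptr F J) (fun k => slam F ⌊o (ix (k + 1)) * J⌋₊)
          (slam F ⌊o (ix (n' + 2)) * J⌋₊)
          (fun ω => afc c (afr F c (fun k => ⌊o (ix k) * J⌋₊) (G iF) (fun k => G (ix k)) ω)
            ⌊o (ix 0) * J⌋₊ (g₀ (ix 0) 0) (g₀ (ix 0) 1) (bt F ω))
          (aC F c (fun k => ⌊o (ix k) * J⌋₊) (g₀ (ix 0)) (G iF) (fun k => G (ix k)) (n' + 2))
          (fun ω => vlc c (afr F c (fun k => ⌊o (ix k) * J⌋₊) (G iF) (fun k => G (ix k)) ω)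
            ⌊o (ix 0) * J⌋₊ (g₀ (ix 0) 0) (g₀ (ix 0) 1) (bd F ω)) n'
          (fun k => aC F c (fun k => ⌊o (ix k) * J⌋₊) (g₀ (ix 0)) (G iF) (fun k => G (ix k))
            (k + 1))
          (fun k => rk (c₀ + ⌊χ * J⌋₊) (fun k => ⌊o (ix k) * J⌋₊) (k + 1))
          (fun k => 1 / 2 ^ g₀ (ix (k + 1)) 2) (fun k => 1 / 2 ^ g₀ (ix (k + 1)) 3)
          (UU F c (fun k => G (ix (k + 1)))
            (afr F c (fun k => ⌊o (ix k) * J⌋₊) (G iF) (fun k => G (ix k)))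
            ⌊o (ix 0) * J⌋₊ (g₀ (ix 0) 0) (g₀ (ix 0) 1))
          (PH F c (fun k => G (ix (k + 1)))
            (afr F c (fun k => ⌊o (ix k) * J⌋₊) (G iF) (fun k => G (ix k)))
            ⌊o (ix 0) * J⌋₊ (g₀ (ix 0) 0) (g₀ (ix 0) 1)
            (fun k => aC F c (fun k => ⌊o (ix k) * J⌋₊) (g₀ (ix 0)) (G iF) (fun k => G (ix k))
              (k + 1)))
          (CS F c (fun k => G (ix (k + 1)))
            (afr F c (fun k => ⌊o (ix k) * J⌋₊) (G iF) (fun k => G (ix k)))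
            ⌊o (ix 0) * J⌋₊ (g₀ (ix 0) 0) (g₀ (ix 0) 1)
            (fun k => aC F c (fun k => ⌊o (ix k) * J⌋₊) (g₀ (ix 0)) (G iF) (fun k => G (ix k))
              (k + 1)))
          (D * D) DB (⌊η₀ * J⌋₊ + 20 * (c₀ + ⌊χ * J⌋₊) * DB + c₁) ⌊Qr * J⌋₊ κ₁
          (1 / 2 ^ (C₁ * (⌊χ * J⌋₊ + ⌊χ * J⌋₊ + ⌊gn * J⌋₊ + 1) + 2)) c'
          (2 ^ (3 * (c₀ + ⌊χ * J⌋₊)))
          (Cs * (n' + 1) * 2 ^ (⌊η₀ * J⌋₊ + 20 * (c₀ + ⌊χ * J⌋₊) * DB + c₁ +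
            (D * D + 4) * (20 * (c₀ + ⌊χ * J⌋₊) + ⌈μ * J⌉₊ + 1)) /
            (1 / 2 ^ (C₁ * (⌊χ * J⌋₊ + ⌊χ * J⌋₊ + ⌊gn * J⌋₊ + 1) + 2))) ∧
        ∀ k ≤ n', ∀ ω, B' ω →
          |eval (bt F ω) (pderiv (some (c 2)) (G (ix (k + 1)) (ptr F J ω) 3)) -
            CS F c (fun k => G (ix (k + 1)))
              (afr F c (fun k => ⌊o (ix k) * J⌋₊) (G iF) (fun k => G (ix k)))
              ⌊o (ix 0) * J⌋₊ (g₀ (ix 0) 0) (g₀ (ix 0) 1)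
              (fun k => aC F c (fun k => ⌊o (ix k) * J⌋₊) (g₀ (ix 0)) (G iF)
                (fun k => G (ix k)) (k + 1)) k ω| ≤
            (Cs * (n' + 1) * 2 ^ (⌊η₀ * J⌋₊ + 20 * (c₀ + ⌊χ * J⌋₊) * DB + c₁ +
              (D * D + 4) * (20 * (c₀ + ⌊χ * J⌋₊) + ⌈μ * J⌉₊ + 1)) /
              (1 / 2 ^ (C₁ * (⌊χ * J⌋₊ + ⌊χ * J⌋₊ + ⌊gn * J⌋₊ + 1) + 2))) *
              (1 / 2 ^ g₀ (ix (k + 1)) 3 / (1 / 2 ^ g₀ (ix (k + 1)) 2))) := by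
  classical
  obtain ⟨Ka, c₀, C₁, c₁, hc₀, hafn⟩ := afn_cls D Dr DB hDr hDB
  obtain ⟨Cn, Cs, hCn, hCs, hnph⟩ := nph_ev D hD
  refine ⟨Ka, c₀, C₁, c₁, Cn, Cs, hc₀, hCs, ?_⟩
  intro m N N₂ n' iF iQ S R P θ c C a Eb ε₀ η₀ ζ χ Pt o lv be ix aq e h gn hthr htm hinj hiF hiQ hix
    hN hi lvl δ μ ν Qr Cc hν hal κ₁ c' K₁ hκ₁ hκ₁1 hc' hc'1 hK₁
  obtain ⟨E₁, hE₁⟩ : ∃ E₁ : ℕ, E₁ = (D + 2) * (n' + 1) := ⟨_, rfl⟩
  obtain ⟨κ', hκ'⟩ : ∃ κ' : ℝ, κ' = κ₁ / 2 ^ E₁ := ⟨_, rfl⟩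
  have hκ'0 : 0 < κ' := by rw [hκ']; positivity
  have hη0 := Cc.η0
  have hC1 := hN.C1
  have hCη : 0 < C * η₀ := by positivity
  have hχ0 : 0 < χ := by
    have h1 := hN.χ0
    have h2 : 0 ≤ (C + 1) * η₀ := by positivity
    linarith [hN.ζ0]
  have hgn0 := hN.gn0
  refine ⟨min (1 / 16) (κ' / 2) / 2, by positivity, ?_⟩
  -- the events
  have ev1 := hafn (N := N) (R := R) (a := a) (ε₀ := ε₀) (Pt := Pt) (be := be) (by norm_num : 2 ≤ 3)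
    hthr htm hinj hiF hiQ hix hN κ' c' K₁ hκ'0 hc' hK₁
  have ev2 := Bas.all (n' + 1) (Φ := fun k J F A => ∀ E : F.Ω → Prop, Sub E A →
      Pe F.p A ≤ (K₁ * 2 * 2 ^ (n' + 1)) * Pe F.p E → 0 < Pe F.p E →
      ∀ a' ≤ ⌊o (ix (k + 1)) * J⌋₊, ∀ (V : Type) (z : F.Ω → V), Clo E (ptr F J) (slam F a') z →
      Real.log (2 * D + 1) <
      CH (Pool.Agent.H49.Ent.cond F.p E True) (fun ω => F.D ⌊lvl k * J⌋₊ ω (c 2)) (fun ω =>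
        (z ω, F.T ω, (fun l : Fin 2 => F.X ⌊hi k * J⌋₊ ω (c l)),
          fun l : Fin 2 => F.D ⌊hi k * J⌋₊ ω (c l)))) fun k hk =>
    alv_clo (hal k (by omega)) (Cc.o1 k (by omega)) hν (by positivity) _
  -- large `J`
  obtain ⟨J₁, hJ₁⟩ := lin_lt hCη Cn
  obtain ⟨J₂, hJ₂⟩ := lin_lt Cc.bas (8 * c₀ + 4)
  obtain ⟨J₃, hJ₃⟩ := lin_lt hη0 4
  obtain ⟨kq, hkq⟩ := pow_unbounded_of_one_lt Cs (one_lt_two (α := ℝ))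
  obtain ⟨J₄, hJ₄⟩ := lin_lt Cc.clq (kq + 3 * c₀ + (20 * c₀ * DB + c₁) + C₁ + 10)
  obtain ⟨J₅, hJ₅⟩ := lin_lt Cc.clo 4
  refine Bas.mono (max (max J₁ J₂) (max (max J₃ J₄) J₅)) (ev1.and (ev2.and
    (⟨1, one_pos, 0, fun J _ F A hA => htm.1 _ J F A hA⟩ :
      Bas S (fun _ F A => 0 < Pe F.p A)))) ?_
  rintro J hJ F A ⟨e1, e2, hA0⟩ b κ z B gc gT g₀ G H T TH Gt Ht hBA hPA hκ W
  replace hJ₁ := hJ₁ J (by omega)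
  replace hJ₂ := hJ₂ J (by omega)
  replace hJ₃ := hJ₃ J (by omega)
  replace hJ₄ := hJ₄ J (by omega)
  replace hJ₅ := hJ₅ J (by omega)
  have hJ0 : (0 : ℝ) ≤ J := Nat.cast_nonneg J
  have mulJ : ∀ {x y : ℝ}, x ≤ y → x * J ≤ y * J := fun h => mul_le_mul_of_nonneg_right h hJ0
  have hκ16 : κ ≤ 1 / 16 := by
    have h1 : min (1 / 16) (κ' / 2) ≤ 1 / 16 := min_le_left _ _
    have h2 : 0 < min (1 / 16) (κ' / 2) := by positivity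
    linarith
  have hκκ' : 2 * κ ≤ κ' := by
    have h1 : min (1 / 16) (κ' / 2) ≤ κ' / 2 := min_le_right _ _
    have h2 : 0 < min (1 / 16) (κ' / 2) := by positivity
    linarith
  have hB0 : 0 < Pe F.p B := by
    have := hA0.trans_le hPA
    exact pos_of_mul_pos_right this hK₁.le
  obtain ⟨Ba, y, gx, θ', a1, a2, a3, a4, a5⟩ := e1 hBA hPA hκ16 hκκ' W
  have hBa0 : 0 < Pe F.p Ba := by linarith
  have W' := W.res (κ₁ := 1 / 2) (κ₂ := 2 * |κ|) a1 (by linarith) (by positivity) (by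
    have := le_abs_self κ
    linarith)
  obtain ⟨wk, hwk⟩ : ∃ wk : ℕ → ℕ, wk = fun k => ⌊o (ix k) * J⌋₊ := ⟨_, rfl⟩
  have ok0 : ∀ k ≤ n' + 2, 0 ≤ o (ix k) := fun k hk => by
    have h1 := hN.oFk k hk
    have h2 := hN.oF
    linarith
  have fl := fun k (hk : k ≤ n' + 2) => flo (mul_nonneg (ok0 k hk) hJ0)
  have fχ := flo (mul_nonneg hχ0.le hJ0)
  have fη := flo (mul_nonneg hη0.le hJ0)
  have fg := flo (mul_nonneg hgn0 hJ0)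
  have hQr : 0 < Qr := by
    have h1 : 0 ≤ 3 * χ + (η₀ + 20 * DB * χ) + C₁ * (2 * χ + gn) := by positivity
    linarith [Cc.clq]
  have fQ := flo (mul_nonneg hQr.le hJ0)
  have ord' : ∀ j ≤ n', ∀ k ≤ n', j < k → ⌊o (ix (j + 1)) * J⌋₊ + 2 ≤ ⌊o (ix (k + 1)) * J⌋₊ := by
    intro j hj k hk hjk
    have h1 := mulJ (Cc.ord j hj k hk hjk)
    have h2 := fl (j + 1) (by omega)
    have h3 := fl (k + 1) (by omega)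
    have : ((⌊o (ix (j + 1)) * J⌋₊ + 2 : ℕ) : ℝ) ≤ ((⌊o (ix (k + 1)) * J⌋₊ : ℕ) : ℝ) := by
      push_cast
      linarith
    exact_mod_cast this
  have b8 : ∀ k ≤ n', 8 * (c₀ + ⌊χ * J⌋₊) + ⌊o (ix 0) * J⌋₊ ≤ ⌊o (ix (k + 1)) * J⌋₊ := by
    intro k hk
    have h0 : 8 * (c₀ + ⌊χ * J⌋₊) + ⌊o (ix 0) * J⌋₊ ≤ ⌊o (ix 1) * J⌋₊ := by
      have h2 := fl 0 (by omega)
      have h3 := fl 1 (by omega)
      have : ((8 * (c₀ + ⌊χ * J⌋₊) + ⌊o (ix 0) * J⌋₊ : ℕ) : ℝ) ≤ ((⌊o (ix 1) * J⌋₊ : ℕ) : ℝ) := by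
        push_cast
        linarith
      exact_mod_cast this
    rcases Nat.eq_zero_or_pos k with h1 | h1
    · rw [h1]
      exact h0
    · have h2 := ord' 0 (Nat.zero_le _) k hk h1
      rw [Nat.zero_add] at h2
      omega
  have frm := AfD.frm a3 (a := c₀ + ⌊χ * J⌋₊) (n' := n') (jx := fun k => k + 1) (by omega)
    (fun k hk ω hω => (a4 ω hω).2 k hk) (fun k hk => by show k + 1 ≤ n' + 2; omega)
    (fun k hk => b8 k hk) (fun i hi k hk hik => ord' i hi k hk hik)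
  have hQn : ∀ k ≤ n', ⌊Qr * J⌋₊ ≤ ⌊o (ix (n' + 2)) * J⌋₊ - ⌊o (ix (k + 1)) * J⌋₊ := by
    intro k hk
    have h1 := fl (n' + 1) (by omega)
    have h2 := fl (n' + 2) le_rfl
    have h3 : ⌊o (ix (k + 1)) * J⌋₊ ≤ ⌊o (ix (n' + 1)) * J⌋₊ := by
      rcases hk.lt_or_eq with h4 | h4
      · have := ord' k hk n' le_rfl h4
        omega
      · rw [h4]
    have h4 : ((⌊Qr * J⌋₊ + ⌊o (ix (n' + 1)) * J⌋₊ : ℕ) : ℝ) ≤ ((⌊o (ix (n' + 2)) * J⌋₊ : ℕ) : ℝ) := by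
      push_cast
      linarith
    have h5 : ⌊Qr * J⌋₊ + ⌊o (ix (n' + 1)) * J⌋₊ ≤ ⌊o (ix (n' + 2)) * J⌋₊ := by exact_mod_cast h4
    omega
  have hE1r : (0 : ℝ) < 2 ^ E₁ := by positivity
  obtain ⟨B', b1, b2, b3, b4⟩ := hnph W' hinj hη0.le (ix := fun k => ix (k + 1)) (hi := hi)
    (lvl := lvl) (δ := δ) (n := n') (μ := ⌈μ * J⌉₊) hBa0 (by linarith) (fun k hk => ⟨hix _ (by omega),
      Nat.floor_le_of_le (by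
        have h1 := mulJ (Cc.o1 k hk)
        linarith), (Cc.hi0 k hk).1, (Cc.hi0 k hk).2, Cc.hiE k hk, Cc.lv1 k hk, Cc.lv2 k hk⟩)
    Cc.ord Cc.mon Cc.hst Cc.exc ((mulJ Cc.mu).trans (Nat.le_ceil _)) (fun k hk E hE hPE => by
      have h1 : Pe F.p Ba ≤ 2 ^ (n' + 1) * Pe F.p E := by
        rw [div_le_iff₀ (by positivity)] at hPE
        linarith
      have h2 : 0 < Pe F.p E := lt_of_lt_of_le (by positivity) hPE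
      have hcls : ∀ ω, B ω → ∀ l ≤ 3, G (ix (k + 1)) (ptr F J ω) l =
          H (ix (k + 1)) (slam F ⌊o (ix (k + 1)) * J⌋₊ ω) l := fun ω hω l hl =>
        (W.wb.ev (ix (k + 1)) (hix _ (by omega))).cls ω hω l (by omega)
      refine e2 k (by omega) E (fun ω hω => hBA ω (a1 ω (hE ω hω))) ?_ h2 _ le_rfl _
        (fun ω => fun l : Fin 4 => H (ix (k + 1)) (slam F ⌊o (ix (k + 1)) * J⌋₊ ω) l)
        ⟨fun ω ω' hω hω' hh => ?_, fun ω ω' hω hω' hh => ?_⟩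
      · calc Pe F.p A ≤ K₁ * Pe F.p B := hPA
          _ ≤ K₁ * (2 * Pe F.p Ba) := mul_le_mul_of_nonneg_left a2 hK₁.le
          _ ≤ K₁ * (2 * (2 ^ (n' + 1) * Pe F.p E)) := by
            refine mul_le_mul_of_nonneg_left ?_ hK₁.le
            linarith
          _ = _ := by ring
      · funext l
        beta_reduce
        rw [← hcls ω (a1 ω (hE ω hω)) l (by omega), ← hcls ω' (a1 ω' (hE ω' hω')) l (by omega), hh]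
      · funext l
        beta_reduce
        rw [hh])
    frm (fun k hk => bll_q (a5 (k + 1) (by omega)) (hQn k hk)) hDD (by
      rw [hκ', ← hE₁, pow_add, ← mul_assoc, div_mul_cancel₀ _ hE1r.ne']
      norm_num
      linarith) hc'1 (by positivity) (by
      rw [div_le_one (by positivity)]
      exact one_le_pow₀ (by norm_num)) (one_le_pow₀ (by norm_num)) (by
      have h1 : kq + (3 * (c₀ + ⌊χ * J⌋₊) + (⌊η₀ * J⌋₊ + 20 * (c₀ + ⌊χ * J⌋₊) * DB + c₁) +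
          (C₁ * (⌊χ * J⌋₊ + ⌊χ * J⌋₊ + ⌊gn * J⌋₊ + 1) + 2)) ≤ ⌊Qr * J⌋₊ := by
        have h2 : (20 * (DB : ℝ)) * ⌊χ * J⌋₊ ≤ 20 * DB * (χ * J) :=
          mul_le_mul_of_nonneg_left fχ.1 (by positivity)
        have h3 : (C₁ : ℝ) * (2 * ⌊χ * J⌋₊ + ⌊gn * J⌋₊ + 1) ≤ C₁ * (2 * (χ * J) + gn * J + 1) :=
          mul_le_mul_of_nonneg_left (by linarith [fχ.1, fg.1]) (by positivity)
        have : ((kq + (3 * (c₀ + ⌊χ * J⌋₊) + (⌊η₀ * J⌋₊ + 20 * (c₀ + ⌊χ * J⌋₊) * DB + c₁) +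
            (C₁ * (⌊χ * J⌋₊ + ⌊χ * J⌋₊ + ⌊gn * J⌋₊ + 1) + 2)) : ℕ) : ℝ) ≤ (⌊Qr * J⌋₊ : ℝ) := by
          push_cast
          linarith [fχ.1, fη.1, fQ.2]
        exact_mod_cast this
      rw [div_mul_eq_mul_div, one_mul, le_div_iff₀ (by positivity), mul_assoc, mul_assoc,
        ← pow_add, ← pow_add]
      calc Cs * 2 ^ (3 * (c₀ + ⌊χ * J⌋₊) + (⌊η₀ * J⌋₊ + 20 * (c₀ + ⌊χ * J⌋₊) * DB + c₁ +
            (C₁ * (⌊χ * J⌋₊ + ⌊χ * J⌋₊ + ⌊gn * J⌋₊ + 1) + 2)))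
          ≤ 2 ^ kq * 2 ^ (3 * (c₀ + ⌊χ * J⌋₊) + (⌊η₀ * J⌋₊ + 20 * (c₀ + ⌊χ * J⌋₊) * DB + c₁ +
            (C₁ * (⌊χ * J⌋₊ + ⌊χ * J⌋₊ + ⌊gn * J⌋₊ + 1) + 2))) :=
            mul_le_mul_of_nonneg_right hkq.le (by positivity)
        _ ≤ 2 ^ ⌊Qr * J⌋₊ := by
            rw [← pow_add]
            exact pow_le_pow_right₀ (by norm_num) (by omega))
  rw [← hE₁, hκ', div_mul_cancel₀ _ hE1r.ne'] at b3
  refine ⟨B', y, gx, θ', fun ω hω => a1 ω (b1 ω hω), ?_, ?_, fun ω hω => a4 ω (b1 ω hω), ?_, b4⟩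
  · calc Pe F.p B ≤ 2 * Pe F.p Ba := a2
      _ ≤ 2 * (2 ^ ((D + 2) * (n' + 1)) * Pe F.p B') := by linarith
      _ = _ := by rw [pow_succ]; ring
  · exact afd_sub a3 b1
  · exact b3

end Pool.CRC82
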