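import Pool.Agent.H82.CRC.Cre

/-!
# The frame and the balls of the chain, in a class

`afb_cls`: the affine frame, the cubes and the balls `Bll` of the windows of the chain, without any
hypothesis on the velocity of `u`.
-/

set_option autoImplicit false

namespace Pool.CRC82

open Finset Real MvPolynomial
open Pool.Agent.H49.Ent Pool.Agent.H32.Dense Pool.STK Pool.KA Pool.KSAT Pool.K2S Pool.PB Pool.S6C
open Pool.GEN Pool.CHT Pool.CHX Pool.ISO Pool.D2R Pool.D2G30 Pool.V1E Pool.CR99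
open Pool.LBT (ThrOf)
open Pool.AFF82
open Pool.CNC76 Pool.CNC28
open Pool.CNC60 (alv_clo slm_mon)

/-- **The real numbers of the balls.** `ix 0`: the base of the frame, `ix (k + 1)`, `k ≤ n'`: the
windows of the chain, `ix (n' + 2)`: the closing window. -/
structure ChM (n' : ℕ) (ix : ℕ → ℕ) (η₀ χ Qr : ℝ) (o : ℕ → ℝ) : Prop where
  η0 : 0 < η₀
  Q0 : 0 < Qr
  ord : ∀ j ≤ n', ∀ k ≤ n', j < k → o (ix (j + 1)) + η₀ ≤ o (ix (k + 1))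
  bas : o (ix 0) + 8 * χ < o (ix 1)
  clo : o (ix (n' + 1)) + Qr < o (ix (n' + 2))

/-- **The frame and the balls of the chain**, in a class. -/
theorem afb_cls (D Dr DB : ℕ) (hDr : D ≤ Dr) (hDB : DB ≤ Dr) :
    ∃ (Ka c₀ C₁ c₁ : ℕ), 4 ≤ c₀ ∧
    ∀ {m N N₂ n' iF iQ : ℕ} {S : PCl m} {R : ℕ → Prop}
    {P : List (Fin m) × Fin m → ℝ → ℝ → ℝ} {θ : ℝ} {c : ℕ → Fin m} {C a Eb ε₀ η₀ ζ χ : ℝ}
    {Pt : ℝ → ℝ → ℝ} {o : ℕ → ℝ} {lv be : ℕ → ℕ → ℝ} {ix : ℕ → ℕ} {aq : ℚ} {e h gn : ℝ},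
    ThrOf (chsys m θ) S P → TmH S → Set.InjOn c (Set.Iio 4) → iF ≤ N₂ → iQ ≤ N₂ →
    (∀ k ≤ n' + 2, ix k ≤ N₂) →
    AfNN P c (n' + 2) iF iQ ix θ C Eb η₀ ζ χ Ka o lv aq e h gn →
    ∀ {Qr : ℝ}, ChM n' ix η₀ χ Qr o →
    ∀ κ₁ c' K₁ : ℝ, 0 < κ₁ → 0 < c' → 0 < K₁ → ∃ κ₂ : ℝ, 0 < κ₂ ∧
      Bas S (fun J F A =>
      ∀ {b : ℕ → ℕ → ℝ} {κ : ℝ} {z : ℕ → ℕ → ℕ} {B : F.Ω → Prop} {gc gT g₀ : ℕ → ℕ → ℕ}
      {G : ℕ → PtT F → ℕ → MvPolynomial (Option (Fin m)) ℝ}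
      {H : ℕ → LnT F → ℕ → MvPolynomial (Option (Fin m)) ℝ}
      {T : ℕ → PtT F → ℕ → MvPolynomial (Option (Fin m)) ℝ}
      {TH : ℕ → LnT F → ℕ → MvPolynomial (Option (Fin m)) ℝ}
      {Gt : ℕ → PtT F → MvPolynomial (Option (Fin m)) ℝ}
      {Ht : ℕ → LnT F → MvPolynomial (Option (Fin m)) ℝ}, Sub B A →
      Pe F.p A ≤ K₁ * Pe F.p B → κ ≤ κ₂ →
      WG c 3 D Dr N N₂ R C a Eb ε₀ η₀ Pt o lv be F b κ z B gc gT g₀ G H T TH Gt Ht →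
      ∃ (B' : F.Ω → Prop) (y gx : ℕ) (θ' : ℝ), Sub B' B ∧
        Pe F.p B ≤ 2 * Pe F.p B' ∧ 0 < Pe F.p B' ∧
        AfD F c D (n' + 2) ⌊o iF * J⌋₊ ⌊χ * J⌋₊ y (fun k => ⌊o (ix k) * J⌋₊) (g₀ (ix 0)) (g₀ iF)
          (fun k => g₀ (ix k)) gx θ' B' (G iF) (H iF) (fun k => G (ix k)) (fun k => H (ix k)) ∧
        (∀ ω, B' ω → AfE F c (n' + 2) (c₀ + ⌊χ * J⌋₊)
          (C₁ * (⌊χ * J⌋₊ + ⌊χ * J⌋₊ + ⌊gn * J⌋₊ + 1) + 3) (fun k => ⌊o (ix k) * J⌋₊)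
          (g₀ (ix 0)) (fun k => g₀ (ix k)) (G iF) (fun k => G (ix k)) ω ∧
          ∀ k ≤ n' + 2, AfB F c (c₀ + ⌊χ * J⌋₊) (fun k => ⌊o (ix k) * J⌋₊) (g₀ (ix 0))
            (fun k => g₀ (ix k)) (G iF) (fun k => G (ix k)) k ω) ∧
        Frm F c B' n' (fun k => ⌊o (ix (k + 1)) * J⌋₊) (fun k => g₀ (ix (k + 1)))
          (fun k => G (ix (k + 1)))
          (afr F c (fun k => ⌊o (ix k) * J⌋₊) (G iF) (fun k => G (ix k)))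
          ⌊o (ix 0) * J⌋₊ (g₀ (ix 0) 0) (g₀ (ix 0) 1) (20 * (c₀ + ⌊χ * J⌋₊))
          (fun k => aC F c (fun k => ⌊o (ix k) * J⌋₊) (g₀ (ix 0)) (G iF) (fun k => G (ix k))
            (k + 1))
          (fun k => rk (c₀ + ⌊χ * J⌋₊) (fun k => ⌊o (ix k) * J⌋₊) (k + 1)) ∧
        ∀ k ≤ n', Bll F.p B' (ptr F J) (slam F ⌊o (ix (k + 1)) * J⌋₊)
          (slam F ⌊o (ix (n' + 2)) * J⌋₊)
          (unt (fun ω => afc c (afr F c (fun k => ⌊o (ix k) * J⌋₊) (G iF) (fun k => G (ix k)) ω)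
            ⌊o (ix 0) * J⌋₊ (g₀ (ix 0) 0) (g₀ (ix 0) 1) (bt F ω))
            (aC F c (fun k => ⌊o (ix k) * J⌋₊) (g₀ (ix 0)) (G iF) (fun k => G (ix k)) (k + 1))
            (rk (c₀ + ⌊χ * J⌋₊) (fun k => ⌊o (ix k) * J⌋₊) (k + 1)))
          (unt (aC F c (fun k => ⌊o (ix k) * J⌋₊) (g₀ (ix 0)) (G iF) (fun k => G (ix k)) (n' + 2))
            (aC F c (fun k => ⌊o (ix k) * J⌋₊) (g₀ (ix 0)) (G iF) (fun k => G (ix k)) (k + 1))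
            (rk (c₀ + ⌊χ * J⌋₊) (fun k => ⌊o (ix k) * J⌋₊) (k + 1)))
          (fun ω => vlc c (afr F c (fun k => ⌊o (ix k) * J⌋₊) (G iF) (fun k => G (ix k)) ω)
            ⌊o (ix 0) * J⌋₊ (g₀ (ix 0) 0) (g₀ (ix 0) 1) (bd F ω))
          DB (⌊η₀ * J⌋₊ + 20 * (c₀ + ⌊χ * J⌋₊) * DB + c₁) ⌊Qr * J⌋₊ κ₁
          (1 / 2 ^ (C₁ * (⌊χ * J⌋₊ + ⌊χ * J⌋₊ + ⌊gn * J⌋₊ + 1) + 2)) c'
          (2 ^ (3 * (c₀ + ⌊χ * J⌋₊)))) := by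
  classical
  obtain ⟨Ka, c₀, C₁, c₁, hc₀, hafn⟩ := afn_cls D Dr DB hDr hDB
  refine ⟨Ka, c₀, C₁, c₁, hc₀, ?_⟩
  intro m N N₂ n' iF iQ S R P θ c C a Eb ε₀ η₀ ζ χ Pt o lv be ix aq e h gn hthr htm hinj hiF hiQ hix
    hN Qr Cc κ₁ c' K₁ hκ₁ hc' hK₁
  have hη0 := Cc.η0
  have hC1 := hN.C1
  have hCη : 0 < C * η₀ := by positivity
  have hχ0 : 0 < χ := by
    have h1 := hN.χ0
    have h2 : 0 ≤ (C + 1) * η₀ := by positivity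
    linarith [hN.ζ0]
  refine ⟨min (1 / 16) (κ₁ / 2) / 2, by positivity, ?_⟩
  -- the events
  have ev1 := hafn (N := N) (R := R) (a := a) (ε₀ := ε₀) (Pt := Pt) (be := be) (by norm_num : 2 ≤ 3)
    hthr htm hinj hiF hiQ hix hN κ₁ c' K₁ hκ₁ hc' hK₁
  -- large `J`
  obtain ⟨J₂, hJ₂⟩ := lin_lt Cc.bas (8 * c₀ + 4)
  obtain ⟨J₃, hJ₃⟩ := lin_lt hη0 4
  obtain ⟨J₅, hJ₅⟩ := lin_lt Cc.clo 4
  refine Bas.mono (max J₂ (max J₃ J₅)) (ev1.and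
    (⟨1, one_pos, 0, fun J _ F A hA => htm.1 _ J F A hA⟩ :
      Bas S (fun _ F A => 0 < Pe F.p A))) ?_
  rintro J hJ F A ⟨e1, hA0⟩ b κ z B gc gT g₀ G H T TH Gt Ht hBA hPA hκ W
  replace hJ₂ := hJ₂ J (by omega)
  replace hJ₃ := hJ₃ J (by omega)
  replace hJ₅ := hJ₅ J (by omega)
  have hJ0 : (0 : ℝ) ≤ J := Nat.cast_nonneg J
  have mulJ : ∀ {x y : ℝ}, x ≤ y → x * J ≤ y * J := fun h => mul_le_mul_of_nonneg_right h hJ0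
  have hκ16 : κ ≤ 1 / 16 := by
    have h1 : min (1 / 16) (κ₁ / 2) ≤ 1 / 16 := min_le_left _ _
    have h2 : 0 < min (1 / 16) (κ₁ / 2) := by positivity
    linarith
  have hκκ' : 2 * κ ≤ κ₁ := by
    have h1 : min (1 / 16) (κ₁ / 2) ≤ κ₁ / 2 := min_le_right _ _
    have h2 : 0 < min (1 / 16) (κ₁ / 2) := by positivity
    linarith
  have hB0 : 0 < Pe F.p B := by
    have := hA0.trans_le hPA
    exact pos_of_mul_pos_right this hK₁.le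
  obtain ⟨Ba, y, gx, θ', a1, a2, a3, a4, a5⟩ := e1 hBA hPA hκ16 hκκ' W
  have hBa0 : 0 < Pe F.p Ba := by linarith
  have ok0 : ∀ k ≤ n' + 2, 0 ≤ o (ix k) := fun k hk => by
    have h1 := hN.oFk k hk
    have h2 := hN.oF
    linarith
  have fl := fun k (hk : k ≤ n' + 2) => flo (mul_nonneg (ok0 k hk) hJ0)
  have fχ := flo (mul_nonneg hχ0.le hJ0)
  have fQ := flo (mul_nonneg Cc.Q0.le hJ0)
  have ord' : ∀ j ≤ n', ∀ k ≤ n', j < k → ⌊o (ix (j + 1)) * J⌋₊ + 2 ≤ ⌊o (ix (k + 1)) * J⌋₊ := by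
    intro j hj k hk hjk
    have h1 := mulJ (Cc.ord j hj k hk hjk)
    have h2 := fl (j + 1) (by omega)
    have h3 := fl (k + 1) (by omega)
    have : ((⌊o (ix (j + 1)) * J⌋₊ + 2 : ℕ) : ℝ) ≤ ((⌊o (ix (k + 1)) * J⌋₊ : ℕ) : ℝ) := by
      push_cast
      linarith
    exact_mod_cast this
  have b8 : ∀ k ≤ n', 8 * (c₀ + ⌊χ * J⌋₊) + ⌊o (ix 0) * J⌋₊ ≤ ⌊o (ix (k + 1)) * J⌋₊ := by
    intro k hk
    have h0 : 8 * (c₀ + ⌊χ * J⌋₊) + ⌊o (ix 0) * J⌋₊ ≤ ⌊o (ix 1) * J⌋₊ := by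
      have h2 := fl 0 (by omega)
      have h3 := fl 1 (by omega)
      have : ((8 * (c₀ + ⌊χ * J⌋₊) + ⌊o (ix 0) * J⌋₊ : ℕ) : ℝ) ≤ ((⌊o (ix 1) * J⌋₊ : ℕ) : ℝ) := by
        push_cast
        linarith
      exact_mod_cast this
    rcases Nat.eq_zero_or_pos k with h1 | h1
    · rw [h1]
      exact h0
    · have h2 := ord' 0 (Nat.zero_le _) k hk h1
      rw [Nat.zero_add] at h2
      omega
  have frm := AfD.frm a3 (a := c₀ + ⌊χ * J⌋₊) (n' := n') (jx := fun k => k + 1) (by omega)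
    (fun k hk ω hω => (a4 ω hω).2 k hk) (fun k hk => by show k + 1 ≤ n' + 2; omega)
    (fun k hk => b8 k hk) (fun i hi k hk hik => ord' i hi k hk hik)
  have hQn : ∀ k ≤ n', ⌊Qr * J⌋₊ ≤ ⌊o (ix (n' + 2)) * J⌋₊ - ⌊o (ix (k + 1)) * J⌋₊ := by
    intro k hk
    have h1 := fl (n' + 1) (by omega)
    have h2 := fl (n' + 2) le_rfl
    have h3 : ⌊o (ix (k + 1)) * J⌋₊ ≤ ⌊o (ix (n' + 1)) * J⌋₊ := by
      rcases hk.lt_or_eq with h4 | h4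
      · have := ord' k hk n' le_rfl h4
        omega
      · rw [h4]
    have h4 : ((⌊Qr * J⌋₊ + ⌊o (ix (n' + 1)) * J⌋₊ : ℕ) : ℝ) ≤ ((⌊o (ix (n' + 2)) * J⌋₊ : ℕ) : ℝ) := by
      push_cast
      linarith
    have h5 : ⌊Qr * J⌋₊ + ⌊o (ix (n' + 1)) * J⌋₊ ≤ ⌊o (ix (n' + 2)) * J⌋₊ := by exact_mod_cast h4
    omega
  exact ⟨Ba, y, gx, θ', a1, a2, hBa0, a3, a4, frm,
    fun k hk => bll_q (a5 (k + 1) (by omega)) (hQn k hk)⟩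

end Pool.CRC82
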