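import Pool.Agent.H82.CRC.Cra
import Pool.Agent.H82.CRC.Crf

/-!
# The windows of the conic theorem at a record

`Wn`: the list of windows: `0, 1` the rows `t`, `t + q`; `2, 3` the windows of the frame; `4` its base;
`5` the closing window; `k + 6` the ball windows `- A + k / p` of the chain. `ixn`: the order.
-/

set_option autoImplicit false

namespace Pool.CRC82

open Finset Real MvPolynomial
open Pool.Agent.H49.Ent Pool.Agent.H32.Dense Pool.STK Pool.KA Pool.KSAT Pool.K2S Pool.PB Pool.S6C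
open Pool.GEN Pool.CHT Pool.CHX Pool.ISO Pool.D2R Pool.D2G30 Pool.V1E Pool.PKG
open Pool.LBT (ThrOf)
open Pool.AFF82 (IsW AfNN)

/-- The windows. -/
noncomputable def Wn (A p : ℕ) (g₂ : ℝ) : ℕ → ℝ
  | 0 => 0
  | 1 => 1
  | 2 => -(2 * A + 8)
  | 3 => 2 - g₂
  | 4 => -(A + 1)
  | 5 => 2
  | (k + 6) => -A + k / p

/-- The windows of the chain, in the list. -/
def cixn (A p k : ℕ) : ℕ := if k = A * p then 0 else if k = (A + 1) * p then 1 else k + 6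

/-- The frame and the chain, in the list. -/
def ixn (A p k : ℕ) : ℕ :=
  if k = 0 then 4 else if k = (A + 1) * p + 2 then 5 else cixn A p (k - 1)

section

variable {A p : ℕ} {g₂ : ℝ}

theorem Wn_cix (hp : 1 ≤ p) (k : ℕ) : Wn A p g₂ (cixn A p k) = -A + k / p := by
  have hp0 : (p : ℝ) ≠ 0 := by
    have : (1 : ℝ) ≤ p := by exact_mod_cast hp
    linarith
  unfold cixn
  split_ifs with h1 h2
  · rw [h1]
    show (0 : ℝ) = _
    push_cast
    field_simp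
    ring
  · rw [h2]
    show (1 : ℝ) = _
    push_cast
    field_simp
    ring
  · rfl

theorem ixn_zero : ixn A p 0 = 4 := rfl

theorem ixn_succ {k : ℕ} (hk : k ≤ (A + 1) * p) : ixn A p (k + 1) = cixn A p k := by
  unfold ixn
  rw [if_neg (by omega), if_neg (by omega)]
  rfl

theorem ixn_last : ixn A p ((A + 1) * p + 2) = 5 := by
  unfold ixn
  rw [if_neg (by omega), if_pos rfl]

theorem cixn_le {k : ℕ} (hk : k ≤ (A + 1) * p) : cixn A p k ≤ (A + 1) * p + 6 := by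
  unfold cixn
  split_ifs <;> omega

theorem ixn_le {k : ℕ} (hk : k ≤ (A + 1) * p + 2) : ixn A p k ≤ (A + 1) * p + 6 := by
  rcases Nat.eq_zero_or_pos k with h1 | h1
  · rw [h1, ixn_zero]
    omega
  · obtain ⟨j, rfl⟩ : ∃ j, k = j + 1 := ⟨k - 1, by omega⟩
    rcases Nat.lt_or_ge ((A + 1) * p) j with h2 | h2
    · rw [show j + 1 = (A + 1) * p + 2 by omega, ixn_last]
      omega
    · rw [ixn_succ h2]
      exact cixn_le h2

theorem cixn_t : cixn A p (A * p) = 0 := if_pos rfl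

theorem cixn_n (hp : 1 ≤ p) : cixn A p ((A + 1) * p) = 1 := by
  unfold cixn
  rw [if_neg (by
    have : (A + 1) * p = A * p + p := by ring
    omega), if_pos rfl]

/-- The windows of the chain lie between `-A` and `1`. -/
theorem ch_bd (hp : 1 ≤ p) {k : ℕ} (hk : k ≤ (A + 1) * p) :
    -(A : ℝ) ≤ -A + k / p ∧ -A + (k : ℝ) / p ≤ 1 := by
  have hp0 : (0 : ℝ) < p := by
    have : (1 : ℝ) ≤ p := by exact_mod_cast hp
    linarith
  have h1 : (0 : ℝ) ≤ (k : ℝ) / p := by positivity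
  have h2 : (k : ℝ) / p ≤ A + 1 := by
    rw [div_le_iff₀ hp0]
    exact_mod_cast hk
  constructor <;> linarith

/-- Every window of the frame and the chain. -/
theorem ixn_cases (hp : 1 ≤ p) {k : ℕ} (hk : k ≤ (A + 1) * p + 2) :
    Wn A p g₂ (ixn A p k) = -(A + 1) ∨ Wn A p g₂ (ixn A p k) = 2 ∨
      (-(A : ℝ) ≤ Wn A p g₂ (ixn A p k) ∧ Wn A p g₂ (ixn A p k) ≤ 1) := by
  rcases Nat.eq_zero_or_pos k with h1 | h1
  · exact Or.inl (by rw [h1]; rfl)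
  · obtain ⟨j, rfl⟩ : ∃ j, k = j + 1 := ⟨k - 1, by omega⟩
    rcases Nat.lt_or_ge ((A + 1) * p) j with h2 | h2
    · refine Or.inr (Or.inl ?_)
      rw [show j + 1 = (A + 1) * p + 2 by omega, ixn_last]
      rfl
    · refine Or.inr (Or.inr ?_)
      rw [ixn_succ h2, Wn_cix hp]
      exact ch_bd hp h2

theorem Wn_le (hp : 1 ≤ p) (hg : 0 ≤ g₂) {k : ℕ} (hk : k ≤ (A + 1) * p + 6)
    (hg1 : g₂ ≤ 1) : -(2 * (A : ℝ) + 8) ≤ Wn A p g₂ k ∧ Wn A p g₂ k ≤ 2 := by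
  have hA : (0 : ℝ) ≤ A := Nat.cast_nonneg A
  match k, hk with
  | 0, _ => exact ⟨by show _ ≤ (0 : ℝ); linarith, by show (0 : ℝ) ≤ 2; norm_num⟩
  | 1, _ => exact ⟨by show _ ≤ (1 : ℝ); linarith, by show (1 : ℝ) ≤ 2; norm_num⟩
  | 2, _ => exact ⟨le_rfl, by show -(2 * (A : ℝ) + 8) ≤ 2; linarith⟩
  | 3, _ => exact ⟨by show _ ≤ 2 - g₂; linarith, by show 2 - g₂ ≤ 2; linarith⟩
  | 4, _ => exact ⟨by show _ ≤ -((A : ℝ) + 1); linarith, by show -((A : ℝ) + 1) ≤ 2; linarith⟩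
  | 5, _ => exact ⟨by show _ ≤ (2 : ℝ); linarith, by show (2 : ℝ) ≤ 2; norm_num⟩
  | (j + 6), hj =>
    obtain ⟨h1, h2⟩ := ch_bd (A := A) hp (k := j) (by omega)
    exact ⟨by show _ ≤ -(A : ℝ) + j / p; linarith, by show -(A : ℝ) + j / p ≤ 2; linarith⟩

end

/-- **The numbers of the frame of the conic theorem** at a record. -/
theorem afnn_con {m : ℕ} {S : PCl m} {al : ℝ} {g₀ : ℝ → ℝ}
    {P : List (Fin m) × Fin m → ℝ → ℝ → ℝ} {θ : ℝ}
    {P₂ : ℕ → List (Fin m) × Fin m → ℝ → ℝ → ℝ} {θ₂ Eb e₂ : ℕ → ℝ} {c : ℕ → Fin m}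
    {Pt : ℝ → ℝ → ℝ} {rr : ℝ → ℝ} {h K₀ g : ℝ} {L T : ℕ → ℝ → ℝ → ℝ} {Sl : ℕ → ℝ}
    {κ : ℕ → Kg} {G : Set ℝ} {S₀ N : ℕ} {A' V : ℕ → ℝ} {S₂ N' : ℕ} {V' : ℕ → ℝ} {K ε q t : ℝ}
    (Rc : RecG S al g₀ P θ P₂ θ₂ Eb e₂ c Pt rr h K₀ g L T Sl κ G S₀ N A' V S₂ N' V' K ε q t)
    {r : ℕ} (hr : 2 ≤ r) (hrm : r < m) (hS1 : Sl 1 = 1) (hε : 0 ≤ ε) {C η : ℝ} (hC : 1 ≤ C)
    (hη : 0 ≤ η) {A p Ka : ℕ} {g₂ x₁ g₁ : ℝ} (hp : 1 ≤ p) (hg0 : 0 ≤ g₂) (hg1 : g₂ ≤ 1)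
    (hK : 2 * A + 12 ≤ K) (hcl : ∃ j < N', V' j = 2) (hη1 : η ≤ 1)
    (hx₁ : 4 * ε + (C + 1) * η < x₁) (hx1 : x₁ + η ≤ 1)
    (hQn : 2 * ε + (C + 1) * η < g₂) (hgn : g₂ + 2 * ε + η < g₁) (hs : Ka * (x₁ + g₁) < 1) :
    ∃ (aq : ℚ) (h' : ℝ), AfNN (P₂ r) c ((A + 1) * p + 2) 2 3 (ixn A p) (θ₂ r) C (Eb r) (η * q)
      (2 * ε * q) (x₁ * q) Ka (fun k => t + Wn A p g₂ k * q)
      (fun k l => lvN P c r (L r) l (t + Wn A p g₂ k * q) (t + Wn A p g₂ k * q)) aq (e₂ r)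
      h' (g₁ * q) := by
  have hA : (0 : ℝ) ≤ A := Nat.cast_nonneg A
  have hF : Wn A p g₂ 2 = -(2 * A + 8) := rfl
  have hQ : Wn A p g₂ 3 = 2 - g₂ := rfl
  have h0 : Wn A p g₂ (ixn A p 0) = -(A + 1) := rfl
  have hl : Wn A p g₂ (ixn A p ((A + 1) * p + 2)) = 2 := by
    rw [ixn_last]
    rfl
  refine afnn_rec Rc hr hrm hS1 hε hC hη (W := Wn A p g₂) (ix := ixn A p) (iF := 2) (iQ := 3)
    (fun i hi => ?_) (by rw [hl]; exact hcl) (by linarith) hx₁ hx1 (fun k hk => ?_) (by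
      rw [hF, hQ]
      linarith) (fun k hk => ?_) (fun k hk => ?_) (by rw [hl, hQ]; linarith) (by
      rw [hl, hQ]
      linarith) (by rw [hQ, h0]; linarith) (by rw [hQ, h0, hF]; linarith) (by
      rw [hQ, h0]
      linarith)
  · rcases hi with h1 | h1 | ⟨k, hk, h1⟩
    · rw [h1, hF]
      constructor <;> linarith
    · rw [h1, hQ]
      constructor <;> linarith
    · rw [h1]
      rcases ixn_cases (g₂ := g₂) hp hk with h2 | h2 | ⟨h2, h3⟩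
      · rw [h2]
        constructor <;> linarith
      · rw [h2]
        constructor <;> linarith
      · constructor <;> linarith
  · rw [hF]
    rcases ixn_cases (g₂ := g₂) hp hk with h2 | h2 | ⟨h2, h3⟩ <;> linarith
  · rw [h0]
    rcases ixn_cases (g₂ := g₂) hp hk with h2 | h2 | ⟨h2, h3⟩ <;> linarith
  · rw [hl]
    rcases ixn_cases (g₂ := g₂) hp hk with h2 | h2 | ⟨h2, h3⟩ <;> linarith

/-- **The numbers of the balls of the conic theorem.** -/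
theorem chm_con {A p : ℕ} {g₂ η x₁ q t : ℝ} (hp : 1 ≤ p) (hq : 0 < q) (hη : 0 < η)
    (hηp : η * p ≤ 1) (hx : 8 * x₁ < 1) :
    ChM ((A + 1) * p) (ixn A p) (η * q) (x₁ * q) (q / 2) (fun k => t + Wn A p g₂ k * q) where
  η0 := by positivity
  Q0 := by positivity
  ord := fun j hj k hk hjk => by
    show t + Wn A p g₂ (ixn A p (j + 1)) * q + η * q ≤ t + Wn A p g₂ (ixn A p (k + 1)) * q
    rw [ixn_succ hj, ixn_succ hk, Wn_cix hp, Wn_cix hp]
    have hp0 : (0 : ℝ) < p := by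
      have : (1 : ℝ) ≤ p := by exact_mod_cast hp
      linarith
    have h1 : η + (j : ℝ) / p ≤ k / p := by
      rw [← sub_nonneg, show (k : ℝ) / p - (η + j / p) = (k - j - η * p) / p by field_simp; ring]
      have h2 : (j : ℝ) + 1 ≤ k := by exact_mod_cast hjk
      exact div_nonneg (by linarith) hp0.le
    have h3 := mul_le_mul_of_nonneg_right h1 hq.le
    linarith
  bas := by
    show t + Wn A p g₂ (ixn A p 0) * q + 8 * (x₁ * q) < t + Wn A p g₂ (ixn A p (0 + 1)) * q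
    rw [ixn_zero, ixn_succ (Nat.zero_le _), Wn_cix hp]
    have h1 : Wn A p g₂ 4 = -(A + 1) := rfl
    rw [h1]
    have h2 := mul_lt_mul_of_pos_right hx hq
    push_cast
    rw [zero_div]
    linarith
  clo := by
    show t + Wn A p g₂ (ixn A p ((A + 1) * p + 1)) * q + q / 2 <
      t + Wn A p g₂ (ixn A p ((A + 1) * p + 2)) * q
    rw [ixn_last, ixn_succ le_rfl, cixn_n hp]
    have h1 : Wn A p g₂ 5 = 2 := rfl
    have h2 : Wn A p g₂ 1 = 1 := rfl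
    rw [h1, h2]
    linarith

end Pool.CRC82
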