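import Pool.Agent.H78.CNC.Sno
import Pool.Agent.H57.AVG.Hi
import Pool.Agent.H74.STAT.NGrad

/-!
# A drop of the level, for ball charts of any exponent

`grd_dil`: the gradient of a polynomial which is small on a natural box. `lab_of_ball2`: the thin label
from a closed polynomial near the ball chart, its gradient from the thin chain.
-/

set_option autoImplicit false

namespace Pool.CRC82

open Finset Real MvPolynomial
open Pool.Agent.H49.Ent Pool.Agent.H32.Dense Pool.STK Pool.KA Pool.KSAT Pool.K2S Pool.PB Pool.S6C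
open Pool.GEN Pool.CHT Pool.CHX Pool.ISO Pool.D2R
open Pool.NLB46 (Lab)
open Pool.STAT.NL (hasDerivAt_upd)
open Pool.AVG57 (nbx_lipd)

/-- **The gradient** of a polynomial which is small on a natural box. -/
theorem grd_dil (r : ℕ) (K : ℕ → ℕ) : ∃ c₀ D₁ : ℕ, 1 ≤ D₁ ∧ ∀ {m : ℕ} {c : ℕ → Fin m} {i : ℕ}
    {G : ℕ → MvPolynomial (Option (Fin m)) ℝ} {Q : MvPolynomial (Option (Fin m)) ℝ}
    {g : ℕ → ℕ} {a e : ℕ} {t M : ℝ} (n : ℕ), i < r → Set.InjOn c (Set.Iio i) →
    (∀ l, (G l).totalDegree ≤ K l) → (∀ l, DepC c l (G l)) → DepC c i Q →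
    Q.totalDegree ≤ K i → 0 ≤ M → (∀ b, NBx c G g a t i b → |eval b Q| ≤ M) →
    ∀ x : Option (Fin m) → ℝ, |x none - t| ≤ 1 / 2 ^ a →
      (∀ l < i, |x (some (c l)) - eval x (G l)| ≤ 2 ^ n / 2 ^ g l) →
      (∀ j < i, ∀ l < j, |eval x (pderiv (some (c l)) (G j))| ≤ 2 ^ (e + nlp g l j)) →
      ∀ l < i, |eval x (pderiv (some (c l)) Q)| ≤
        2 ^ (c₀ + n * D₁) * M * 2 ^ (e + (Finset.Icc l (i - 1)).sup g) := by
  classical
  obtain ⟨c₀, D₁, hD₁, hlip⟩ := nbx_lipd r K
  refine ⟨c₀ + 1, D₁, hD₁, ?_⟩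
  intro m c i G Q g a e t M n hi hc hdeg hdep hQ hQd hM hbox x hx0 hx hgr l hl
  obtain ⟨S, hS⟩ : ∃ S, S = (Finset.Icc l (i - 1)).sup g := ⟨_, rfl⟩
  rw [← hS]
  have hSg : ∀ j, l ≤ j → j < i → g j ≤ S := fun j h1 h2 => by
    rw [hS]
    exact Finset.le_sup (f := g) (Finset.mem_Icc.2 ⟨h1, by omega⟩)
  have hSn : ∀ j, l < j → j < i → nlp g l j + g j ≤ S := fun j h1 h2 => by
    unfold nlp
    have h3 : (Finset.Icc l j).sup g ≤ S := Finset.sup_le fun k hk => by
      obtain ⟨h4, h5⟩ := Finset.mem_Icc.1 hk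
      exact hSg k h4 (by omega)
    have h6 : g j ≤ (Finset.Icc l j).sup g :=
      Finset.le_sup (f := g) (Finset.mem_Icc.2 ⟨h1.le, le_rfl⟩)
    omega
  obtain ⟨s₀, hs₀⟩ : ∃ s₀, s₀ = x (some (c l)) := ⟨_, rfl⟩
  have hxs : Function.update x (some (c l)) s₀ = x := by
    rw [hs₀]
    exact Function.update_eq_self _ _
  have hd := hasDerivAt_upd Q x (some (c l)) s₀
  rw [hxs] at hd
  obtain ⟨A, hA⟩ : ∃ A : ℝ, A = 2 * 2 ^ (e + S) / 2 ^ n := ⟨_, rfl⟩
  have hA0 : 0 < A := by rw [hA]; positivity
  -- the labels of the chain move slowly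
  have hmv : ∀ j, l < j → j < i → ∀ᶠ s in nhds s₀,
      |eval (Function.update x (some (c l)) s) (G j) - eval x (G j)| ≤
        2 * 2 ^ (e + nlp g l j) * |s - s₀| := by
    intro j h1 h2
    have h3 := hasDerivAt_upd (G j) x (some (c l)) s₀
    rw [hxs] at h3
    have h4 := h3.isLittleO.def (c := 2 ^ (e + nlp g l j)) (by positivity)
    filter_upwards [h4] with s hs
    rw [Real.norm_eq_abs, Real.norm_eq_abs, smul_eq_mul, hxs] at hs
    have h5 := hgr j h2 l h1
    have h6 : |(s - s₀) * eval x (pderiv (some (c l)) (G j))| ≤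
        2 ^ (e + nlp g l j) * |s - s₀| := by
      rw [abs_mul, mul_comm]
      exact mul_le_mul_of_nonneg_right h5 (abs_nonneg _)
    have h7 : eval (Function.update x (some (c l)) s) (G j) - eval x (G j) =
        (eval (Function.update x (some (c l)) s) (G j) - eval x (G j) -
          (s - s₀) * eval x (pderiv (some (c l)) (G j))) +
          (s - s₀) * eval x (pderiv (some (c l)) (G j)) := by ring
    rw [h7]
    refine (abs_add_le _ _).trans ?_
    linarith
  have hmv' : ∀ᶠ s in nhds s₀, ∀ j ∈ Finset.range i, l < j →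
      |eval (Function.update x (some (c l)) s) (G j) - eval x (G j)| ≤
        2 * 2 ^ (e + nlp g l j) * |s - s₀| := by
    rw [Filter.eventually_all_finset]
    intro j hj
    by_cases h1 : l < j
    · filter_upwards [hmv j h1 (Finset.mem_range.1 hj)] with s hs _
      exact hs
    · exact Filter.Eventually.of_forall fun s h2 => absurd h2 h1
  have hsm : ∀ᶠ s in nhds s₀, A * |s - s₀| ≤ 1 := by
    have h1 : Filter.Tendsto (fun s : ℝ => A * |s - s₀|) (nhds s₀) (nhds (A * |s₀ - s₀|)) := by
      exact (Continuous.tendsto (by fun_prop) s₀)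
    rw [sub_self, abs_zero, mul_zero] at h1
    filter_upwards [h1.eventually (gt_mem_nhds one_pos)] with s hs
    exact hs.le
  have key := hd.le_of_lip' (C := 2 ^ (c₀ + n * D₁) * M * A) (by positivity) (by
    filter_upwards [hmv', hsm] with s h1 h2
    rw [Real.norm_eq_abs, Real.norm_eq_abs, hxs]
    rcases eq_or_ne s s₀ with h3 | h3
    · rw [h3, hxs, sub_self, abs_zero, sub_self, abs_zero, mul_zero]
    have h4 : 0 < |s - s₀| := abs_pos.2 (sub_ne_zero.2 h3)
    have h5 := hlip (G := G) (Q := Q) (g := g) (a := a) (t := t) (M := M) (ρ := A * |s - s₀|) n hi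
      hc hdeg hdep hQ hQd hM (by positivity) h2 hbox x (Function.update x (some (c l)) s)
      (by rw [Function.update_of_ne (by simp)]) hx0 hx (fun j hj => ?_)
    · refine h5.trans (le_of_eq ?_)
      ring
    · rcases lt_trichotomy j l with h6 | h6 | h6
      · have h7 : c j ≠ c l := fun h => by
          have := hc (show j < i by omega) (show l < i from hl) h
          omega
        have h8 : some (c j) ≠ some (c l) := fun h => h7 (Option.some_injective _ h)
        have h9 : eval (Function.update x (some (c l)) s) (G j) = eval x (G j) := by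
          refine hdep j _ _ (by rw [Function.update_of_ne (by simp)]) fun k hk => ?_
          have : c k ≠ c l := fun h => by
            have := hc (show k < i by omega) (show l < i from hl) h
            omega
          rw [Function.update_of_ne fun h => this (Option.some_injective _ h)]
        rw [Function.update_of_ne h8, h9, sub_self, abs_zero]
        positivity
      · subst h6
        have h9 : eval (Function.update x (some (c j)) s) (G j) = eval x (G j) := by
          refine hdep j _ _ (by rw [Function.update_of_ne (by simp)]) fun k hk => ?_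
          have : c k ≠ c j := fun h => by
            have := hc (show k < i by omega) (show j < i from hl) h
            omega
          rw [Function.update_of_ne fun h => this (Option.some_injective _ h)]
        rw [Function.update_self, h9]
        have e1 : s - eval x (G j) - (x (some (c j)) - eval x (G j)) = s - s₀ := by
          rw [hs₀]
          ring
        rw [e1, hA]
        have e2 : 2 * 2 ^ (e + S) / 2 ^ n * |s - s₀| * (2 ^ n / 2 ^ g j) =
            2 * 2 ^ (e + S) / 2 ^ g j * |s - s₀| := by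
          field_simp
        rw [e2]
        refine le_mul_of_one_le_left (abs_nonneg _) ?_
        rw [one_le_div (by positivity)]
        have e3 : (2 : ℝ) ^ g j ≤ 2 ^ (e + S) := pow_le_pow_right₀ (by norm_num) (by
          have := hSg j le_rfl hl
          omega)
        have e4 : (0 : ℝ) < 2 ^ (e + S) := by positivity
        linarith
      · have h7 : c j ≠ c l := fun h => by
          have := hc (show j < i from hj) (show l < i from hl) h
          omega
        have h8 : some (c j) ≠ some (c l) := fun h => h7 (Option.some_injective _ h)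
        rw [Function.update_of_ne h8]
        have e1 : x (some (c j)) - eval (Function.update x (some (c l)) s) (G j) -
            (x (some (c j)) - eval x (G j)) =
            -(eval (Function.update x (some (c l)) s) (G j) - eval x (G j)) := by ring
        rw [e1, abs_neg]
        refine (h1 j (Finset.mem_range.2 hj) h6).trans ?_
        rw [hA]
        have e2 : 2 * 2 ^ (e + S) / 2 ^ n * |s - s₀| * (2 ^ n / 2 ^ g j) =
            2 * 2 ^ (e + S) / 2 ^ g j * |s - s₀| := by
          field_simp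
        rw [e2]
        refine mul_le_mul_of_nonneg_right ?_ (abs_nonneg _)
        rw [le_div_iff₀ (by positivity), mul_assoc, ← pow_add]
        refine mul_le_mul_of_nonneg_left (pow_le_pow_right₀ (by norm_num) ?_) (by norm_num)
        have := hSn j h6 hj
        omega)
  rw [Real.norm_eq_abs] at key
  refine key.trans ?_
  have e1 : (2 : ℝ) ^ (c₀ + n * D₁) * M * A ≤ 2 ^ (c₀ + n * D₁) * M * (2 * 2 ^ (e + S)) := by
    refine mul_le_mul_of_nonneg_left ?_ (by positivity)
    rw [hA]
    exact div_le_self (by positivity) (one_le_pow₀ (by norm_num))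
  refine e1.trans (le_of_eq ?_)
  rw [show c₀ + 1 + n * D₁ = c₀ + n * D₁ + 1 by ring, pow_succ]
  ring

/-- **A thin label from a closed polynomial near the ball chart**, the gradient from the thin chain. -/
theorem lab_of_ball2 (D D' r : ℕ) : ∃ C : ℕ, ∀ {m J : ℕ} {F : Fam m J} {c : ℕ → Fin m}
    {a w e eT e₁ u x v p h : ℕ} {g gT : ℕ → ℕ} {B : F.Ω → Prop}
    {T G : PtT F → ℕ → MvPolynomial (Option (Fin m)) ℝ}
    {H TH : LnT F → ℕ → MvPolynomial (Option (Fin m)) ℝ}
    {Ht : LnT F → MvPolynomial (Option (Fin m)) ℝ}, Set.InjOn c (Set.Iio r) →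
    ChOK F c (r + 1) (fun _ => D) a a e g B G H →
    ChOK F c (r + 1) (fun _ => D) a w eT gT B T TH → (∀ s, (Ht s).totalDegree ≤ D') →
    (∀ s, DepC c r (Ht s)) →
    (∀ ω, B ω → ∀ b, NBx c (T (ptr F J ω)) gT a (F.t ω) r b → ∀ j < r,
      |b (some (c j)) - eval b (G (ptr F J ω) j)| ≤ 2 ^ u / 2 ^ g j) →
    (∀ ω, B ω → ∀ b, NBx c (G (ptr F J ω)) g a (F.t ω) r b →
      |eval b (T (ptr F J ω) r) - eval b (G (ptr F J ω) r)| ≤ 2 ^ h / 2 ^ gT r) →
    (∀ ω, B ω → ∀ b, NBx c (G (ptr F J ω)) g a (F.t ω) r b →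
      |eval b (G (ptr F J ω) r) - eval b (Ht (slam F w ω))| ≤ 2 ^ x / 2 ^ g r) →
    (∀ l < r, g l ≤ gT l + v) → p + C * (u + x + 1) ≤ g r →
    eT + C * (u + h + 1) + (p - gT r) ≤ e₁ →
    Lab F c r (max D D') a w e₁ p gT T B (fun y => G y r) Ht := by
  obtain ⟨c₀, D₁, hD₁, hdil⟩ := nbx_dil (r + 1) (fun _ => max D D')
  obtain ⟨c₂, D₂, hD₂, hgrd⟩ := grd_dil (r + 1) (fun _ => max D D')
  refine ⟨c₀ + D₁ + c₂ + 2, ?_⟩
  intro m J F c a w e eT e₁ u x v p h g gT B T G H TH Ht hc hG hT hdH hpH hinc hTG hnear hg hp he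
  have hC : c₀ + u * D₁ + x ≤ (c₀ + D₁ + c₂ + 2) * (u + x + 1) := by nlinarith
  have hC' : c₀ + u * D₁ + h + c₂ + 1 ≤ (c₀ + D₁ + c₂ + 2) * (u + h + 1) := by nlinarith
  have dil : ∀ (ω : F.Ω) (Q : MvPolynomial (Option (Fin m)) ℝ) (M : ℝ), B ω → DepC c r Q →
      Q.totalDegree ≤ max D D' → 0 ≤ M →
      (∀ b, NBx c (G (ptr F J ω)) g a (F.t ω) r b → |eval b Q| ≤ M) →
      ∀ b, NBx c (T (ptr F J ω)) gT a (F.t ω) r b → |eval b Q| ≤ 2 ^ (c₀ + u * D₁) * M := by
    intro ω Q M hω hQ hQd hM hQM b hb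
    exact hdil u (Nat.lt_succ_self r) hc (fun l => (hG.degG _ l).trans (le_max_left _ _))
      (hG.depG _) hQ hQd hM hQM b hb.1 (hinc ω hω b hb)
  refine ⟨fun y => (hG.degG y r).trans (le_max_left _ _), fun s => (hdH s).trans
    (le_max_right _ _), fun y => hG.depG y r, hpH, fun ω hω => ?_, fun ω hω b hb => ?_,
    fun ω hω b hb l hl => ?_⟩
  · refine (hG.pos ω hω r (Nat.lt_succ_self r)).trans (inv_mono ?_)
    omega
  · have h1 := dil ω (G (ptr F J ω) r - Ht (slam F w ω)) (2 ^ x / 2 ^ g r) hω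
      (fun b b' e1 e2 => by
        rw [map_sub, map_sub, hG.depG _ r b b' e1 e2, hpH _ b b' e1 e2])
      ((totalDegree_sub _ _).trans (max_le ((hG.degG _ r).trans (le_max_left _ _))
        ((hdH _).trans (le_max_right _ _)))) (by positivity)
      (fun b hb => by rw [map_sub]; exact hnear ω hω b hb) b hb
    rw [map_sub] at h1
    refine h1.trans ?_
    rw [← mul_div_assoc, ← pow_add, div_le_div_iff₀ (by positivity) (by positivity), one_mul,
      ← pow_add]
    exact pow_le_pow_right₀ (by norm_num) (by omega)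
  · -- the gradient, from the thin chain
    obtain ⟨S, hS⟩ : ∃ S, S = (Finset.Icc l (r - 1)).sup gT := ⟨_, rfl⟩
    have hTl := hT.lip ω hω r (Nat.lt_succ_self r) b hb l hl
    have hQd : (G (ptr F J ω) r - T (ptr F J ω) r).totalDegree ≤ max D D' :=
      (totalDegree_sub _ _).trans (max_le ((hG.degG _ r).trans (le_max_left _ _))
        ((hT.degG _ r).trans (le_max_left _ _)))
    have hQp : DepC c r (G (ptr F J ω) r - T (ptr F J ω) r) := fun b b' e1 e2 => by
      rw [map_sub, map_sub, hG.depG _ r b b' e1 e2, hT.depG _ r b b' e1 e2]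
    have h1 := dil ω (G (ptr F J ω) r - T (ptr F J ω) r) (2 ^ h / 2 ^ gT r) hω hQp hQd
      (by positivity) (fun b hb => by
        rw [map_sub, abs_sub_comm]
        exact hTG ω hω b hb)
    have h2 := hgrd (G := T (ptr F J ω)) (Q := G (ptr F J ω) r - T (ptr F J ω) r) (g := gT)
      (a := a) (e := eT) (t := F.t ω) 0 (Nat.lt_succ_self r) hc
      (fun l => (hT.degG _ l).trans (le_max_left _ _)) (hT.depG _) hQp hQd (by positivity) h1 b
      hb.1 (fun j hj => by
        rw [pow_zero]
        exact hb.2 j hj) (fun j hj k hk =>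
        hT.lip ω hω j (by omega) b (hb.mono le_rfl hj.le) k hk) l hl
    rw [← hS, map_sub, map_sub, zero_mul, add_zero] at h2
    have h3 : eval b (pderiv (some (c l)) (G (ptr F J ω) r)) =
        eval b (pderiv (some (c l)) (T (ptr F J ω) r)) +
        (eval b (pderiv (some (c l)) (G (ptr F J ω) r)) -
          eval b (pderiv (some (c l)) (T (ptr F J ω) r))) := by ring
    have hnT : nlp gT l r = max S (gT r) - gT r := by
      unfold nlp
      congr 1
      rw [hS]
      refine le_antisymm (Finset.sup_le fun j hj => ?_) (max_le ?_ ?_)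
      · obtain ⟨h4, h5⟩ := Finset.mem_Icc.1 hj
        rcases Nat.lt_or_ge j r with h6 | h6
        · exact (Finset.le_sup (f := gT) (Finset.mem_Icc.2 ⟨h4, by omega⟩)).trans
            (le_max_left _ _)
        · rw [show j = r by omega]
          exact le_max_right _ _
      · exact Finset.sup_le fun j hj => by
          obtain ⟨h4, h5⟩ := Finset.mem_Icc.1 hj
          exact Finset.le_sup (f := gT) (Finset.mem_Icc.2 ⟨h4, by omega⟩)
      · exact Finset.le_sup (f := gT) (Finset.mem_Icc.2 ⟨hl.le, le_rfl⟩)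
    have hnp : nlp (fun j => if j < r then gT j else p) l r = max S p - p := by
      unfold nlp
      simp only [lt_irrefl, if_false]
      congr 1
      rw [hS]
      refine le_antisymm (Finset.sup_le fun j hj => ?_) (max_le ?_ ?_)
      · obtain ⟨h4, h5⟩ := Finset.mem_Icc.1 hj
        rcases Nat.lt_or_ge j r with h6 | h6
        · simp only [if_pos h6]
          exact (Finset.le_sup (f := gT) (Finset.mem_Icc.2 ⟨h4, by omega⟩)).trans
            (le_max_left _ _)
        · rw [show j = r by omega, if_neg (lt_irrefl r)]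
          exact le_max_right _ _
      · refine Finset.sup_le fun j hj => ?_
        obtain ⟨h4, h5⟩ := Finset.mem_Icc.1 hj
        have h6 := Finset.le_sup (f := fun j => if j < r then gT j else p)
          (Finset.mem_Icc.2 ⟨h4, by omega⟩ : j ∈ Finset.Icc l r)
        simp only [if_pos (show j < r by omega)] at h6
        exact h6
      · have h6 := Finset.le_sup (f := fun j => if j < r then gT j else p)
          (Finset.mem_Icc.2 ⟨hl.le, le_rfl⟩ : r ∈ Finset.Icc l r)
        simp only [lt_irrefl, if_false] at h6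
        exact h6
    rw [h3, hnp]
    refine (abs_add_le _ _).trans ((add_le_add hTl h2).trans ?_)
    have h4 : (2 : ℝ) ^ (eT + nlp gT l r) ≤ 2 ^ (eT + (c₀ + u * D₁ + h + c₂) + (S - gT r)) :=
      pow_le_pow_right₀ (by norm_num) (by rw [hnT]; omega)
    have h5 : (2 : ℝ) ^ c₂ * (2 ^ (c₀ + u * D₁) * (2 ^ h / 2 ^ gT r)) * 2 ^ (eT + S) ≤
        2 ^ (eT + (c₀ + u * D₁ + h + c₂) + (S - gT r)) := by
      have e1 : (2 : ℝ) ^ c₂ * (2 ^ (c₀ + u * D₁) * (2 ^ h / 2 ^ gT r)) * 2 ^ (eT + S) =
          2 ^ (c₂ + (c₀ + u * D₁) + h + (eT + S)) / 2 ^ gT r := by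
        rw [pow_add _ (c₂ + (c₀ + u * D₁) + h), pow_add _ (c₂ + (c₀ + u * D₁)), pow_add _ c₂]
        ring
      rw [e1, div_le_iff₀ (by positivity), ← pow_add]
      exact pow_le_pow_right₀ (by norm_num) (by omega)
    calc (2 : ℝ) ^ (eT + nlp gT l r) + 2 ^ c₂ * (2 ^ (c₀ + u * D₁) * (2 ^ h / 2 ^ gT r)) *
          2 ^ (eT + S) ≤ 2 ^ (eT + (c₀ + u * D₁ + h + c₂) + (S - gT r) + 1) := by
          rw [pow_succ]
          linarith
      _ ≤ _ := pow_le_pow_right₀ (by norm_num) (by omega)

end Pool.CRC82
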